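import Pool.Agent.Lib.MP_721eb4_an.UB.Defs

/-! Upper bound for the complex Grothendieck constant: module Real1 -/

set_option autoImplicit false

open MeasureTheory Complex Set GLB
open scoped ComplexConjugate

namespace GUB

theorem Real1_inner (d : ℕ) (X Y g : E d) (a b : ℂ) :
    inner ℝ (inner ℂ X g : ℂ) a + inner ℝ (inner ℂ Y g : ℂ) b = inner ℝ g (a • X + b • Y) := by
  have h1 : ∀ v : E d, inner ℝ g v = (inner ℂ g v : ℂ).re := by
    intro v
    rw [PiLp.inner_apply, PiLp.inner_apply, Complex.re_sum]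
    refine Finset.sum_congr rfl fun i _ => ?_
    rw [Complex.inner, RCLike.inner_apply, mul_comm]
  rw [h1, inner_add_right, inner_smul_right, inner_smul_right, Complex.inner, Complex.inner,
    inner_conj_symm, inner_conj_symm, ← Complex.add_re]

theorem Real1_norm (d : ℕ) (X Y : E d) (hX : ‖X‖ = 1) (hY : ‖Y‖ = 1) (a b : ℂ) :
    ‖a • X + b • Y‖ ^ 2 = ‖a + (inner ℂ X Y : ℂ) * b‖ ^ 2 +
      ‖((√(1 - ‖(inner ℂ X Y : ℂ)‖ ^ 2) : ℝ) : ℂ) * b‖ ^ 2 := by
  set c : ℂ := inner ℂ X Y with hc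
  have hcle : ‖c‖ ≤ 1 := by
    have := norm_inner_le_norm (𝕜 := ℂ) X Y
    rw [hX, hY, mul_one] at this
    exact this
  have hs2 : √(1 - ‖c‖ ^ 2) ^ 2 = 1 - ‖c‖ ^ 2 :=
    Real.sq_sqrt (by nlinarith [norm_nonneg c])
  have h1 : ‖a • X + b • Y‖ ^ 2 = ‖a‖ ^ 2 + 2 * (conj a * b * c).re + ‖b‖ ^ 2 := by
    rw [norm_add_sq (𝕜 := ℂ), norm_smul, norm_smul, hX, hY, mul_one, mul_one, inner_smul_left,
      inner_smul_right, ← mul_assoc]
    rfl
  rw [h1, norm_mul, mul_pow, Complex.norm_real, Real.norm_eq_abs, sq_abs, hs2]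
  rw [Complex.sq_norm, Complex.sq_norm, Complex.sq_norm, Complex.sq_norm]
  simp only [Complex.normSq_apply, Complex.add_re, Complex.add_im, Complex.mul_re,
    Complex.mul_im, Complex.conj_re, Complex.conj_im]
  ring

theorem law1 (d : ℕ) (X Y : E d) (hX : ‖X‖ = 1) (hY : ‖Y‖ = 1) :
    (G d).map (fun g : E d => ((inner ℂ X g : ℂ), (inner ℂ Y g : ℂ)))
      = (cg.prod cg).map (fun p : ℂ × ℂ =>
          (p.1, conj (inner ℂ X Y : ℂ) * p.1
            + ((√(1 - ‖(inner ℂ X Y : ℂ)‖ ^ 2) : ℝ) : ℂ) * p.2)) := by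
  have hnorm := Real1_norm d X Y hX hY
  set c : ℂ := inner ℂ X Y with hc
  set s : ℝ := √(1 - ‖c‖ ^ 2) with hs
  have hm1 : Measurable (fun g : E d => ((inner ℂ X g : ℂ), (inner ℂ Y g : ℂ))) :=
    Continuous.measurable (by fun_prop)
  have hm2 : Measurable (fun p : ℂ × ℂ => (p.1, conj c * p.1 + (s : ℂ) * p.2)) :=
    Continuous.measurable (by fun_prop)
  have hcgp : IsProbabilityMeasure cg := by
    have h1 : (G 1).map (fun z : E 1 => z 0) = cg := (measurePreserving_coord 1 0).map_eq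
    rw [← h1]
    exact Measure.isProbabilityMeasure_map (measurePreserving_coord 1 0).measurable.aemeasurable
  have hp1 := Measure.isProbabilityMeasure_map (μ := G d) hm1.aemeasurable
  have hp2 := Measure.isProbabilityMeasure_map (μ := cg.prod cg) hm2.aemeasurable
  apply Measure.ext_of_charFunDual
  funext L
  obtain ⟨a, ha⟩ : ∃ a : ℂ, ∀ z, L (z, 0) = inner ℝ z a := by
    refine ⟨(InnerProductSpace.toDual ℝ ℂ).symm (L.comp (ContinuousLinearMap.inl ℝ ℂ ℂ)),
      fun z => ?_⟩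
    rw [real_inner_comm, InnerProductSpace.toDual_symm_apply]
    rfl
  obtain ⟨b, hb⟩ : ∃ b : ℂ, ∀ z, L (0, z) = inner ℝ z b := by
    refine ⟨(InnerProductSpace.toDual ℝ ℂ).symm (L.comp (ContinuousLinearMap.inr ℝ ℂ ℂ)),
      fun z => ?_⟩
    rw [real_inner_comm, InnerProductSpace.toDual_symm_apply]
    rfl
  have hL : ∀ z w, L (z, w) = inner ℝ z a + inner ℝ w b := by
    intro z w
    rw [← ha, ← hb, ← map_add, Prod.mk_add_mk, add_zero, zero_add]
  have h1 : charFunDual ((G d).map (fun g : E d => ((inner ℂ X g : ℂ), (inner ℂ Y g : ℂ)))) L =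
      charFun (G d) (a • X + b • Y) := by
    rw [charFunDual_apply, charFun_apply, integral_map hm1.aemeasurable
      (Continuous.aestronglyMeasurable (by fun_prop))]
    refine integral_congr_ae (Filter.Eventually.of_forall fun g => ?_)
    show exp ((L (inner ℂ X g, inner ℂ Y g) : ℝ) * I) = exp ((inner ℝ g (a • X + b • Y) : ℝ) * I)
    rw [hL, Real1_inner]
  have h2 : charFunDual ((cg.prod cg).map (fun p : ℂ × ℂ => (p.1, conj c * p.1 + (s : ℂ) * p.2)))
      L = charFun cg (a + c * b) * charFun cg ((s : ℂ) * b) := by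
    rw [charFunDual_apply, charFun_apply, charFun_apply, integral_map hm2.aemeasurable
      (Continuous.aestronglyMeasurable (by fun_prop)), ← integral_prod_mul]
    refine integral_congr_ae (Filter.Eventually.of_forall fun p => ?_)
    show exp ((L (p.1, conj c * p.1 + (s : ℂ) * p.2) : ℝ) * I) =
      exp ((inner ℝ p.1 (a + c * b) : ℝ) * I) * exp ((inner ℝ p.2 ((s : ℂ) * b) : ℝ) * I)
    rw [hL, ← Complex.exp_add, ← add_mul, ← Complex.ofReal_add]
    congr 3
    rw [Complex.inner, Complex.inner, Complex.inner, Complex.inner, ← Complex.add_re,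
      ← Complex.add_re]
    congr 1
    simp only [map_add, map_mul, Complex.conj_conj, Complex.conj_ofReal]
    ring
  rw [h1, h2, charFun_G, charFun_cg, charFun_cg, ← Complex.exp_add]
  congr 1
  have h3 := hnorm a b
  have h4 : ((‖a • X + b • Y‖ : ℝ) : ℂ) ^ 2 = ((‖a + c * b‖ : ℝ) : ℂ) ^ 2 +
      ((‖(s : ℂ) * b‖ : ℝ) : ℂ) ^ 2 := by
    exact_mod_cast h3
  rw [h4]
  ring

end GUB
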