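import Pool.Agent.Lib.MP_721eb4_an.UB.Defs
import Pool.Agent.Lib.MP_721eb4_an.UB.Real1

/-! Upper bound for the complex Grothendieck constant: module Real2 -/

set_option autoImplicit false

open MeasureTheory Complex Set GLB
open scoped ComplexConjugate

namespace GUB

theorem Real2_cgprob : IsProbabilityMeasure cg := by
  have h1 : (G 1).map (fun z : E 1 => z 0) = cg := (measurePreserving_coord 1 0).map_eq
  rw [← h1]
  exact Measure.isProbabilityMeasure_map (measurePreserving_coord 1 0).measurable.aemeasurable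

theorem corr_eq {n : ℕ} (d : Fin n → ℕ) (X Y : ∀ j, E (d j)) (hX : ∀ j, ‖X j‖ = 1)
    (hY : ∀ j, ‖Y j‖ = 1) (F H : (Fin n → ℂ) → ℂ) (hF : Measurable F) (hH : Measurable H) :
    ∫ g : (∀ j, E (d j)), F (fun j => inner ℂ (X j) (g j)) * conj (H (fun j => inner ℂ (Y j) (g j)))
        ∂(Measure.pi (fun j => G (d j)))
      = corr F H (fun j => inner ℂ (X j) (Y j)) := by
  have := Real2_cgprob
  -- the function on pairs
  let Φ : (Fin n → ℂ × ℂ) → ℂ := fun q => F (fun j => (q j).1) * conj (H (fun j => (q j).2))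
  have hΦ : Measurable Φ := by
    refine (hF.comp ?_).mul (Complex.continuous_conj.measurable.comp (hH.comp ?_))
    · exact measurable_pi_iff.mpr fun j => (measurable_pi_apply j).fst
    · exact measurable_pi_iff.mpr fun j => (measurable_pi_apply j).snd
  let L : ∀ j, E (d j) → ℂ × ℂ := fun j g => (inner ℂ (X j) g, inner ℂ (Y j) g)
  let T : Fin n → ℂ × ℂ → ℂ × ℂ := fun j p => (p.1, conj (inner ℂ (X j) (Y j) : ℂ) * p.1
            + ((√(1 - ‖(inner ℂ (X j) (Y j) : ℂ)‖ ^ 2) : ℝ) : ℂ) * p.2)
  have hL : ∀ j, Measurable (L j) := fun j => Continuous.measurable (by fun_prop)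
  have hT : ∀ j, Measurable (T j) := fun j => Continuous.measurable (by fun_prop)
  have hLT : ∀ j, (G (d j)).map (L j) = (cg.prod cg).map (T j) := fun j =>
    law1 (d j) (X j) (Y j) (hX j) (hY j)
  have hLm : Measurable (fun (g : ∀ j, E (d j)) (j : Fin n) => L j (g j)) :=
    measurable_pi_iff.mpr fun j => (hL j).comp (measurable_pi_apply j)
  have hTm : Measurable (fun (q : Fin n → ℂ × ℂ) (j : Fin n) => T j (q j)) :=
    measurable_pi_iff.mpr fun j => (hT j).comp (measurable_pi_apply j)
  have hp1 : ∀ j, IsProbabilityMeasure ((G (d j)).map (L j)) := fun j =>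
    Measure.isProbabilityMeasure_map (hL j).aemeasurable
  have hp2 : ∀ j, IsProbabilityMeasure ((cg.prod cg).map (T j)) := fun j =>
    Measure.isProbabilityMeasure_map (hT j).aemeasurable
  have e1 : ∫ g : (∀ j, E (d j)), F (fun j => inner ℂ (X j) (g j)) *
      conj (H (fun j => inner ℂ (Y j) (g j))) ∂(Measure.pi (fun j => G (d j))) =
      ∫ q, Φ q ∂(Measure.pi (fun j => (G (d j)).map (L j))) := by
    rw [← Measure.pi_map_pi (fun j => (hL j).aemeasurable),
      integral_map hLm.aemeasurable hΦ.aestronglyMeasurable]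
  have e2 : ∫ q, Φ q ∂(Measure.pi (fun j => (G (d j)).map (L j))) =
      ∫ q : Fin n → ℂ × ℂ, Φ (fun j => T j (q j)) ∂(Measure.pi (fun _ => cg.prod cg)) := by
    have h3 : (fun j => (G (d j)).map (L j)) = fun j => (cg.prod cg).map (T j) := funext hLT
    rw [h3, ← Measure.pi_map_pi (fun j => (hT j).aemeasurable),
      integral_map hTm.aemeasurable hΦ.aestronglyMeasurable]
  have e3 : ∫ q : Fin n → ℂ × ℂ, Φ (fun j => T j (q j)) ∂(Measure.pi (fun _ => cg.prod cg)) =
      corr F H (fun j => inner ℂ (X j) (Y j)) := by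
    have h4 := measurePreserving_arrowProdEquivProdArrow ℂ ℂ (Fin n) (fun _ => cg) (fun _ => cg)
    have h5 := h4.integral_comp' (g := fun p : (Fin n → ℂ) × (Fin n → ℂ) =>
      F p.1 * conj (H (part (fun j => inner ℂ (X j) (Y j)) p)))
    unfold corr gam
    rw [← h5]
    rfl
  rw [e1, e2, e3]

end GUB
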