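import Pool.Agent.Lib.MP_721eb4_an.UB.Defs

/-! Upper bound for the complex Grothendieck constant: module Tensor -/

set_option autoImplicit false

open MeasureTheory Complex Set GLB
open scoped ComplexConjugate

namespace GUB

/-- index type of the tensor construction -/
abbrev TensorIdx (N d : ℕ) : Type :=
  Σ m : Fin N, Fin d × (Fin (m : ℕ) → Fin d) × (Fin (m : ℕ) → Fin d)

/-- the tensor vector with coefficients `c` -/
noncomputable def tensorFun (N d : ℕ) (c : ℕ → ℝ) (x : E d) (t : TensorIdx N d) : ℂ :=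
  (c t.1 : ℂ) * (x t.2.1 * ((∏ a, x (t.2.2.1 a)) * ∏ a, conj (x (t.2.2.2 a))))

theorem tensor_inner (d : ℕ) (x y : E d) : inner ℂ x y = ∑ i, conj (x i) * y i := by
  rw [PiLp.inner_apply]
  refine Finset.sum_congr rfl fun i _ => ?_
  rw [RCLike.inner_apply, mul_comm]

theorem tensor_sum3 {α β γ : Type*} [Fintype α] [Fintype β] [Fintype γ] (A : α → ℂ) (B : β → ℂ)
    (C : γ → ℂ) : ∑ p : α × β × γ, A p.1 * (B p.2.1 * C p.2.2) =
      (∑ i, A i) * ((∑ f, B f) * ∑ g, C g) := by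
  rw [Fintype.sum_prod_type, Finset.sum_mul]
  refine Finset.sum_congr rfl fun i _ => ?_
  rw [Fintype.sum_prod_type]
  simp only [← Finset.mul_sum, ← Finset.sum_mul]

theorem tensorFun_sum (N d : ℕ) (c c' : ℕ → ℝ) (x y : E d) :
    ∑ t : TensorIdx N d, conj (tensorFun N d c x t) * tensorFun N d c' y t =
      ∑ m : Fin N, ((c m * c' m : ℝ) : ℂ) *
        (inner ℂ x y * (((‖(inner ℂ x y : ℂ)‖ ^ 2) ^ (m : ℕ) : ℝ) : ℂ)) := by
  rw [Fintype.sum_sigma]
  refine Finset.sum_congr rfl fun m _ => ?_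
  set s : ℂ := inner ℂ x y with hs
  have hs' : s = ∑ i, conj (x i) * y i := tensor_inner d x y
  have hs'' : conj s = ∑ i, x i * conj (y i) := by
    rw [hs', map_sum]
    refine Finset.sum_congr rfl fun i _ => ?_
    rw [map_mul, Complex.conj_conj]
  have h1 : ((((‖s‖ ^ 2) ^ (m : ℕ) : ℝ)) : ℂ) = s ^ (m : ℕ) * (conj s) ^ (m : ℕ) := by
    rw [← mul_pow, Complex.mul_conj, Complex.normSq_eq_norm_sq]
    push_cast
    rfl
  have hB : s ^ (m : ℕ) = ∑ f : Fin (m : ℕ) → Fin d, ∏ a, (conj (x (f a)) * y (f a)) := by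
    rw [hs', Fintype.sum_pow]
  have hC : (conj s) ^ (m : ℕ) = ∑ g : Fin (m : ℕ) → Fin d, ∏ a, (x (g a) * conj (y (g a))) := by
    rw [hs'', Fintype.sum_pow]
  rw [h1, hB, hC]
  nth_rw 1 [hs']
  have h2 : ∀ p : Fin d × (Fin (m : ℕ) → Fin d) × (Fin (m : ℕ) → Fin d),
      conj (tensorFun N d c x ⟨m, p⟩) * tensorFun N d c' y ⟨m, p⟩ =
        ((c m * c' m : ℝ) : ℂ) * ((conj (x p.1) * y p.1) *
          ((∏ a, (conj (x (p.2.1 a)) * y (p.2.1 a))) * ∏ a, (x (p.2.2 a) * conj (y (p.2.2 a))))) := by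
    intro p
    unfold tensorFun
    simp only [map_mul, map_prod, Complex.conj_ofReal, Complex.conj_conj, Finset.prod_mul_distrib,
      Complex.ofReal_mul]
    ring
  rw [Finset.sum_congr rfl fun p _ => h2 p, ← Finset.mul_sum]
  rw [tensor_sum3 (fun i => conj (x i) * y i)
    (fun f : Fin (m : ℕ) → Fin d => ∏ a, (conj (x (f a)) * y (f a)))
    (fun g : Fin (m : ℕ) → Fin d => ∏ a, (x (g a) * conj (y (g a))))]

theorem tensor (k : Polynomial ℝ) (hk : kl1 k = 1) (d : ℕ) :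
    ∃ (d' : ℕ) (φ ψ : E d → E d'), (∀ x, ‖x‖ = 1 → ‖φ x‖ = 1) ∧ (∀ y, ‖y‖ = 1 → ‖ψ y‖ = 1) ∧
      ∀ x y, inner ℂ (φ x) (ψ y) = ker k (inner ℂ x y) := by
  classical
  set N := k.natDegree + 1 with hN
  let e := Fintype.equivFin (TensorIdx N d)
  let vec : (ℕ → ℝ) → E d → E (Fintype.card (TensorIdx N d)) := fun c x =>
    WithLp.toLp 2 fun t => tensorFun N d c x (e.symm t)
  have hvec : ∀ c c' x y, inner ℂ (vec c x) (vec c' y) = ∑ m : Fin N, ((c m * c' m : ℝ) : ℂ) *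
        (inner ℂ x y * (((‖(inner ℂ x y : ℂ)‖ ^ 2) ^ (m : ℕ) : ℝ) : ℂ)) := by
    intro c c' x y
    rw [tensor_inner, ← tensorFun_sum]
    exact e.symm.sum_comp (fun t => conj (tensorFun N d c x t) * tensorFun N d c' y t)
  have hkl : ∑ m : Fin N, |k.coeff m| = 1 := by
    rw [← hk, kl1, Fin.sum_univ_eq_sum_range (fun m => |k.coeff m|) N]
    symm
    apply Finset.sum_subset
    · intro m hm
      rw [Finset.mem_range, hN]
      exact Nat.lt_succ_of_le (Polynomial.le_natDegree_of_mem_supp m hm)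
    · intro m _ hm
      rw [Polynomial.notMem_support_iff] at hm
      rw [hm, abs_zero]
  have hnorm : ∀ (c : ℕ → ℝ), (∀ m, c m * c m = |k.coeff m|) → ∀ x, ‖x‖ = 1 → ‖vec c x‖ = 1 := by
    intro c hc x hx
    have h1 := hvec c c x x
    have h2 : (inner ℂ x x : ℂ) = 1 := by
      rw [inner_self_eq_norm_sq_to_K, hx]
      norm_num
    rw [h2] at h1
    have h3 : (inner ℂ (vec c x) (vec c x) : ℂ) = ((‖vec c x‖ ^ 2 : ℝ) : ℂ) := by
      rw [inner_self_eq_norm_sq_to_K]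
      norm_cast
    have h4 : ((‖vec c x‖ ^ 2 : ℝ) : ℂ) = ((1 : ℝ) : ℂ) := by
      rw [← h3, h1, ← hkl, Complex.ofReal_sum]
      refine Finset.sum_congr rfl fun m _ => ?_
      rw [hc]
      simp
    have h5 : ‖vec c x‖ ^ 2 = 1 := Complex.ofReal_injective h4
    nlinarith [norm_nonneg (vec c x)]
  refine ⟨_, vec fun m => √|k.coeff m|, vec fun m => SignType.sign (k.coeff m) * √|k.coeff m|,
    ?_, ?_, ?_⟩
  · exact hnorm _ fun m => Real.mul_self_sqrt (abs_nonneg _)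
  · refine hnorm _ fun m => ?_
    have h1 : ((SignType.sign (k.coeff m) : ℝ) * √|k.coeff m|) *
        ((SignType.sign (k.coeff m) : ℝ) * √|k.coeff m|) =
        ((SignType.sign (k.coeff m) : ℝ) * (SignType.sign (k.coeff m) : ℝ)) * |k.coeff m| := by
      rw [mul_mul_mul_comm, Real.mul_self_sqrt (abs_nonneg _)]
    rw [h1]
    rcases lt_trichotomy (k.coeff m) 0 with h | h | h
    · rw [sign_neg h]; simp
    · rw [h]; simp
    · rw [sign_pos h]; simp
  · intro x y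
    rw [hvec, ker, Polynomial.eval_eq_sum_range]
    have h2 : ∀ m, √|k.coeff m| * ((SignType.sign (k.coeff m) : ℝ) * √|k.coeff m|) = k.coeff m := by
      intro m
      rw [mul_left_comm, Real.mul_self_sqrt (abs_nonneg _)]
      exact sign_mul_abs _
    rw [Fin.sum_univ_eq_sum_range (fun m => (((√|k.coeff m| *
        ((SignType.sign (k.coeff m) : ℝ) * √|k.coeff m|) : ℝ)) : ℂ) *
        (inner ℂ x y * (((‖(inner ℂ x y : ℂ)‖ ^ 2) ^ m : ℝ) : ℂ))) N, Complex.ofReal_sum,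
      Finset.mul_sum]
    refine Finset.sum_congr rfl fun m _ => ?_
    rw [h2]
    push_cast
    ring

end GUB
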