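import Pool.Agent.Lib.MP_721eb4_an.UB.Defs
import Pool.Agent.Lib.MP_721eb4_an.UB.Real2
import Pool.Agent.Lib.MP_721eb4_an.UB.Tensor

/-! Upper bound for the complex Grothendieck constant: module AdmA -/

set_option autoImplicit false

open MeasureTheory Complex Set GLB
open scoped ComplexConjugate

namespace GUB

/-- the Gaussian coordinates of a family of vectors -/
theorem AdmA_meas {n : ℕ} {d : Fin n → ℕ} (X : ∀ l, E (d l)) :
    Measurable (fun g : (∀ l, E (d l)) => (fun l => (inner ℂ (X l) (g l) : ℂ))) := by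
  refine measurable_pi_lambda _ fun l => ?_
  exact (measurable_const.inner (measurable_pi_apply l))

/-- the sum of correlations as an integral -/
theorem AdmA_sum {n N : ℕ} (F H : (Fin n → ℂ) → ℂ) (hF : Measurable F) (hH : Measurable H)
    (CF : ℝ) (hF1 : ∀ z, ‖F z‖ ≤ CF) (hH1 : ∀ z, ‖H z‖ ≤ CF) {d : Fin n → ℕ}
    (X Y : Fin N → ∀ l, E (d l)) (hX : ∀ i l, ‖X i l‖ = 1) (hY : ∀ i l, ‖Y i l‖ = 1)
    (a : Matrix (Fin N) (Fin N) ℂ) :
    ∑ i, ∑ j, a i j * corr F H (fun l => inner ℂ (X i l) (Y j l)) =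
      ∫ g : (∀ l, E (d l)), ∑ i, ∑ j, a i j * (F (fun l => inner ℂ (X i l) (g l)) *
        conj (H (fun l => inner ℂ (Y j l) (g l)))) ∂(Measure.pi (fun l => G (d l))) := by
  have hint : ∀ i j, Integrable (fun g : (∀ l, E (d l)) =>
      F (fun l => inner ℂ (X i l) (g l)) * conj (H (fun l => inner ℂ (Y j l) (g l))))
      (Measure.pi (fun l => G (d l))) := by
    intro i j
    refine Integrable.of_bound ?_ (CF * CF) ?_
    · refine Measurable.aestronglyMeasurable ?_
      exact (hF.comp (AdmA_meas (X i))).mul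
        (Complex.continuous_conj.measurable.comp (hH.comp (AdmA_meas (Y j))))
    · refine Filter.Eventually.of_forall fun g => ?_
      rw [norm_mul, RCLike.norm_conj]
      exact mul_le_mul (hF1 _) (hH1 _) (norm_nonneg _) ((norm_nonneg _).trans (hF1 fun _ => 0))
  refine Eq.symm ((integral_finsetSum _ fun i _ => integrable_finsetSum _ fun j _ =>
    (hint i j).const_mul (a i j)).trans (Finset.sum_congr rfl fun i _ =>
      (integral_finsetSum _ fun j _ => (hint i j).const_mul (a i j)).trans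
        (Finset.sum_congr rfl fun j _ => ?_)))
  rw [integral_const_mul, corr_eq d (X i) (Y j) (hX i) (hY j) F H hF hH]

theorem Adm_corr {n : ℕ} (F H : (Fin n → ℂ) → ℂ) (hF : Measurable F) (hH : Measurable H)
    (hF1 : ∀ z, ‖F z‖ ≤ 1) (hH1 : ∀ z, ‖H z‖ ≤ 1) (k : Fin n → Polynomial ℝ)
    (hk : ∀ j, kl1 (k j) = 1) :
    Adm (fun s => corr F H (fun j => ker (k j) s)) 1 0 := by
  intro N a ha S _ m x y hx hy _
  choose d' φ ψ hφ hψ hker using fun l => tensor (k l) (hk l) m
  have h1 : ∀ i j, (fun l => ker (k l) (inner ℂ (x i) (y j))) =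
      fun l => (inner ℂ (φ l (x i)) (ψ l (y j)) : ℂ) := by
    intro i j
    funext l
    rw [hker]
  have h2 := AdmA_sum F H hF hH 1 hF1 hH1 (fun i l => φ l (x i)) (fun j l => ψ l (y j))
    (fun i l => hφ l _ (hx i)) (fun j l => hψ l _ (hy j)) a
  simp only [h1]
  rw [h2, zero_mul, add_zero]
  refine (norm_integral_le_of_norm_le_const (C := 1) (Filter.Eventually.of_forall fun g => ?_)).trans
    (le_of_eq ?_)
  · have h3 := ha (fun i => F (fun l => inner ℂ (φ l (x i)) (g l)))
      (fun j => conj (H (fun l => inner ℂ (ψ l (y j)) (g l)))) (fun i => hF1 _) (fun j => by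
        rw [RCLike.norm_conj]
        exact hH1 _)
    simp only [mul_assoc] at h3
    exact h3
  · simp

end GUB
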