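import Pool.Agent.Lib.MP_721eb4_an.UB.Defs
import Pool.Agent.Lib.MP_721eb4_an.UB.Real2
import Pool.Agent.Lib.MP_721eb4_an.UB.Tensor
import Pool.Agent.Lib.MP_721eb4_an.UB.AdmA

/-! Upper bound for the complex Grothendieck constant: module AdmB -/

set_option autoImplicit false

open MeasureTheory Complex Set GLB
open scoped ComplexConjugate

namespace GUB

/-- the law of one coordinate -/
theorem AdmB_law {d : ℕ} (X : E d) (hX : ‖X‖ = 1) :
    (G d).map (fun g : E d => (inner ℂ X g : ℂ)) = cg := by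
  have h := law1 d X X hX hX
  have hm1 : Measurable (fun g : E d => ((inner ℂ X g : ℂ), (inner ℂ X g : ℂ))) :=
    (measurable_const.inner measurable_id).prodMk (measurable_const.inner measurable_id)
  have hm2 : Measurable (fun p : ℂ × ℂ =>
      (p.1, conj (inner ℂ X X : ℂ) * p.1
        + ((√(1 - ‖(inner ℂ X X : ℂ)‖ ^ 2) : ℝ) : ℂ) * p.2)) := by
    refine measurable_fst.prodMk ?_
    exact (measurable_fst.const_mul _).add (measurable_snd.const_mul _)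
  have h1 := congrArg (fun μ : Measure (ℂ × ℂ) => μ.map Prod.fst) h
  rw [Measure.map_map measurable_fst hm1, Measure.map_map measurable_fst hm2] at h1
  have h2 : (Prod.fst ∘ fun g : E d => ((inner ℂ X g : ℂ), (inner ℂ X g : ℂ))) =
      fun g : E d => (inner ℂ X g : ℂ) := rfl
  have h3 : (Prod.fst ∘ fun p : ℂ × ℂ =>
      (p.1, conj (inner ℂ X X : ℂ) * p.1
        + ((√(1 - ‖(inner ℂ X X : ℂ)‖ ^ 2) : ℝ) : ℂ) * p.2)) = Prod.fst := rfl
  rw [h2, h3, Measure.map_fst_prod] at h1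
  rw [h1, measure_univ, one_smul]

theorem AdmB_law_pi {n : ℕ} {d : Fin n → ℕ} (X : ∀ l, E (d l)) (hX : ∀ l, ‖X l‖ = 1) :
    (Measure.pi (fun l => G (d l))).map
      (fun g : (∀ l, E (d l)) => (fun l => (inner ℂ (X l) (g l) : ℂ))) = gam n := by
  have hs : ∀ l, SigmaFinite ((G (d l)).map (fun g : E (d l) => (inner ℂ (X l) g : ℂ))) := by
    intro l
    rw [AdmB_law (X l) (hX l)]
    infer_instance
  have h := Measure.pi_map_pi (μ := fun l => G (d l))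
    (f := fun l (g : E (d l)) => (inner ℂ (X l) g : ℂ))
    (fun l => (measurable_const.inner measurable_id).aemeasurable)
  rw [h]
  unfold gam
  congr 1
  funext l
  exact AdmB_law (X l) (hX l)

theorem AdmB_norm {n : ℕ} {d : Fin n → ℕ} (X : ∀ l, E (d l)) (hX : ∀ l, ‖X l‖ = 1)
    (F : (Fin n → ℂ) → ℂ) (hF : Measurable F) :
    ∫ g : (∀ l, E (d l)), ‖F (fun l => inner ℂ (X l) (g l))‖ ^ 2 ∂(Measure.pi (fun l => G (d l)))
      = ∫ z, ‖F z‖ ^ 2 ∂(gam n) := by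
  rw [← AdmB_law_pi X hX, integral_map (AdmA_meas X).aemeasurable]
  exact (hF.norm.pow_const 2).aestronglyMeasurable

/-- the Hilbert space bound for vectors of an arbitrary Hilbert space -/
theorem AdmB_hilb {𝓗 : Type*} [NormedAddCommGroup 𝓗] [InnerProductSpace ℂ 𝓗] {N : ℕ}
    {a : Matrix (Fin N) (Fin N) ℂ} {S : ℝ} (hS : HilbBound a S) (u v : Fin N → 𝓗) {A B : ℝ}
    (hA : 0 ≤ A) (hB : 0 ≤ B) (hu : ∀ i, ‖u i‖ ≤ A) (hv : ∀ j, ‖v j‖ ≤ B) :
    ‖∑ i, ∑ j, a i j * inner ℂ (u i) (v j)‖ ≤ A * B * S := by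
  have hS0 : 0 ≤ S :=
    (norm_nonneg _).trans (hS 0 (fun _ => 0) (fun _ => 0) (fun _ => by simp) (fun _ => by simp))
  rcases hA.eq_or_lt with hA0 | hA0
  · have h1 : ∀ i, u i = 0 := fun i => norm_le_zero_iff.1 (by rw [hA0]; exact hu i)
    simp only [h1, inner_zero_left, mul_zero, Finset.sum_const_zero, norm_zero]
    positivity
  rcases hB.eq_or_lt with hB0 | hB0
  · have h1 : ∀ i, v i = 0 := fun i => norm_le_zero_iff.1 (by rw [hB0]; exact hv i)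
    simp only [h1, inner_zero_right, mul_zero, Finset.sum_const_zero, norm_zero]
    positivity
  let W : Submodule ℂ 𝓗 := Submodule.span ℂ (Set.range u ∪ Set.range v)
  have hfin : FiniteDimensional ℂ W :=
    FiniteDimensional.span_of_finite ℂ ((Set.finite_range u).union (Set.finite_range v))
  let e := (stdOrthonormalBasis ℂ W).repr
  let u' : Fin N → W := fun i => ⟨u i, Submodule.subset_span (Or.inl ⟨i, rfl⟩)⟩
  let v' : Fin N → W := fun j => ⟨v j, Submodule.subset_span (Or.inr ⟨j, rfl⟩)⟩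
  have h1 := hS (Module.finrank ℂ W) (fun i => ((A⁻¹ : ℝ) : ℂ) • e (u' i))
    (fun j => ((B⁻¹ : ℝ) : ℂ) • e (v' j)) (by
      intro i
      rw [norm_smul, Complex.norm_real, Real.norm_of_nonneg (inv_nonneg.2 hA),
        LinearIsometryEquiv.norm_map]
      change A⁻¹ * ‖u i‖ ≤ 1
      rw [inv_mul_le_iff₀ hA0, mul_one]
      exact hu i) (by
      intro j
      rw [norm_smul, Complex.norm_real, Real.norm_of_nonneg (inv_nonneg.2 hB),
        LinearIsometryEquiv.norm_map]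
      change B⁻¹ * ‖v j‖ ≤ 1
      rw [inv_mul_le_iff₀ hB0, mul_one]
      exact hv j)
  have h2 : ∑ i, ∑ j, a i j * inner ℂ (((A⁻¹ : ℝ) : ℂ) • e (u' i)) (((B⁻¹ : ℝ) : ℂ) • e (v' j)) =
      (((A⁻¹ * B⁻¹ : ℝ)) : ℂ) * ∑ i, ∑ j, a i j * inner ℂ (u i) (v j) := by
    simp only [Finset.mul_sum]
    refine Finset.sum_congr rfl fun i _ => Finset.sum_congr rfl fun j _ => ?_
    rw [inner_smul_left, inner_smul_right, LinearIsometryEquiv.inner_map_map, Complex.conj_ofReal]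
    change a i j * (((A⁻¹ : ℝ) : ℂ) * (((B⁻¹ : ℝ) : ℂ) * inner ℂ (u i) (v j))) = _
    push_cast
    ring
  rw [h2, norm_mul, Complex.norm_real, Real.norm_of_nonneg (by positivity)] at h1
  have h3 : ‖∑ i, ∑ j, a i j * inner ℂ (u i) (v j)‖ =
      A * B * (A⁻¹ * B⁻¹ * ‖∑ i, ∑ j, a i j * inner ℂ (u i) (v j)‖) := by
    field_simp
  rw [h3]
  exact mul_le_mul_of_nonneg_left h1 (by positivity)

/-- norms in `L²` -/
theorem AdmB_toLp_norm {Ω : Type*} [MeasurableSpace Ω] {μ : Measure Ω} {f : Ω → ℂ}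
    (hf : MemLp f 2 μ) : ‖hf.toLp f‖ ^ 2 = ∫ a, ‖f a‖ ^ 2 ∂μ := by
  have h1 : (((‖hf.toLp f‖ ^ 2 : ℝ)) : ℂ) = ((∫ a, ‖f a‖ ^ 2 ∂μ : ℝ) : ℂ) := by
    have h2 := inner_self_eq_norm_sq_to_K (𝕜 := ℂ) (hf.toLp f)
    rw [L2.inner_def] at h2
    have h3 : ∫ a, inner ℂ ((hf.toLp f) a) ((hf.toLp f) a) ∂μ =
        ∫ a, (((‖f a‖ ^ 2 : ℝ)) : ℂ) ∂μ := by
      refine integral_congr_ae ?_
      filter_upwards [hf.coeFn_toLp] with a ha
      rw [ha, inner_self_eq_norm_sq_to_K]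
      push_cast
      rfl
    have h4 : ∫ a, (((‖f a‖ ^ 2 : ℝ)) : ℂ) ∂μ = ((∫ a, ‖f a‖ ^ 2 ∂μ : ℝ) : ℂ) :=
      integral_ofReal
    rw [← h4, ← h3, h2]
    push_cast
    rfl
  exact_mod_cast h1

theorem AdmB_toLp_inner {Ω : Type*} [MeasurableSpace Ω] {μ : Measure Ω} {f g : Ω → ℂ}
    (hf : MemLp f 2 μ) (hg : MemLp g 2 μ) :
    inner ℂ (hf.toLp f) (hg.toLp g) = ∫ a, conj (f a) * g a ∂μ := by
  rw [L2.inner_def]
  refine integral_congr_ae ?_
  filter_upwards [hf.coeFn_toLp, hg.coeFn_toLp] with a ha hb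
  rw [ha, hb, RCLike.inner_apply, mul_comm]

theorem Adm_corr_L2 {n : ℕ} (F H : (Fin n → ℂ) → ℂ) (hF : Measurable F) (hH : Measurable H)
    (CF : ℝ) (hF1 : ∀ z, ‖F z‖ ≤ CF) (hH1 : ∀ z, ‖H z‖ ≤ CF) (k : Fin n → Polynomial ℝ)
    (hk : ∀ j, kl1 (k j) = 1) (A B : ℝ) (hA : 0 ≤ A) (hB : 0 ≤ B)
    (hFA : ∫ z, ‖F z‖ ^ 2 ∂(gam n) ≤ A ^ 2) (hHB : ∫ z, ‖H z‖ ^ 2 ∂(gam n) ≤ B ^ 2) :
    Adm (fun s => corr F H (fun j => ker (k j) s)) 0 (A * B) := by
  intro N a _ S hS m x y hx hy _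
  choose d' φ ψ hφ hψ hker using fun l => tensor (k l) (hk l) m
  have h1 : ∀ i j, (fun l => ker (k l) (inner ℂ (x i) (y j))) =
      fun l => (inner ℂ (φ l (x i)) (ψ l (y j)) : ℂ) := by
    intro i j
    funext l
    rw [hker]
  set μ := Measure.pi (fun l => G (d' l)) with hμ
  have hmem : ∀ (K : (Fin n → ℂ) → ℂ), Measurable K → (∀ z, ‖K z‖ ≤ CF) →
      ∀ X : (∀ l, E (d' l)), MemLp (fun g : (∀ l, E (d' l)) =>
        conj (K (fun l => inner ℂ (X l) (g l)))) 2 μ := by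
    intro K hK hK1 X
    refine MemLp.of_bound ?_ CF ?_
    · exact (Complex.continuous_conj.measurable.comp
        (hK.comp (AdmA_meas X))).aestronglyMeasurable
    · refine Filter.Eventually.of_forall fun g => ?_
      rw [RCLike.norm_conj]
      exact hK1 _
  have hnorm : ∀ (K : (Fin n → ℂ) → ℂ) (hK : Measurable K) (hK1 : ∀ z, ‖K z‖ ≤ CF)
      (X : (∀ l, E (d' l))) (_ : ∀ l, ‖X l‖ = 1) (C : ℝ) (_ : 0 ≤ C)
      (_ : ∫ z, ‖K z‖ ^ 2 ∂(gam n) ≤ C ^ 2), ‖(hmem K hK hK1 X).toLp _‖ ≤ C := by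
    intro K hK hK1 X hX C hC hKC
    refine (pow_le_pow_iff_left₀ (norm_nonneg _) hC two_ne_zero).1 ?_
    rw [AdmB_toLp_norm]
    simp only [RCLike.norm_conj]
    rw [hμ, AdmB_norm X hX K hK]
    exact hKC
  have h2 : ∀ i j, corr F H (fun l => ker (k l) (inner ℂ (x i) (y j))) =
      inner ℂ ((hmem F hF hF1 (fun l => φ l (x i))).toLp _)
        ((hmem H hH hH1 (fun l => ψ l (y j))).toLp _) := by
    intro i j
    rw [h1, ← corr_eq d' (fun l => φ l (x i)) (fun l => ψ l (y j)) (fun l => hφ l _ (hx i))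
      (fun l => hψ l _ (hy j)) F H hF hH, AdmB_toLp_inner]
    refine integral_congr_ae (Filter.Eventually.of_forall fun g => ?_)
    simp only [Complex.conj_conj]
  simp only [h2]
  rw [zero_add]
  exact AdmB_hilb hS _ _ hA hB
    (fun i => hnorm F hF hF1 _ (fun l => hφ l _ (hx i)) A hA hFA)
    (fun j => hnorm H hH hH1 _ (fun l => hψ l _ (hy j)) B hB hHB)

end GUB
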