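import Pool.Agent.Lib.MP_721eb4_an.UB.Defs
import Pool.Agent.Lib.MP_721eb4_an.UB.Tensor

/-! Upper bound for the complex Grothendieck constant: module AdmC -/

set_option autoImplicit false

open MeasureTheory Complex Set GLB
open scoped ComplexConjugate

namespace GUB

theorem AdmC_nonneg {n : ℕ} {a : Matrix (Fin n) (Fin n) ℂ} {S : ℝ} (h : HilbBound a S) :
    0 ≤ S :=
  (norm_nonneg _).trans (h 0 (fun _ => 0) (fun _ => 0) (fun _ => by simp) (fun _ => by simp))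

theorem Adm.add {Φ Ψ : ℂ → ℂ} {α β α' β' : ℝ} (h : Adm Φ α β) (h' : Adm Ψ α' β') :
    Adm (fun s => Φ s + Ψ s) (α + α') (β + β') := by
  intro n a ha S hS m x y hx hy hxy
  have h1 := h n a ha S hS m x y hx hy hxy
  have h2 := h' n a ha S hS m x y hx hy hxy
  have h3 : (∑ i, ∑ j, a i j * (Φ (inner ℂ (x i) (y j)) + Ψ (inner ℂ (x i) (y j)))) =
      (∑ i, ∑ j, a i j * Φ (inner ℂ (x i) (y j))) + ∑ i, ∑ j, a i j * Ψ (inner ℂ (x i) (y j)) := by
    simp only [mul_add, Finset.sum_add_distrib]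
  rw [h3]
  refine (norm_add_le _ _).trans ?_
  linarith

theorem Adm.smul {Φ : ℂ → ℂ} {α β : ℝ} (h : Adm Φ α β) (c : ℝ) (hc : 0 ≤ c) :
    Adm (fun s => (c : ℂ) * Φ s) (c * α) (c * β) := by
  intro n a ha S hS m x y hx hy hxy
  have h1 := h n a ha S hS m x y hx hy hxy
  have h3 : (∑ i, ∑ j, a i j * ((c : ℂ) * Φ (inner ℂ (x i) (y j)))) =
      (c : ℂ) * ∑ i, ∑ j, a i j * Φ (inner ℂ (x i) (y j)) := by
    simp only [Finset.mul_sum]
    refine Finset.sum_congr rfl fun i _ => Finset.sum_congr rfl fun j _ => ?_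
    ring
  rw [h3, norm_mul, Complex.norm_real, Real.norm_of_nonneg hc]
  calc c * ‖∑ i, ∑ j, a i j * Φ (inner ℂ (x i) (y j))‖ ≤ c * (α + β * S) :=
        mul_le_mul_of_nonneg_left h1 hc
    _ = c * α + c * β * S := by ring

theorem Adm.neg {Φ : ℂ → ℂ} {α β : ℝ} (h : Adm Φ α β) : Adm (fun s => -Φ s) α β := by
  intro n a ha S hS m x y hx hy hxy
  have h1 := h n a ha S hS m x y hx hy hxy
  have h3 : (∑ i, ∑ j, a i j * (-Φ (inner ℂ (x i) (y j)))) =
      -∑ i, ∑ j, a i j * Φ (inner ℂ (x i) (y j)) := by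
    simp only [mul_neg, Finset.sum_neg_distrib]
  rw [h3, norm_neg]
  exact h1

theorem Adm.congr {Φ Ψ : ℂ → ℂ} {α β : ℝ} (h : Adm Φ α β) (he : ∀ s, ‖s‖ < 1 → Φ s = Ψ s) :
    Adm Ψ α β := by
  intro n a ha S hS m x y hx hy hxy
  have h1 := h n a ha S hS m x y hx hy hxy
  have h3 : (∑ i, ∑ j, a i j * Ψ (inner ℂ (x i) (y j))) =
      ∑ i, ∑ j, a i j * Φ (inner ℂ (x i) (y j)) :=
    Finset.sum_congr rfl fun i _ => Finset.sum_congr rfl fun j _ => by rw [he _ (hxy i j)]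
  rw [h3]
  exact h1

theorem Adm.mono {Φ : ℂ → ℂ} {α β α' β' : ℝ} (h : Adm Φ α β) (h1 : α ≤ α') (h2 : β ≤ β') :
    Adm Φ α' β' := by
  intro n a ha S hS m x y hx hy hxy
  refine (h n a ha S hS m x y hx hy hxy).trans ?_
  have h3 := mul_le_mul_of_nonneg_right h2 (AdmC_nonneg hS)
  linarith

theorem Adm_pow (m : ℕ) : Adm (fun s => s * (((‖s‖ ^ 2) ^ m : ℝ) : ℂ)) 0 1 := by
  intro n a _ S hS d x y hx hy _
  have hk : kl1 (Polynomial.X ^ m : Polynomial ℝ) = 1 := by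
    unfold kl1
    rw [Polynomial.support_X_pow, Finset.sum_singleton, Polynomial.coeff_X_pow,
      if_pos rfl, abs_one]
  obtain ⟨d', φ, ψ, hφ, hψ, hker⟩ := tensor (Polynomial.X ^ m) hk d
  have h1 := hS d' (fun i => φ (x i)) (fun j => ψ (y j)) (fun i => (hφ _ (hx i)).le)
    (fun j => (hψ _ (hy j)).le)
  have h2 : ∀ i j, inner ℂ (φ (x i)) (ψ (y j)) =
      (inner ℂ (x i) (y j) : ℂ) * (((‖(inner ℂ (x i) (y j) : ℂ)‖ ^ 2) ^ m : ℝ) : ℂ) := by
    intro i j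
    rw [hker]
    unfold ker
    rw [Polynomial.eval_pow, Polynomial.eval_X]
  simp only [h2] at h1
  rw [zero_add, one_mul]
  exact h1

end GUB
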