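import Pool.Agent.Lib.MP_721eb4_an.UB.Defs
import Pool.Agent.Lib.MP_721eb4_an.UB.AdmC

/-! Upper bound for the complex Grothendieck constant: module AdmFinal -/

set_option autoImplicit false

open MeasureTheory Complex Set GLB
open scoped ComplexConjugate

namespace GUB

theorem AdmFinal_inner {n : ℕ} (a b : ℂ) (w v : E n) :
    inner ℂ (consE a w) (consE b v) = conj a * b + inner ℂ w v := by
  rw [PiLp.inner_apply, PiLp.inner_apply, Fin.sum_univ_succ]
  simp only [consE, RCLike.inner_apply]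
  simp [mul_comm]

theorem AdmFinal_norm {n : ℕ} (a : ℂ) (w : E n) :
    ‖consE a w‖ ^ 2 = ‖a‖ ^ 2 + ‖w‖ ^ 2 := by
  rw [EuclideanSpace.norm_sq_eq, EuclideanSpace.norm_sq_eq, Fin.sum_univ_succ]
  simp [consE]

theorem Adm.final (Φ : ℂ → ℂ) (β κ : ℝ) (c : ℕ → ℝ) (hΦ : Adm Φ 1 β)
    (hc : Summable (fun m => |c m|))
    (hs : ∀ s : ℂ, ‖s‖ < 1 → Φ s = ∑' m, (c m : ℂ) * (s * (((‖s‖ ^ 2) ^ m : ℝ) : ℂ)))
    (hκ : 0 < κ) (hκ2 : κ ≤ c 0 - ∑' m, |c (m + 1)| - β) (hβ : 0 ≤ β) :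
    1 / κ ∈ KSet := by
  intro n m a ha
  set T : ℝ := ∑' m, |c (m + 1)| with hT
  have hT0 : 0 ≤ T := tsum_nonneg fun _ => abs_nonneg _
  have hc1 : Summable (fun m => |c (m + 1)|) := (summable_nat_add_iff 1).2 hc
  have hc0 : 0 < c 0 := by linarith
  -- the best constant
  set V : Set ℝ := {v : ℝ | ∃ (m : ℕ) (x y : Fin n → E m), (∀ i, ‖x i‖ ≤ 1) ∧ (∀ j, ‖y j‖ ≤ 1) ∧
    v = ‖∑ i, ∑ j, a i j * inner ℂ (x i) (y j)‖} with hV
  have hbdd : BddAbove V := by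
    refine ⟨∑ i, ∑ j, ‖a i j‖, ?_⟩
    rintro v ⟨m, x, y, hx, hy, rfl⟩
    refine (norm_sum_le _ _).trans (Finset.sum_le_sum fun i _ => ?_)
    refine (norm_sum_le _ _).trans (Finset.sum_le_sum fun j _ => ?_)
    rw [norm_mul]
    refine mul_le_of_le_one_right (norm_nonneg _) ((norm_inner_le_norm _ _).trans ?_)
    exact mul_le_one₀ (hx i) (norm_nonneg _) (hy j)
  have hne : V.Nonempty := ⟨_, 0, 0, 0, by simp, by simp, rfl⟩
  set S : ℝ := sSup V with hS
  have hSle : ∀ (m : ℕ) (x y : Fin n → E m), (∀ i, ‖x i‖ ≤ 1) → (∀ j, ‖y j‖ ≤ 1) →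
      ‖∑ i, ∑ j, a i j * inner ℂ (x i) (y j)‖ ≤ S := fun m x y hx hy =>
    le_csSup hbdd ⟨m, x, y, hx, hy, rfl⟩
  have hHB : HilbBound a S := hSle
  -- unit vectors
  have hunit : ∀ (m : ℕ) (x y : Fin n → E m), (∀ i, ‖x i‖ = 1) → (∀ j, ‖y j‖ = 1) →
      (∀ i j, ‖inner ℂ (x i) (y j)‖ < 1) →
      c 0 * ‖∑ i, ∑ j, a i j * inner ℂ (x i) (y j)‖ ≤ 1 + β * S + T * S := by
    intro m x y hx hy hxy
    have h1 := hΦ n a ha S hHB m x y hx hy hxy
    have h2 : ∀ k : ℕ, ‖∑ i, ∑ j, a i j * (inner ℂ (x i) (y j) *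
        (((‖(inner ℂ (x i) (y j) : ℂ)‖ ^ 2) ^ k : ℝ) : ℂ))‖ ≤ S := by
      intro k
      have := Adm_pow k n a ha S hHB m x y hx hy hxy
      rwa [zero_add, one_mul] at this
    -- expansion
    let P : ℕ → ℂ := fun k => ∑ i, ∑ j, a i j * (inner ℂ (x i) (y j) *
        (((‖(inner ℂ (x i) (y j) : ℂ)‖ ^ 2) ^ k : ℝ) : ℂ))
    have hsum : ∀ s : ℂ, ‖s‖ < 1 →
        Summable (fun m => (c m : ℂ) * (s * (((‖s‖ ^ 2) ^ m : ℝ) : ℂ))) := by
      intro s hs1
      refine Summable.of_norm_bounded hc fun k => ?_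
      rw [norm_mul, norm_mul, Complex.norm_real, Complex.norm_real, Real.norm_eq_abs,
        Real.norm_eq_abs, abs_of_nonneg (pow_nonneg (sq_nonneg ‖s‖) k)]
      have h3 : ‖s‖ * (‖s‖ ^ 2) ^ k ≤ 1 := by
        refine mul_le_one₀ hs1.le (by positivity) (pow_le_one₀ (by positivity) ?_)
        exact pow_le_one₀ (norm_nonneg _) hs1.le
      exact mul_le_of_le_one_right (abs_nonneg _) h3
    have h3 : HasSum (fun k => (c k : ℂ) * P k) (∑ i, ∑ j, a i j * Φ (inner ℂ (x i) (y j))) := by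
      have h4 : ∀ i j, HasSum (fun k => (c k : ℂ) * (a i j * (inner ℂ (x i) (y j) *
          (((‖(inner ℂ (x i) (y j) : ℂ)‖ ^ 2) ^ k : ℝ) : ℂ)))) (a i j * Φ (inner ℂ (x i) (y j))) := by
        intro i j
        rw [hs _ (hxy i j)]
        have h5 := ((hsum _ (hxy i j)).hasSum).mul_left (a i j)
        have h6 : (fun k => (c k : ℂ) * (a i j * (inner ℂ (x i) (y j) *
            (((‖(inner ℂ (x i) (y j) : ℂ)‖ ^ 2) ^ k : ℝ) : ℂ)))) =
            fun k => a i j * ((c k : ℂ) * (inner ℂ (x i) (y j) *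
            (((‖(inner ℂ (x i) (y j) : ℂ)‖ ^ 2) ^ k : ℝ) : ℂ))) := by
          funext k
          ring
        rw [h6]
        exact h5
      have h5 := hasSum_sum (s := Finset.univ) fun i _ =>
        hasSum_sum (s := Finset.univ) fun j _ => h4 i j
      have h6 : (fun k => (c k : ℂ) * P k) = fun k => ∑ i, ∑ j, (c k : ℂ) * (a i j *
          (inner ℂ (x i) (y j) * (((‖(inner ℂ (x i) (y j) : ℂ)‖ ^ 2) ^ k : ℝ) : ℂ))) := by
        funext k
        simp only [P, Finset.mul_sum]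
      rw [h6]
      exact h5
    have h6 : (c 0 : ℂ) * P 0 = (∑ i, ∑ j, a i j * Φ (inner ℂ (x i) (y j))) -
        ∑' k, (c (k + 1) : ℂ) * P (k + 1) := by
      have := h3.summable.tsum_eq_zero_add
      rw [h3.tsum_eq] at this
      rw [this]
      ring
    have h7 : ‖∑' k, (c (k + 1) : ℂ) * P (k + 1)‖ ≤ T * S := by
      rw [hT, ← tsum_mul_right]
      refine tsum_of_norm_bounded (hc1.mul_right S).hasSum fun k => ?_
      rw [norm_mul, Complex.norm_real, Real.norm_eq_abs]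
      exact mul_le_mul_of_nonneg_left (h2 (k + 1)) (abs_nonneg _)
    have h8 : P 0 = ∑ i, ∑ j, a i j * inner ℂ (x i) (y j) := by
      simp [P]
    rw [← h8]
    calc c 0 * ‖P 0‖ = ‖(c 0 : ℂ) * P 0‖ := by
          rw [norm_mul, Complex.norm_real, Real.norm_eq_abs, abs_of_pos hc0]
      _ ≤ _ := by
          rw [h6]
          exact (norm_sub_le _ _).trans (add_le_add h1 h7)
  -- general vectors
  have hgen : ∀ (m : ℕ) (x y : Fin n → E m), (∀ i, ‖x i‖ ≤ 1) → (∀ j, ‖y j‖ ≤ 1) →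
      c 0 * ‖∑ i, ∑ j, a i j * inner ℂ (x i) (y j)‖ ≤ 1 + β * S + T * S := by
    intro m x y hx hy
    have hr : ∀ r : ℝ, r ∈ Set.Ioo (0 : ℝ) 1 →
        r ^ 2 * (c 0 * ‖∑ i, ∑ j, a i j * inner ℂ (x i) (y j)‖) ≤ 1 + β * S + T * S := by
      intro r hr
      let α : E m → ℂ := fun v => ((√(1 - r ^ 2 * ‖v‖ ^ 2) : ℝ) : ℂ)
      have hα : ∀ v : E m, ‖v‖ ≤ 1 → ‖α v‖ ^ 2 = 1 - r ^ 2 * ‖v‖ ^ 2 := by
        intro v hv
        have h0 : 0 ≤ 1 - r ^ 2 * ‖v‖ ^ 2 := by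
          have h1 : r ^ 2 ≤ 1 := pow_le_one₀ hr.1.le hr.2.le
          have h2 : ‖v‖ ^ 2 ≤ 1 := pow_le_one₀ (norm_nonneg _) hv
          nlinarith [sq_nonneg r, sq_nonneg ‖v‖]
        rw [Complex.norm_real, Real.norm_eq_abs, sq_abs, Real.sq_sqrt h0]
      let x' : Fin n → E (m + 1 + 1) := fun i => consE (α (x i)) (consE 0 ((r : ℂ) • x i))
      let y' : Fin n → E (m + 1 + 1) := fun j => consE 0 (consE (α (y j)) ((r : ℂ) • y j))
      have hnr : ∀ v : E m, ‖(r : ℂ) • v‖ ^ 2 = r ^ 2 * ‖v‖ ^ 2 := by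
        intro v
        rw [norm_smul, Complex.norm_real, Real.norm_eq_abs, abs_of_pos hr.1, mul_pow]
      have hx' : ∀ i, ‖x' i‖ = 1 := by
        intro i
        have h1 : ‖x' i‖ ^ 2 = 1 := by
          rw [AdmFinal_norm, AdmFinal_norm, hα _ (hx i), hnr]
          simp
        exact (pow_eq_one_iff_of_nonneg (norm_nonneg _) two_ne_zero).1 h1
      have hy' : ∀ j, ‖y' j‖ = 1 := by
        intro j
        have h1 : ‖y' j‖ ^ 2 = 1 := by
          rw [AdmFinal_norm, AdmFinal_norm, hα _ (hy j), hnr]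
          simp
        exact (pow_eq_one_iff_of_nonneg (norm_nonneg _) two_ne_zero).1 h1
      have hin : ∀ i j, inner ℂ (x' i) (y' j) = (r : ℂ) ^ 2 * inner ℂ (x i) (y j) := by
        intro i j
        rw [AdmFinal_inner, AdmFinal_inner, inner_smul_left, inner_smul_right]
        simp
        ring
      have hr2 : r ^ 2 < 1 := pow_lt_one₀ hr.1.le hr.2 two_ne_zero
      have hlt : ∀ i j, ‖inner ℂ (x' i) (y' j)‖ < 1 := by
        intro i j
        rw [hin, norm_mul, norm_pow, Complex.norm_real, Real.norm_eq_abs, abs_of_pos hr.1]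
        have h1 : ‖inner ℂ (x i) (y j)‖ ≤ 1 :=
          (norm_inner_le_norm _ _).trans (mul_le_one₀ (hx i) (norm_nonneg _) (hy j))
        nlinarith [norm_nonneg (inner ℂ (x i) (y j)), sq_nonneg r]
      have h1 := hunit _ x' y' hx' hy' hlt
      have h2 : ∑ i, ∑ j, a i j * inner ℂ (x' i) (y' j) =
          (r : ℂ) ^ 2 * ∑ i, ∑ j, a i j * inner ℂ (x i) (y j) := by
        rw [Finset.mul_sum]
        refine Finset.sum_congr rfl fun i _ => ?_
        rw [Finset.mul_sum]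
        refine Finset.sum_congr rfl fun j _ => ?_
        rw [hin]
        ring
      rw [h2, norm_mul, norm_pow, Complex.norm_real, Real.norm_eq_abs, abs_of_pos hr.1] at h1
      linarith
    -- limit
    have hlim : Filter.Tendsto (fun r : ℝ =>
        r ^ 2 * (c 0 * ‖∑ i, ∑ j, a i j * inner ℂ (x i) (y j)‖)) (nhdsWithin 1 (Set.Iio 1))
        (nhds (1 ^ 2 * (c 0 * ‖∑ i, ∑ j, a i j * inner ℂ (x i) (y j)‖))) :=
      Filter.Tendsto.mono_left (Continuous.tendsto (by fun_prop) 1) nhdsWithin_le_nhds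
    rw [one_pow, one_mul] at hlim
    refine le_of_tendsto hlim ?_
    filter_upwards [Ioo_mem_nhdsLT (show (0 : ℝ) < 1 from one_pos)] with r hr'
    exact hr r hr'
  have hSfin : c 0 * S ≤ 1 + β * S + T * S := by
    have h1 : S ≤ (1 + β * S + T * S) / c 0 := by
      refine csSup_le hne ?_
      rintro v ⟨m, x, y, hx, hy, rfl⟩
      rw [le_div_iff₀ hc0, mul_comm]
      exact hgen m x y hx hy
    rw [le_div_iff₀ hc0] at h1
    linarith
  have hS0 : 0 ≤ S := by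
    obtain ⟨v, hv⟩ := hne
    have h1 := le_csSup hbdd hv
    obtain ⟨m, x, y, _, _, rfl⟩ := hv
    exact (norm_nonneg _).trans h1
  have hSκ : κ * S ≤ 1 := by
    have : κ * S ≤ (c 0 - T - β) * S := mul_le_mul_of_nonneg_right hκ2 hS0
    linarith
  intro x y hx hy
  refine (hSle m x y hx hy).trans ?_
  rw [le_div_iff₀ hκ]
  linarith

end GUB
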