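import Pool.Agent.Lib.MP_721eb4_an.UB.Defs

/-! Upper bound for the complex Grothendieck constant: module JI -/

set_option autoImplicit false

open MeasureTheory Complex Set GLB
open scoped ComplexConjugate

namespace GUB

theorem JI_a_succ (k : ℕ) : ((Nat.centralBinom (k + 1) : ℝ) / 4 ^ (k + 1)) =
    ((Nat.centralBinom k : ℝ) / 4 ^ k) * ((2 * k + 1) / (2 * k + 2)) := by
  have h := Nat.succ_mul_centralBinom_succ k
  have h' : ((k : ℝ) + 1) * (Nat.centralBinom (k + 1) : ℝ) =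
      2 * (2 * k + 1) * (Nat.centralBinom k : ℝ) := by exact_mod_cast h
  have hk : (k : ℝ) + 1 ≠ 0 := by positivity
  have h4 : (4 : ℝ) ^ k ≠ 0 := by positivity
  have h2 : (2 : ℝ) * k + 2 ≠ 0 := by positivity
  rw [pow_succ, div_mul_div_comm, div_eq_div_iff (by positivity) (by positivity)]
  linear_combination (2 * 4 ^ k) * h'

theorem hc_pos (k : ℕ) : 0 < hc k := by
  unfold hc
  have := Nat.centralBinom_pos k
  positivity

theorem JI_a_sq_le (k : ℕ) : ((Nat.centralBinom k : ℝ) / 4 ^ k) ^ 2 * (2 * k + 1) ≤ 1 := by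
  induction k with
  | zero => simp
  | succ k ih =>
    rw [JI_a_succ, mul_pow]
    have h1 : ((2 * (k : ℝ) + 1) / (2 * k + 2)) ^ 2 * (2 * ((k + 1 : ℕ) : ℝ) + 1) ≤ 2 * k + 1 := by
      rw [div_pow, div_mul_eq_mul_div, div_le_iff₀ (by positivity)]
      push_cast
      nlinarith [(Nat.cast_nonneg k : (0 : ℝ) ≤ k)]
    calc ((Nat.centralBinom k : ℝ) / 4 ^ k) ^ 2 * ((2 * (k : ℝ) + 1) / (2 * k + 2)) ^ 2 *
          (2 * ((k + 1 : ℕ) : ℝ) + 1)
        = ((Nat.centralBinom k : ℝ) / 4 ^ k) ^ 2 *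
          (((2 * (k : ℝ) + 1) / (2 * k + 2)) ^ 2 * (2 * ((k + 1 : ℕ) : ℝ) + 1)) := by ring
      _ ≤ ((Nat.centralBinom k : ℝ) / 4 ^ k) ^ 2 * (2 * k + 1) :=
          mul_le_mul_of_nonneg_left h1 (by positivity)
      _ ≤ 1 := ih

theorem hc_summable : Summable hc := by
  have h1 : Summable (fun k : ℕ => 1 / ((k : ℝ) + 1) ^ 2) := by
    have := (summable_nat_add_iff 1).2 (Real.summable_one_div_nat_pow.2 (by norm_num : 1 < 2))
    simpa using this
  refine Summable.of_nonneg_of_le (fun k => (hc_pos k).le) (fun k => ?_) h1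
  unfold hc
  rw [div_le_div_iff₀ (by positivity) (by positivity)]
  have h := JI_a_sq_le k
  have h2 : (0 : ℝ) ≤ ((Nat.centralBinom k : ℝ) / 4 ^ k) ^ 2 := by positivity
  have hk : (0 : ℝ) ≤ k := Nat.cast_nonneg k
  nlinarith [mul_nonneg h2 hk]

theorem JI_poch (n : ℕ) : (ascPochhammer ℝ n).eval (1 / 2 : ℝ) =
    n.factorial * ((Nat.centralBinom n : ℝ) / 4 ^ n) := by
  induction n with
  | zero => simp
  | succ n ih =>
    rw [ascPochhammer_succ_eval, ih, JI_a_succ, Nat.factorial_succ]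
    have : (2 : ℝ) * n + 2 ≠ 0 := by positivity
    push_cast
    field_simp
    ring

theorem JI_choose (n : ℕ) :
    Ring.choose ((1 / 2 : ℝ) + n - 1) n = (Nat.centralBinom n : ℝ) / 4 ^ n := by
  have h1 : Ring.choose ((1 / 2 : ℝ) + n - 1) n = Ring.multichoose (1 / 2 : ℝ) n := by
    rw [Ring.choose]
    congr 1
    ring
  have h2 := Ring.factorial_nsmul_multichoose_eq_ascPochhammer (1 / 2 : ℝ) n
  rw [Polynomial.ascPochhammer_smeval_eq_eval, JI_poch, nsmul_eq_mul] at h2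
  have h4 : (n.factorial : ℝ) ≠ 0 := by positivity
  rw [h1]
  exact mul_left_cancel₀ h4 h2

theorem JI_series (z : ℝ) (hz : |z| < 1) :
    HasSum (fun k : ℕ => ((Nat.centralBinom k : ℝ) / 4 ^ k) * z ^ k) (1 / √(1 - z)) := by
  have h := Real.one_div_one_sub_rpow_hasFPowerSeriesOnBall_zero (1 / 2)
  have hz1 : ‖z‖₊ < 1 := by
    rw [← NNReal.coe_lt_coe]
    simpa using hz
  have h2 := h.hasSum (y := z) (by simpa [enorm_eq_nnnorm] using hz1)
  have h3 : (fun k : ℕ => ((Nat.centralBinom k : ℝ) / 4 ^ k) * z ^ k) =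
      (fun n : ℕ => (FormalMultilinearSeries.ofScalars ℝ
        (fun n : ℕ => Ring.choose ((1 / 2 : ℝ) + n - 1) n) n) fun _ => z) := by
    funext k
    rw [FormalMultilinearSeries.ofScalars_apply_eq, JI_choose]
    simp
  rw [h3, Real.sqrt_eq_rpow]
  simpa using h2

/-- change of variables `t = κ tan² θ` -/
theorem JI_image (κ : ℝ) (hκ : 0 < κ) :
    (fun θ : ℝ => κ * Real.tan θ ^ 2) '' Ioo 0 (Real.pi / 2) = Ioi 0 := by
  ext y
  simp only [mem_image, mem_Ioo, mem_Ioi]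
  constructor
  · rintro ⟨θ, ⟨h1, h2⟩, rfl⟩
    have := Real.tan_pos_of_pos_of_lt_pi_div_two h1 h2
    positivity
  · intro hy
    refine ⟨Real.arctan (√(y / κ)), ⟨?_, Real.arctan_lt_pi_div_two _⟩, ?_⟩
    · rw [Real.arctan_pos]
      positivity
    · rw [Real.tan_arctan, Real.sq_sqrt (by positivity)]
      field_simp

theorem JI_inj (κ : ℝ) (hκ : 0 < κ) :
    InjOn (fun θ : ℝ => κ * Real.tan θ ^ 2) (Ioo 0 (Real.pi / 2)) := by
  intro a ha b hb hab
  have h1 := Real.tan_pos_of_pos_of_lt_pi_div_two ha.1 ha.2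
  have h2 := Real.tan_pos_of_pos_of_lt_pi_div_two hb.1 hb.2
  have h3 : Real.tan a ^ 2 = Real.tan b ^ 2 := mul_left_cancel₀ hκ.ne' hab
  have h4 : Real.tan a = Real.tan b := by
    rwa [sq_eq_sq₀ h1.le h2.le] at h3
  have h5 : Real.arctan (Real.tan a) = Real.arctan (Real.tan b) := by rw [h4]
  rwa [Real.arctan_tan (by linarith [ha.1, Real.pi_pos]) ha.2,
    Real.arctan_tan (by linarith [hb.1, Real.pi_pos]) hb.2] at h5

theorem JI_deriv (κ : ℝ) : ∀ θ ∈ Ioo (0 : ℝ) (Real.pi / 2),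
    HasDerivWithinAt (fun θ : ℝ => κ * Real.tan θ ^ 2)
      (κ * (2 * Real.tan θ / Real.cos θ ^ 2)) (Ioo 0 (Real.pi / 2)) θ := by
  intro θ hθ
  have hc : 0 < Real.cos θ := Real.cos_pos_of_mem_Ioo ⟨by linarith [hθ.1, Real.pi_pos], hθ.2⟩
  have h := ((Real.hasDerivAt_tan hc.ne').pow 2).const_mul κ
  refine (HasDerivAt.hasDerivWithinAt ?_)
  have e : κ * (2 * Real.tan θ / Real.cos θ ^ 2) =
      κ * (((2 : ℕ) : ℝ) * Real.tan θ ^ (2 - 1) * (1 / Real.cos θ ^ 2)) := by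
    rw [show ((2 : ℕ) : ℝ) = 2 by norm_num, show (2 - 1 : ℕ) = 1 by norm_num, pow_one]
    ring
  rw [e]
  exact h

theorem JI_cv (κ : ℝ) (hκ : 0 < κ) (g : ℝ → ℝ) :
    ∫ t in Ioi (0 : ℝ), g t =
      ∫ θ in Ioo (0 : ℝ) (Real.pi / 2), κ * (2 * Real.tan θ / Real.cos θ ^ 2) *
        g (κ * Real.tan θ ^ 2) := by
  rw [← JI_image κ hκ, integral_image_eq_integral_abs_deriv_smul measurableSet_Ioo (JI_deriv κ)
    (JI_inj κ hκ)]
  refine setIntegral_congr_fun measurableSet_Ioo (fun θ hθ => ?_)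
  have h1 := Real.tan_pos_of_pos_of_lt_pi_div_two hθ.1 hθ.2
  have hc : 0 < Real.cos θ := Real.cos_pos_of_mem_Ioo ⟨by linarith [hθ.1, Real.pi_pos], hθ.2⟩
  simp only [smul_eq_mul]
  rw [abs_of_pos (by positivity)]

theorem JI_cv_int (κ : ℝ) (hκ : 0 < κ) (g : ℝ → ℝ) :
    IntegrableOn g (Ioi (0 : ℝ)) ↔
      IntegrableOn (fun θ => κ * (2 * Real.tan θ / Real.cos θ ^ 2) *
        g (κ * Real.tan θ ^ 2)) (Ioo (0 : ℝ) (Real.pi / 2)) := by
  rw [← JI_image κ hκ, integrableOn_image_iff_integrableOn_abs_deriv_smul measurableSet_Ioo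
    (JI_deriv κ) (JI_inj κ hκ)]
  refine integrableOn_congr_fun (fun θ hθ => ?_) measurableSet_Ioo
  have h1 := Real.tan_pos_of_pos_of_lt_pi_div_two hθ.1 hθ.2
  have hc : 0 < Real.cos θ := Real.cos_pos_of_mem_Ioo ⟨by linarith [hθ.1, Real.pi_pos], hθ.2⟩
  simp only [smul_eq_mul]
  rw [abs_of_pos (by positivity)]

theorem JI_sin (k : ℕ) : ∫ θ in (0 : ℝ)..(Real.pi / 2), Real.sin θ ^ (2 * k) =
    Real.pi / 2 * ((Nat.centralBinom k : ℝ) / 4 ^ k) := by
  induction k with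
  | zero => simp
  | succ k ih =>
    rw [show 2 * (k + 1) = 2 * k + 2 by ring, integral_sin_pow, ih, JI_a_succ]
    simp only [Real.sin_zero, Real.cos_pi_div_two, mul_zero, sub_zero]
    rw [zero_pow (by omega)]
    push_cast
    field_simp
    ring

theorem JI_cos (k : ℕ) : ∫ θ in Ioo (0 : ℝ) (Real.pi / 2), Real.cos θ ^ 2 * Real.sin θ ^ (2 * k) =
    Real.pi / 4 * (((Nat.centralBinom k : ℝ) / 4 ^ k) / (k + 1)) := by
  rw [← integral_Ioc_eq_integral_Ioo, ← intervalIntegral.integral_of_le (by positivity)]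
  have h : ∀ θ : ℝ, Real.cos θ ^ 2 * Real.sin θ ^ (2 * k) =
      Real.sin θ ^ (2 * k) - Real.sin θ ^ (2 * (k + 1)) := by
    intro θ
    rw [Real.cos_sq']
    ring
  simp_rw [h]
  rw [intervalIntegral.integral_sub ((by fun_prop : Continuous _).intervalIntegrable _ _)
    ((by fun_prop : Continuous _).intervalIntegrable _ _), JI_sin, JI_sin, JI_a_succ]
  field_simp
  ring

theorem JI_cosint : IntegrableOn (fun θ : ℝ => Real.cos θ ^ 2) (Ioo (0 : ℝ) (Real.pi / 2)) := by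
  apply IntegrableOn.mono_set (t := Icc (0 : ℝ) (Real.pi / 2)) _ Ioo_subset_Icc_self
  exact (by fun_prop : Continuous _).continuousOn.integrableOn_compact isCompact_Icc

theorem JI_inner_aux (a b : ℝ) (ha : 0 < a) (hb : 0 < b) : ∀ θ ∈ Ioo (0 : ℝ) (Real.pi / 2),
    (a / b) * (2 * Real.tan θ / Real.cos θ ^ 2) *
      ((√((a / b) * Real.tan θ ^ 2))⁻¹ / (a + (a / b) * Real.tan θ ^ 2 * b) ^ 2) =
      2 / (a * √(a * b)) * Real.cos θ ^ 2 := by
  intro θ hθ
  have h1 := Real.tan_pos_of_pos_of_lt_pi_div_two hθ.1 hθ.2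
  have hc : 0 < Real.cos θ := Real.cos_pos_of_mem_Ioo ⟨by linarith [hθ.1, Real.pi_pos], hθ.2⟩
  have h2 : a + (a / b) * Real.tan θ ^ 2 * b = a / Real.cos θ ^ 2 := by
    have h3 := Real.inv_one_add_tan_sq hc.ne'
    have h4 : 1 + Real.tan θ ^ 2 = (Real.cos θ ^ 2)⁻¹ := by rw [← h3, inv_inv]
    have h6 : a / Real.cos θ ^ 2 = a * (1 + Real.tan θ ^ 2) := by rw [h4, div_eq_mul_inv]
    rw [h6]
    field_simp
  have h5 : √((a / b) * Real.tan θ ^ 2) = a / √(a * b) * Real.tan θ := by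
    rw [Real.sqrt_mul (by positivity), Real.sqrt_sq h1.le]
    congr 1
    rw [Real.sqrt_div ha.le, Real.sqrt_mul ha.le]
    have e1 := Real.mul_self_sqrt ha.le
    have e2 : 0 < √a := Real.sqrt_pos.2 ha
    have e3 : 0 < √b := Real.sqrt_pos.2 hb
    rw [div_eq_div_iff e3.ne' (by positivity)]
    linear_combination √b * e1
  rw [h2, h5]
  have e4 : 0 < √(a * b) := Real.sqrt_pos.2 (by positivity)
  have e5 := Real.sq_sqrt (show (0 : ℝ) ≤ a * b by positivity)
  field_simp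
  rw [e5]

theorem JI_inner (a b : ℝ) (ha : 0 < a) (hb : 0 < b) :
    IntegrableOn (fun u : ℝ => (√u)⁻¹ / (a + u * b) ^ 2) (Ioi (0 : ℝ)) ∧
    ∫ u in Ioi (0 : ℝ), (√u)⁻¹ / (a + u * b) ^ 2 = Real.pi / 2 / (a * √(a * b)) := by
  constructor
  · rw [JI_cv_int (a / b) (by positivity), integrableOn_congr_fun (JI_inner_aux a b ha hb)
      measurableSet_Ioo]
    exact JI_cosint.const_mul _
  · rw [JI_cv (a / b) (by positivity), setIntegral_congr_fun measurableSet_Ioo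
      (JI_inner_aux a b ha hb), integral_const_mul]
    have := JI_cos 0
    simp only [mul_zero, pow_zero, mul_one, Nat.centralBinom_zero, Nat.cast_one, div_one,
      CharP.cast_eq_zero, zero_add] at this
    rw [this]
    ring

theorem JI_outer_aux (D A B x : ℝ) (hD : 0 < D) (hA : 0 < A) (hB : 0 < B) (hx : |x| < 1) :
    ∀ θ ∈ Ioo (0 : ℝ) (Real.pi / 2),
    (D / A) * (2 * Real.tan θ / Real.cos θ ^ 2) *
      ((√((D / A) * Real.tan θ ^ 2))⁻¹ / ((D + (D / A) * Real.tan θ ^ 2 * A) *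
        √((D + (D / A) * Real.tan θ ^ 2 * A) *
          (B + (D / A) * Real.tan θ ^ 2 * (A * B * (1 - x) / D))))) =
      2 / (D * √(A * B)) * (Real.cos θ ^ 2 * (1 / √(1 - x * Real.sin θ ^ 2))) := by
  intro θ hθ
  have h1 := Real.tan_pos_of_pos_of_lt_pi_div_two hθ.1 hθ.2
  have hc : 0 < Real.cos θ := Real.cos_pos_of_mem_Ioo ⟨by linarith [hθ.1, Real.pi_pos], hθ.2⟩
  have h3 := Real.inv_one_add_tan_sq hc.ne'
  have h4 : 1 + Real.tan θ ^ 2 = (Real.cos θ ^ 2)⁻¹ := by rw [← h3, inv_inv]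
  have h2 : D + (D / A) * Real.tan θ ^ 2 * A = D / Real.cos θ ^ 2 := by
    have h6 : D / Real.cos θ ^ 2 = D * (1 + Real.tan θ ^ 2) := by rw [h4, div_eq_mul_inv]
    rw [h6]
    field_simp
  have hs := Real.sin_sq_add_cos_sq θ
  have hs1 : Real.sin θ ^ 2 ≤ 1 := by nlinarith [sq_nonneg (Real.cos θ)]
  have hy : 0 < 1 - x * Real.sin θ ^ 2 := by
    have : |x * Real.sin θ ^ 2| ≤ |x| := by
      rw [abs_mul, abs_of_nonneg (sq_nonneg (Real.sin θ))]
      exact mul_le_of_le_one_right (abs_nonneg x) hs1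
    linarith [le_abs_self (x * Real.sin θ ^ 2)]
  have h7 : B + (D / A) * Real.tan θ ^ 2 * (A * B * (1 - x) / D) =
      B * (1 - x * Real.sin θ ^ 2) / Real.cos θ ^ 2 := by
    rw [Real.tan_eq_sin_div_cos]
    field_simp
    linear_combination hs
  have h5 : √((D / A) * Real.tan θ ^ 2) = D / √(D * A) * Real.tan θ := by
    rw [Real.sqrt_mul (by positivity), Real.sqrt_sq h1.le]
    congr 1
    rw [Real.sqrt_div hD.le, Real.sqrt_mul hD.le]
    have e1 := Real.mul_self_sqrt hD.le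
    have e2 : 0 < √D := Real.sqrt_pos.2 hD
    have e3 : 0 < √A := Real.sqrt_pos.2 hA
    rw [div_eq_div_iff e3.ne' (by positivity)]
    linear_combination √A * e1
  have h8 : √(D / Real.cos θ ^ 2 * (B * (1 - x * Real.sin θ ^ 2) / Real.cos θ ^ 2)) =
      √(D * B) * √(1 - x * Real.sin θ ^ 2) / Real.cos θ ^ 2 := by
    rw [← Real.sqrt_mul (by positivity), ← Real.sqrt_sq (show 0 ≤ Real.cos θ ^ 2 by positivity),
      ← Real.sqrt_div (by positivity)]
    rw [Real.sqrt_sq (show 0 ≤ Real.cos θ ^ 2 by positivity)]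
    congr 1
    field_simp
  rw [h2, h5, h7, h8]
  have e4 : √(D * A) * √(A * B) = A * √(D * B) := by
    rw [← Real.sqrt_mul (by positivity), show D * A * (A * B) = A ^ 2 * (D * B) by ring,
      Real.sqrt_mul (by positivity), Real.sqrt_sq hA.le]
  have e5 : 0 < √(D * A) := Real.sqrt_pos.2 (by positivity)
  have e6 : 0 < √(A * B) := Real.sqrt_pos.2 (by positivity)
  have e7 : 0 < √(D * B) := Real.sqrt_pos.2 (by positivity)
  have e8 : 0 < √(1 - x * Real.sin θ ^ 2) := Real.sqrt_pos.2 hy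
  field_simp
  linear_combination e4

theorem JI_pos (D A B x : ℝ) (hD : 0 < D) (hA : 0 < A) (hB : 0 < B) (hx : |x| < 1)
    (t : ℝ) (ht : 0 < t) : 0 < D + t * A ∧ 0 < B + t * (A * B * (1 - x) / D) := by
  have h1 : 0 < 1 - x := by linarith [le_abs_self x]
  constructor <;> positivity

theorem JI_sin_abs (x : ℝ) (θ : ℝ) : |x * Real.sin θ ^ 2| ≤ |x| := by
  rw [abs_mul, abs_of_nonneg (sq_nonneg (Real.sin θ))]
  refine mul_le_of_le_one_right (abs_nonneg x) ?_
  nlinarith [sq_nonneg (Real.cos θ), Real.sin_sq_add_cos_sq θ]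

theorem JI_outer_cont (x : ℝ) (hx : |x| < 1) :
    IntegrableOn (fun θ : ℝ => Real.cos θ ^ 2 * (1 / √(1 - x * Real.sin θ ^ 2)))
      (Ioo (0 : ℝ) (Real.pi / 2)) := by
  apply IntegrableOn.mono_set (t := Icc (0 : ℝ) (Real.pi / 2)) _ Ioo_subset_Icc_self
  refine Continuous.continuousOn ?_ |>.integrableOn_compact isCompact_Icc
  refine (by fun_prop : Continuous fun θ : ℝ => Real.cos θ ^ 2).mul ?_
  refine continuous_const.div (by fun_prop) (fun θ => ?_)
  have := JI_sin_abs x θ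
  have h1 : 0 < 1 - x * Real.sin θ ^ 2 := by linarith [le_abs_self (x * Real.sin θ ^ 2)]
  exact (Real.sqrt_pos.2 h1).ne'

theorem JI_outer (D A B x : ℝ) (hD : 0 < D) (hA : 0 < A) (hB : 0 < B) (hx : |x| < 1) :
    ∫ t in Ioi (0 : ℝ), (√t)⁻¹ / ((D + t * A) * √((D + t * A) * (B + t * (A * B * (1 - x) / D)))) =
      2 / (D * √(A * B)) *
        ∫ θ in Ioo (0 : ℝ) (Real.pi / 2), Real.cos θ ^ 2 * (1 / √(1 - x * Real.sin θ ^ 2)) := by
  rw [JI_cv (D / A) (by positivity), setIntegral_congr_fun measurableSet_Ioo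
    (JI_outer_aux D A B x hD hA hB hx), integral_const_mul]

theorem JI_theta_aux (x : ℝ) (F : ℕ → ℝ → ℝ)
    (hF : F = fun k θ => ((Nat.centralBinom k : ℝ) / 4 ^ k * x ^ k) *
    (Real.cos θ ^ 2 * Real.sin θ ^ (2 * k))) (hx : |x| < 1) (θ : ℝ) :
    Real.cos θ ^ 2 * (1 / √(1 - x * Real.sin θ ^ 2)) = ∑' k, F k θ := by
  have h1 := JI_series (x * Real.sin θ ^ 2) ((JI_sin_abs x θ).trans_lt hx)
  have h2 := (h1.mul_left (Real.cos θ ^ 2)).tsum_eq
  rw [← h2]
  refine tsum_congr (fun k => ?_)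
  rw [hF, mul_pow, ← pow_mul]
  ring

theorem JI_theta (x : ℝ) (hx : |x| < 1) :
    HasSum (fun k => Real.pi / 4 * (hc k * x ^ k))
      (∫ θ in Ioo (0 : ℝ) (Real.pi / 2), Real.cos θ ^ 2 * (1 / √(1 - x * Real.sin θ ^ 2))) := by
  set F : ℕ → ℝ → ℝ := fun k θ => ((Nat.centralBinom k : ℝ) / 4 ^ k * x ^ k) *
    (Real.cos θ ^ 2 * Real.sin θ ^ (2 * k)) with hF
  have hint : ∀ k, Integrable (F k) (volume.restrict (Ioo (0 : ℝ) (Real.pi / 2))) := by
    intro k
    have h0 : IntegrableOn (fun θ : ℝ => Real.cos θ ^ 2 * Real.sin θ ^ (2 * k))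
        (Ioo (0 : ℝ) (Real.pi / 2)) := by
      apply IntegrableOn.mono_set (t := Icc (0 : ℝ) (Real.pi / 2)) _ Ioo_subset_Icc_self
      exact (by fun_prop : Continuous _).continuousOn.integrableOn_compact isCompact_Icc
    exact Integrable.const_mul h0 _
  have hval : ∀ k, ∫ θ in Ioo (0 : ℝ) (Real.pi / 2), F k θ = Real.pi / 4 * (hc k * x ^ k) := by
    intro k
    simp only [hF]
    rw [integral_const_mul, JI_cos]
    unfold hc
    ring
  have hsum : Summable fun k => ∫ θ in Ioo (0 : ℝ) (Real.pi / 2), ‖F k θ‖ := by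
    have h1 : ∀ k, ∫ θ in Ioo (0 : ℝ) (Real.pi / 2), ‖F k θ‖ = Real.pi / 4 * (hc k * |x| ^ k) := by
      intro k
      have : ∀ θ : ℝ, ‖F k θ‖ = ((Nat.centralBinom k : ℝ) / 4 ^ k * |x| ^ k) *
          (Real.cos θ ^ 2 * Real.sin θ ^ (2 * k)) := by
        intro θ
        simp only [hF]
        rw [Real.norm_eq_abs, abs_mul, abs_mul, abs_pow,
          abs_of_nonneg (show (0 : ℝ) ≤ (Nat.centralBinom k : ℝ) / 4 ^ k by positivity),
          abs_of_nonneg (show 0 ≤ Real.cos θ ^ 2 * Real.sin θ ^ (2 * k) by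
            rw [pow_mul]; positivity)]
      simp_rw [this]
      rw [integral_const_mul, JI_cos]
      unfold hc
      ring
    simp_rw [h1]
    refine Summable.mul_left _ ?_
    refine Summable.of_nonneg_of_le (fun k => mul_nonneg (hc_pos k).le (by positivity))
      (fun k => ?_) hc_summable
    exact mul_le_of_le_one_right (hc_pos k).le (pow_le_one₀ (abs_nonneg x) hx.le)
  have h := hasSum_integral_of_summable_integral_norm hint hsum
  simp_rw [hval] at h
  have e : ∫ θ in Ioo (0 : ℝ) (Real.pi / 2), Real.cos θ ^ 2 * (1 / √(1 - x * Real.sin θ ^ 2)) =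
      ∫ θ in Ioo (0 : ℝ) (Real.pi / 2), ∑' k, F k θ := by
    refine setIntegral_congr_fun measurableSet_Ioo (fun θ _ => ?_)
    exact JI_theta_aux x F hF hx θ
  rw [e]
  exact h

/-- the double integral as a series -/
theorem Jint_series (D A B Ee c x : ℝ) (hD : 0 < D) (hA : 0 < A) (hB : 0 < B)
    (hx : |x| < 1) (hE : A * B - D * Ee = A * B * x) :
    HasSum (fun k => (Real.pi / 4) * (c / (D * √(A * B))) * (hc k * x ^ k)) (Jint D A B Ee c) := by
  have hEe : Ee = A * B * (1 - x) / D := by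
    field_simp
    linarith
  subst hEe
  have h1 : Jint D A B (A * B * (1 - x) / D) c =
      c / (D * √(A * B)) *
        ∫ θ in Ioo (0 : ℝ) (Real.pi / 2), Real.cos θ ^ 2 * (1 / √(1 - x * Real.sin θ ^ 2)) := by
    unfold Jint
    have h2 : ∫ t in Ioi (0 : ℝ), ∫ u in Ioi (0 : ℝ),
        (√t)⁻¹ * (√u)⁻¹ * c / (D + t * A + u * B + t * u * (A * B * (1 - x) / D)) ^ 2 =
        ∫ t in Ioi (0 : ℝ), (c * (Real.pi / 2)) *
          ((√t)⁻¹ / ((D + t * A) * √((D + t * A) * (B + t * (A * B * (1 - x) / D))))) := by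
      refine setIntegral_congr_fun measurableSet_Ioi (fun t ht => ?_)
      obtain ⟨p1, p2⟩ := JI_pos D A B x hD hA hB hx t ht
      have h3 : ∀ u : ℝ, (√t)⁻¹ * (√u)⁻¹ * c /
          (D + t * A + u * B + t * u * (A * B * (1 - x) / D)) ^ 2 =
          ((√t)⁻¹ * c) * ((√u)⁻¹ / ((D + t * A) + u * (B + t * (A * B * (1 - x) / D))) ^ 2) := by
        intro u
        rw [show D + t * A + u * B + t * u * (A * B * (1 - x) / D) =
          (D + t * A) + u * (B + t * (A * B * (1 - x) / D)) by ring]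
        ring
      simp_rw [h3]
      rw [integral_const_mul, (JI_inner _ _ p1 p2).2]
      ring
    rw [h2, integral_const_mul, JI_outer D A B x hD hA hB hx]
    have := Real.pi_pos
    field_simp
  rw [h1]
  have h4 := (JI_theta x hx).mul_left (c / (D * √(A * B)))
  have e : (fun k => (Real.pi / 4) * (c / (D * √(A * B))) * (hc k * x ^ k)) =
      fun k => c / (D * √(A * B)) * (Real.pi / 4 * (hc k * x ^ k)) := by
    funext k
    ring
  rw [e]
  exact h4

end GUB
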