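import Pool.Agent.Lib.MP_721eb4_an.UB.Defs
import Pool.Agent.Lib.MP_721eb4_an.UB.JI

/-! Upper bound for the complex Grothendieck constant: module JIm -/

set_option autoImplicit false

open MeasureTheory Complex Set GLB
open scoped ComplexConjugate

namespace GUB

theorem JIm_outer_aux (D A B : ℝ) (hD : 0 < D) (hA : 0 < A) (hB : 0 < B) :
    ∀ θ ∈ Ioo (0 : ℝ) (Real.pi / 2),
    (D / A) * (2 * Real.tan θ / Real.cos θ ^ 2) *
      ((√((D / A) * Real.tan θ ^ 2))⁻¹ * (Real.pi / 2 / ((D + (D / A) * Real.tan θ ^ 2 * A) *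
        √((D + (D / A) * Real.tan θ ^ 2 * A) * B)))) =
      Real.pi / (D * √(A * B)) * Real.cos θ := by
  intro θ hθ
  have h1 := Real.tan_pos_of_pos_of_lt_pi_div_two hθ.1 hθ.2
  have hc : 0 < Real.cos θ := Real.cos_pos_of_mem_Ioo ⟨by linarith [hθ.1, Real.pi_pos], hθ.2⟩
  have h3 := Real.inv_one_add_tan_sq hc.ne'
  have h4 : 1 + Real.tan θ ^ 2 = (Real.cos θ ^ 2)⁻¹ := by rw [← h3, inv_inv]
  have h2 : D + (D / A) * Real.tan θ ^ 2 * A = D / Real.cos θ ^ 2 := by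
    have h6 : D / Real.cos θ ^ 2 = D * (1 + Real.tan θ ^ 2) := by rw [h4, div_eq_mul_inv]
    rw [h6]
    field_simp
  have h5 : √((D / A) * Real.tan θ ^ 2) = D / √(D * A) * Real.tan θ := by
    rw [Real.sqrt_mul (by positivity), Real.sqrt_sq h1.le]
    congr 1
    rw [Real.sqrt_div hD.le, Real.sqrt_mul hD.le]
    have e1 := Real.mul_self_sqrt hD.le
    have e2 : 0 < √D := Real.sqrt_pos.2 hD
    have e3 : 0 < √A := Real.sqrt_pos.2 hA
    rw [div_eq_div_iff e3.ne' (by positivity)]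
    linear_combination √A * e1
  have h8 : √(D / Real.cos θ ^ 2 * B) = √(D * B) / Real.cos θ := by
    rw [show D / Real.cos θ ^ 2 * B = (D * B) / Real.cos θ ^ 2 by ring,
      Real.sqrt_div (by positivity), Real.sqrt_sq hc.le]
  rw [h2, h5, h8]
  have e4 : √(D * A) * √(A * B) = A * √(D * B) := by
    rw [← Real.sqrt_mul (by positivity), show D * A * (A * B) = A ^ 2 * (D * B) by ring,
      Real.sqrt_mul (by positivity), Real.sqrt_sq hA.le]
  have e5 : 0 < √(D * A) := Real.sqrt_pos.2 (by positivity)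
  have e6 : 0 < √(A * B) := Real.sqrt_pos.2 (by positivity)
  have e7 : 0 < √(D * B) := Real.sqrt_pos.2 (by positivity)
  field_simp
  linear_combination e4

theorem JIm_outer (D A B : ℝ) (hD : 0 < D) (hA : 0 < A) (hB : 0 < B) :
    IntegrableOn (fun t : ℝ => (√t)⁻¹ * (Real.pi / 2 / ((D + t * A) * √((D + t * A) * B))))
      (Ioi (0 : ℝ)) ∧
    ∫ t in Ioi (0 : ℝ), (√t)⁻¹ * (Real.pi / 2 / ((D + t * A) * √((D + t * A) * B))) =
      Real.pi / (D * √(A * B)) := by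
  constructor
  · rw [JI_cv_int (D / A) (by positivity), integrableOn_congr_fun (JIm_outer_aux D A B hD hA hB)
      measurableSet_Ioo]
    refine Integrable.const_mul ?_ _
    have h0 : IntegrableOn (fun θ : ℝ => Real.cos θ) (Ioo (0 : ℝ) (Real.pi / 2)) := by
      apply IntegrableOn.mono_set (t := Icc (0 : ℝ) (Real.pi / 2)) _ Ioo_subset_Icc_self
      exact (by fun_prop : Continuous _).continuousOn.integrableOn_compact isCompact_Icc
    exact h0
  · rw [JI_cv (D / A) (by positivity), setIntegral_congr_fun measurableSet_Ioo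
      (JIm_outer_aux D A B hD hA hB), integral_const_mul, ← integral_Ioc_eq_integral_Ioo,
      ← intervalIntegral.integral_of_le (by positivity), integral_cos]
    simp

/-- the majorant -/
theorem Jint_majorant (δD δA δB : ℝ) (hD : 0 < δD) (hA : 0 < δA) (hB : 0 < δB) :
    IntegrableOn (fun p : ℝ × ℝ => (√p.1)⁻¹ * (√p.2)⁻¹ / (δD + p.1 * δA + p.2 * δB) ^ 2)
      (Ioi (0 : ℝ) ×ˢ Ioi (0 : ℝ)) ∧
    ∫ p : ℝ × ℝ in Ioi (0 : ℝ) ×ˢ Ioi (0 : ℝ),
      (√p.1)⁻¹ * (√p.2)⁻¹ / (δD + p.1 * δA + p.2 * δB) ^ 2 = Real.pi / (δD * √(δA * δB)) := by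
  have hmeas : Measurable (fun p : ℝ × ℝ =>
      (√p.1)⁻¹ * (√p.2)⁻¹ / (δD + p.1 * δA + p.2 * δB) ^ 2) := by
    fun_prop
  have hrw : ∀ t u : ℝ, (√t)⁻¹ * (√u)⁻¹ / (δD + t * δA + u * δB) ^ 2 =
      (√t)⁻¹ * ((√u)⁻¹ / ((δD + t * δA) + u * δB) ^ 2) := by
    intro t u
    ring
  have hin : ∀ t ∈ Ioi (0 : ℝ),
      Integrable (fun u : ℝ => (√t)⁻¹ * (√u)⁻¹ / (δD + t * δA + u * δB) ^ 2)
        (volume.restrict (Ioi (0 : ℝ))) ∧
      ∫ u in Ioi (0 : ℝ), (√t)⁻¹ * (√u)⁻¹ / (δD + t * δA + u * δB) ^ 2 =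
        (√t)⁻¹ * (Real.pi / 2 / ((δD + t * δA) * √((δD + t * δA) * δB))) := by
    intro t ht
    have ht' : 0 < t := ht
    obtain ⟨h1, h2⟩ := JI_inner (δD + t * δA) δB (by positivity) hB
    simp_rw [hrw]
    refine ⟨Integrable.const_mul h1 _, ?_⟩
    rw [integral_const_mul, h2]
  have hae : ∀ᵐ t ∂(volume.restrict (Ioi (0 : ℝ))), t ∈ Ioi (0 : ℝ) :=
    ae_restrict_mem measurableSet_Ioi
  obtain ⟨ho1, ho2⟩ := JIm_outer δD δA δB hD hA hB
  have hint : Integrable (fun p : ℝ × ℝ =>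
      (√p.1)⁻¹ * (√p.2)⁻¹ / (δD + p.1 * δA + p.2 * δB) ^ 2)
      ((volume.restrict (Ioi (0 : ℝ))).prod (volume.restrict (Ioi (0 : ℝ)))) := by
    rw [integrable_prod_iff hmeas.aestronglyMeasurable]
    refine ⟨?_, ?_⟩
    · filter_upwards [hae] with t ht
      exact (hin t ht).1
    · refine Integrable.congr ho1 ?_
      filter_upwards [hae] with t ht
      rw [← (hin t ht).2]
      refine setIntegral_congr_fun measurableSet_Ioi (fun u hu => ?_)
      have hu' : 0 < u := hu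
      have ht' : 0 < t := ht
      rw [Real.norm_of_nonneg (by positivity)]
  have hprod : (volume : Measure (ℝ × ℝ)).restrict (Ioi (0 : ℝ) ×ˢ Ioi (0 : ℝ)) =
      (volume.restrict (Ioi (0 : ℝ))).prod (volume.restrict (Ioi (0 : ℝ))) := by
    rw [Measure.prod_restrict, Measure.volume_eq_prod]
  refine ⟨?_, ?_⟩
  · unfold IntegrableOn
    rw [hprod]
    exact hint
  · rw [hprod, integral_prod _ hint, ← ho2]
    exact setIntegral_congr_fun measurableSet_Ioi (fun t ht => (hin t ht).2)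

end GUB
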