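import Pool.Agent.Lib.MP_721eb4_an.UB.Defs

/-! Upper bound for the complex Grothendieck constant: module PSer -/

set_option autoImplicit false

open MeasureTheory Complex Set GLB
open scoped ComplexConjugate

namespace GUB

/-- the integrand of the `m`-th Cauchy coefficient -/
private noncomputable def PSer_h (f : ℂ → ℂ) (R : ℝ) (m : ℕ) (θ : ℝ) : ℂ :=
  ((circleMap 0 R θ)⁻¹) ^ m * f (circleMap 0 R θ)

private lemma PSer_norm (f : ℂ → ℂ) (R : ℝ) (hR : 0 < R) (m : ℕ) (θ : ℝ) :
    ‖PSer_h f R m θ‖ = R⁻¹ ^ m * ‖f (circleMap 0 R θ)‖ := by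
  unfold PSer_h
  rw [norm_mul, norm_pow, norm_inv, norm_circleMap_zero, abs_of_pos hR]

/-- the Cauchy coefficient -/
private noncomputable def PSer_c (f : ℂ → ℂ) (R : ℝ) (m : ℕ) : ℂ :=
  ((2 * Real.pi : ℝ) : ℂ)⁻¹ * ∫ θ in Ioc 0 (2 * Real.pi), PSer_h f R m θ

private lemma PSer_coeff (f : ℂ → ℂ) (R : ℝ) (hR : 0 < R) (m : ℕ) (s : ℂ) :
    (2 * Real.pi * I : ℂ)⁻¹ • ∮ z in C(0, R), (s / (z - 0)) ^ m • (z - 0)⁻¹ • f z =
      PSer_c f R m * s ^ m := by
  unfold circleIntegral PSer_c
  have h1 : ∀ θ : ℝ, deriv (circleMap 0 R) θ •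
      ((s / (circleMap 0 R θ - 0)) ^ m • (circleMap 0 R θ - 0)⁻¹ • f (circleMap 0 R θ)) =
      (I * s ^ m) * PSer_h f R m θ := by
    intro θ
    have h2 : circleMap 0 R θ ≠ 0 := circleMap_ne_center hR.ne'
    unfold PSer_h
    rw [deriv_circleMap, sub_zero, smul_eq_mul, smul_eq_mul, smul_eq_mul, div_eq_mul_inv, mul_pow]
    field_simp
  simp only [h1]
  rw [intervalIntegral.integral_of_le (by positivity), integral_const_mul, smul_eq_mul]
  have h3 : (Real.pi : ℂ) ≠ 0 := by exact_mod_cast Real.pi_ne_zero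
  have h4 : I ≠ 0 := Complex.I_ne_zero
  push_cast
  field_simp

/-- Cauchy's expansion -/
private lemma PSer_hasSum (f : ℂ → ℂ) (R : ℝ) (hR : 0 < R)
    (hd : DifferentiableOn ℂ f (Metric.ball 0 R))
    (hcont : ContinuousOn f (Metric.closedBall 0 R)) (s : ℂ) (hs : ‖s‖ < R) :
    HasSum (fun m => PSer_c f R m * s ^ m) (f s) := by
  lift R to NNReal using hR.le
  have h1 : DiffContOnCl ℂ f (Metric.ball 0 R) := by
    refine ⟨hd, ?_⟩
    rw [closure_ball _ hR.ne']
    exact hcont
  have h2 := (h1.hasFPowerSeriesOnBall (by exact_mod_cast hR)).hasSum (y := s) (by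
    rw [Metric.mem_eball, edist_zero_right]
    have h3 : ‖s‖₊ < R := by exact_mod_cast hs
    exact_mod_cast h3)
  rw [zero_add] at h2
  have h4 : (fun m => (cauchyPowerSeries f 0 R m fun _ => s)) =
      fun m => PSer_c f R m * s ^ m := by
    funext m
    rw [cauchyPowerSeries_apply]
    exact PSer_coeff f R hR m s
  rw [h4] at h2
  exact h2

/-- Cauchy's estimate for a holomorphic function depending on a parameter. -/
theorem param_series {X : Type} [MeasurableSpace X] (μ : Measure X) [SFinite μ]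
    (f : X → ℂ → ℂ) (R C : ℝ) (hR : 0 < R)
    (hd : ∀ x, DifferentiableOn ℂ (f x) (Metric.ball 0 R))
    (hcont : ∀ x, ContinuousOn (f x) (Metric.closedBall 0 R))
    (hm : ∀ s : ℂ, ‖s‖ ≤ R → AEStronglyMeasurable (fun x => f x s) μ)
    (hm2 : AEStronglyMeasurable (fun p : X × ℝ => f p.1 (circleMap 0 R p.2))
      (μ.prod (volume.restrict (Ioc 0 (2 * Real.pi)))))
    (hC : ∀ s : ℂ, ‖s‖ = R → Integrable (fun x => f x s) μ ∧ ∫ x, ‖f x s‖ ∂μ ≤ C) :
    ∃ g : ℕ → ℂ, (∀ m, ‖g m‖ ≤ C * R⁻¹ ^ m) ∧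
      ∀ s : ℂ, ‖s‖ < R → HasSum (fun m => g m * s ^ m) (∫ x, f x s ∂μ) := by
  set ν : Measure ℝ := volume.restrict (Ioc 0 (2 * Real.pi)) with hν
  have hπ : 0 < 2 * Real.pi := by positivity
  have hνu : ν.real univ = 2 * Real.pi := by
    rw [hν, measureReal_restrict_apply MeasurableSet.univ, Set.univ_inter, Real.volume_real_Ioc,
      sub_zero, max_eq_left hπ.le]
  have hC0 : 0 ≤ C := by
    have h1 := (hC (R : ℂ) (by rw [Complex.norm_real, Real.norm_of_nonneg hR.le])).2
    exact (integral_nonneg fun x => norm_nonneg _).trans h1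
  have hcm : ∀ θ : ℝ, ‖circleMap 0 R θ‖ = R := fun θ => by
    rw [norm_circleMap_zero, abs_of_pos hR]
  -- measurability and integrability on the product
  have hmeas : ∀ m, AEStronglyMeasurable (fun p : X × ℝ => PSer_h (f p.1) R m p.2) (μ.prod ν) := by
    intro m
    have h1 : Continuous (fun θ : ℝ => ((circleMap 0 R θ)⁻¹) ^ m) := by
      refine Continuous.pow ?_ m
      exact (continuous_circleMap 0 R).inv₀ fun θ => circleMap_ne_center hR.ne'
    have h2 : AEStronglyMeasurable (fun p : X × ℝ => ((circleMap 0 R p.2)⁻¹) ^ m) (μ.prod ν) :=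
      (h1.measurable.comp measurable_snd).aestronglyMeasurable
    exact h2.mul hm2
  have hbound : ∀ m θ, ∫ x, ‖PSer_h (f x) R m θ‖ ∂μ ≤ C * R⁻¹ ^ m := by
    intro m θ
    simp only [PSer_norm _ R hR]
    rw [integral_const_mul, mul_comm]
    exact mul_le_mul_of_nonneg_right (hC _ (hcm θ)).2 (by positivity)
  have hint : ∀ m, Integrable (fun p : X × ℝ => PSer_h (f p.1) R m p.2) (μ.prod ν) := by
    intro m
    rw [integrable_prod_iff' (hmeas m)]
    constructor
    · refine Filter.Eventually.of_forall fun θ => ?_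
      change Integrable (fun x => ((circleMap 0 R θ)⁻¹) ^ m * f x (circleMap 0 R θ)) μ
      exact ((hC _ (hcm θ)).1).const_mul _
    · refine Integrable.of_bound (C := C * R⁻¹ ^ m) ?_ ?_
      · exact (hmeas m).norm.prod_swap.integral_prod_right'
      · refine Filter.Eventually.of_forall fun θ => ?_
        rw [Real.norm_of_nonneg (integral_nonneg fun x => norm_nonneg _)]
        exact hbound m θ
  have hc : ∀ m, Integrable (fun x => PSer_c (f x) R m) μ := by
    intro m
    unfold PSer_c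
    exact (hint m).integral_prod_left.const_mul _
  have hcn : ∀ m, ∫ x, ‖PSer_c (f x) R m‖ ∂μ ≤ C * R⁻¹ ^ m := by
    intro m
    have h1 : ∀ x, ‖PSer_c (f x) R m‖ ≤ (2 * Real.pi)⁻¹ * ∫ θ, ‖PSer_h (f x) R m θ‖ ∂ν := by
      intro x
      unfold PSer_c
      rw [norm_mul, norm_inv, Complex.norm_real, Real.norm_of_nonneg hπ.le]
      exact mul_le_mul_of_nonneg_left (norm_integral_le_integral_norm _) (by positivity)
    have h2 : Integrable (fun x => (2 * Real.pi)⁻¹ * ∫ θ, ‖PSer_h (f x) R m θ‖ ∂ν) μ :=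
      (hint m).norm.integral_prod_left.const_mul _
    calc ∫ x, ‖PSer_c (f x) R m‖ ∂μ ≤ ∫ x, (2 * Real.pi)⁻¹ * ∫ θ, ‖PSer_h (f x) R m θ‖ ∂ν ∂μ :=
          integral_mono (hc m).norm h2 h1
      _ = (2 * Real.pi)⁻¹ * ∫ θ, ∫ x, ‖PSer_h (f x) R m θ‖ ∂μ ∂ν := by
          rw [integral_const_mul, integral_integral_swap (hint m).norm]
      _ ≤ (2 * Real.pi)⁻¹ * ∫ _θ, C * R⁻¹ ^ m ∂ν := by
          refine mul_le_mul_of_nonneg_left ?_ (by positivity)
          refine integral_mono_of_nonneg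
            (Filter.Eventually.of_forall fun θ => integral_nonneg fun x => norm_nonneg _)
            (integrable_const _) (Filter.Eventually.of_forall fun θ => hbound m θ)
      _ = C * R⁻¹ ^ m := by
          rw [integral_const, hνu, smul_eq_mul]
          field_simp
  refine ⟨fun m => ∫ x, PSer_c (f x) R m ∂μ, fun m =>
    (norm_integral_le_integral_norm _).trans (hcn m), fun s hs => ?_⟩
  have h3 : ∀ x, ∑' m, PSer_c (f x) R m * s ^ m = f x s := fun x =>
    (PSer_hasSum (f x) R hR (hd x) (hcont x) s hs).tsum_eq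
  have h4 := hasSum_integral_of_summable_integral_norm (μ := μ)
    (F := fun m x => PSer_c (f x) R m * s ^ m) (fun m => (hc m).mul_const _) (by
      have h5 : Summable (fun m : ℕ => C * (R⁻¹ * ‖s‖) ^ m) := by
        refine (summable_geometric_of_lt_one (by positivity) ?_).mul_left C
        rw [inv_mul_lt_iff₀ hR, mul_one]
        exact hs
      refine Summable.of_nonneg_of_le (fun m => integral_nonneg fun x => norm_nonneg _)
        (fun m => ?_) h5
      simp only [norm_mul, norm_pow]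
      rw [integral_mul_const, mul_pow, ← mul_assoc]
      exact mul_le_mul_of_nonneg_right (hcn m) (by positivity))
  simp only [h3, integral_mul_const] at h4
  exact h4

end GUB
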