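import Pool.Agent.Lib.MP_721eb4_an.UB.Defs
import Pool.Agent.Lib.MP_721eb4_an.UB.PSer
import Pool.Agent.Lib.MP_721eb4_an.UB.JIm

/-! Upper bound for the complex Grothendieck constant: module PA -/

set_option autoImplicit false

open MeasureTheory Complex Set GLB
open scoped ComplexConjugate

namespace GUB

/-- the integrand, continued to complex `q` -/
private noncomputable def paf (D A B Ee c : Polynomial ℝ) (x : ℝ × ℝ) (s : ℂ) : ℂ :=
  if 0 < x.1 ∧ 0 < x.2 then
    (((1 / Real.pi) * ((√x.1)⁻¹ * (√x.2)⁻¹) : ℝ) : ℂ) * Polynomial.aeval s c /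
      (Polynomial.aeval s D + (x.1 : ℂ) * Polynomial.aeval s A + (x.2 : ℂ) * Polynomial.aeval s B +
        (x.1 : ℂ) * (x.2 : ℂ) * Polynomial.aeval s Ee) ^ 2
  else 0

private lemma pa_den {δD δA δB t u : ℝ} (ht : 0 < t) (hu : 0 < u) (zD zA zB zE : ℂ)
    (hD : δD ≤ zD.re) (hA : δA ≤ zA.re) (hB : δB ≤ zB.re) (hE : 0 ≤ zE.re) :
    δD + t * δA + u * δB ≤ ‖zD + (t : ℂ) * zA + (u : ℂ) * zB + (t : ℂ) * (u : ℂ) * zE‖ := by
  refine le_trans ?_ (Complex.re_le_norm _)
  have h1 : (zD + (t : ℂ) * zA + (u : ℂ) * zB + (t : ℂ) * (u : ℂ) * zE).re =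
      zD.re + t * zA.re + u * zB.re + t * u * zE.re := by
    simp [Complex.add_re, Complex.mul_re]
  rw [h1]
  have h2 : t * δA ≤ t * zA.re := mul_le_mul_of_nonneg_left hA ht.le
  have h3 : u * δB ≤ u * zB.re := mul_le_mul_of_nonneg_left hB hu.le
  have h4 : 0 ≤ t * u * zE.re := mul_nonneg (mul_pos ht hu).le hE
  linarith

theorem pair_param (D A B Ee c : Polynomial ℝ) (Q δD δA δB γ : ℝ) (hQ : 0 < Q)
    (hD : 0 < δD) (hA : 0 < δA) (hB : 0 < δB)
    (pD : ∀ q : ℂ, ‖q‖ ≤ Q → δD ≤ (Polynomial.aeval q D).re)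
    (pA : ∀ q : ℂ, ‖q‖ ≤ Q → δA ≤ (Polynomial.aeval q A).re)
    (pB : ∀ q : ℂ, ‖q‖ ≤ Q → δB ≤ (Polynomial.aeval q B).re)
    (pE : ∀ q : ℂ, ‖q‖ ≤ Q → 0 ≤ (Polynomial.aeval q Ee).re)
    (pc : ∀ q : ℂ, ‖q‖ ≤ Q → ‖Polynomial.aeval q c‖ ≤ γ) :
    ∃ φ : ℕ → ℝ, (∀ N, |φ N| ≤ γ / (δD * √(δA * δB)) * Q⁻¹ ^ N) ∧
      ∀ q : ℝ, |q| < Q → HasSum (fun N => φ N * q ^ N)
        (Jint (D.eval q) (A.eval q) (B.eval q) (Ee.eval q) (c.eval q)) := by
  classical
  set μ : Measure (ℝ × ℝ) := volume.restrict (Ioi (0 : ℝ) ×ˢ Ioi (0 : ℝ)) with hμ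
  obtain ⟨hint, hval⟩ := Jint_majorant δD δA δB hD hA hB
  set maj : ℝ × ℝ → ℝ := fun p => (√p.1)⁻¹ * (√p.2)⁻¹ / (δD + p.1 * δA + p.2 * δB) ^ 2 with hmaj
  have hγ : 0 ≤ γ := (norm_nonneg _).trans (pc 0 (by simpa using hQ.le))
  have hπ : 0 < Real.pi := Real.pi_pos
  have hms : MeasurableSet {x : ℝ × ℝ | 0 < x.1 ∧ 0 < x.2} :=
    (measurableSet_lt measurable_const measurable_fst).inter
      (measurableSet_lt measurable_const measurable_snd)
  -- pointwise bound
  have hbound : ∀ (x : ℝ × ℝ) (s : ℂ), ‖s‖ ≤ Q → 0 < x.1 → 0 < x.2 →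
      ‖paf D A B Ee c x s‖ ≤ γ / Real.pi * maj x := by
    intro x s hs h1 h2
    unfold paf
    rw [if_pos ⟨h1, h2⟩, norm_div, norm_mul, norm_pow, Complex.norm_real, Real.norm_eq_abs]
    have hpos : 0 < δD + x.1 * δA + x.2 * δB := by positivity
    have hden := pa_den h1 h2 _ _ _ _ (pD s hs) (pA s hs) (pB s hs) (pE s hs)
    have h3 : 0 < √x.1 := Real.sqrt_pos.2 h1
    have h4 : 0 < √x.2 := Real.sqrt_pos.2 h2
    have h5 : 0 ≤ 1 / Real.pi * ((√x.1)⁻¹ * (√x.2)⁻¹) := by positivity
    rw [abs_of_nonneg h5]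
    calc 1 / Real.pi * ((√x.1)⁻¹ * (√x.2)⁻¹) * ‖(Polynomial.aeval s) c‖ /
          ‖(Polynomial.aeval s) D + (x.1 : ℂ) * (Polynomial.aeval s) A +
            (x.2 : ℂ) * (Polynomial.aeval s) B + (x.1 : ℂ) * (x.2 : ℂ) * (Polynomial.aeval s) Ee‖ ^ 2
        ≤ 1 / Real.pi * ((√x.1)⁻¹ * (√x.2)⁻¹) * γ / (δD + x.1 * δA + x.2 * δB) ^ 2 := by
          apply div_le_div₀ (by positivity)
          · exact mul_le_mul_of_nonneg_left (pc s hs) h5
          · positivity
          · exact pow_le_pow_left₀ hpos.le hden 2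
      _ = γ / Real.pi * maj x := by
          rw [hmaj]
          ring
  have haem : ∀ᵐ x ∂μ, 0 < x.1 ∧ 0 < x.2 := by
    rw [hμ]
    refine (ae_restrict_mem (measurableSet_Ioi.prod measurableSet_Ioi)).mono ?_
    intro x hx
    exact hx
  have hmeas : ∀ s : ℂ, Measurable (fun x => paf D A B Ee c x s) := by
    intro s
    unfold paf
    refine Measurable.ite hms ?_ measurable_const
    fun_prop
  have hmaj_int : Integrable (fun x => γ / Real.pi * maj x) μ := (Integrable.const_mul hint _)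
  obtain ⟨g, hg1, hg2⟩ := param_series μ (paf D A B Ee c) Q (γ / (δD * √(δA * δB))) hQ
    (by
      intro x
      by_cases hx : 0 < x.1 ∧ 0 < x.2
      · have h1 : ∀ s ∈ Metric.ball (0 : ℂ) Q,
            (Polynomial.aeval s D + (x.1 : ℂ) * Polynomial.aeval s A + (x.2 : ℂ) * Polynomial.aeval s B +
              (x.1 : ℂ) * (x.2 : ℂ) * Polynomial.aeval s Ee) ^ 2 ≠ 0 := by
          intro s hs
          have hs' : ‖s‖ ≤ Q := by
            rw [mem_ball_zero_iff] at hs
            exact hs.le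
          have hden := pa_den hx.1 hx.2 _ _ _ _ (pD s hs') (pA s hs') (pB s hs') (pE s hs')
          have hpos : 0 < δD + x.1 * δA + x.2 * δB := by
            have := hx.1; have := hx.2; positivity
          exact pow_ne_zero 2 (norm_pos_iff.1 (hpos.trans_le hden))
        unfold paf
        simp only [if_pos hx]
        refine DifferentiableOn.div ?_ ?_ h1
        · exact ((differentiable_const _).mul (Polynomial.differentiable_aeval c)).differentiableOn
        · have hd : Differentiable ℂ (fun s : ℂ => (Polynomial.aeval s D +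
              (x.1 : ℂ) * Polynomial.aeval s A + (x.2 : ℂ) * Polynomial.aeval s B +
              (x.1 : ℂ) * (x.2 : ℂ) * Polynomial.aeval s Ee) ^ 2) :=
            ((((Polynomial.differentiable_aeval D).add
              ((differentiable_const _).mul (Polynomial.differentiable_aeval A))).add
              ((differentiable_const _).mul (Polynomial.differentiable_aeval B))).add
              ((differentiable_const _).mul (Polynomial.differentiable_aeval Ee))).pow 2
          exact hd.differentiableOn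
      · unfold paf
        simp only [if_neg hx]
        exact differentiableOn_const _)
    (by
      intro x
      by_cases hx : 0 < x.1 ∧ 0 < x.2
      · have h1 : ∀ s ∈ Metric.closedBall (0 : ℂ) Q,
            (Polynomial.aeval s D + (x.1 : ℂ) * Polynomial.aeval s A + (x.2 : ℂ) * Polynomial.aeval s B +
              (x.1 : ℂ) * (x.2 : ℂ) * Polynomial.aeval s Ee) ^ 2 ≠ 0 := by
          intro s hs
          have hs' : ‖s‖ ≤ Q := by
            rwa [mem_closedBall_zero_iff] at hs
          have hden := pa_den hx.1 hx.2 _ _ _ _ (pD s hs') (pA s hs') (pB s hs') (pE s hs')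
          have hpos : 0 < δD + x.1 * δA + x.2 * δB := by
            have := hx.1; have := hx.2; positivity
          exact pow_ne_zero 2 (norm_pos_iff.1 (hpos.trans_le hden))
        unfold paf
        simp only [if_pos hx]
        refine ContinuousOn.div ?_ ?_ h1
        · fun_prop
        · fun_prop
      · unfold paf
        simp only [if_neg hx]
        exact continuousOn_const)
    (fun s _ => (hmeas s).aestronglyMeasurable)
    (by
      have : Measurable (fun p : (ℝ × ℝ) × ℝ => paf D A B Ee c p.1 (circleMap 0 Q p.2)) := by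
        unfold paf
        refine Measurable.ite (hms.preimage measurable_fst) ?_ measurable_const
        have hcm : Measurable (fun p : (ℝ × ℝ) × ℝ => circleMap 0 Q p.2) :=
          ((continuous_circleMap 0 Q).comp continuous_snd).measurable
        have hpm : ∀ P : Polynomial ℝ, Measurable (fun p : (ℝ × ℝ) × ℝ =>
            Polynomial.aeval (circleMap 0 Q p.2) P) := fun P =>
          ((Polynomial.continuous_aeval P).measurable).comp hcm
        have h1 := hpm D
        have h2 := hpm A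
        have h3 := hpm B
        have h4 := hpm Ee
        have h5 := hpm c
        fun_prop
      exact this.aestronglyMeasurable)
    (by
      intro s hs
      have hb : ∀ᵐ x ∂μ, ‖paf D A B Ee c x s‖ ≤ γ / Real.pi * maj x := by
        filter_upwards [haem] with x hx
        exact hbound x s hs.le hx.1 hx.2
      have hi : Integrable (fun x => paf D A B Ee c x s) μ :=
        hmaj_int.mono' (hmeas s).aestronglyMeasurable hb
      refine ⟨hi, ?_⟩
      calc ∫ x, ‖paf D A B Ee c x s‖ ∂μ ≤ ∫ x, γ / Real.pi * maj x ∂μ :=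
            integral_mono_ae hi.norm hmaj_int hb
        _ = γ / Real.pi * (Real.pi / (δD * √(δA * δB))) := by
            rw [integral_const_mul, hval]
        _ = γ / (δD * √(δA * δB)) := by
            field_simp)
  refine ⟨fun N => (g N).re, fun N => (Complex.abs_re_le_norm _).trans (hg1 N), ?_⟩
  intro q hq
  have hqn : ‖(q : ℂ)‖ < Q := by rwa [Complex.norm_real, Real.norm_eq_abs]
  have h1 := Complex.hasSum_re (hg2 q hqn)
  have h2 : ∀ N, (g N * (q : ℂ) ^ N).re = (g N).re * q ^ N := by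
    intro N
    rw [← Complex.ofReal_pow, Complex.re_mul_ofReal]
  simp only [h2] at h1
  have haev : ∀ P : Polynomial ℝ, Polynomial.aeval (q : ℂ) P = ((P.eval q : ℝ) : ℂ) := by
    intro P
    rw [show ((q : ℂ)) = algebraMap ℝ ℂ q from rfl, Polynomial.aeval_algebraMap_apply,
      Polynomial.coe_aeval_eq_eval]
    rfl
  -- the integral
  set F : ℝ × ℝ → ℝ := fun x => (√x.1)⁻¹ * (√x.2)⁻¹ * c.eval q /
    (D.eval q + x.1 * A.eval q + x.2 * B.eval q + x.1 * x.2 * Ee.eval q) ^ 2 with hF
  have hpaf : ∀ᵐ x ∂μ, paf D A B Ee c x q = ((1 / Real.pi * F x : ℝ) : ℂ) := by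
    filter_upwards [haem] with x hx
    unfold paf
    rw [if_pos hx, haev, haev, haev, haev, haev, hF]
    push_cast
    ring
  have hFint : IntegrableOn F (Ioi (0 : ℝ) ×ˢ Ioi (0 : ℝ)) := by
    have hb : ∀ᵐ x ∂μ, ‖paf D A B Ee c x q‖ ≤ γ / Real.pi * maj x := by
      filter_upwards [haem] with x hx
      exact hbound x q hqn.le hx.1 hx.2
    have hi : Integrable (fun x => paf D A B Ee c x q) μ :=
      hmaj_int.mono' (hmeas q).aestronglyMeasurable hb
    have hi2 : Integrable (fun x => ((1 / Real.pi * F x : ℝ) : ℂ)) μ := hi.congr hpaf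
    have hi3 : Integrable (fun x => 1 / Real.pi * F x) μ := by
      have := hi2.re
      simpa using this
    have hi4 := hi3.const_mul Real.pi
    have he : (fun x => Real.pi * (1 / Real.pi * F x)) = F := by
      ext x
      field_simp
    rw [he] at hi4
    exact hi4
  have h3 : ∫ x, paf D A B Ee c x q ∂μ = ((1 / Real.pi * ∫ x, F x ∂μ : ℝ) : ℂ) := by
    rw [integral_congr_ae hpaf, integral_complex_ofReal, integral_const_mul]
  have h4 : ∫ x, F x ∂μ = ∫ t in Ioi (0 : ℝ), ∫ u in Ioi (0 : ℝ), F (t, u) := by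
    rw [hμ]
    exact setIntegral_prod F hFint
  rw [h3, Complex.ofReal_re, h4] at h1
  exact h1

end GUB
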