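import Pool.Agent.Lib.MP_721eb4_an.UB.NB

/-! Upper bound for the complex Grothendieck constant: module Dens -/

set_option autoImplicit false

open MeasureTheory Complex Set GLB
open scoped ComplexConjugate ENNReal

namespace GUB

/-- the real density -/
noncomputable def dnK (r : ℝ) (p : ℂ × ℂ) : ℝ :=
  (Real.pi ^ 2 * (1 - r ^ 2))⁻¹ *
    Real.exp (-((‖p.1‖ ^ 2 + ‖p.2‖ ^ 2 - 2 * r * (p.1 * conj p.2).re) / (1 - r ^ 2)))

theorem dn_continuous (r : ℝ) : Continuous (dnK r) := by
  unfold dnK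
  fun_prop

theorem dn_pos {r : ℝ} (hr : |r| < 1) (p : ℂ × ℂ) : 0 < dnK r p := by
  have h : 0 < 1 - r ^ 2 := by
    have := abs_lt.mp hr
    nlinarith
  unfold dnK
  have := Real.pi_pos
  positivity

theorem dn_kd (r : ℝ) (z w : ℂ) : kd r z w = (dnK r (z, w) : ℂ) := by
  unfold kd dnK
  have e1 : z * conj z = ((‖z‖ ^ 2 : ℝ) : ℂ) := by
    rw [Complex.mul_conj, Complex.normSq_eq_norm_sq]
  have e2 : w * conj w = ((‖w‖ ^ 2 : ℝ) : ℂ) := by
    rw [Complex.mul_conj, Complex.normSq_eq_norm_sq]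
  have e3 : z * conj w + conj z * w = ((2 * (z * conj w).re : ℝ) : ℂ) := by
    apply Complex.ext
    · simp only [add_re, mul_re, conj_re, conj_im, ofReal_re]
      ring
    · simp only [add_im, mul_im, conj_re, conj_im, ofReal_im]
      ring
  rw [e1, e2, e3]
  push_cast
  ring_nf

theorem kd_real_pos (r : ℝ) (hr : |r| < 1) (z w : ℂ) :
    ∃ x : ℝ, 0 < x ∧ kd r z w = (x : ℂ) :=
  ⟨dnK r (z, w), dn_pos hr _, dn_kd r z w⟩

theorem dn_integrable {r : ℝ} (hr : |r| < 1) : Integrable (dnK r) := by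
  have h := (kd_integrable (r : ℂ) (by rwa [ofReal_re])).norm
  refine h.congr (Filter.Eventually.of_forall fun p => ?_)
  simp only
  rw [dn_kd, Complex.norm_real, Real.norm_eq_abs, abs_of_pos (dn_pos hr _)]

/-- the affine change of variables `w = b + c z` in the plane -/
theorem dn_affine {c : ℝ} (hc : 0 < c) (b : ℂ) (f : ℂ → ℝ≥0∞) (hf : Measurable f) :
    ∫⁻ z : ℂ, f (b + (c : ℂ) * z) = ∫⁻ w : ℂ, ENNReal.ofReal ((c ^ 2)⁻¹) * f w := by
  have h1 : ∫⁻ z : ℂ, f (b + (c : ℂ) * z) =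
      ∫⁻ u, f (b + u) ∂(Measure.map (fun z : ℂ => c • z) volume) := by
    rw [lintegral_map (by fun_prop) (by fun_prop)]
    rfl
  have h2 := Measure.map_addHaar_smul (volume : Measure ℂ) (r := c) hc.ne'
  rw [h1, h2, lintegral_smul_measure, Complex.finrank_real_complex,
    abs_of_pos (by positivity : 0 < (c ^ 2)⁻¹), smul_eq_mul,
    lintegral_add_left_eq_self (μ := (volume : Measure ℂ)) f b, lintegral_const_mul _ hf]

theorem dn_alg {r : ℝ} (hr : |r| < 1) (z w : ℂ) :
    dnK r (z, w) = dens z * (((√(1 - r ^ 2)) ^ 2)⁻¹ *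
      dens (((√(1 - r ^ 2) : ℝ) : ℂ)⁻¹ * (w - (r : ℂ) * z))) := by
  have h : 0 < 1 - r ^ 2 := by
    have := abs_lt.mp hr
    nlinarith
  unfold dnK dens
  rw [Real.sq_sqrt h.le, norm_mul, mul_pow, nb_norm_sub, norm_inv, Complex.norm_real,
    Real.norm_eq_abs, inv_pow, sq_abs, Real.sq_sqrt h.le]
  have e : -((‖z‖ ^ 2 + ‖w‖ ^ 2 - 2 * r * (z * conj w).re) / (1 - r ^ 2)) =
      -‖z‖ ^ 2 + -((1 - r ^ 2)⁻¹ * (‖w‖ ^ 2 - 2 * r * (z * conj w).re + r ^ 2 * ‖z‖ ^ 2)) := by
    field_simp
    ring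
  simp only
  rw [e, Real.exp_add]
  field_simp

theorem dn_map {r : ℝ} (hr : |r| < 1) :
    (cg.prod cg).map (fun p : ℂ × ℂ => (p.1, (r : ℂ) * p.1 + ((√(1 - r ^ 2) : ℝ) : ℂ) * p.2)) =
      (volume : Measure (ℂ × ℂ)).withDensity (fun p => ENNReal.ofReal (dnK r p)) := by
  have h : 0 < 1 - r ^ 2 := by
    have := abs_lt.mp hr
    nlinarith
  have hc : 0 < √(1 - r ^ 2) := Real.sqrt_pos.mpr h
  set c := √(1 - r ^ 2) with hcdef
  have hc' : ((c : ℝ) : ℂ) ≠ 0 := by exact_mod_cast hc.ne'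
  have hd : Measurable dens := continuous_dens.measurable
  refine Measure.ext_of_lintegral _ fun f hf => ?_
  rw [lintegral_map hf (by fun_prop), lintegral_prod _ (by fun_prop), cg_eq,
    lintegral_withDensity_eq_lintegral_mul _ (by fun_prop) (by
      apply Measurable.lintegral_prod_right'
        (f := fun p : ℂ × ℂ => f (p.1, (r : ℂ) * p.1 + (c : ℂ) * p.2))
      fun_prop),
    lintegral_withDensity_eq_lintegral_mul _ (dn_continuous r).measurable.ennreal_ofReal hf,
    Measure.volume_eq_prod, lintegral_prod _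
      (((dn_continuous r).measurable.ennreal_ofReal.mul hf).aemeasurable)]
  refine lintegral_congr fun z => ?_
  simp only [Pi.mul_apply]
  rw [lintegral_withDensity_eq_lintegral_mul _ (by fun_prop) (by fun_prop)]
  simp only [Pi.mul_apply]
  have h3 := dn_affine hc ((r : ℂ) * z)
    (fun w => ENNReal.ofReal (dens ((c : ℂ)⁻¹ * (w - (r : ℂ) * z))) * f (z, w)) (by fun_prop)
  have h4 : ∫⁻ z' : ℂ, ENNReal.ofReal (dens z') * f (z, (r : ℂ) * z + (c : ℂ) * z') =
      ∫⁻ z' : ℂ, (fun w => ENNReal.ofReal (dens ((c : ℂ)⁻¹ * (w - (r : ℂ) * z))) * f (z, w))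
        ((r : ℂ) * z + (c : ℂ) * z') := by
    refine lintegral_congr fun z' => ?_
    simp only
    congr 3
    rw [add_sub_cancel_left, ← mul_assoc, inv_mul_cancel₀ hc', one_mul]
  rw [h4, h3, ← lintegral_const_mul _ (by fun_prop)]
  refine lintegral_congr fun w => ?_
  rw [dn_alg hr z w, ← hcdef, ENNReal.ofReal_mul (dens_nonneg z),
    ENNReal.ofReal_mul (by positivity)]
  ring

theorem dn_pi {n : ℕ} (r : Fin n → ℝ) (hr : ∀ j, |r j| < 1) :
    Measure.pi (fun j => (volume : Measure (ℂ × ℂ)).withDensity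
        (fun p => ENNReal.ofReal (dnK (r j) p))) =
      (volume : Measure (Fin n → ℂ × ℂ)).withDensity
        (fun x => ENNReal.ofReal (∏ j, dnK (r j) (x j))) := by
  have hfin : ∀ j, IsFiniteMeasure ((volume : Measure (ℂ × ℂ)).withDensity
      (fun p => ENNReal.ofReal (dnK (r j) p))) := fun j =>
    isFiniteMeasure_withDensity_ofReal (dn_integrable (hr j)).2
  refine Measure.pi_eq fun s hs => ?_
  rw [withDensity_apply _ (MeasurableSet.univ_pi hs), ← lintegral_indicator
    (MeasurableSet.univ_pi hs)]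
  have h1 : ∀ x : Fin n → ℂ × ℂ, (univ.pi s).indicator
      (fun x => ENNReal.ofReal (∏ j, dnK (r j) (x j))) x =
      ENNReal.ofReal (∏ j, (s j).indicator (dnK (r j)) (x j)) := by
    intro x
    by_cases hx : x ∈ univ.pi s
    · rw [indicator_of_mem hx]
      congr 1
      refine Finset.prod_congr rfl fun j _ => ?_
      rw [indicator_of_mem (hx j (mem_univ j))]
    · rw [indicator_of_notMem hx]
      obtain ⟨j, hj⟩ : ∃ j, x j ∉ s j := by
        by_contra hcon
        push Not at hcon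
        exact hx fun j _ => hcon j
      rw [Finset.prod_eq_zero (Finset.mem_univ j) (indicator_of_notMem hj _), ENNReal.ofReal_zero]
  have hint : ∀ j, Integrable ((s j).indicator (dnK (r j))) := fun j =>
    (dn_integrable (hr j)).indicator (hs j)
  have hnn : ∀ j p, 0 ≤ (s j).indicator (dnK (r j)) p := fun j p =>
    indicator_nonneg (fun p _ => (dn_pos (hr j) p).le) p
  have h5 : Integrable (fun x : Fin n → ℂ × ℂ => ∏ j, (s j).indicator (dnK (r j)) (x j))
      volume := Integrable.fintype_prod (f := fun j => (s j).indicator (dnK (r j))) hint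
  have h6 : ∫⁻ x : Fin n → ℂ × ℂ, ENNReal.ofReal (∏ j, (s j).indicator (dnK (r j)) (x j)) =
      ENNReal.ofReal (∫ x : Fin n → ℂ × ℂ, ∏ j, (s j).indicator (dnK (r j)) (x j)) :=
    (ofReal_integral_eq_lintegral_ofReal h5
      (Filter.Eventually.of_forall fun x => Finset.prod_nonneg fun j _ => hnn j _)).symm
  rw [lintegral_congr h1, h6,
    integral_fintype_prod_volume_eq_prod (fun j => (s j).indicator (dnK (r j))),
    ENNReal.ofReal_prod_of_nonneg (fun j _ => integral_nonneg (hnn j))]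
  refine Finset.prod_congr rfl fun j _ => ?_
  rw [ofReal_integral_eq_lintegral_ofReal (hint j) (Filter.Eventually.of_forall (hnn j)),
    withDensity_apply _ (hs j), ← lintegral_indicator (hs j)]
  refine lintegral_congr fun p => ?_
  by_cases hp : p ∈ s j
  · rw [indicator_of_mem hp, indicator_of_mem hp]
  · rw [indicator_of_notMem hp, indicator_of_notMem hp, ENNReal.ofReal_zero]

theorem corr_dens {n : ℕ} (F H : (Fin n → ℂ) → ℂ) (hF : Measurable F) (hH : Measurable H)
    (C : ℝ) (hF1 : ∀ z, ‖F z‖ ≤ C) (hH1 : ∀ z, ‖H z‖ ≤ C) (r : Fin n → ℝ) (hr : ∀ j, |r j| < 1) :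
    corr F H (fun j => (r j : ℂ))
      = ∫ p : (Fin n → ℂ) × (Fin n → ℂ), F p.1 * conj (H p.2) * ∏ j, kd (r j) (p.1 j) (p.2 j) := by
  set A := MeasurableEquiv.arrowProdEquivProdArrow ℂ ℂ (Fin n) with hA
  set T : Fin n → ℂ × ℂ → ℂ × ℂ := fun j p =>
    (p.1, (r j : ℂ) * p.1 + ((√(1 - r j ^ 2) : ℝ) : ℂ) * p.2) with hT
  have hTm : ∀ j, Measurable (T j) := fun j => by
    simp only [hT]
    fun_prop
  set Φ : (Fin n → ℂ) × (Fin n → ℂ) → ℂ := fun q => F q.1 * conj (H q.2) with hΦ
  have hΦm : Measurable Φ := by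
    simp only [hΦ]
    fun_prop
  -- the law of the pair
  have hm := measurePreserving_arrowProdEquivProdArrow ℂ ℂ (Fin n) (fun _ => cg) (fun _ => cg)
  have hv := volume_measurePreserving_arrowProdEquivProdArrow ℂ ℂ (Fin n)
  have e1 : corr F H (fun j => (r j : ℂ)) =
      ∫ x : Fin n → ℂ × ℂ, Φ (A (fun j => T j (x j))) ∂(Measure.pi fun _ => cg.prod cg) := by
    unfold corr gam
    rw [← hm.integral_comp' (fun p => F p.1 * conj (H (part (fun j => (r j : ℂ)) p)))]
    refine integral_congr_ae (Filter.Eventually.of_forall fun x => ?_)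
    have e : part (fun j => (r j : ℂ)) (A x) = (A (fun j => T j (x j))).2 := by
      funext j
      show conj ((r j : ℝ) : ℂ) * (x j).1 + ((√(1 - ‖((r j : ℝ) : ℂ)‖ ^ 2) : ℝ) : ℂ) * (x j).2 =
        ((r j : ℝ) : ℂ) * (x j).1 + ((√(1 - r j ^ 2) : ℝ) : ℂ) * (x j).2
      rw [conj_ofReal, Complex.norm_real, Real.norm_eq_abs, sq_abs]
    show F (A x).1 * conj (H (part (fun j => (r j : ℂ)) (A x))) =
      F (A x).1 * conj (H (A (fun j => T j (x j))).2)
    rw [e]
  have e2 : (Measure.pi fun _ : Fin n => cg.prod cg).map (fun x j => T j (x j)) =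
      (volume : Measure (Fin n → ℂ × ℂ)).withDensity
        (fun x => ENNReal.ofReal (∏ j, dnK (r j) (x j))) := by
    have hsf : ∀ j, SigmaFinite ((cg.prod cg).map (T j)) := by
      intro j
      have : IsProbabilityMeasure ((cg.prod cg).map (T j)) :=
        Measure.isProbabilityMeasure_map (hTm j).aemeasurable
      infer_instance
    rw [Measure.pi_map_pi (fun j => (hTm j).aemeasurable), ← dn_pi r hr]
    congr 1
    funext j
    exact dn_map (hr j)
  have e3 : ∫ x : Fin n → ℂ × ℂ, Φ (A (fun j => T j (x j))) ∂(Measure.pi fun _ => cg.prod cg) =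
      ∫ y, Φ (A y) ∂((Measure.pi fun _ : Fin n => cg.prod cg).map (fun x j => T j (x j))) := by
    rw [integral_map]
    · exact (measurable_pi_lambda _ fun j => (hTm j).comp (measurable_pi_apply j)).aemeasurable
    · exact (hΦm.comp A.measurable).aestronglyMeasurable
  rw [e1, e3, e2, integral_withDensity_eq_integral_toReal_smul₀ (by
      apply Measurable.aemeasurable
      apply Measurable.ennreal_ofReal
      exact Finset.measurable_prod _ fun j _ =>
        (dn_continuous (r j)).measurable.comp (measurable_pi_apply j))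
      (Filter.Eventually.of_forall fun x => ENNReal.ofReal_lt_top),
    ← hv.integral_comp' (fun p : (Fin n → ℂ) × (Fin n → ℂ) =>
      F p.1 * conj (H p.2) * ∏ j, kd (r j) (p.1 j) (p.2 j))]
  refine integral_congr_ae (Filter.Eventually.of_forall fun x => ?_)
  simp only
  rw [ENNReal.toReal_ofReal (Finset.prod_nonneg fun j _ => (dn_pos (hr j) _).le),
    Complex.real_smul, Complex.ofReal_prod, mul_comm]
  congr 1
  refine Finset.prod_congr rfl fun j _ => ?_
  exact (dn_kd (r j) _ _).symm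

end GUB
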