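import Pool.Agent.Lib.MP_721eb4_an.UB.Defs

/-! Upper bound for the complex Grothendieck constant: module Gauss -/

set_option autoImplicit false

open MeasureTheory Complex Set GLB
open scoped ComplexConjugate

namespace GUB

theorem Gauss_int1 (δ : ℝ) (hδ : 0 < δ) :
    Integrable (fun z : ℂ => Real.exp (-(δ * ‖z‖ ^ 2))) := by
  have h := (GaussianFourier.integrable_cexp_neg_mul_sq_norm_add (V := ℂ) (b := (δ : ℂ))
    (by simpa using hδ) 0 0).norm
  refine h.congr (Filter.Eventually.of_forall fun z => ?_)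
  simp only [Complex.norm_exp]
  congr 1
  have : (-(δ : ℂ) * (‖z‖ : ℂ) ^ 2 + 0 * ((inner ℝ (0 : ℂ) z : ℝ) : ℂ))
      = ((-(δ * ‖z‖ ^ 2) : ℝ) : ℂ) := by
    push_cast; ring
  rw [this, Complex.ofReal_re]

theorem Gauss_intN {n : ℕ} (δ : ℝ) (hδ : 0 < δ) :
    Integrable (fun z : Fin n → ℂ => Real.exp (-(δ * ∑ j, ‖z j‖ ^ 2))) := by
  have h := Integrable.fintype_prod (ι := Fin n) (𝕜 := ℝ) (E := ℂ)
    (f := fun _ z => Real.exp (-(δ * ‖z‖ ^ 2))) (μ := fun _ => volume)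
    (fun _ => Gauss_int1 δ hδ)
  refine h.congr (Filter.Eventually.of_forall fun z => ?_)
  simp only
  rw [← Real.exp_sum, Finset.sum_neg_distrib, Finset.mul_sum]

theorem Gauss_one (a b c : ℂ) (ha : 0 < a.re) :
    ∫ z : ℂ, exp (-(a * (conj z * z) + conj z * b + z * c))
      = (Real.pi : ℂ) / a * exp (b * c / a) := by
  have ha0 : a ≠ 0 := by
    rintro rfl
    simp at ha
  have h1 : ∫ z : ℂ, exp (-(a * (conj z * z) + conj z * b + z * c))
      = ∫ p : ℝ × ℝ, exp (-a * (p.1 : ℂ) ^ 2 + (-(b + c)) * p.1 + 0)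
          * exp (-a * (p.2 : ℂ) ^ 2 + (I * (b - c)) * p.2 + 0) := by
    rw [← Complex.volume_preserving_equiv_real_prod.symm.integral_comp']
    refine integral_congr_ae (Filter.Eventually.of_forall fun p => ?_)
    simp only
    rw [← Complex.exp_add]
    congr 1
    have hz : (Complex.measurableEquivRealProd.symm p) = (p.1 : ℂ) + (p.2 : ℂ) * I := by
      apply Complex.ext <;> simp
    rw [hz]
    simp only [map_add, map_mul, Complex.conj_ofReal, Complex.conj_I]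
    ring_nf
    rw [Complex.I_sq]
    ring
  rw [h1, Measure.volume_eq_prod, integral_prod_mul (fun x : ℝ => exp (-a * (x : ℂ) ^ 2 + (-(b + c)) * x + 0))
    (fun y : ℝ => exp (-a * (y : ℂ) ^ 2 + (I * (b - c)) * y + 0))]
  rw [integral_cexp_quadratic (by simpa using ha), integral_cexp_quadratic (by simpa using ha)]
  have hpi : (Real.pi : ℂ) / - -a ≠ 0 := by
    rw [neg_neg]
    exact div_ne_zero (by exact_mod_cast Real.pi_ne_zero) ha0
  have h2 : ((Real.pi : ℂ) / - -a) ^ (1 / 2 : ℂ) * ((Real.pi : ℂ) / - -a) ^ (1 / 2 : ℂ)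
      = (Real.pi : ℂ) / a := by
    rw [← Complex.cpow_add _ _ hpi, neg_neg]
    norm_num
  rw [mul_mul_mul_comm, h2, ← Complex.exp_add]
  congr 2
  have hI : (I * (b - c)) ^ 2 = -(b - c) ^ 2 := by
    rw [mul_pow, Complex.I_sq]; ring
  rw [hI]
  field_simp
  ring

/-- the Schur complement -/
noncomputable def Gauss_S {n : ℕ} (M : Matrix (Fin (n + 1)) (Fin (n + 1)) ℂ) :
    Matrix (Fin n) (Fin n) ℂ :=
  fun i j => M i.succ j.succ - M i.succ 0 * M 0 j.succ / M 0 0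

theorem Gauss_det_succ {n : ℕ} (M : Matrix (Fin (n + 1)) (Fin (n + 1)) ℂ) (h0 : M 0 0 ≠ 0) :
    M.det = M 0 0 * (Gauss_S M).det := by
  classical
  let B : Matrix (Fin (n + 1)) (Fin (n + 1)) ℂ :=
    fun i j => Fin.cases (M 0 j) (fun i' => M i'.succ j - M i'.succ 0 / M 0 0 * M 0 j) i
  have hB : M.det = B.det := by
    refine Matrix.det_eq_of_forall_row_eq_smul_add_const
      (c := fun i => Fin.cases 0 (fun i' => M i'.succ 0 / M 0 0) i) (k := 0) rfl ?_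
    intro i j
    refine Fin.cases ?_ (fun i' => ?_) i
    · simp [B]
    · simp [B]
  rw [hB, Matrix.det_succ_column_zero, Fin.sum_univ_succ]
  have h1 : ∀ i : Fin n, B i.succ 0 = 0 := by
    intro i
    simp only [B, Fin.cases_succ]
    field_simp
    ring
  simp only [h1, mul_zero, zero_mul, Finset.sum_const_zero, add_zero]
  have h2 : B.submatrix (Fin.succAbove 0) Fin.succ = Gauss_S M := by
    ext i j
    change B (Fin.succAbove 0 i) (Fin.succ j) = _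
    rw [Fin.zero_succAbove]
    simp only [B, Fin.cases_succ, Gauss_S]
    ring
  rw [h2]
  simp [B]

theorem Gauss_form_cons {n : ℕ} (M : Matrix (Fin (n + 1)) (Fin (n + 1)) ℂ) (ζ : ℂ)
    (w : Fin n → ℂ) :
    star (Fin.cons ζ w : Fin (n + 1) → ℂ) ⬝ᵥ M.mulVec (Fin.cons ζ w)
      = M 0 0 * (conj ζ * ζ) + conj ζ * (∑ j, M 0 j.succ * w j)
        + ζ * (∑ i, conj (w i) * M i.succ 0)
        + star w ⬝ᵥ (Matrix.mulVec (fun i j => M i.succ j.succ) w) := by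
  simp only [dotProduct, Matrix.mulVec, Fin.sum_univ_succ, Fin.cons_zero, Fin.cons_succ,
    Pi.star_apply, RCLike.star_def, mul_add, Finset.sum_add_distrib, Finset.mul_sum]
  have e1 : ∀ i : Fin n, conj (w i) * (M i.succ 0 * ζ) = ζ * (conj (w i) * M i.succ 0) := by
    intro i; ring
  simp only [e1]
  ring

theorem Gauss_form_S {n : ℕ} (M : Matrix (Fin (n + 1)) (Fin (n + 1)) ℂ)
    (w : Fin n → ℂ) :
    star w ⬝ᵥ ((Gauss_S M).mulVec w)
      = star w ⬝ᵥ (Matrix.mulVec (fun i j => M i.succ j.succ) w)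
        - (∑ j, M 0 j.succ * w j) * (∑ i, conj (w i) * M i.succ 0) / M 0 0 := by
  simp only [dotProduct, Matrix.mulVec, Gauss_S, Pi.star_apply, RCLike.star_def,
    Finset.mul_sum, Finset.sum_mul, Finset.sum_div]
  simp only [← Finset.sum_sub_distrib]
  refine Finset.sum_congr rfl fun i _ => Finset.sum_congr rfl fun j _ => ?_
  ring

theorem Gauss_re_pos {n : ℕ} (M : Matrix (Fin (n + 1)) (Fin (n + 1)) ℂ) (δ : ℝ) (hδ : 0 < δ)
    (hM : ∀ z : Fin (n + 1) → ℂ, δ * ∑ j, ‖z j‖ ^ 2 ≤ (star z ⬝ᵥ M.mulVec z).re) :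
    0 < (M 0 0).re := by
  have h := hM (Fin.cons 1 0)
  rw [Gauss_form_cons] at h
  simp [Fin.sum_univ_succ, dotProduct] at h
  linarith

theorem Gauss_S_pos {n : ℕ} (M : Matrix (Fin (n + 1)) (Fin (n + 1)) ℂ) (δ : ℝ) (hδ : 0 < δ)
    (hM : ∀ z : Fin (n + 1) → ℂ, δ * ∑ j, ‖z j‖ ^ 2 ≤ (star z ⬝ᵥ M.mulVec z).re)
    (w : Fin n → ℂ) : δ * ∑ j, ‖w j‖ ^ 2 ≤ (star w ⬝ᵥ (Gauss_S M).mulVec w).re := by
  have h0 : M 0 0 ≠ 0 := by
    intro h
    have := Gauss_re_pos M δ hδ hM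
    rw [h] at this
    simp at this
  have h := hM (Fin.cons (-(∑ j, M 0 j.succ * w j) / M 0 0) w)
  rw [Gauss_form_cons] at h
  rw [Gauss_form_S M]
  have e : M 0 0 * (conj (-(∑ j, M 0 j.succ * w j) / M 0 0) * (-(∑ j, M 0 j.succ * w j) / M 0 0))
        + conj (-(∑ j, M 0 j.succ * w j) / M 0 0) * (∑ j, M 0 j.succ * w j)
        + (-(∑ j, M 0 j.succ * w j) / M 0 0) * (∑ i, conj (w i) * M i.succ 0)
        + star w ⬝ᵥ (Matrix.mulVec (fun i j => M i.succ j.succ) w)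
      = star w ⬝ᵥ (Matrix.mulVec (fun i j => M i.succ j.succ) w)
        - (∑ j, M 0 j.succ * w j) * (∑ i, conj (w i) * M i.succ 0) / M 0 0 := by
    generalize conj (-(∑ j, M 0 j.succ * w j) / M 0 0) = u
    field_simp
    ring
  rw [e] at h
  refine le_trans ?_ h
  rw [Fin.sum_univ_succ]
  simp only [Fin.cons_zero, Fin.cons_succ]
  have : 0 ≤ ‖-(∑ j, M 0 j.succ * w j) / M 0 0‖ ^ 2 := by positivity
  nlinarith

theorem gauss_integrable {n : ℕ} (M : Matrix (Fin n) (Fin n) ℂ) (δ : ℝ) (hδ : 0 < δ)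
    (hM : ∀ z : Fin n → ℂ, δ * ∑ j, ‖z j‖ ^ 2 ≤ (star z ⬝ᵥ M.mulVec z).re) :
    Integrable (fun z : Fin n → ℂ => exp (-(star z ⬝ᵥ M.mulVec z))) := by
  refine (Gauss_intN δ hδ).mono' ?_ (Filter.Eventually.of_forall fun z => ?_)
  · refine Continuous.aestronglyMeasurable ?_
    simp only [dotProduct, Matrix.mulVec, Pi.star_apply, RCLike.star_def]
    fun_prop
  · rw [Complex.norm_exp]
    refine Real.exp_le_exp.mpr ?_
    rw [Complex.neg_re]
    linarith [hM z]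

theorem Gauss_main : ∀ (n : ℕ) (M : Matrix (Fin n) (Fin n) ℂ) (δ : ℝ), 0 < δ →
    (∀ z : Fin n → ℂ, δ * ∑ j, ‖z j‖ ^ 2 ≤ (star z ⬝ᵥ M.mulVec z).re) →
    M.det ≠ 0 ∧ ∫ z : Fin n → ℂ, exp (-(star z ⬝ᵥ M.mulVec z)) = (Real.pi : ℂ) ^ n / M.det := by
  intro n
  induction n with
  | zero =>
    intro M δ hδ hM
    refine ⟨by simp, ?_⟩
    simp [dotProduct, MeasureTheory.measureReal_def, volume_pi]
  | succ n ih =>
    intro M δ hδ hM
    have hre := Gauss_re_pos M δ hδ hM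
    have h0 : M 0 0 ≠ 0 := by
      intro h
      rw [h] at hre
      simp at hre
    obtain ⟨ihd, ihI⟩ := ih (Gauss_S M) δ hδ (Gauss_S_pos M δ hδ hM)
    refine ⟨by rw [Gauss_det_succ M h0]; exact mul_ne_zero h0 ihd, ?_⟩
    have hmp := (volume_preserving_piFinSuccAbove (fun _ : Fin (n + 1) => ℂ) 0).symm
    have hcons : ∀ p : ℂ × (Fin n → ℂ),
        (MeasurableEquiv.piFinSuccAbove (fun _ : Fin (n + 1) => ℂ) 0).symm p
          = (Fin.cons p.1 p.2 : Fin (n + 1) → ℂ) := by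
      intro p
      rw [MeasurableEquiv.piFinSuccAbove_symm_apply]
      simp [Fin.insertNthEquiv]
    have hint := gauss_integrable M δ hδ hM
    rw [← hmp.integral_comp' (g := fun z : Fin (n + 1) → ℂ => exp (-(star z ⬝ᵥ M.mulVec z)))]
    have hint2 : Integrable (fun p : ℂ × (Fin n → ℂ) =>
        exp (-(star (Fin.cons p.1 p.2 : Fin (n + 1) → ℂ) ⬝ᵥ
          M.mulVec (Fin.cons p.1 p.2 : Fin (n + 1) → ℂ)))) (volume.prod volume) := by
      have := (hmp.integrable_comp_emb (MeasurableEquiv.measurableEmbedding _)).mpr hint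
      refine this.congr (Filter.Eventually.of_forall fun p => ?_)
      simp only [Function.comp_apply, hcons]
    have e1 : ∀ p : ℂ × (Fin n → ℂ),
        exp (-(star ((MeasurableEquiv.piFinSuccAbove (fun _ : Fin (n + 1) => ℂ) 0).symm p) ⬝ᵥ
          M.mulVec ((MeasurableEquiv.piFinSuccAbove (fun _ : Fin (n + 1) => ℂ) 0).symm p)))
        = exp (-(star (Fin.cons p.1 p.2 : Fin (n + 1) → ℂ) ⬝ᵥ
          M.mulVec (Fin.cons p.1 p.2 : Fin (n + 1) → ℂ))) := by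
      intro p
      rw [hcons]
    simp only [e1]
    rw [Measure.volume_eq_prod, integral_prod_symm _ hint2]
    have e2 : ∀ w : Fin n → ℂ, ∫ ζ : ℂ, exp (-(star (Fin.cons ζ w : Fin (n + 1) → ℂ) ⬝ᵥ
          M.mulVec (Fin.cons ζ w : Fin (n + 1) → ℂ)))
        = (Real.pi : ℂ) / M 0 0 * exp (-(star w ⬝ᵥ (Gauss_S M).mulVec w)) := by
      intro w
      have e3 : ∀ ζ : ℂ, exp (-(star (Fin.cons ζ w : Fin (n + 1) → ℂ) ⬝ᵥ
          M.mulVec (Fin.cons ζ w : Fin (n + 1) → ℂ)))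
          = exp (-(M 0 0 * (conj ζ * ζ) + conj ζ * (∑ j, M 0 j.succ * w j)
        + ζ * (∑ i, conj (w i) * M i.succ 0)))
          * exp (-(star w ⬝ᵥ (Matrix.mulVec (fun i j => M i.succ j.succ) w))) := by
        intro ζ
        rw [Gauss_form_cons, ← Complex.exp_add]
        congr 1
        ring
      simp only [e3]
      rw [integral_mul_const, Gauss_one _ _ _ hre, mul_assoc, ← Complex.exp_add,
        Gauss_form_S M]
      congr 2
      ring
    simp only [e2]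
    rw [integral_const_mul, ihI, Gauss_det_succ M h0, pow_succ]
    field_simp

theorem gauss_det_ne {n : ℕ} (M : Matrix (Fin n) (Fin n) ℂ) (δ : ℝ) (hδ : 0 < δ)
    (hM : ∀ z : Fin n → ℂ, δ * ∑ j, ‖z j‖ ^ 2 ≤ (star z ⬝ᵥ M.mulVec z).re) : M.det ≠ 0 :=
  (Gauss_main n M δ hδ hM).1

theorem gauss_integral {n : ℕ} (M : Matrix (Fin n) (Fin n) ℂ) (δ : ℝ) (hδ : 0 < δ)
    (hM : ∀ z : Fin n → ℂ, δ * ∑ j, ‖z j‖ ^ 2 ≤ (star z ⬝ᵥ M.mulVec z).re) :
    ∫ z : Fin n → ℂ, exp (-(star z ⬝ᵥ M.mulVec z)) = (Real.pi : ℂ) ^ n / M.det :=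
  (Gauss_main n M δ hδ hM).2


theorem Gauss_N_form {n : ℕ} (a b z : Fin n → ℂ) :
    star z ⬝ᵥ (Matrix.vecMulVec (star b) a).mulVec z = (a ⬝ᵥ z) * conj (b ⬝ᵥ z) := by
  simp only [dotProduct, Matrix.mulVec, Matrix.vecMulVec_apply, Pi.star_apply, RCLike.star_def,
    map_sum, map_mul, Finset.mul_sum, Finset.sum_mul]
  refine Finset.sum_congr rfl fun i _ => Finset.sum_congr rfl fun j _ => ?_
  ring

theorem Gauss_form_add {n : ℕ} (M N : Matrix (Fin n) (Fin n) ℂ) (ε : ℂ) (z : Fin n → ℂ) :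
    star z ⬝ᵥ (M + ε • N).mulVec z = star z ⬝ᵥ M.mulVec z + ε * (star z ⬝ᵥ N.mulVec z) := by
  rw [Matrix.add_mulVec, dotProduct_add, Matrix.smul_mulVec, dotProduct_smul, smul_eq_mul]

theorem Gauss_ab_bound {n : ℕ} (a b : Fin n → ℂ) :
    ∃ K : ℝ, 0 < K ∧ ∀ z : Fin n → ℂ, ‖(a ⬝ᵥ z) * conj (b ⬝ᵥ z)‖ ≤ K * ∑ j, ‖z j‖ ^ 2 := by
  have key : ∀ c z : Fin n → ℂ, ‖c ⬝ᵥ z‖ ^ 2 ≤ (∑ j, ‖c j‖ ^ 2) * ∑ j, ‖z j‖ ^ 2 := by
    intro c z
    have h1 : ‖c ⬝ᵥ z‖ ≤ ∑ j, ‖c j‖ * ‖z j‖ := by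
      refine (norm_sum_le _ _).trans (Finset.sum_le_sum fun j _ => by rw [norm_mul])
    calc ‖c ⬝ᵥ z‖ ^ 2 ≤ (∑ j, ‖c j‖ * ‖z j‖) ^ 2 := by gcongr
      _ ≤ _ := Finset.sum_mul_sq_le_sq_mul_sq _ _ _
  refine ⟨(∑ j, ‖a j‖ ^ 2) + (∑ j, ‖b j‖ ^ 2) + 1, by positivity, fun z => ?_⟩
  rw [norm_mul, RCLike.norm_conj]
  have ha := key a z
  have hb := key b z
  have hA : 0 ≤ ∑ j, ‖a j‖ ^ 2 := by positivity
  have hB : 0 ≤ ∑ j, ‖b j‖ ^ 2 := by positivity
  have hZ : 0 ≤ ∑ j, ‖z j‖ ^ 2 := by positivity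
  nlinarith [sq_nonneg (‖a ⬝ᵥ z‖ - ‖b ⬝ᵥ z‖), mul_nonneg hA hZ, mul_nonneg hB hZ]

/-- with a sesquilinear prefactor -/
theorem gauss_integral_lin {n : ℕ} (M : Matrix (Fin n) (Fin n) ℂ) (δ : ℝ) (hδ : 0 < δ)
    (hM : ∀ z : Fin n → ℂ, δ * ∑ j, ‖z j‖ ^ 2 ≤ (star z ⬝ᵥ M.mulVec z).re) (a b : Fin n → ℂ) :
    Integrable (fun z : Fin n → ℂ => (a ⬝ᵥ z) * conj (b ⬝ᵥ z) * exp (-(star z ⬝ᵥ M.mulVec z))) ∧
    ∫ z : Fin n → ℂ, (a ⬝ᵥ z) * conj (b ⬝ᵥ z) * exp (-(star z ⬝ᵥ M.mulVec z))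
      = (Real.pi : ℂ) ^ n * (a ⬝ᵥ (M⁻¹).mulVec (star b)) / M.det := by
  classical
  obtain ⟨K, hK, hKb⟩ := Gauss_ab_bound a b
  set N : Matrix (Fin n) (Fin n) ℂ := Matrix.vecMulVec (star b) a with hN
  have hNz : ∀ z : Fin n → ℂ, star z ⬝ᵥ N.mulVec z = (a ⬝ᵥ z) * conj (b ⬝ᵥ z) :=
    Gauss_N_form a b
  have hdet := gauss_det_ne M δ hδ hM
  -- the perturbed matrix
  set r : ℝ := δ / (2 * K) with hr
  have hr0 : 0 < r := by positivity
  have hMε : ∀ ε ∈ Metric.ball (0 : ℂ) r, ∀ z : Fin n → ℂ,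
      (δ / 2) * ∑ j, ‖z j‖ ^ 2 ≤ (star z ⬝ᵥ (M + ε • N).mulVec z).re := by
    intro ε hε z
    rw [Gauss_form_add, Complex.add_re]
    have hε' : ‖ε‖ < r := by simpa using hε
    have h1 : ‖ε * (star z ⬝ᵥ N.mulVec z)‖ ≤ (δ / 2) * ∑ j, ‖z j‖ ^ 2 := by
      rw [norm_mul, hNz]
      calc ‖ε‖ * ‖(a ⬝ᵥ z) * conj (b ⬝ᵥ z)‖ ≤ r * (K * ∑ j, ‖z j‖ ^ 2) := by
            gcongr
            exact hKb z
        _ = (δ / 2) * ∑ j, ‖z j‖ ^ 2 := by
            rw [hr]; field_simp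
    have h2 := (abs_le.mp ((Complex.abs_re_le_norm _).trans h1)).1
    linarith [hM z]
  -- derivative of the integral
  have hF' := hasDerivAt_integral_of_dominated_loc_of_deriv_le (𝕜 := ℂ) (μ := volume)
    (F := fun (ε : ℂ) (z : Fin n → ℂ) => exp (-(star z ⬝ᵥ (M + ε • N).mulVec z)))
    (F' := fun (ε : ℂ) (z : Fin n → ℂ) =>
      exp (-(star z ⬝ᵥ (M + ε • N).mulVec z)) * (-(star z ⬝ᵥ N.mulVec z)))
    (x₀ := (0 : ℂ)) (s := Metric.ball (0 : ℂ) r)
    (bound := fun z => (4 * K / δ) * Real.exp (-((δ / 4) * ∑ j, ‖z j‖ ^ 2)))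
    (Metric.ball_mem_nhds _ hr0) ?_ ?_ ?_ ?_ ?_ ?_
  rotate_left
  · refine Filter.Eventually.of_forall fun ε => Continuous.aestronglyMeasurable ?_
    simp only [dotProduct, Matrix.mulVec, Pi.star_apply, RCLike.star_def]
    fun_prop
  · simpa using gauss_integrable M δ hδ hM
  · refine Continuous.aestronglyMeasurable ?_
    simp only [dotProduct, Matrix.mulVec, Pi.star_apply, RCLike.star_def]
    fun_prop
  · refine Filter.Eventually.of_forall fun z ε hε => ?_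
    rw [norm_mul, norm_neg, Complex.norm_exp, hNz, Complex.neg_re]
    have h1 := hMε ε hε z
    have h2 := hKb z
    set q : ℝ := ∑ j, ‖z j‖ ^ 2 with hq
    have hq0 : 0 ≤ q := by positivity
    calc Real.exp (-(star z ⬝ᵥ (M + ε • N).mulVec z).re) * ‖(a ⬝ᵥ z) * conj (b ⬝ᵥ z)‖
        ≤ Real.exp (-((δ / 2) * q)) * (K * q) := by
          gcongr
      _ = (4 * K / δ) * (Real.exp (-((δ / 2) * q)) * (δ / 4 * q)) := by
          field_simp
      _ ≤ (4 * K / δ) * (Real.exp (-((δ / 2) * q)) * Real.exp (δ / 4 * q)) := by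
          gcongr
          linarith [Real.add_one_le_exp (δ / 4 * q)]
      _ = (4 * K / δ) * Real.exp (-((δ / 4) * q)) := by
          rw [← Real.exp_add]
          congr 2
          ring
  · exact (Gauss_intN (δ / 4) (by positivity)).const_mul _
  · refine Filter.Eventually.of_forall fun z ε hε => ?_
    simp only [Gauss_form_add]
    have h1 : HasDerivAt (fun ε : ℂ => -(star z ⬝ᵥ M.mulVec z + ε * (star z ⬝ᵥ N.mulVec z)))
        (-(star z ⬝ᵥ N.mulVec z)) ε := by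
      have := (((hasDerivAt_id' ε).mul_const (star z ⬝ᵥ N.mulVec z)).const_add
        (star z ⬝ᵥ M.mulVec z)).fun_neg
      simpa using this
    exact h1.cexp
  obtain ⟨hint, hder⟩ := hF'
  have hdetε : ∀ ε : ℂ, (M + ε • N).det = M.det * (1 + ε * (a ⬝ᵥ (M⁻¹).mulVec (star b))) := by
    intro ε
    have h1 : M + ε • N = M + Matrix.replicateCol Unit (ε • star b) * Matrix.replicateRow Unit a := by
      congr 1
      ext i j
      simp [hN, Matrix.vecMulVec_apply, Matrix.mul_apply, mul_assoc]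
    rw [h1, Matrix.det_add_replicateCol_mul_replicateRow (isUnit_iff_ne_zero.mpr hdet)]
    congr 1
    rw [Matrix.det_unique]
    simp only [Matrix.add_apply, Matrix.one_apply_eq]
    congr 1
    rw [← Matrix.replicateRow_vecMul, Matrix.replicateRow_mul_replicateCol_apply,
      ← Matrix.dotProduct_mulVec, Matrix.mulVec_smul, dotProduct_smul, smul_eq_mul]
  set s : ℂ := a ⬝ᵥ (M⁻¹).mulVec (star b) with hs
  have hder2 : HasDerivAt (fun ε : ℂ => (Real.pi : ℂ) ^ n / (M.det * (1 + ε * s)))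
      (-((Real.pi : ℂ) ^ n * s / M.det)) 0 := by
    have h1 : HasDerivAt (fun ε : ℂ => M.det * (1 + ε * s)) (M.det * s) 0 := by
      have := (((hasDerivAt_id' (0 : ℂ)).mul_const s).const_add 1).const_mul M.det
      simpa using this
    have h2 := (hasDerivAt_const (0 : ℂ) ((Real.pi : ℂ) ^ n)).fun_div h1 (by simpa using hdet)
    have e2 : (0 * (M.det * (1 + 0 * s)) - (Real.pi : ℂ) ^ n * (M.det * s))
        / (M.det * (1 + 0 * s)) ^ 2 = -((Real.pi : ℂ) ^ n * s / M.det) := by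
      simp only [zero_mul, add_zero, mul_one, zero_sub]
      field_simp
    rw [← e2]
    exact h2
  have hev : (fun ε : ℂ => ∫ z : Fin n → ℂ, exp (-(star z ⬝ᵥ (M + ε • N).mulVec z)))
      =ᶠ[nhds 0] fun ε : ℂ => (Real.pi : ℂ) ^ n / (M.det * (1 + ε * s)) := by
    filter_upwards [Metric.ball_mem_nhds (0 : ℂ) hr0] with ε hε
    rw [gauss_integral (M + ε • N) (δ / 2) (by positivity) (hMε ε hε), hdetε]
  have huniq := hder.unique (hder2.congr_of_eventuallyEq hev)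
  have e1 : ∀ z : Fin n → ℂ, exp (-(star z ⬝ᵥ (M + (0 : ℂ) • N).mulVec z)) * (-(star z ⬝ᵥ N.mulVec z))
      = -((a ⬝ᵥ z) * conj (b ⬝ᵥ z) * exp (-(star z ⬝ᵥ M.mulVec z))) := by
    intro z
    rw [zero_smul, add_zero, hNz]
    ring
  simp only [e1] at hint huniq
  refine ⟨by simpa using hint.neg, ?_⟩
  rw [integral_neg] at huniq
  exact neg_injective huniq

end GUB
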