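import Pool.Agent.Lib.MP_721eb4_an.UB.Defs
import Pool.Agent.Lib.MP_721eb4_an.UB.Gauss
import Pool.Agent.Lib.MP_721eb4_an.UB.Dens

/-! Upper bound for the complex Grothendieck constant: module PF -/

set_option autoImplicit false

open MeasureTheory Complex Set GLB
open scoped ComplexConjugate

namespace GUB

/-- split `Fin 4 → ℂ` into two pairs -/
private theorem pf_vol (f : (Fin 2 → ℂ) × (Fin 2 → ℂ) → ℂ) :
    ∫ p, f p = ∫ Z : Fin 4 → ℂ, f (![Z 0, Z 1], ![Z 2, Z 3]) := by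
  have h1 := (volume_measurePreserving_piCongrLeft (fun _ : Fin 4 => ℂ)
    (finSumFinEquiv (m := 2) (n := 2))).symm
  have h2 := volume_measurePreserving_sumPiEquivProdPi (fun _ : Fin 2 ⊕ Fin 2 => ℂ)
  have h3 := h1.trans h2
  rw [← h3.integral_comp' f]
  refine integral_congr_ae (Filter.Eventually.of_forall fun Z => ?_)
  show f _ = f _
  congr 1
  refine Prod.ext ?_ ?_
  · funext i
    fin_cases i <;> rfl
  · funext i
    fin_cases i <;> rfl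

private theorem pf_int1 (s : ℝ) (hs : 0 < s) :
    ∫ t in Ioi (0 : ℝ), (√t)⁻¹ * Real.exp (-(t * s)) = √Real.pi / √s := by
  have h := Real.integral_rpow_mul_exp_neg_mul_Ioi (a := 1 / 2) (r := s) (by norm_num) hs
  rw [Real.Gamma_one_half_eq] at h
  have h2 : (1 / s : ℝ) ^ (1 / 2 : ℝ) * √Real.pi = √Real.pi / √s := by
    rw [← Real.sqrt_eq_rpow, Real.sqrt_div zero_le_one, Real.sqrt_one]
    ring
  rw [h2] at h
  rw [← h]
  refine setIntegral_congr_fun measurableSet_Ioi fun t ht => ?_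
  have ht' : (0 : ℝ) < t := ht
  show (√t)⁻¹ * Real.exp (-(t * s)) = t ^ ((1 : ℝ) / 2 - 1) * Real.exp (-(s * t))
  rw [mul_comm s t]
  congr 1
  rw [show (1 : ℝ) / 2 - 1 = -(1 / 2) by norm_num, Real.rpow_neg ht'.le, ← Real.sqrt_eq_rpow]

private theorem pf_int2 (s : ℝ) (hs : 0 < s) :
    IntegrableOn (fun t : ℝ => (√t)⁻¹ * Real.exp (-(t * s))) (Ioi 0) := by
  apply Integrable.of_integral_ne_zero
  rw [pf_int1 s hs]
  positivity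

private theorem pf_det4 {K : Type} [CommRing K] (M : Matrix (Fin 4) (Fin 4) K) :
    M.det = M 0 0 * (M 1 1 * (M 2 2 * M 3 3 - M 2 3 * M 3 2) - M 1 2 * (M 2 1 * M 3 3 - M 2 3 * M 3 1)
        + M 1 3 * (M 2 1 * M 3 2 - M 2 2 * M 3 1))
      - M 0 1 * (M 1 0 * (M 2 2 * M 3 3 - M 2 3 * M 3 2) - M 1 2 * (M 2 0 * M 3 3 - M 2 3 * M 3 0)
        + M 1 3 * (M 2 0 * M 3 2 - M 2 2 * M 3 0))
      + M 0 2 * (M 1 0 * (M 2 1 * M 3 3 - M 2 3 * M 3 1) - M 1 1 * (M 2 0 * M 3 3 - M 2 3 * M 3 0)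
        + M 1 3 * (M 2 0 * M 3 1 - M 2 1 * M 3 0))
      - M 0 3 * (M 1 0 * (M 2 1 * M 3 2 - M 2 2 * M 3 1) - M 1 1 * (M 2 0 * M 3 2 - M 2 2 * M 3 0)
        + M 1 2 * (M 2 0 * M 3 1 - M 2 1 * M 3 0)) := by
  rw [Matrix.det_succ_row_zero]
  simp [Matrix.det_fin_three, Fin.sum_univ_succ, Fin.succAbove]
  ring

/-- the matrix of the Gaussian form -/
private def pfM {K : Type} [CommRing K] (v1 v2 w1 w2 s1 s2 : K) (P Q : M2 K) (r1 r2 t u : K) :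
    Matrix (Fin 4) (Fin 4) K :=
  !![s1 + P.a + t * (v1 * v1), P.b + t * (v1 * v2), -(s1 * r1), 0;
    P.c + t * (v1 * v2), s2 + P.d + t * (v2 * v2), 0, -(s2 * r2);
    -(s1 * r1), 0, s1 + Q.a + u * (w1 * w1), Q.b + u * (w1 * w2);
    0, -(s2 * r2), Q.c + u * (w1 * w2), s2 + Q.d + u * (w2 * w2)]

private theorem pf_det {K : Type} [Field K] (v1 v2 w1 w2 s1 s2 : K) (P Q : M2 K) (r1 r2 t u : K)
    (h1 : s1 * (1 - r1 ^ 2) = 1) (h2 : s2 * (1 - r2 ^ 2) = 1) :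
    (pfM v1 v2 w1 w2 s1 s2 P Q r1 r2 t u).det =
      (D2 P Q r1 r2 + t * A2 v1 v2 P Q r1 r2 + u * A2 w1 w2 Q P r1 r2
        + t * u * E2 v1 v2 w1 w2 P Q r1 r2) * (s1 * s2) := by
  have h1' : 1 - r1 ^ 2 ≠ 0 := right_ne_zero_of_mul_eq_one h1
  have h2' : 1 - r2 ^ 2 ≠ 0 := right_ne_zero_of_mul_eq_one h2
  have e1 : s1 = 1 / (1 - r1 ^ 2) := by field_simp; exact h1
  have e2 : s2 = 1 / (1 - r2 ^ 2) := by field_simp; exact h2
  subst e1 e2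
  rw [pf_det4]
  simp only [pfM, Matrix.of_apply, Matrix.cons_val', Matrix.cons_val_zero, Matrix.cons_val_one,
    Matrix.cons_val, Matrix.cons_val_fin_one]
  simp only [D2, A2, E2, al, M2.det]
  field_simp
  ring

private theorem pf_num {K : Type} [Field K] (v1 v2 w1 w2 s1 s2 : K) (P Q : M2 K) (r1 r2 t u : K)
    (h1 : s1 * (1 - r1 ^ 2) = 1) (h2 : s2 * (1 - r2 ^ 2) = 1) :
    (![v1, v2, 0, 0] : Fin 4 → K) ⬝ᵥ
      ((pfM v1 v2 w1 w2 s1 s2 P Q r1 r2 t u).adjugate.mulVec ![0, 0, w1, w2]) =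
      c2 v1 v2 w1 w2 P Q r1 r2 * (s1 * s2) := by
  have h1' : 1 - r1 ^ 2 ≠ 0 := right_ne_zero_of_mul_eq_one h1
  have h2' : 1 - r2 ^ 2 ≠ 0 := right_ne_zero_of_mul_eq_one h2
  have e1 : s1 = 1 / (1 - r1 ^ 2) := by field_simp; exact h1
  have e2 : s2 = 1 / (1 - r2 ^ 2) := by field_simp; exact h2
  subst e1 e2
  rw [← Matrix.cramer_eq_adjugate_mulVec]
  simp only [dotProduct, Fin.sum_univ_four, Matrix.cramer_apply, Matrix.cons_val_zero,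
    Matrix.cons_val_one, Matrix.cons_val, zero_mul, add_zero]
  rw [pf_det4, pf_det4]
  simp [pfM]
  simp only [c2]
  field_simp
  ring

private theorem pf_quad (a b d x y : ℝ) (ha : 0 ≤ a) (hd : 0 ≤ d) (hb : b ^ 2 ≤ 4 * a * d) :
    0 ≤ a * x ^ 2 + b * (x * y) + d * y ^ 2 := by
  rcases ha.eq_or_lt with h | h
  · subst h
    have hb0 : b = 0 := by nlinarith [sq_nonneg b]
    subst hb0
    nlinarith [mul_nonneg hd (sq_nonneg y)]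
  · have h1 : 0 ≤ 4 * a * (a * x ^ 2 + b * (x * y) + d * y ^ 2) := by
      nlinarith [sq_nonneg (2 * a * x + b * y), mul_nonneg (sub_nonneg.2 hb) (sq_nonneg y)]
    exact nonneg_of_mul_nonneg_right h1 (by linarith)

private theorem pf_form_re (P : M2 ℝ) (hP : P.psd) (z : Fin 2 → ℂ) : 0 ≤ (P.form z).re := by
  obtain ⟨ha, hd, hb⟩ := hP
  have h1 := pf_quad P.a (P.b + P.c) P.d (z 0).re (z 1).re ha hd hb
  have h2 := pf_quad P.a (P.b + P.c) P.d (z 0).im (z 1).im ha hd hb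
  have h3 : (P.form z).re = P.a * (z 0).re ^ 2 + (P.b + P.c) * ((z 0).re * (z 1).re)
      + P.d * (z 1).re ^ 2 + (P.a * (z 0).im ^ 2 + (P.b + P.c) * ((z 0).im * (z 1).im)
      + P.d * (z 1).im ^ 2) := by
    simp [M2.form]
    ring
  rw [h3]
  linarith

/-- casting the coefficients -/
private def pfc (P : M2 ℝ) : M2 ℂ := P.map (fun x : ℝ => (x : ℂ))

private theorem pf_form_eq (v1 v2 w1 w2 s1 s2 : ℝ) (P Q : M2 ℝ) (r1 r2 t u : ℝ) (Z : Fin 4 → ℂ) :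
    star Z ⬝ᵥ (pfM (v1 : ℂ) v2 w1 w2 s1 s2 (pfc P) (pfc Q) r1 r2 t u).mulVec Z
      = s1 * (Z 0 * conj (Z 0) + Z 2 * conj (Z 2) - r1 * (Z 0 * conj (Z 2) + conj (Z 0) * Z 2))
        + s2 * (Z 1 * conj (Z 1) + Z 3 * conj (Z 3) - r2 * (Z 1 * conj (Z 3) + conj (Z 1) * Z 3))
        + P.form ![Z 0, Z 1] + Q.form ![Z 2, Z 3]
        + ((t * ‖(v1 : ℂ) * Z 0 + v2 * Z 1‖ ^ 2 : ℝ) : ℂ)
        + ((u * ‖(w1 : ℂ) * Z 2 + w2 * Z 3‖ ^ 2 : ℝ) : ℂ) := by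
  push_cast
  rw [← Complex.mul_conj', ← Complex.mul_conj']
  simp [dotProduct, Matrix.mulVec, Fin.sum_univ_four, pfM, pfc, M2.map, M2.form]
  ring

private theorem pf_pos (v1 v2 w1 w2 s1 s2 : ℝ) (P Q : M2 ℝ) (hP : P.psd) (hQ : Q.psd)
    (r1 r2 t u : ℝ) (h1 : |r1| < 1) (h2 : |r2| < 1)
    (hs1 : s1 * (1 - r1 ^ 2) = 1) (hs2 : s2 * (1 - r2 ^ 2) = 1) (ht : 0 ≤ t) (hu : 0 ≤ u)
    (Z : Fin 4 → ℂ) :
    (1 / 2) * ∑ j, ‖Z j‖ ^ 2 ≤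
      (star Z ⬝ᵥ (pfM (v1 : ℂ) v2 w1 w2 s1 s2 (pfc P) (pfc Q) r1 r2 t u).mulVec Z).re := by
  have e1 : 0 < 1 - r1 ^ 2 := by
    have := (sq_lt_one_iff_abs_lt_one r1).2 h1
    linarith
  have e2 : 0 < 1 - r2 ^ 2 := by
    have := (sq_lt_one_iff_abs_lt_one r2).2 h2
    linarith
  have p1 : 0 < s1 := by
    by_contra hh
    push Not at hh
    nlinarith
  have p2 : 0 < s2 := by
    by_contra hh
    push Not at hh
    nlinarith
  rw [pf_form_eq]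
  simp only [Complex.add_re, Complex.ofReal_re]
  have f1 := pf_form_re P hP ![Z 0, Z 1]
  have f2 := pf_form_re Q hQ ![Z 2, Z 3]
  have f3 : 0 ≤ t * ‖(v1 : ℂ) * Z 0 + v2 * Z 1‖ ^ 2 := by positivity
  have f4 : 0 ≤ u * ‖(w1 : ℂ) * Z 2 + w2 * Z 3‖ ^ 2 := by positivity
  have key : ∀ (s r : ℝ), 0 < s → s * (1 - r ^ 2) = 1 → ∀ z w : ℂ,
      (1 / 2) * (‖z‖ ^ 2 + ‖w‖ ^ 2) ≤
        ((s : ℂ) * (z * conj z + w * conj w - r * (z * conj w + conj z * w))).re := by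
    intro s r hs hsr z w
    rw [← Complex.normSq_eq_norm_sq, ← Complex.normSq_eq_norm_sq, Complex.normSq_apply,
      Complex.normSq_apply]
    simp only [Complex.mul_re, Complex.sub_re, Complex.add_re, Complex.conj_re, Complex.conj_im,
      Complex.ofReal_re, Complex.ofReal_im, zero_mul, sub_zero]
    have g1 : 0 ≤ s / 2 * ((z.re - r * w.re) ^ 2 + (w.re - r * z.re) ^ 2
        + (z.im - r * w.im) ^ 2 + (w.im - r * z.im) ^ 2) := by positivity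
    have g2 : s / 2 * ((z.re - r * w.re) ^ 2 + (w.re - r * z.re) ^ 2
        + (z.im - r * w.im) ^ 2 + (w.im - r * z.im) ^ 2)
        = s * (z.re * z.re - z.im * -z.im + (w.re * w.re - w.im * -w.im)
          - r * (z.re * w.re - z.im * -w.im + (z.re * w.re - -z.im * w.im)))
          - s * (1 - r ^ 2) * (1 / 2) * (z.re * z.re + z.im * z.im + (w.re * w.re + w.im * w.im)) := by
      ring
    rw [hsr] at g2
    linarith
  have k1 := key s1 r1 p1 hs1 (Z 0) (Z 2)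
  have k2 := key s2 r2 p2 hs2 (Z 1) (Z 3)
  rw [Fin.sum_univ_four]
  linarith


/-- the quadrant measure -/
private noncomputable def pfμ : Measure (ℝ × ℝ) :=
  (volume.restrict (Ioi (0 : ℝ))).prod (volume.restrict (Ioi (0 : ℝ)))

private instance : SFinite pfμ := by unfold pfμ; infer_instance

private theorem pf_sg (ζ : ℂ) : sg ζ = ζ * (((√(‖ζ‖ ^ 2))⁻¹ : ℝ) : ℂ) := by
  rw [Real.sqrt_sq (norm_nonneg ζ), sg, div_eq_mul_inv, Complex.ofReal_inv]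

/-- the weight -/
private noncomputable def pfw (x y : ℝ) (q : ℝ × ℝ) : ℝ :=
  ((√q.1)⁻¹ * Real.exp (-(q.1 * x))) * ((√q.2)⁻¹ * Real.exp (-(q.2 * y)))

private theorem pfw_nonneg (x y : ℝ) (q : ℝ × ℝ) : 0 ≤ pfw x y q := by
  unfold pfw
  positivity

/-- the integrand -/
private noncomputable def pfK (ζ ω E : ℂ) (q : ℝ × ℝ) : ℂ :=
  (ζ * conj ω * E) * ((pfw (‖ζ‖ ^ 2) (‖ω‖ ^ 2) q : ℝ) : ℂ)

/-- inner integral over the parameters -/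
private theorem pf_inner (ζ ω E : ℂ) :
    Integrable (pfK ζ ω E) pfμ ∧
    ∫ q, pfK ζ ω E q ∂pfμ = Real.pi * (sg ζ * conj (sg ω) * E) ∧
    ∫ q, ‖pfK ζ ω E q‖ ∂pfμ ≤ Real.pi * ‖E‖ := by
  by_cases hζ : ζ = 0
  · subst hζ
    have h0 : sg 0 = 0 := by simp [sg]
    have h1 : pfK 0 ω E = fun _ => 0 := by
      funext q
      simp [pfK]
    rw [h1, h0]
    simp
    positivity
  by_cases hω : ω = 0
  · subst hω
    have h0 : sg 0 = 0 := by simp [sg]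
    have h1 : pfK ζ 0 E = fun _ => 0 := by
      funext q
      simp [pfK]
    rw [h1, h0]
    simp
    positivity
  have hζ' : 0 < ‖ζ‖ ^ 2 := by positivity
  have hω' : 0 < ‖ω‖ ^ 2 := by positivity
  have i1 := pf_int2 _ hζ'
  have i2 := pf_int2 _ hω'
  have i3 : Integrable (fun q : ℝ × ℝ => pfw (‖ζ‖ ^ 2) (‖ω‖ ^ 2) q) pfμ := i1.mul_prod i2
  have i4 : ∫ q : ℝ × ℝ, pfw (‖ζ‖ ^ 2) (‖ω‖ ^ 2) q ∂pfμ
      = (√Real.pi / √(‖ζ‖ ^ 2)) * (√Real.pi / √(‖ω‖ ^ 2)) := by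
    rw [← pf_int1 _ hζ', ← pf_int1 _ hω']
    exact integral_prod_mul (fun t : ℝ => (√t)⁻¹ * Real.exp (-(t * ‖ζ‖ ^ 2)))
      (fun t : ℝ => (√t)⁻¹ * Real.exp (-(t * ‖ω‖ ^ 2)))
  have hpi : √Real.pi * √Real.pi = Real.pi := Real.mul_self_sqrt Real.pi_pos.le
  have n1 : √(‖ζ‖ ^ 2) = ‖ζ‖ := Real.sqrt_sq (norm_nonneg ζ)
  have n2 : √(‖ω‖ ^ 2) = ‖ω‖ := Real.sqrt_sq (norm_nonneg ω)
  refine ⟨i3.ofReal.const_mul _, ?_, ?_⟩
  · have e1 : ∫ q, pfK ζ ω E q ∂pfμ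
        = (ζ * conj ω * E) * ((∫ q, pfw (‖ζ‖ ^ 2) (‖ω‖ ^ 2) q ∂pfμ : ℝ) : ℂ) := by
      rw [← integral_complex_ofReal, ← integral_const_mul]
      rfl
    rw [e1, i4, pf_sg, pf_sg]
    simp only [map_mul, Complex.conj_ofReal]
    have e2 : ((√Real.pi / √(‖ζ‖ ^ 2) * (√Real.pi / √(‖ω‖ ^ 2)) : ℝ) : ℂ)
        = (Real.pi : ℂ) * (((√(‖ζ‖ ^ 2))⁻¹ : ℝ) : ℂ) * (((√(‖ω‖ ^ 2))⁻¹ : ℝ) : ℂ) := by
      rw [← Complex.ofReal_mul, ← Complex.ofReal_mul]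
      congr 1
      rw [← hpi]
      ring_nf
      rw [Real.sqrt_sq (Real.sqrt_nonneg _)]
    rw [e2]
    ring
  · have e1 : ∀ q, ‖pfK ζ ω E q‖ = ‖ζ‖ * ‖ω‖ * ‖E‖ * pfw (‖ζ‖ ^ 2) (‖ω‖ ^ 2) q := by
      intro q
      rw [pfK, norm_mul, norm_mul, norm_mul, Complex.norm_conj, Complex.norm_real,
        Real.norm_of_nonneg (pfw_nonneg _ _ _)]
    simp only [e1]
    rw [integral_const_mul, i4, n1, n2]
    have h1 : ‖ζ‖ ≠ 0 := by positivity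
    have h2 : ‖ω‖ ≠ 0 := by positivity
    have : ‖ζ‖ * ‖ω‖ * ‖E‖ * (√Real.pi / ‖ζ‖ * (√Real.pi / ‖ω‖))
        = (√Real.pi * √Real.pi) * ‖E‖ := by
      field_simp
    rw [this, hpi]

private theorem pf_meas {X : Type} [MeasurableSpace X]
    (ζ ω E : X → ℂ) (hζ : Measurable ζ) (hω : Measurable ω) (hE : Measurable E) :
    Measurable (fun p : X × (ℝ × ℝ) => pfK (ζ p.1) (ω p.1) (E p.1) p.2) := by
  unfold pfK pfw
  have a1 : Measurable (fun p : X × (ℝ × ℝ) => p.2.1) := by fun_prop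
  have a2 : Measurable (fun p : X × (ℝ × ℝ) => p.2.2) := by fun_prop
  have hz : Measurable (fun p : X × (ℝ × ℝ) => ζ p.1) := by fun_prop
  have hw : Measurable (fun p : X × (ℝ × ℝ) => ω p.1) := by fun_prop
  have hE' : Measurable (fun p : X × (ℝ × ℝ) => E p.1) := by fun_prop
  have hwc : Measurable (fun p : X × (ℝ × ℝ) => conj (ω p.1)) :=
    Complex.continuous_conj.measurable.comp hw
  refine ((hz.mul hwc).mul hE').mul (Complex.measurable_ofReal.comp ?_)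
  have hzn := hz.norm.pow_const 2
  have hwn := hw.norm.pow_const 2
  exact ((a1.sqrt.inv).mul (a1.mul hzn).neg.exp).mul ((a2.sqrt.inv).mul (a2.mul hwn).neg.exp)

private theorem pf_joint {X : Type} [MeasurableSpace X] (μ : Measure X) [SFinite μ]
    (ζ ω E : X → ℂ) (hζ : Measurable ζ) (hω : Measurable ω) (hE : Measurable E)
    (hi : Integrable E μ) :
    Integrable (fun p : X × (ℝ × ℝ) => pfK (ζ p.1) (ω p.1) (E p.1) p.2) (μ.prod pfμ) := by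
  have hm := pf_meas ζ ω E hζ hω hE
  have hb : ∀ x, ‖∫ q, ‖pfK (ζ x) (ω x) (E x) q‖ ∂pfμ‖ ≤ Real.pi * ‖E x‖ := by
    intro x
    rw [Real.norm_of_nonneg (integral_nonneg fun q => norm_nonneg _)]
    exact (pf_inner (ζ x) (ω x) (E x)).2.2
  have hn : StronglyMeasurable (fun p : X × (ℝ × ℝ) => ‖pfK (ζ p.1) (ω p.1) (E p.1) p.2‖) :=
    hm.norm.stronglyMeasurable
  have hn2 : AEStronglyMeasurable (fun x => ∫ q, ‖pfK (ζ x) (ω x) (E x) q‖ ∂pfμ) μ :=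
    (hn.integral_prod_right').aestronglyMeasurable
  have h2 : Integrable (fun x => ∫ q, ‖pfK (ζ x) (ω x) (E x) q‖ ∂pfμ) μ :=
    Integrable.mono' (hi.norm.const_mul Real.pi) hn2 (Filter.Eventually.of_forall hb)
  exact (integrable_prod_iff hm.aestronglyMeasurable).2
    ⟨Filter.Eventually.of_forall fun Z => (pf_inner (ζ Z) (ω Z) (E Z)).1, h2⟩

/-- swapping the integrals -/
private theorem pf_swap {X : Type} [MeasurableSpace X] (μ : Measure X) [SFinite μ]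
    (ζ ω E : X → ℂ) (hζ : Measurable ζ) (hω : Measurable ω) (hE : Measurable E)
    (hi : Integrable E μ) :
    ∫ x, (Real.pi : ℂ) * (sg (ζ x) * conj (sg (ω x)) * E x) ∂μ
      = ∫ q, (∫ x, pfK (ζ x) (ω x) (E x) q ∂μ) ∂pfμ := by
  have hI := pf_joint μ ζ ω E hζ hω hE hi
  have h1 := integral_integral_swap (f := fun x q => pfK (ζ x) (ω x) (E x) q) hI
  rw [← h1]
  refine integral_congr_ae (Filter.Eventually.of_forall fun x => ?_)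
  exact (pf_inner (ζ x) (ω x) (E x)).2.1.symm

private theorem pf_swap_int {X : Type} [MeasurableSpace X] (μ : Measure X) [SFinite μ]
    (ζ ω E : X → ℂ) (hζ : Measurable ζ) (hω : Measurable ω) (hE : Measurable E)
    (hi : Integrable E μ) :
    Integrable (fun q => ∫ x, pfK (ζ x) (ω x) (E x) q ∂μ) pfμ := by
  have hI := pf_joint μ ζ ω E hζ hω hE hi
  exact hI.integral_prod_right


private theorem pf_cast_D (P Q : M2 ℝ) (r1 r2 : ℝ) :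
    D2 (pfc P) (pfc Q) (r1 : ℂ) (r2 : ℂ) = ((D2 P Q r1 r2 : ℝ) : ℂ) := by
  simp only [D2, pfc, M2.map, M2.det]
  push_cast
  ring

private theorem pf_cast_A (v1 v2 : ℝ) (P Q : M2 ℝ) (r1 r2 : ℝ) :
    A2 (v1 : ℂ) v2 (pfc P) (pfc Q) (r1 : ℂ) (r2 : ℂ) = ((A2 v1 v2 P Q r1 r2 : ℝ) : ℂ) := by
  simp only [A2, al, pfc, M2.map, M2.det]
  push_cast
  ring

private theorem pf_cast_E (v1 v2 w1 w2 : ℝ) (P Q : M2 ℝ) (r1 r2 : ℝ) :
    E2 (v1 : ℂ) v2 w1 w2 (pfc P) (pfc Q) (r1 : ℂ) (r2 : ℂ)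
      = ((E2 v1 v2 w1 w2 P Q r1 r2 : ℝ) : ℂ) := by
  simp only [E2, al, pfc, M2.map]
  push_cast
  ring

private theorem pf_cast_c (v1 v2 w1 w2 : ℝ) (P Q : M2 ℝ) (r1 r2 : ℝ) :
    c2 (v1 : ℂ) v2 w1 w2 (pfc P) (pfc Q) (r1 : ℂ) (r2 : ℂ)
      = ((c2 v1 v2 w1 w2 P Q r1 r2 : ℝ) : ℂ) := by
  simp only [c2, pfc, M2.map]
  push_cast
  ring

/-- the inner Gaussian integral -/
private theorem pf_gauss (v1 v2 w1 w2 s1 s2 : ℝ) (P Q : M2 ℝ) (hP : P.psd) (hQ : Q.psd)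
    (r1 r2 t u : ℝ) (h1 : |r1| < 1) (h2 : |r2| < 1)
    (hs1 : s1 * (1 - r1 ^ 2) = 1) (hs2 : s2 * (1 - r2 ^ 2) = 1) (ht : 0 ≤ t) (hu : 0 ≤ u) :
    ∫ Z : Fin 4 → ℂ, ((v1 : ℂ) * Z 0 + v2 * Z 1) * conj ((w1 : ℂ) * Z 2 + w2 * Z 3) *
      exp (-(star Z ⬝ᵥ (pfM (v1 : ℂ) v2 w1 w2 s1 s2 (pfc P) (pfc Q) r1 r2 t u).mulVec Z))
      = ((Real.pi ^ 4 / (s1 * s2) * (c2 v1 v2 w1 w2 P Q r1 r2 /
          (D2 P Q r1 r2 + t * A2 v1 v2 P Q r1 r2 + u * A2 w1 w2 Q P r1 r2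
            + t * u * E2 v1 v2 w1 w2 P Q r1 r2) ^ 2) : ℝ) : ℂ) := by
  set M := pfM (v1 : ℂ) v2 w1 w2 s1 s2 (pfc P) (pfc Q) r1 r2 t u with hM
  have hpos := pf_pos v1 v2 w1 w2 s1 s2 P Q hP hQ r1 r2 t u h1 h2 hs1 hs2 ht hu
  have hc1 : (s1 : ℂ) * (1 - (r1 : ℂ) ^ 2) = 1 := by exact_mod_cast hs1
  have hc2 : (s2 : ℂ) * (1 - (r2 : ℂ) ^ 2) = 1 := by exact_mod_cast hs2
  have hs1' : (s1 : ℂ) ≠ 0 := left_ne_zero_of_mul_eq_one hc1
  have hs2' : (s2 : ℂ) ≠ 0 := left_ne_zero_of_mul_eq_one hc2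
  have hdet := pf_det (v1 : ℂ) v2 w1 w2 s1 s2 (pfc P) (pfc Q) r1 r2 t u hc1 hc2
  have hnum := pf_num (v1 : ℂ) v2 w1 w2 s1 s2 (pfc P) (pfc Q) r1 r2 t u hc1 hc2
  have hdet0 := gauss_det_ne M (1 / 2) (by norm_num) hpos
  have hint := (gauss_integral_lin M (1 / 2) (by norm_num) hpos
    ![(v1 : ℂ), v2, 0, 0] ![0, 0, (w1 : ℂ), w2]).2
  have hstar : star (![0, 0, (w1 : ℂ), w2] : Fin 4 → ℂ) = ![0, 0, (w1 : ℂ), w2] := by
    funext i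
    fin_cases i <;> simp
  rw [hstar, Matrix.inv_def, Matrix.smul_mulVec, dotProduct_smul, hnum, smul_eq_mul,
    Ring.inverse_eq_inv', pf_cast_c] at hint
  rw [pf_cast_D, pf_cast_A, pf_cast_A, pf_cast_E] at hdet
  have hL : ∀ Z : Fin 4 → ℂ, (![(v1 : ℂ), v2, 0, 0] ⬝ᵥ Z) * conj (![0, 0, (w1 : ℂ), w2] ⬝ᵥ Z)
      = ((v1 : ℂ) * Z 0 + v2 * Z 1) * conj ((w1 : ℂ) * Z 2 + w2 * Z 3) := by
    intro Z
    simp [dotProduct, Fin.sum_univ_four]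
  simp only [hL] at hint
  rw [hint, hdet]
  rw [hdet] at hdet0
  have hden := left_ne_zero_of_mul hdet0
  push_cast
  field_simp


private theorem pf_ae : ∀ᵐ q ∂pfμ, 0 < q.1 ∧ 0 < q.2 := by
  unfold pfμ
  rw [Measure.prod_restrict]
  exact ae_restrict_of_forall_mem (measurableSet_Ioi.prod measurableSet_Ioi) fun q hq => hq

private theorem pf_core (v1 v2 w1 w2 s1 s2 : ℝ) (P Q : M2 ℝ) (hP : P.psd) (hQ : Q.psd)
    (r1 r2 : ℝ) (h1 : |r1| < 1) (h2 : |r2| < 1)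
    (hs1 : s1 * (1 - r1 ^ 2) = 1) (hs2 : s2 * (1 - r2 ^ 2) = 1) :
    ∫ Z : Fin 4 → ℂ, sg ((v1 : ℂ) * Z 0 + v2 * Z 1) * conj (sg ((w1 : ℂ) * Z 2 + w2 * Z 3)) *
      exp (-(star Z ⬝ᵥ
        (pfM (v1 : ℂ) v2 w1 w2 s1 s2 (pfc P) (pfc Q) r1 r2 (0 : ℝ) (0 : ℝ)).mulVec Z))
      = ((Real.pi ^ 4 / (s1 * s2) * Jint (D2 P Q r1 r2) (A2 v1 v2 P Q r1 r2) (A2 w1 w2 Q P r1 r2)
          (E2 v1 v2 w1 w2 P Q r1 r2) (c2 v1 v2 w1 w2 P Q r1 r2) : ℝ) : ℂ) := by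
  have hpos := pf_pos v1 v2 w1 w2 s1 s2 P Q hP hQ r1 r2 0 0 h1 h2 hs1 hs2 le_rfl le_rfl
  set M := pfM (v1 : ℂ) v2 w1 w2 s1 s2 (pfc P) (pfc Q) r1 r2 (0 : ℝ) (0 : ℝ) with hM
  have hcontE : Continuous (fun Z : Fin 4 → ℂ => exp (-(star Z ⬝ᵥ M.mulVec Z))) := by
    have : (fun Z : Fin 4 → ℂ => exp (-(star Z ⬝ᵥ M.mulVec Z)))
        = fun Z => exp (-(∑ i, conj (Z i) * ∑ j, M i j * Z j)) := by
      funext Z
      simp [dotProduct, Matrix.mulVec]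
    rw [this]
    fun_prop
  have hint0 := gauss_integrable M (1 / 2) (by norm_num) hpos
  have hz : Measurable (fun Z : Fin 4 → ℂ => (v1 : ℂ) * Z 0 + v2 * Z 1) := by fun_prop
  have hw : Measurable (fun Z : Fin 4 → ℂ => (w1 : ℂ) * Z 2 + w2 * Z 3) := by fun_prop
  have hsw := pf_swap (volume : Measure (Fin 4 → ℂ)) _ _ _ hz hw hcontE.measurable hint0
  have hswi := pf_swap_int (volume : Measure (Fin 4 → ℂ)) _ _ _ hz hw hcontE.measurable hint0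
  set g : ℝ × ℝ → ℝ := fun q => (√q.1)⁻¹ * (√q.2)⁻¹ * c2 v1 v2 w1 w2 P Q r1 r2 /
          (D2 P Q r1 r2 + q.1 * A2 v1 v2 P Q r1 r2 + q.2 * A2 w1 w2 Q P r1 r2
            + q.1 * q.2 * E2 v1 v2 w1 w2 P Q r1 r2) ^ 2 with hg
  have hae : (fun q : ℝ × ℝ => ∫ Z : Fin 4 → ℂ, pfK ((v1 : ℂ) * Z 0 + v2 * Z 1)
      ((w1 : ℂ) * Z 2 + w2 * Z 3) (exp (-(star Z ⬝ᵥ M.mulVec Z))) q)
      =ᵐ[pfμ] fun q => ((Real.pi ^ 4 / (s1 * s2) * g q : ℝ) : ℂ) := by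
    filter_upwards [pf_ae] with q hq
    have hK : ∀ Z : Fin 4 → ℂ, pfK ((v1 : ℂ) * Z 0 + v2 * Z 1)
        ((w1 : ℂ) * Z 2 + w2 * Z 3) (exp (-(star Z ⬝ᵥ M.mulVec Z))) q
        = (((√q.1)⁻¹ * (√q.2)⁻¹ : ℝ) : ℂ) * (((v1 : ℂ) * Z 0 + v2 * Z 1)
          * conj ((w1 : ℂ) * Z 2 + w2 * Z 3) *
          exp (-(star Z ⬝ᵥ
            (pfM (v1 : ℂ) v2 w1 w2 s1 s2 (pfc P) (pfc Q) r1 r2 q.1 q.2).mulVec Z))) := by
      intro Z
      have e1 : star Z ⬝ᵥ (pfM (v1 : ℂ) v2 w1 w2 s1 s2 (pfc P) (pfc Q) r1 r2 q.1 q.2).mulVec Z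
          = star Z ⬝ᵥ M.mulVec Z + ((q.1 * ‖(v1 : ℂ) * Z 0 + v2 * Z 1‖ ^ 2 : ℝ) : ℂ)
            + ((q.2 * ‖(w1 : ℂ) * Z 2 + w2 * Z 3‖ ^ 2 : ℝ) : ℂ) := by
        rw [hM, pf_form_eq, pf_form_eq]
        simp
      rw [e1, neg_add, neg_add, Complex.exp_add, Complex.exp_add, pfK, pfw]
      push_cast
      ring
    simp only [hK]
    rw [integral_const_mul, pf_gauss v1 v2 w1 w2 s1 s2 P Q hP hQ r1 r2 q.1 q.2 h1 h2 hs1 hs2
      hq.1.le hq.2.le, ← Complex.ofReal_mul]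
    congr 1
    rw [hg]
    ring
  rw [integral_congr_ae hae, integral_complex_ofReal, integral_const_mul, integral_const_mul]
    at hsw
  have hgi : Integrable g pfμ := by
    have h3 := (hswi.congr hae).re
    have h4 : Integrable (fun q => Real.pi ^ 4 / (s1 * s2) * g q) pfμ := by
      exact h3.congr (Filter.Eventually.of_forall fun q => Complex.ofReal_re _)
    have hne : Real.pi ^ 4 / (s1 * s2) ≠ 0 := by
      have : s1 ≠ 0 := left_ne_zero_of_mul_eq_one hs1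
      have : s2 ≠ 0 := left_ne_zero_of_mul_eq_one hs2
      have := Real.pi_ne_zero
      positivity
    have h5 := h4.const_mul (Real.pi ^ 4 / (s1 * s2))⁻¹
    exact h5.congr (Filter.Eventually.of_forall fun q => inv_mul_cancel_left₀ hne (g q))
  have hgp : ∫ q, g q ∂pfμ = Real.pi * Jint (D2 P Q r1 r2) (A2 v1 v2 P Q r1 r2)
      (A2 w1 w2 Q P r1 r2) (E2 v1 v2 w1 w2 P Q r1 r2) (c2 v1 v2 w1 w2 P Q r1 r2) := by
    have := Real.pi_ne_zero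
    unfold pfμ at hgi ⊢
    rw [integral_prod _ hgi, Jint, ← mul_assoc, mul_one_div_cancel this, one_mul]
  rw [hgp] at hsw
  have hpi : (Real.pi : ℂ) ≠ 0 := by exact_mod_cast Real.pi_ne_zero
  apply mul_left_cancel₀ hpi
  rw [hsw, ← Complex.ofReal_mul]
  congr 1
  ring

private theorem pf_psd_tr (Q : M2 ℝ) (hQ : Q.psd) : Q.tr.psd := by
  obtain ⟨h1, h2, h3⟩ := hQ
  exact ⟨h1, h2, by simpa [M2.tr, add_comm] using h3⟩

private theorem pf_fP_measurable (v1 v2 : ℝ) (P : M2 ℝ) : Measurable (fP v1 v2 P) := by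
  unfold fP sg M2.form
  have hz : Measurable (fun z : Fin 2 → ℂ => (v1 : ℂ) * z 0 + v2 * z 1) := by fun_prop
  have hE : Continuous (fun z : Fin 2 → ℂ => exp (-(P.a * (conj (z 0) * z 0)
    + P.b * (conj (z 0) * z 1) + P.c * (conj (z 1) * z 0) + P.d * (conj (z 1) * z 1)))) := by
    fun_prop
  exact (hz.div (Complex.measurable_ofReal.comp hz.norm)).mul hE.measurable

private theorem pf_fP_norm (v1 v2 : ℝ) (P : M2 ℝ) (hP : P.psd) (z : Fin 2 → ℂ) :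
    ‖fP v1 v2 P z‖ ≤ 1 := by
  rw [fP, norm_mul, Complex.norm_exp, Complex.neg_re]
  have h1 : ‖sg ((v1 : ℂ) * z 0 + v2 * z 1)‖ ≤ 1 := by
    rw [sg, norm_div, Complex.norm_real, Real.norm_eq_abs, abs_norm]
    exact div_self_le_one _
  have h2 : Real.exp (-(P.form z).re) ≤ 1 := by
    rw [Real.exp_le_one_iff]
    linarith [pf_form_re P hP z]
  exact mul_le_one₀ h1 (Real.exp_nonneg _) h2

theorem pair_formula (v1 v2 w1 w2 : ℝ) (hv : 0 < v1 ^ 2 + v2 ^ 2) (hw : 0 < w1 ^ 2 + w2 ^ 2)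
    (P Q : M2 ℝ) (hP : P.psd) (hQ : Q.psd) (r1 r2 : ℝ) (h1 : |r1| < 1) (h2 : |r2| < 1) :
    corr (fP v1 v2 P) (fP w1 w2 Q.tr) ![(r1 : ℂ), (r2 : ℂ)]
      = ((Jint (D2 P Q r1 r2) (A2 v1 v2 P Q r1 r2) (A2 w1 w2 Q P r1 r2)
          (E2 v1 v2 w1 w2 P Q r1 r2) (c2 v1 v2 w1 w2 P Q r1 r2) : ℝ) : ℂ) := by
  have e1 : 0 < 1 - r1 ^ 2 := by
    have := (sq_lt_one_iff_abs_lt_one r1).2 h1
    linarith
  have e2 : 0 < 1 - r2 ^ 2 := by
    have := (sq_lt_one_iff_abs_lt_one r2).2 h2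
    linarith
  have hr : (![(r1 : ℂ), (r2 : ℂ)] : Fin 2 → ℂ) = fun j => (((![r1, r2] : Fin 2 → ℝ) j : ℝ) : ℂ) := by
    funext j
    fin_cases j <;> simp
  have hr' : ∀ j, |(![r1, r2] : Fin 2 → ℝ) j| < 1 := by
    intro j
    fin_cases j
    · simpa using h1
    · simpa using h2
  rw [hr, corr_dens _ _ (pf_fP_measurable v1 v2 P) (pf_fP_measurable w1 w2 Q.tr) 1
    (pf_fP_norm v1 v2 P hP) (pf_fP_norm w1 w2 Q.tr (pf_psd_tr Q hQ)) _ hr', pf_vol]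
  set s1 : ℝ := (1 - r1 ^ 2)⁻¹ with hs1
  set s2 : ℝ := (1 - r2 ^ 2)⁻¹ with hs2
  have hs1' : s1 * (1 - r1 ^ 2) = 1 := inv_mul_cancel₀ e1.ne'
  have hs2' : s2 * (1 - r2 ^ 2) = 1 := inv_mul_cancel₀ e2.ne'
  have hcore := pf_core v1 v2 w1 w2 s1 s2 P Q hP hQ r1 r2 h1 h2 hs1' hs2'
  have hpt : ∀ Z : Fin 4 → ℂ, fP v1 v2 P ![Z 0, Z 1] * conj (fP w1 w2 Q.tr ![Z 2, Z 3])
      * ∏ j, kd (((![r1, r2] : Fin 2 → ℝ) j : ℝ) : ℂ) (![Z 0, Z 1] j) (![Z 2, Z 3] j)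
      = (((s1 * s2) / Real.pi ^ 4 : ℝ) : ℂ) *
        (sg ((v1 : ℂ) * Z 0 + v2 * Z 1) * conj (sg ((w1 : ℂ) * Z 2 + w2 * Z 3)) *
      exp (-(star Z ⬝ᵥ
        (pfM (v1 : ℂ) v2 w1 w2 s1 s2 (pfc P) (pfc Q) r1 r2 (0 : ℝ) (0 : ℝ)).mulVec Z))) := by
    intro Z
    rw [pf_form_eq]
    have hQf : conj (Q.tr.form ![Z 2, Z 3]) = Q.form ![Z 2, Z 3] := by
      simp [M2.form, M2.tr]
      ring
    simp only [Fin.prod_univ_two, Matrix.cons_val_zero, Matrix.cons_val_one, fP, kd, map_mul,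
      ← Complex.exp_conj, map_neg, hQf]
    have hk : ∀ (r s : ℝ) (z w : ℂ), s = (1 - r ^ 2)⁻¹ →
        -((z * conj z + w * conj w - (r : ℂ) * (z * conj w + conj z * w)) / (1 - (r : ℂ) ^ 2))
          = -((s : ℂ) * (z * conj z + w * conj w - (r : ℂ) * (z * conj w + conj z * w))) := by
      intro r s z w hs
      rw [hs]
      push_cast
      rw [div_eq_mul_inv, mul_comm _ (1 - (r : ℂ) ^ 2)⁻¹]
    rw [hk r1 s1 _ _ hs1, hk r2 s2 _ _ hs2]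
    have hc1 : ((Real.pi : ℂ) ^ 2 * (1 - (r1 : ℂ) ^ 2))⁻¹ = (s1 : ℂ) / Real.pi ^ 2 := by
      rw [hs1]
      push_cast
      rw [mul_inv, mul_comm, div_eq_mul_inv]
    have hc2 : ((Real.pi : ℂ) ^ 2 * (1 - (r2 : ℂ) ^ 2))⁻¹ = (s2 : ℂ) / Real.pi ^ 2 := by
      rw [hs2]
      push_cast
      rw [mul_inv, mul_comm, div_eq_mul_inv]
    rw [hc1, hc2]
    have hexp : exp (-(((s1 : ℂ) * (Z 0 * conj (Z 0) + Z 2 * conj (Z 2)
          - r1 * (Z 0 * conj (Z 2) + conj (Z 0) * Z 2))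
        + s2 * (Z 1 * conj (Z 1) + Z 3 * conj (Z 3) - r2 * (Z 1 * conj (Z 3) + conj (Z 1) * Z 3))
        + P.form ![Z 0, Z 1] + Q.form ![Z 2, Z 3]
        + ((0 * ‖(v1 : ℂ) * Z 0 + v2 * Z 1‖ ^ 2 : ℝ) : ℂ)
        + ((0 * ‖(w1 : ℂ) * Z 2 + w2 * Z 3‖ ^ 2 : ℝ) : ℂ))))
        = exp (-(P.form ![Z 0, Z 1])) * exp (-(Q.form ![Z 2, Z 3]))
          * (exp (-((s1 : ℂ) * (Z 0 * conj (Z 0) + Z 2 * conj (Z 2)
              - r1 * (Z 0 * conj (Z 2) + conj (Z 0) * Z 2))))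
            * exp (-((s2 : ℂ) * (Z 1 * conj (Z 1) + Z 3 * conj (Z 3)
              - r2 * (Z 1 * conj (Z 3) + conj (Z 1) * Z 3))))) := by
      rw [← Complex.exp_add, ← Complex.exp_add, ← Complex.exp_add]
      congr 1
      push_cast
      ring
    rw [hexp]
    push_cast
    ring
  simp only [hpt]
  rw [integral_const_mul, hcore, ← Complex.ofReal_mul]
  congr 1
  have := Real.pi_ne_zero
  have : s1 ≠ 0 := left_ne_zero_of_mul_eq_one hs1'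
  have : s2 ≠ 0 := left_ne_zero_of_mul_eq_one hs2'
  field_simp

end GUB
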