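import Pool.Agent.Lib.MP_721eb4_an.UB.Defs

/-! Upper bound for the complex Grothendieck constant: module PFalg -/

set_option autoImplicit false

open MeasureTheory Complex Set GLB
open scoped ComplexConjugate

namespace GUB

theorem AB_DE (v1 v2 w1 w2 : ℝ) (P Q : M2 ℝ) (r1 r2 : ℝ) :
    A2 v1 v2 P Q r1 r2 * A2 w1 w2 Q P r1 r2 - D2 P Q r1 r2 * E2 v1 v2 w1 w2 P Q r1 r2
      = c2 v1 v2 w1 w2 P Q r1 r2 * c2 w1 w2 v1 v2 Q P r1 r2 := by
  rcases P with ⟨a, b, c, d⟩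
  rcases Q with ⟨a', b', c', d'⟩
  simp only [A2, D2, E2, c2, al, M2.det]
  ring

end GUB
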