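import Pool.Agent.Lib.MP_721eb4_an.UB.Form

/-! Upper bound for the complex Grothendieck constant: the data of the certificate -/

set_option autoImplicit false

open MeasureTheory Complex Set GLB
open scoped ComplexConjugate

namespace GUB

/-- the pairs of scheme `A`: weight over `4·10^12`, two matrices with entries over `10^6` -/
def prA : List (ℤ × M2 ℤ × M2 ℤ) := [
  (4000000000000, ⟨0, 0, 0, 0⟩, ⟨0, 0, 0, 0⟩),
  (-760000000000, ⟨1669256, 898293, 182800, 321715⟩, ⟨0, 0, 0, 0⟩),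
  (760000000000, ⟨1669256, 182800, 898293, 321715⟩, ⟨0, 0, 0, 0⟩),
  (760000000000, ⟨1156906, 849005, 311922, 291532⟩, ⟨0, 0, 0, 0⟩),
  (-760000000000, ⟨1156906, 311922, 849005, 291532⟩, ⟨0, 0, 0, 0⟩),
  (36100000000, ⟨1669256, 898293, 182800, 321715⟩, ⟨1669256, 182800, 898293, 321715⟩),
  (-72200000000, ⟨1669256, 898293, 182800, 321715⟩, ⟨1669256, 898293, 182800, 321715⟩),
  (-72200000000, ⟨1669256, 898293, 182800, 321715⟩, ⟨1156906, 311922, 849005, 291532⟩),
  (72200000000, ⟨1669256, 898293, 182800, 321715⟩, ⟨1156906, 849005, 311922, 291532⟩),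
  (36100000000, ⟨1669256, 182800, 898293, 321715⟩, ⟨1669256, 898293, 182800, 321715⟩),
  (72200000000, ⟨1669256, 182800, 898293, 321715⟩, ⟨1156906, 311922, 849005, 291532⟩),
  (-72200000000, ⟨1669256, 182800, 898293, 321715⟩, ⟨1156906, 849005, 311922, 291532⟩),
  (36100000000, ⟨1156906, 849005, 311922, 291532⟩, ⟨1156906, 311922, 849005, 291532⟩),
  (-72200000000, ⟨1156906, 849005, 311922, 291532⟩, ⟨1156906, 849005, 311922, 291532⟩),
  (36100000000, ⟨1156906, 311922, 849005, 291532⟩, ⟨1156906, 849005, 311922, 291532⟩),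
  (36100000000, ⟨3338512, 1796586, 365600, 643430⟩, ⟨0, 0, 0, 0⟩),
  (-72200000000, ⟨3338512, 1081093, 1081093, 643430⟩, ⟨0, 0, 0, 0⟩),
  (-72200000000, ⟨2826162, 1747298, 494722, 613247⟩, ⟨0, 0, 0, 0⟩),
  (72200000000, ⟨2826162, 1210215, 1031805, 613247⟩, ⟨0, 0, 0, 0⟩),
  (36100000000, ⟨3338512, 365600, 1796586, 643430⟩, ⟨0, 0, 0, 0⟩),
  (72200000000, ⟨2826162, 1031805, 1210215, 613247⟩, ⟨0, 0, 0, 0⟩),
  (-72200000000, ⟨2826162, 494722, 1747298, 613247⟩, ⟨0, 0, 0, 0⟩),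
  (36100000000, ⟨2313812, 1698010, 623844, 583064⟩, ⟨0, 0, 0, 0⟩),
  (-72200000000, ⟨2313812, 1160927, 1160927, 583064⟩, ⟨0, 0, 0, 0⟩),
  (36100000000, ⟨2313812, 623844, 1698010, 583064⟩, ⟨0, 0, 0, 0⟩)]

/-- entries over `10^6` -/
noncomputable def toR (P : M2 ℤ) : M2 ℝ := P.map (fun x : ℤ => (x : ℝ) / 10 ^ 6)

/-- the vector of scheme `A` is `(1, rA)` -/
noncomputable def rA : ℝ := 322124 / 10 ^ 6

/-- kernels of scheme `A` -/
noncomputable def kA : Fin 2 → Polynomial ℝ := ![1, -Polynomial.X]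

/-- kernel of the rotor scheme -/
noncomputable def kT : Polynomial ℝ := Polynomial.C (19 / 20) - Polynomial.C (1 / 20) * Polynomial.X

/-- kernel of the third scheme -/
noncomputable def kN : Polynomial ℝ :=
  Polynomial.C (496929 / 1000000) - Polynomial.C (200460 / 1000000) * Polynomial.X
      + Polynomial.C (149372 / 1000000) * Polynomial.X ^ 2
      - Polynomial.C (153239 / 1000000) * Polynomial.X ^ 3

/-- phase of the rotor scheme (a point of the unit circle) -/
noncomputable def kapT : ℂ := (1194051 : ℂ) / 1930949 - (1517500 : ℂ) / 1930949 * I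

/-- frequency of the rotor scheme -/
noncomputable def eT : ℝ := 150677 / 10 ^ 6

/-- the coefficients of `X` -/
noncomputable def gA : Fin 4 → ℝ :=
  ![-190000 / (2 * 10 ^ 6), 190000 / (2 * 10 ^ 6), 190000 / (2 * 10 ^ 6), -190000 / (2 * 10 ^ 6)]

/-- the matrices of `X`, over `10^6` -/
def pA : Fin 4 → M2 ℤ :=
  ![⟨1669256, 898293, 182800, 321715⟩, ⟨1669256, 182800, 898293, 321715⟩,
    ⟨1156906, 849005, 311922, 291532⟩, ⟨1156906, 311922, 849005, 291532⟩]

/-- the function `X` -/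
noncomputable def XA (z : Fin 2 → ℂ) : ℂ := ∑ l, (gA l : ℂ) * exp (-((toR (pA l)).form z))

/-- the polynomials of a pair -/
noncomputable def pD (P Q : M2 ℤ) : Polynomial ℝ := lp (Dl (toR P) (toR Q))
noncomputable def pAA (P Q : M2 ℤ) : Polynomial ℝ := lp (Al 1 rA (toR P) (toR Q))
noncomputable def pE (P Q : M2 ℤ) : Polynomial ℝ := lp (El 1 rA (toR P) (toR Q))
noncomputable def pc (P Q : M2 ℤ) : Polynomial ℝ := lp (Cl 1 rA (toR P) (toR Q))

open Classical in
/-- a square root of `1/Y` -/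
noncomputable def Wser (Y : PowerSeries ℝ) : PowerSeries ℝ :=
  if h : 0 < PowerSeries.constantCoeff Y then Classical.choose (exists_sqrt_series Y h) else 0

/-- the `N`-th coefficient of the pair `(P,Q)`, in units of `π/4` -/
noncomputable def ThP (P Q : M2 ℤ) (N : ℕ) : ℝ :=
  Theta (pD P Q : PowerSeries ℝ) (Wser ((pAA P Q * pAA Q P : Polynomial ℝ) : PowerSeries ℝ))
    (pc P Q : PowerSeries ℝ) (pc Q P : PowerSeries ℝ) N

/-- the `N`-th coefficient of scheme `A` (second order approximation), in units of `π/4` -/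
noncomputable def ThA (N : ℕ) : ℝ :=
  (prA.map (fun t => (t.1 : ℝ) / (4 * 10 ^ 12) * ThP t.2.1 t.2.2 N)).sum

/-- value of a pair -/
noncomputable def cor (P Q : M2 ℤ) (s : ℂ) : ℂ :=
  corr (fP 1 rA (toR P)) (fP 1 rA (toR Q.tr)) (fun j => ker (kA j) s)

/-- the second order approximation of scheme `A` -/
noncomputable def PhiA (s : ℂ) : ℂ :=
  (prA.map (fun t => (((t.1 : ℝ) / (4 * 10 ^ 12) : ℝ) : ℂ) * cor t.2.1 t.2.2 s)).sum

end GUB
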