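import Pool.Agent.Lib.MP_721eb4_an.UB.MinP
import Pool.Agent.Lib.MP_721eb4_an.UB.Data

/-! Upper bound for the complex Grothendieck constant: module Pos

Kernel-checked positivity: the real part of a quartic polynomial on the disc `|q| ≤ 7/5` is bounded
below by the smallest Bernstein coefficient of the corresponding Chebyshev combination. -/

set_option autoImplicit false

open MeasureTheory Complex Set GLB
open scoped ComplexConjugate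

namespace GUB

lemma Pos_coeff (l : List ℝ) (m : ℕ) : (lp l).coeff m = l.getD m 0 := by
  induction l generalizing m with
  | nil => simp [lp]
  | cons a l ih =>
    have h : lp (a :: l) = Polynomial.C a + Polynomial.X * lp l := rfl
    rw [h]
    cases m with
    | zero => simp
    | succ m => simp [ih m]

lemma Pos_low (c0 c1 c2 c3 c4 δ : ℝ)
    (h0 : δ ≤ c0 - 7 / 5 * c1 + 49 / 25 * c2 - 343 / 125 * c3 + 2401 / 625 * c4)
    (h1 : δ ≤ c0 - 7 / 10 * c1 - 49 / 25 * c2 + 7 / 2 * (343 / 125) * c3 - 7 * (2401 / 625) * c4)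
    (h2 : δ ≤ c0 - 5 / 3 * (49 / 25) * c2 + 35 / 3 * (2401 / 625) * c4)
    (h3 : δ ≤ c0 + 7 / 10 * c1 - 49 / 25 * c2 - 7 / 2 * (343 / 125) * c3 - 7 * (2401 / 625) * c4)
    (h4 : δ ≤ c0 + 7 / 5 * c1 + 49 / 25 * c2 + 343 / 125 * c3 + 2401 / 625 * c4) :
    ∀ q : ℂ, ‖q‖ ≤ 7 / 5 → δ ≤ (Polynomial.aeval q (lp [c0, c1, c2, c3, c4])).re := by
  refine minP _ _ _ (by norm_num) ?_
  intro x hx0 hx1
  have hd : (lp [c0, c1, c2, c3, c4]).natDegree ≤ 4 := by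
    rw [Polynomial.natDegree_le_iff_coeff_eq_zero]
    intro N hN
    rw [Pos_coeff]
    rw [List.getD_eq_default]
    simp only [List.length_cons, List.length_nil]
    omega
  have hsum : ∑ m ∈ Finset.range ((lp [c0, c1, c2, c3, c4]).natDegree + 1),
        (lp [c0, c1, c2, c3, c4]).coeff m * (7 / 5) ^ m * (Polynomial.Chebyshev.T ℝ m).eval x
      = ∑ m ∈ Finset.range 5,
        (lp [c0, c1, c2, c3, c4]).coeff m * (7 / 5) ^ m * (Polynomial.Chebyshev.T ℝ m).eval x := by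
    apply Finset.sum_subset
    · intro m hm
      rw [Finset.mem_range] at hm ⊢
      omega
    · intro m _ hm
      rw [Finset.mem_range, not_lt] at hm
      rw [Polynomial.coeff_eq_zero_of_natDegree_lt (by omega)]
      ring
  have t2 : (Polynomial.Chebyshev.T ℝ 2).eval x = 2 * x ^ 2 - 1 := by
    rw [Polynomial.Chebyshev.T_two]; simp
  have t3 : (Polynomial.Chebyshev.T ℝ 3).eval x = 4 * x ^ 3 - 3 * x := by
    have := Polynomial.Chebyshev.T_add_two ℝ 1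
    norm_num at this
    rw [this]
    simp [t2]
    ring
  have t4 : (Polynomial.Chebyshev.T ℝ 4).eval x = 8 * x ^ 4 - 8 * x ^ 2 + 1 := by
    have := Polynomial.Chebyshev.T_add_two ℝ 2
    norm_num at this
    rw [this]
    simp [t2, t3]
    ring
  rw [hsum]
  simp only [Finset.sum_range_succ, Finset.sum_range_zero, Pos_coeff]
  have e : (0 : ℝ) + List.getD [c0, c1, c2, c3, c4] 0 0 * (7 / 5) ^ 0 *
        (Polynomial.Chebyshev.T ℝ ((0 : ℕ) : ℤ)).eval x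
      + List.getD [c0, c1, c2, c3, c4] 1 0 * (7 / 5) ^ 1 *
        (Polynomial.Chebyshev.T ℝ ((1 : ℕ) : ℤ)).eval x
      + List.getD [c0, c1, c2, c3, c4] 2 0 * (7 / 5) ^ 2 *
        (Polynomial.Chebyshev.T ℝ ((2 : ℕ) : ℤ)).eval x
      + List.getD [c0, c1, c2, c3, c4] 3 0 * (7 / 5) ^ 3 *
        (Polynomial.Chebyshev.T ℝ ((3 : ℕ) : ℤ)).eval x
      + List.getD [c0, c1, c2, c3, c4] 4 0 * (7 / 5) ^ 4 *
        (Polynomial.Chebyshev.T ℝ ((4 : ℕ) : ℤ)).eval x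
      = c0 + c1 * (7 / 5) * x + c2 * (49 / 25) * (2 * x ^ 2 - 1)
        + c3 * (343 / 125) * (4 * x ^ 3 - 3 * x)
        + c4 * (2401 / 625) * (8 * x ^ 4 - 8 * x ^ 2 + 1) := by
    push_cast
    rw [t2, t3, t4]
    simp
    ring
  rw [e]
  have hu : 0 ≤ (1 - x) / 2 := by linarith
  have hv : 0 ≤ (1 + x) / 2 := by linarith
  have key : c0 + c1 * (7 / 5) * x + c2 * (49 / 25) * (2 * x ^ 2 - 1)
        + c3 * (343 / 125) * (4 * x ^ 3 - 3 * x)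
        + c4 * (2401 / 625) * (8 * x ^ 4 - 8 * x ^ 2 + 1) - δ
      = (c0 - 7 / 5 * c1 + 49 / 25 * c2 - 343 / 125 * c3 + 2401 / 625 * c4 - δ)
          * ((1 - x) / 2) ^ 4
        + (c0 - 7 / 10 * c1 - 49 / 25 * c2 + 7 / 2 * (343 / 125) * c3 - 7 * (2401 / 625) * c4 - δ)
          * (4 * ((1 + x) / 2) * ((1 - x) / 2) ^ 3)
        + (c0 - 5 / 3 * (49 / 25) * c2 + 35 / 3 * (2401 / 625) * c4 - δ)
          * (6 * ((1 + x) / 2) ^ 2 * ((1 - x) / 2) ^ 2)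
        + (c0 + 7 / 10 * c1 - 49 / 25 * c2 - 7 / 2 * (343 / 125) * c3 - 7 * (2401 / 625) * c4 - δ)
          * (4 * ((1 + x) / 2) ^ 3 * ((1 - x) / 2))
        + (c0 + 7 / 5 * c1 + 49 / 25 * c2 + 343 / 125 * c3 + 2401 / 625 * c4 - δ)
          * ((1 + x) / 2) ^ 4 := by ring
  have p0 := mul_nonneg (sub_nonneg.2 h0) (pow_nonneg hu 4)
  have p1 := mul_nonneg (sub_nonneg.2 h1)
    (mul_nonneg (mul_nonneg (by norm_num : (0 : ℝ) ≤ 4) hv) (pow_nonneg hu 3))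
  have p2 := mul_nonneg (sub_nonneg.2 h2)
    (mul_nonneg (mul_nonneg (by norm_num : (0 : ℝ) ≤ 6) (pow_nonneg hv 2)) (pow_nonneg hu 2))
  have p3 := mul_nonneg (sub_nonneg.2 h3)
    (mul_nonneg (mul_nonneg (by norm_num : (0 : ℝ) ≤ 4) (pow_nonneg hv 3)) hu)
  have p4 := mul_nonneg (sub_nonneg.2 h4) (pow_nonneg hv 4)
  linarith

/-- `ℓ¹` bound -/
def Pos_l1 (l : List ℚ) : ℚ := l.foldr (fun a s => |a| + 7 / 5 * s) 0

lemma Pos_norm (l : List ℚ) (q : ℂ) (hq : ‖q‖ ≤ 7 / 5) :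
    ‖Polynomial.aeval q (lp (l.map ((↑) : ℚ → ℝ)))‖ ≤ ((Pos_l1 l : ℚ) : ℝ) := by
  induction l with
  | nil => simp [lp, Pos_l1]
  | cons a l ih =>
    have h : lp ((a :: l).map ((↑) : ℚ → ℝ)) =
        Polynomial.C (a : ℝ) + Polynomial.X * lp (l.map ((↑) : ℚ → ℝ)) := rfl
    have h2 : Pos_l1 (a :: l) = |a| + 7 / 5 * Pos_l1 l := rfl
    rw [h, h2, map_add, map_mul, Polynomial.aeval_X, Polynomial.aeval_C]
    refine (norm_add_le _ _).trans ?_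
    have e1 : ‖(algebraMap ℝ ℂ) (a : ℝ)‖ = |(a : ℝ)| := by
      rw [Complex.coe_algebraMap, Complex.norm_real, Real.norm_eq_abs]
    have e2 : ((|a| + 7 / 5 * Pos_l1 l : ℚ) : ℝ) = |(a : ℝ)| + 7 / 5 * ((Pos_l1 l : ℚ) : ℝ) := by
      push_cast
      ring
    rw [e1, e2, norm_mul]
    have := mul_le_mul hq ih (norm_nonneg _) (by norm_num)
    linarith

/-- the smallest Bernstein coefficient -/
def Pos_min : List ℚ → ℚ
  | [c0, c1, c2, c3, c4] =>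
    min (c0 - 7 / 5 * c1 + 49 / 25 * c2 - 343 / 125 * c3 + 2401 / 625 * c4)
    (min (c0 - 7 / 10 * c1 - 49 / 25 * c2 + 7 / 2 * (343 / 125) * c3 - 7 * (2401 / 625) * c4)
    (min (c0 - 5 / 3 * (49 / 25) * c2 + 35 / 3 * (2401 / 625) * c4)
    (min (c0 + 7 / 10 * c1 - 49 / 25 * c2 - 7 / 2 * (343 / 125) * c3 - 7 * (2401 / 625) * c4)
    (c0 + 7 / 5 * c1 + 49 / 25 * c2 + 343 / 125 * c3 + 2401 / 625 * c4))))
  | _ => 0

lemma Pos_min_le (c0 c1 c2 c3 c4 : ℚ) (q : ℂ) (hq : ‖q‖ ≤ 7 / 5) :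
    ((Pos_min [c0, c1, c2, c3, c4] : ℚ) : ℝ) ≤
      (Polynomial.aeval q (lp ([c0, c1, c2, c3, c4].map ((↑) : ℚ → ℝ)))).re := by
  have g0 : Pos_min [c0, c1, c2, c3, c4] ≤ _ := min_le_left _ _
  have g1 : Pos_min [c0, c1, c2, c3, c4] ≤ _ := (min_le_right _ _).trans (min_le_left _ _)
  have g2 : Pos_min [c0, c1, c2, c3, c4] ≤ _ :=
    (min_le_right _ _).trans ((min_le_right _ _).trans (min_le_left _ _))
  have g3 : Pos_min [c0, c1, c2, c3, c4] ≤ _ := (min_le_right _ _).trans ((min_le_right _ _).trans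
      ((min_le_right _ _).trans (min_le_left _ _)))
  have g4 : Pos_min [c0, c1, c2, c3, c4] ≤ _ := (min_le_right _ _).trans ((min_le_right _ _).trans
      ((min_le_right _ _).trans (min_le_right _ _)))
  have h0 := (Rat.cast_le (K := ℝ)).2 g0
  have h1 := (Rat.cast_le (K := ℝ)).2 g1
  have h2 := (Rat.cast_le (K := ℝ)).2 g2
  have h3 := (Rat.cast_le (K := ℝ)).2 g3
  have h4 := (Rat.cast_le (K := ℝ)).2 g4
  refine Pos_low _ _ _ _ _ _ (h0.trans (le_of_eq ?_)) (h1.trans (le_of_eq ?_))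
    (h2.trans (le_of_eq ?_)) (h3.trans (le_of_eq ?_)) (h4.trans (le_of_eq ?_)) q hq
  all_goals
    push_cast
    ring

/-- entries over `10^6` -/
def Pos_toQ (P : M2 ℤ) : M2 ℚ := P.map (fun x : ℤ => (x : ℚ) / 10 ^ 6)

/-- the vector -/
def Pos_r : ℚ := 322124 / 10 ^ 6

lemma Pos_rA : rA = ((Pos_r : ℚ) : ℝ) := by
  rw [rA, Pos_r]; norm_num

lemma Pos_Dl (P Q : M2 ℤ) :
    Dl (toR P) (toR Q) = (Dl (Pos_toQ P) (Pos_toQ Q)).map ((↑) : ℚ → ℝ) := by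
  simp [Dl, toR, Pos_toQ, M2.map, M2.det]

lemma Pos_Al (P Q : M2 ℤ) :
    Al 1 rA (toR P) (toR Q) = (Al 1 Pos_r (Pos_toQ P) (Pos_toQ Q)).map ((↑) : ℚ → ℝ) := by
  rw [Pos_rA]
  simp [Al, al, toR, Pos_toQ, M2.map, M2.det]

lemma Pos_El (P Q : M2 ℤ) :
    El 1 rA (toR P) (toR Q) = (El 1 Pos_r (Pos_toQ P) (Pos_toQ Q)).map ((↑) : ℚ → ℝ) := by
  rw [Pos_rA]
  simp [El, al, toR, Pos_toQ, M2.map]

lemma Pos_Cl (P Q : M2 ℤ) :
    Cl 1 rA (toR P) (toR Q) = (Cl 1 Pos_r (Pos_toQ P) (Pos_toQ Q)).map ((↑) : ℚ → ℝ) := by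
  rw [Pos_rA]
  simp [Cl, toR, Pos_toQ, M2.map]

/-- the check of a pair -/
def Pos_ok (P Q : M2 ℚ) : Bool :=
  decide (0 < Pos_min (Dl P Q)) && decide (0 < Pos_min (Al 1 Pos_r P Q)) &&
  decide (0 < Pos_min (Al 1 Pos_r Q P)) && decide (0 ≤ Pos_min (El 1 Pos_r P Q)) &&
  decide (Pos_l1 (Cl 1 Pos_r P Q) ^ 2 ≤ (21 / 20) ^ 2 *
    (Pos_min (Dl P Q) ^ 2 * (Pos_min (Al 1 Pos_r P Q) * Pos_min (Al 1 Pos_r Q P))))

lemma Pos_all : prA.all (fun t => Pos_ok (Pos_toQ t.2.1) (Pos_toQ t.2.2)) = true := by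
  decide +kernel

/-- positivity on the disc of radius 7/5 for all pairs -/
theorem pos_data : ∀ t ∈ prA, ∃ δD δA δB γ : ℝ, 0 < δD ∧ 0 < δA ∧ 0 < δB ∧
    (∀ q : ℂ, ‖q‖ ≤ 7 / 5 → δD ≤ (Polynomial.aeval q (pD t.2.1 t.2.2)).re) ∧
    (∀ q : ℂ, ‖q‖ ≤ 7 / 5 → δA ≤ (Polynomial.aeval q (pAA t.2.1 t.2.2)).re) ∧
    (∀ q : ℂ, ‖q‖ ≤ 7 / 5 → δB ≤ (Polynomial.aeval q (pAA t.2.2 t.2.1)).re) ∧
    (∀ q : ℂ, ‖q‖ ≤ 7 / 5 → 0 ≤ (Polynomial.aeval q (pE t.2.1 t.2.2)).re) ∧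
    (∀ q : ℂ, ‖q‖ ≤ 7 / 5 → ‖Polynomial.aeval q (pc t.2.1 t.2.2)‖ ≤ γ) ∧
    γ / (δD * √(δA * δB)) ≤ 21 / 20 := by
  intro t ht
  have h := (List.all_eq_true.1 Pos_all) t ht
  simp only [Pos_ok, Bool.and_eq_true, decide_eq_true_eq] at h
  obtain ⟨⟨⟨⟨hD, hA⟩, hB⟩, hE⟩, hc⟩ := h
  set P := Pos_toQ t.2.1 with hP
  set Q := Pos_toQ t.2.2 with hQ
  have hD' : (0 : ℝ) < ((Pos_min (Dl P Q) : ℚ) : ℝ) := by exact_mod_cast hD
  have hA' : (0 : ℝ) < ((Pos_min (Al 1 Pos_r P Q) : ℚ) : ℝ) := by exact_mod_cast hA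
  have hB' : (0 : ℝ) < ((Pos_min (Al 1 Pos_r Q P) : ℚ) : ℝ) := by exact_mod_cast hB
  have hE' : (0 : ℝ) ≤ ((Pos_min (El 1 Pos_r P Q) : ℚ) : ℝ) := by exact_mod_cast hE
  refine ⟨_, _, _, ((Pos_l1 (Cl 1 Pos_r P Q) : ℚ) : ℝ), hD', hA', hB', ?_, ?_, ?_, ?_, ?_, ?_⟩
  · intro q hq
    rw [pD, Pos_Dl]
    exact Pos_min_le _ _ _ _ _ q hq
  · intro q hq
    rw [pAA, Pos_Al]
    exact Pos_min_le _ _ _ _ _ q hq
  · intro q hq
    rw [pAA, Pos_Al]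
    exact Pos_min_le _ _ _ _ _ q hq
  · intro q hq
    rw [pE, Pos_El]
    exact hE'.trans (Pos_min_le _ _ _ _ _ q hq)
  · intro q hq
    rw [pc, Pos_Cl]
    exact Pos_norm _ q hq
  · have hs := Real.sqrt_pos.2 (mul_pos hA' hB')
    rw [div_le_iff₀ (mul_pos hD' hs)]
    apply le_of_sq_le_sq _ (by positivity)
    rw [mul_pow, mul_pow, Real.sq_sqrt (mul_pos hA' hB').le]
    have h5 := (Rat.cast_le (K := ℝ)).2 hc
    push_cast at h5
    exact h5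

end GUB
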