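import Pool.Agent.Lib.MP_721eb4_an.UB.Defs

/-! Upper bound for the complex Grothendieck constant: module Rot -/

set_option autoImplicit false

open MeasureTheory Complex Set GLB
open scoped ComplexConjugate

namespace GUB

theorem sg_measurable : Measurable sg := by
  unfold sg
  fun_prop

theorem sg_norm_le (z : ℂ) : ‖sg z‖ ≤ 1 := by
  unfold sg
  rw [norm_div, Complex.norm_real, norm_norm]
  exact div_self_le_one _

theorem sg_mul (w z : ℂ) (hw : ‖w‖ = 1) : sg (w * z) = w * sg z := by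
  unfold sg
  rw [norm_mul, hw, one_mul, mul_div_assoc]

instance gam_prob (n : ℕ) : IsProbabilityMeasure (gam n) := by
  unfold gam
  infer_instance

theorem part_measurable {n : ℕ} (ρ : Fin n → ℂ) :
    Measurable (part ρ) := by
  unfold part
  fun_prop

/-- rotation of one pair -/
theorem rot_pair (r s : ℝ) (h : r ^ 2 + s ^ 2 = 1) :
    MeasurePreserving (fun p : ℂ × ℂ => ((r : ℂ) * p.1 + (s : ℂ) * p.2,
      (s : ℂ) * p.1 - (r : ℂ) * p.2)) (cg.prod cg) (cg.prod cg) := by
  let L : E 2 →ₗ[ℂ] E 2 :=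
    { toFun := fun z => WithLp.toLp 2 ![(r : ℂ) * z 0 + (s : ℂ) * z 1,
        (s : ℂ) * z 0 - (r : ℂ) * z 1]
      map_add' := by
        intro x y
        ext i
        fin_cases i
        · simp
          ring
        · simp
          ring
      map_smul' := by
        intro c x
        ext i
        fin_cases i
        · simp
          ring
        · simp
          ring }
  let U : E 2 →ₗᵢ[ℂ] E 2 :=
    { L with
      norm_map' := by
        intro z
        have h1 : ‖L z‖ ^ 2 = ‖z‖ ^ 2 := by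
          rw [EuclideanSpace.norm_sq_eq, EuclideanSpace.norm_sq_eq, Fin.sum_univ_two,
            Fin.sum_univ_two]
          have e0 : (L z) 0 = (r : ℂ) * z 0 + (s : ℂ) * z 1 := rfl
          have e1 : (L z) 1 = (s : ℂ) * z 0 - (r : ℂ) * z 1 := rfl
          rw [e0, e1]
          rw [Complex.sq_norm, Complex.sq_norm, Complex.sq_norm, Complex.sq_norm]
          simp only [Complex.normSq_apply, Complex.add_re, Complex.add_im, Complex.sub_re,
            Complex.sub_im, Complex.mul_re, Complex.mul_im, Complex.ofReal_re,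
            Complex.ofReal_im, zero_mul, sub_zero, add_zero]
          linear_combination ((z 0).re ^ 2 + (z 0).im ^ 2 + (z 1).re ^ 2 + (z 1).im ^ 2) * h
        exact (sq_eq_sq₀ (norm_nonneg _) (norm_nonneg _)).1 h1 }
  let V : E 2 ≃ₗᵢ[ℂ] E 2 := U.toLinearIsometryEquiv rfl
  have hV : MeasurePreserving V (G 2) (G 2) := G_unitary 2 V
  have h1 : MeasurePreserving (MeasurableEquiv.finTwoArrow : (Fin 2 → ℂ) ≃ᵐ ℂ × ℂ)
      (Measure.pi (fun _ : Fin 2 => cg)) (cg.prod cg) := measurePreserving_finTwoArrow cg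
  have h2 := (h1.comp (measurePreserving_ofLp_G 2)).comp
    ((hV.comp (measurePreserving_toLp_G 2)).comp h1.symm)
  have h3 : (fun p : ℂ × ℂ => ((r : ℂ) * p.1 + (s : ℂ) * p.2,
      (s : ℂ) * p.1 - (r : ℂ) * p.2)) =
      (((MeasurableEquiv.finTwoArrow : (Fin 2 → ℂ) ≃ᵐ ℂ × ℂ) ∘ (WithLp.ofLp : E 2 → (Fin 2 → ℂ)))
        ∘ ((V ∘ (WithLp.toLp 2 : (Fin 2 → ℂ) → E 2)) ∘
          (MeasurableEquiv.finTwoArrow : (Fin 2 → ℂ) ≃ᵐ ℂ × ℂ).symm)) := by
    funext p
    rfl
  rw [h3]
  exact h2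

theorem rot_pairs {n : ℕ} (r s : Fin n → ℝ) (h : ∀ j, r j ^ 2 + s j ^ 2 = 1) :
    MeasurePreserving (fun p : (Fin n → ℂ) × (Fin n → ℂ) =>
      ((fun j => (r j : ℂ) * p.1 j + (s j : ℂ) * p.2 j),
        (fun j => (s j : ℂ) * p.1 j - (r j : ℂ) * p.2 j)))
      ((gam n).prod (gam n)) ((gam n).prod (gam n)) := by
  have h1 : MeasurePreserving (MeasurableEquiv.arrowProdEquivProdArrow ℂ ℂ (Fin n))
      (Measure.pi fun _ => cg.prod cg) ((gam n).prod (gam n)) :=
    measurePreserving_arrowProdEquivProdArrow ℂ ℂ (Fin n) (fun _ => cg) (fun _ => cg)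
  have h2 : MeasurePreserving (fun (q : Fin n → ℂ × ℂ) (j : Fin n) =>
      (((r j : ℂ) * (q j).1 + (s j : ℂ) * (q j).2,
      (s j : ℂ) * (q j).1 - (r j : ℂ) * (q j).2) : ℂ × ℂ))
      (Measure.pi fun _ => cg.prod cg) (Measure.pi fun _ => cg.prod cg) :=
    measurePreserving_pi (fun _ => cg.prod cg) (fun _ => cg.prod cg)
      (f := fun (j : Fin n) (q : ℂ × ℂ) => (((r j : ℂ) * q.1 + (s j : ℂ) * q.2,
      (s j : ℂ) * q.1 - (r j : ℂ) * q.2) : ℂ × ℂ)) (fun j => rot_pair (r j) (s j) (h j))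
  have h3 := h1.comp (h2.comp h1.symm)
  exact h3

theorem rot_all (n : ℕ) (w : ℂ) (hw : ‖w‖ = 1) :
    MeasurePreserving (fun (z : Fin n → ℂ) (j : Fin n) => w * z j) (gam n) (gam n) :=
  measurePreserving_pi (fun _ => cg) (fun _ => cg) (f := fun (_ : Fin n) (z : ℂ) => w * z)
    (fun _ => measurePreserving_rot_cg w hw)

theorem integral_comp_mp {α β : Type*} [MeasurableSpace α] [MeasurableSpace β]
    {μ : Measure α} {ν : Measure β} {T : α → β} (hT : MeasurePreserving T μ ν) (f : β → ℂ)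
    (hf : Measurable f) : ∫ x, f (T x) ∂μ = ∫ y, f y ∂ν := by
  rw [← hT.map_eq, integral_map hT.measurable.aemeasurable hf.aestronglyMeasurable]

theorem corr_rot {n : ℕ} (F H : (Fin n → ℂ) → ℂ) (hF : Measurable F) (hH : Measurable H)
    (eH : ∀ (w : ℂ) (z : Fin n → ℂ), ‖w‖ = 1 → H (fun j => w * z j) = w * H z)
    (ρ : Fin n → ℂ) (w : ℂ) (hw : ‖w‖ = 1) :
    corr F H (fun j => w * ρ j) = w * corr F H ρ := by
  unfold corr
  have hT : MeasurePreserving (fun p : (Fin n → ℂ) × (Fin n → ℂ) => (p.1, fun j => w * p.2 j))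
      ((gam n).prod (gam n)) ((gam n).prod (gam n)) :=
    (MeasurePreserving.id (gam n)).prod (rot_all n w hw)
  have hm : Measurable (fun p : (Fin n → ℂ) × (Fin n → ℂ) =>
      F p.1 * conj (H (part ρ p))) := by
    have h1 := part_measurable ρ
    exact (hF.comp measurable_fst).mul (Complex.continuous_conj.measurable.comp (hH.comp h1))
  rw [← integral_comp_mp hT _ hm, ← integral_const_mul]
  refine integral_congr_ae (Filter.Eventually.of_forall fun p => ?_)
  simp only
  have hc : ‖conj w‖ = 1 := by rw [Complex.norm_conj, hw]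
  have h1 : part (fun j => w * ρ j) p = fun j => conj w * part ρ (p.1, fun j => w * p.2 j) j := by
    funext j
    unfold part
    simp only [map_mul, norm_mul, hw, one_mul]
    have h2 : conj w * w = 1 := by
      rw [mul_comm, Complex.mul_conj, Complex.normSq_eq_norm_sq, hw]
      simp
    linear_combination (-(((√(1 - ‖ρ j‖ ^ 2) : ℝ) : ℂ) * p.2 j)) * h2
  rw [h1, eH _ _ hc, map_mul, Complex.conj_conj]
  ring

/-- For real correlations the correlation is Hermitian symmetric. -/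
theorem corr_symm {n : ℕ} (F H : (Fin n → ℂ) → ℂ) (hF : Measurable F) (hH : Measurable H)
    (r : Fin n → ℝ) (hr : ∀ j, |r j| ≤ 1) :
    corr H F (fun j => (r j : ℂ)) = conj (corr F H (fun j => (r j : ℂ))) := by
  unfold corr
  have hs : ∀ j, r j ^ 2 + (√(1 - r j ^ 2)) ^ 2 = 1 := by
    intro j
    rw [Real.sq_sqrt]
    · ring
    · have := (sq_le_one_iff_abs_le_one (r j)).2 (hr j)
      linarith
  have hT := rot_pairs r (fun j => √(1 - r j ^ 2)) hs
  have hm : Measurable (fun p : (Fin n → ℂ) × (Fin n → ℂ) =>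
      H p.1 * conj (F (part (fun j => (r j : ℂ)) p))) := by
    have h1 := part_measurable (fun j => (r j : ℂ))
    exact (hH.comp measurable_fst).mul (Complex.continuous_conj.measurable.comp (hF.comp h1))
  rw [← integral_comp_mp hT _ hm, ← integral_conj]
  refine integral_congr_ae (Filter.Eventually.of_forall fun p => ?_)
  simp only
  have h1 : part (fun j => (r j : ℂ)) p =
      fun j => (r j : ℂ) * p.1 j + ((√(1 - r j ^ 2) : ℝ) : ℂ) * p.2 j := by
    funext j
    unfold part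
    simp
  have h2 : part (fun j => (r j : ℂ)) ((fun j => (r j : ℂ) * p.1 j +
      ((√(1 - r j ^ 2) : ℝ) : ℂ) * p.2 j), (fun j => ((√(1 - r j ^ 2) : ℝ) : ℂ) * p.1 j -
        (r j : ℂ) * p.2 j)) = p.1 := by
    funext j
    unfold part
    simp only [Complex.conj_ofReal, Complex.norm_real, Real.norm_eq_abs, sq_abs]
    have h3 : ((r j : ℂ)) ^ 2 + ((√(1 - r j ^ 2) : ℝ) : ℂ) ^ 2 = 1 := by
      exact_mod_cast hs j
    linear_combination p.1 j * h3
  rw [h2, h1, map_mul, Complex.conj_conj]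
  ring

theorem corr_integrable {n : ℕ} (F H : (Fin n → ℂ) → ℂ) (hF : Measurable F) (hH : Measurable H)
    (C : ℝ) (h1 : ∀ z, ‖F z‖ ≤ C) (h3 : ∀ z, ‖H z‖ ≤ C) (ρ : Fin n → ℂ) :
    Integrable (fun p : (Fin n → ℂ) × (Fin n → ℂ) => F p.1 * conj (H (part ρ p)))
      ((gam n).prod (gam n)) := by
  have hm : Measurable (fun p : (Fin n → ℂ) × (Fin n → ℂ) =>
      F p.1 * conj (H (part ρ p))) := by
    have h1 := part_measurable ρ
    exact (hF.comp measurable_fst).mul (Complex.continuous_conj.measurable.comp (hH.comp h1))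
  have hC : 0 ≤ C := le_trans (norm_nonneg _) (h1 (fun _ => 0))
  refine Integrable.of_bound hm.aestronglyMeasurable (C * C)
    (Filter.Eventually.of_forall fun p => ?_)
  rw [norm_mul, Complex.norm_conj]
  exact mul_le_mul (h1 _) (h3 _) (norm_nonneg _) hC

theorem corr_add_left {n : ℕ} (F F' H : (Fin n → ℂ) → ℂ) (hF : Measurable F)
    (hF' : Measurable F') (hH : Measurable H) (C : ℝ) (h1 : ∀ z, ‖F z‖ ≤ C)
    (h2 : ∀ z, ‖F' z‖ ≤ C) (h3 : ∀ z, ‖H z‖ ≤ C) (ρ : Fin n → ℂ) :
    corr (fun z => F z + F' z) H ρ = corr F H ρ + corr F' H ρ := by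
  unfold corr
  rw [← integral_add (corr_integrable F H hF hH C h1 h3 ρ)
    (corr_integrable F' H hF' hH C h2 h3 ρ)]
  refine integral_congr_ae (Filter.Eventually.of_forall fun p => ?_)
  simp only
  ring

theorem corr_add_right {n : ℕ} (F F' H : (Fin n → ℂ) → ℂ) (hF : Measurable F)
    (hF' : Measurable F') (hH : Measurable H) (C : ℝ) (h1 : ∀ z, ‖F z‖ ≤ C)
    (h2 : ∀ z, ‖F' z‖ ≤ C) (h3 : ∀ z, ‖H z‖ ≤ C) (ρ : Fin n → ℂ) :
    corr H (fun z => F z + F' z) ρ = corr H F ρ + corr H F' ρ := by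
  unfold corr
  rw [← integral_add (corr_integrable H F hH hF C h3 h1 ρ)
    (corr_integrable H F' hH hF' C h3 h2 ρ)]
  refine integral_congr_ae (Filter.Eventually.of_forall fun p => ?_)
  simp only [map_add]
  ring

theorem corr_smul {n : ℕ} (F H : (Fin n → ℂ) → ℂ) (a b : ℝ) (ρ : Fin n → ℂ) :
    corr (fun z => (a : ℂ) * F z) (fun z => (b : ℂ) * H z) ρ = ((a * b : ℝ) : ℂ) * corr F H ρ := by
  unfold corr
  rw [← integral_const_mul]
  refine integral_congr_ae (Filter.Eventually.of_forall fun p => ?_)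
  simp only [map_mul, Complex.conj_ofReal, Complex.ofReal_mul]
  ring

end GUB
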