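import Pool.Agent.Lib.MP_721eb4_an.UB.Data
import Pool.Agent.Lib.MP_721eb4_an.UB.PF
import Pool.Agent.Lib.MP_721eb4_an.UB.PFalg
import Pool.Agent.Lib.MP_721eb4_an.UB.PA
import Pool.Agent.Lib.MP_721eb4_an.UB.Pos
import Pool.Agent.Lib.MP_721eb4_an.UB.Rot

/-! Upper bound for the complex Grothendieck constant: module AsmPair -/

set_option autoImplicit false

open MeasureTheory Complex Set GLB
open scoped ComplexConjugate

namespace GUB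

/-! ### evaluation of the list polynomials -/

private theorem asmPair_lp5 (a0 a1 a2 a3 a4 x : ℝ) :
    (lp [a0, a1, a2, a3, a4]).eval x
      = a0 + a1 * x + a2 * x ^ 2 + a3 * x ^ 3 + a4 * x ^ 4 := by
  simp only [lp, List.foldr, Polynomial.eval_add, Polynomial.eval_C, Polynomial.eval_mul,
    Polynomial.eval_X, Polynomial.eval_zero]
  ring

private theorem asmPair_lp4 (a0 a1 a2 a3 x : ℝ) :
    (lp [a0, a1, a2, a3]).eval x = a0 + a1 * x + a2 * x ^ 2 + a3 * x ^ 3 := by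
  simp only [lp, List.foldr, Polynomial.eval_add, Polynomial.eval_C, Polynomial.eval_mul,
    Polynomial.eval_X, Polynomial.eval_zero]
  ring

private theorem asmPair_D (P Q : M2 ℝ) (s : ℝ) :
    (lp (Dl P Q)).eval (s ^ 2) = D2 P Q s (-s ^ 3) := by
  rw [Dl, asmPair_lp5, D2]
  ring

private theorem asmPair_A (v1 v2 : ℝ) (P Q : M2 ℝ) (s : ℝ) :
    (lp (Al v1 v2 P Q)).eval (s ^ 2) = A2 v1 v2 P Q s (-s ^ 3) := by
  rw [Al, asmPair_lp5, A2]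
  ring

private theorem asmPair_E (v1 v2 : ℝ) (P Q : M2 ℝ) (s : ℝ) :
    (lp (El v1 v2 P Q)).eval (s ^ 2) = E2 v1 v2 v1 v2 P Q s (-s ^ 3) := by
  rw [El, asmPair_lp5, E2]
  ring

private theorem asmPair_c (v1 v2 : ℝ) (P Q : M2 ℝ) (s : ℝ) :
    s * (lp (Cl v1 v2 P Q)).eval (s ^ 2) = c2 v1 v2 v1 v2 P Q s (-s ^ 3) := by
  rw [Cl, asmPair_lp4, c2]
  ring

private theorem asmPair_id (v1 v2 : ℝ) (P Q : M2 ℝ) :
    lp (Al v1 v2 P Q) * lp (Al v1 v2 Q P) - lp (Dl P Q) * lp (El v1 v2 P Q)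
      = Polynomial.X * lp (Cl v1 v2 P Q) * lp (Cl v1 v2 Q P) := by
  refine Polynomial.eq_of_infinite_eval_eq _ _ ?_
  refine (Set.Ici_infinite (0 : ℝ)).mono ?_
  intro q hq
  have hq0 : 0 ≤ q := hq
  have hs : √q ^ 2 = q := Real.sq_sqrt hq0
  have h := AB_DE v1 v2 v1 v2 P Q (√q) (-(√q) ^ 3)
  rw [← asmPair_D, ← asmPair_A, ← asmPair_A, ← asmPair_E, ← asmPair_c, hs] at h
  have h2 := asmPair_c v1 v2 Q P (√q)
  rw [hs] at h2
  change Polynomial.eval q _ = Polynomial.eval q _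
  rw [Polynomial.eval_sub, Polynomial.eval_mul, Polynomial.eval_mul, Polynomial.eval_mul,
    Polynomial.eval_mul, Polynomial.eval_X]
  rw [← h2] at h
  rw [h]
  have h3 : √q * Polynomial.eval q (lp (Cl v1 v2 P Q))
      * (√q * Polynomial.eval q (lp (Cl v1 v2 Q P)))
      = √q ^ 2 * Polynomial.eval q (lp (Cl v1 v2 P Q)) * Polynomial.eval q (lp (Cl v1 v2 Q P)) := by
    ring
  rw [h3, hs]

/-! ### rotations -/

private theorem asmPair_meas (v1 v2 : ℝ) (P : M2 ℝ) : Measurable (fP v1 v2 P) := by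
  unfold fP M2.form
  refine Measurable.mul (sg_measurable.comp ?_) ?_
  · fun_prop
  · fun_prop

private theorem asmPair_rotH (v1 v2 : ℝ) (P : M2 ℝ) (w : ℂ) (z : Fin 2 → ℂ) (hw : ‖w‖ = 1) :
    fP v1 v2 P (fun j => w * z j) = w * fP v1 v2 P z := by
  have hww : conj w * w = 1 := by
    rw [mul_comm, Complex.mul_conj, Complex.normSq_eq_norm_sq, hw]
    norm_num
  have h1 : P.form (fun j => w * z j) = P.form z := by
    unfold M2.form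
    simp only [map_mul]
    linear_combination (P.a * (conj (z 0) * z 0) + P.b * (conj (z 0) * z 1)
      + P.c * (conj (z 1) * z 0) + P.d * (conj (z 1) * z 1)) * hww
  have h2 : (v1 : ℂ) * (w * z 0) + v2 * (w * z 1) = w * (v1 * z 0 + v2 * z 1) := by ring
  unfold fP
  rw [h1, h2, sg_mul _ _ hw, mul_assoc]

/-- the value at `s = w r`. -/
private theorem asmPair_rot (P Q : M2 ℤ) (w : ℂ) (hw : ‖w‖ = 1) (r : ℝ) (hr : 0 ≤ r) :
    cor P Q (w * (r : ℂ)) = w * corr (fP 1 rA (toR P)) (fP 1 rA (toR Q.tr))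
      ![((r : ℝ) : ℂ), ((-r ^ 3 : ℝ) : ℂ)] := by
  unfold cor
  rw [← corr_rot _ _ (asmPair_meas _ _ _) (asmPair_meas _ _ _)
    (fun w z hw => asmPair_rotH _ _ _ w z hw) _ w hw]
  congr 1
  funext j
  have hn : ‖w * (r : ℂ)‖ = r := by
    rw [norm_mul, hw, one_mul, Complex.norm_real, Real.norm_of_nonneg hr]
  fin_cases j
  · simp [ker, kA]
  · simp only [ker, kA, Fin.mk_one, Matrix.cons_val_one, Matrix.cons_val_fin_one, hn]
    simp only [Polynomial.eval_neg, Polynomial.eval_X]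
    push_cast
    ring

private theorem asmPair_unit (s : ℂ) : ∃ w : ℂ, ‖w‖ = 1 ∧ s = w * (‖s‖ : ℂ) := by
  by_cases h : s = 0
  · exact ⟨1, by simp, by simp [h]⟩
  · have hn : ‖s‖ ≠ 0 := norm_ne_zero_iff.mpr h
    refine ⟨s / (‖s‖ : ℂ), ?_, ?_⟩
    · rw [norm_div, Complex.norm_real, norm_norm, div_self hn]
    · rw [div_mul_cancel₀]
      exact_mod_cast hn

private theorem asmPair_rlt {r : ℝ} (hr : 0 ≤ r) (h1 : r < 1) : |r| < 1 ∧ |-r ^ 3| < 1 := by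
  constructor
  · rwa [abs_of_nonneg hr]
  · rw [abs_neg, abs_of_nonneg (by positivity)]
    exact pow_lt_one₀ hr h1 (by norm_num)

private theorem asmPair_vpos : (0 : ℝ) < 1 ^ 2 + rA ^ 2 := by
  unfold rA
  norm_num

private theorem asmPair_real (P Q : M2 ℤ) (hP : (toR P).psd) (hQ : (toR Q).psd) {r : ℝ}
    (hr : 0 ≤ r) (h1 : r < 1) :
    corr (fP 1 rA (toR P)) (fP 1 rA (toR Q.tr)) ![((r : ℝ) : ℂ), ((-r ^ 3 : ℝ) : ℂ)]
      = ((Jint (D2 (toR P) (toR Q) r (-r ^ 3)) (A2 1 rA (toR P) (toR Q) r (-r ^ 3))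
        (A2 1 rA (toR Q) (toR P) r (-r ^ 3)) (E2 1 rA 1 rA (toR P) (toR Q) r (-r ^ 3))
        (c2 1 rA 1 rA (toR P) (toR Q) r (-r ^ 3)) : ℝ) : ℂ) := by
  obtain ⟨ha, hb⟩ := asmPair_rlt hr h1
  exact pair_formula 1 rA 1 rA asmPair_vpos asmPair_vpos (toR P) (toR Q) hP hQ r (-r ^ 3) ha hb

/-- symmetry of the value of a pair -/
theorem cor_symm (P Q : M2 ℤ) (hP : (toR P).psd) (hQ : (toR Q).psd) (s : ℂ) (hs : ‖s‖ < 1) :
    cor P Q.tr s = cor Q P.tr s := by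
  obtain ⟨w, hw, hsw⟩ := asmPair_unit s
  have h0 : 0 ≤ ‖s‖ := norm_nonneg s
  have hPt : (toR P.tr).psd := by
    obtain ⟨h1, h2, h3⟩ := hP
    refine ⟨h1, h2, ?_⟩
    change ((toR P).c + (toR P).b) ^ 2 ≤ 4 * (toR P).a * (toR P).d
    rw [add_comm]
    exact h3
  have hQt : (toR Q.tr).psd := by
    obtain ⟨h1, h2, h3⟩ := hQ
    refine ⟨h1, h2, ?_⟩
    change ((toR Q).c + (toR Q).b) ^ 2 ≤ 4 * (toR Q).a * (toR Q).d
    rw [add_comm]
    exact h3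
  have e1 := asmPair_rot P Q.tr w hw ‖s‖ h0
  have e2 := asmPair_rot Q P.tr w hw ‖s‖ h0
  rw [← hsw] at e1 e2
  rw [e1, e2]
  congr 1
  have f1 := asmPair_real P Q.tr hP hQt h0 hs
  have hvec : (![((‖s‖ : ℝ) : ℂ), ((-‖s‖ ^ 3 : ℝ) : ℂ)] : Fin 2 → ℂ)
      = fun j => ((![‖s‖, -‖s‖ ^ 3] : Fin 2 → ℝ) j : ℂ) := by
    funext j
    fin_cases j <;> simp
  have f2 := corr_symm (fP 1 rA (toR P)) (fP 1 rA (toR Q)) (asmPair_meas _ _ _)
    (asmPair_meas _ _ _) (![‖s‖, -‖s‖ ^ 3] : Fin 2 → ℝ) (by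
      obtain ⟨ha, hb⟩ := asmPair_rlt h0 hs
      intro j
      fin_cases j
      · exact ha.le
      · exact hb.le)
  rw [← hvec] at f2
  change corr (fP 1 rA (toR P)) (fP 1 rA (toR Q)) _ = corr (fP 1 rA (toR Q)) (fP 1 rA (toR P)) _
  rw [f2]
  change corr (fP 1 rA (toR P)) (fP 1 rA (toR Q)) _ = _ at f1
  rw [f1, Complex.conj_ofReal]

/-! ### the series of a pair -/

private theorem asmPair_psd_data : ∀ t ∈ prA, (0 ≤ t.2.1.a ∧ 0 ≤ t.2.1.d ∧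
    (t.2.1.b + t.2.1.c) ^ 2 ≤ 4 * t.2.1.a * t.2.1.d) ∧ (0 ≤ t.2.2.a ∧ 0 ≤ t.2.2.d ∧
    (t.2.2.b + t.2.2.c) ^ 2 ≤ 4 * t.2.2.a * t.2.2.d) := by
  decide

private theorem asmPair_psd {P : M2 ℤ} (h : 0 ≤ P.a ∧ 0 ≤ P.d ∧
    (P.b + P.c) ^ 2 ≤ 4 * P.a * P.d) : (toR P).psd := by
  obtain ⟨h1, h2, h3⟩ := h
  have h1' : (0 : ℝ) ≤ P.a := by exact_mod_cast h1
  have h2' : (0 : ℝ) ≤ P.d := by exact_mod_cast h2
  have h3' : ((P.b : ℝ) + P.c) ^ 2 ≤ 4 * P.a * P.d := by exact_mod_cast h3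
  refine ⟨?_, ?_, ?_⟩
  · change 0 ≤ (P.a : ℝ) / 10 ^ 6
    positivity
  · change 0 ≤ (P.d : ℝ) / 10 ^ 6
    positivity
  · change ((P.b : ℝ) / 10 ^ 6 + (P.c : ℝ) / 10 ^ 6) ^ 2
      ≤ 4 * ((P.a : ℝ) / 10 ^ 6) * ((P.d : ℝ) / 10 ^ 6)
    have e1 : ((P.b : ℝ) / 10 ^ 6 + (P.c : ℝ) / 10 ^ 6) ^ 2
        = ((P.b : ℝ) + P.c) ^ 2 / 10 ^ 12 := by ring
    have e2 : 4 * ((P.a : ℝ) / 10 ^ 6) * ((P.d : ℝ) / 10 ^ 6) = 4 * P.a * P.d / 10 ^ 12 := by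
      ring
    rw [e1, e2]
    exact div_le_div_of_nonneg_right h3' (by positivity)

private theorem asmPair_coeff0 (p : Polynomial ℝ) {Q δ : ℝ} (hQ : 0 ≤ Q) (hδ : 0 < δ)
    (h : ∀ q : ℂ, ‖q‖ ≤ Q → δ ≤ (Polynomial.aeval q p).re) : 0 < p.coeff 0 := by
  have h1 := h 0 (by simpa using hQ)
  rw [← Polynomial.coeff_zero_eq_aeval_zero'] at h1
  have h2 : ((algebraMap ℝ ℂ) (p.coeff 0)).re = p.coeff 0 := by simp
  rw [h2] at h1
  linarith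

private theorem asmPair_Jint_smul (D A B Ee c r : ℝ) :
    Jint D A B Ee (r * c) = r * Jint D A B Ee c := by
  unfold Jint
  have h : ∀ t u : ℝ, (√t)⁻¹ * (√u)⁻¹ * (r * c) / (D + t * A + u * B + t * u * Ee) ^ 2
      = r * ((√t)⁻¹ * (√u)⁻¹ * c / (D + t * A + u * B + t * u * Ee) ^ 2) := by
    intro t u
    ring
  simp only [h, integral_const_mul]
  ring

theorem pair_col (t : ℤ × M2 ℤ × M2 ℤ) (ht : t ∈ prA) :
    (∀ N, |(Real.pi / 4) * ThP t.2.1 t.2.2 N| ≤ 21 / 20 * (7 / 5 : ℝ)⁻¹ ^ N) ∧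
      ∀ s : ℂ, ‖s‖ < 1 → HasSum (fun N => (((Real.pi / 4) * ThP t.2.1 t.2.2 N : ℝ) : ℂ)
        * (s * (((‖s‖ ^ 2) ^ N : ℝ) : ℂ))) (cor t.2.1 t.2.2 s) := by
  obtain ⟨δD, δA, δB, γ, hδD, hδA, hδB, hD, hA, hB, hE, hc, hγ⟩ := pos_data t ht
  obtain ⟨hpP, hpQ⟩ := asmPair_psd_data t ht
  have hP := asmPair_psd hpP
  have hQ := asmPair_psd hpQ
  generalize t.2.1 = P at *
  generalize t.2.2 = Q at *
  obtain ⟨φ, hφ, hsum⟩ := pair_param (pD P Q) (pAA P Q) (pAA Q P) (pE P Q) (pc P Q) (7 / 5)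
    δD δA δB γ (by norm_num) hδD hδA hδB hD hA hB hE hc
  have hA0 : 0 < (pAA P Q).coeff 0 := asmPair_coeff0 _ (by norm_num) hδA hA
  have hB0 : 0 < (pAA Q P).coeff 0 := asmPair_coeff0 _ (by norm_num) hδB hB
  have hD0 : 0 < (pD P Q).coeff 0 := asmPair_coeff0 _ (by norm_num) hδD hD
  have hY : 0 < PowerSeries.constantCoeff ((pAA P Q * pAA Q P : Polynomial ℝ) : PowerSeries ℝ) := by
    rw [Polynomial.constantCoeff_coe, Polynomial.mul_coeff_zero]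
    exact mul_pos hA0 hB0
  have hWspec := Classical.choose_spec (exists_sqrt_series
    ((pAA P Q * pAA Q P : Polynomial ℝ) : PowerSeries ℝ) hY)
  have hWdef : Wser ((pAA P Q * pAA Q P : Polynomial ℝ) : PowerSeries ℝ)
      = Classical.choose (exists_sqrt_series
        ((pAA P Q * pAA Q P : Polynomial ℝ) : PowerSeries ℝ) hY) := by
    unfold Wser
    rw [dif_pos hY]
  rw [← hWdef] at hWspec
  have hφe : ∀ N, φ N = (Real.pi / 4) * ThP P Q N := by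
    intro N
    refine coeff_eq_Theta (pD P Q) (pAA P Q) (pAA Q P) (pE P Q) (pc P Q) (pc Q P) hD0 hA0 hB0
      (asmPair_id 1 rA (toR P) (toR Q)) _ hWspec.1 hWspec.2 φ (7 / 5)
      (γ / (δD * √(δA * δB))) (by norm_num) hφ ?_ N
    intro q hq0 hq1
    exact (hsum q (by rw [abs_of_pos hq0]; exact hq1)).tsum_eq
  refine ⟨fun N => ?_, fun s hs => ?_⟩
  · rw [← hφe N]
    refine (hφ N).trans ?_
    exact mul_le_mul_of_nonneg_right hγ (by positivity)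
  · obtain ⟨w, hw, hsw⟩ := asmPair_unit s
    have h0 : 0 ≤ ‖s‖ := norm_nonneg s
    have hq : |‖s‖ ^ 2| < 7 / 5 := by
      rw [abs_of_nonneg (by positivity)]
      nlinarith
    have h1 := hsum (‖s‖ ^ 2) hq
    have e1 := asmPair_rot P Q w hw ‖s‖ h0
    rw [← hsw, asmPair_real P Q hP hQ h0 hs, ← asmPair_D, ← asmPair_A, ← asmPair_A,
      ← asmPair_E, ← asmPair_c, asmPair_Jint_smul] at e1
    change HasSum (fun N => φ N * (‖s‖ ^ 2) ^ N) (Jint ((lp (Dl (toR P) (toR Q))).eval (‖s‖ ^ 2))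
      ((lp (Al 1 rA (toR P) (toR Q))).eval (‖s‖ ^ 2))
      ((lp (Al 1 rA (toR Q) (toR P))).eval (‖s‖ ^ 2))
      ((lp (El 1 rA (toR P) (toR Q))).eval (‖s‖ ^ 2))
      ((lp (Cl 1 rA (toR P) (toR Q))).eval (‖s‖ ^ 2))) at h1
    have h2 := (Complex.hasSum_ofReal.mpr h1).mul_left s
    have e2 : cor P Q s = s * ((Jint ((lp (Dl (toR P) (toR Q))).eval (‖s‖ ^ 2))
      ((lp (Al 1 rA (toR P) (toR Q))).eval (‖s‖ ^ 2))
      ((lp (Al 1 rA (toR Q) (toR P))).eval (‖s‖ ^ 2))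
      ((lp (El 1 rA (toR P) (toR Q))).eval (‖s‖ ^ 2))
      ((lp (Cl 1 rA (toR P) (toR Q))).eval (‖s‖ ^ 2)) : ℝ) : ℂ) := by
      rw [e1]
      push_cast
      rw [← mul_assoc, ← hsw]
    rw [e2]
    have e3 : (fun N => (((Real.pi / 4) * ThP P Q N : ℝ) : ℂ)
        * (s * (((‖s‖ ^ 2) ^ N : ℝ) : ℂ)))
        = fun N => s * ((φ N * (‖s‖ ^ 2) ^ N : ℝ) : ℂ) := by
      funext N
      rw [← hφe N]
      push_cast
      ring
    rw [e3]
    exact h2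

end GUB
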