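import Pool.Agent.Lib.MP_721eb4_an.UB.Defs
import Pool.Agent.Lib.MP_721eb4_an.UB.AdmA
import Pool.Agent.Lib.MP_721eb4_an.UB.AdmB
import Pool.Agent.Lib.MP_721eb4_an.UB.AdmC
import Pool.Agent.Lib.MP_721eb4_an.UB.Rot

/-! Upper bound for the complex Grothendieck constant: module Loss -/

set_option autoImplicit false

open MeasureTheory Complex Set GLB
open scoped ComplexConjugate

namespace GUB

namespace LossAux

instance isProb (n : ℕ) : IsProbabilityMeasure (gam n) := by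
  unfold gam
  infer_instance

/-- bounded measurable functions -/
def Nice {n : ℕ} (F : (Fin n → ℂ) → ℂ) : Prop := Measurable F ∧ ∃ C, ∀ z, ‖F z‖ ≤ C

section nice

variable {n : ℕ} {F F' H : (Fin n → ℂ) → ℂ}

theorem Nice.add (h : Nice F) (h' : Nice F') : Nice (fun z => F z + F' z) := by
  obtain ⟨m1, C1, h1⟩ := h
  obtain ⟨m2, C2, h2⟩ := h'
  exact ⟨m1.add m2, C1 + C2, fun z => (norm_add_le _ _).trans (add_le_add (h1 z) (h2 z))⟩

theorem Nice.smul (h : Nice F) (a : ℝ) : Nice (fun z => (a : ℂ) * F z) := by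
  obtain ⟨m1, C1, h1⟩ := h
  refine ⟨m1.const_mul _, |a| * C1, fun z => ?_⟩
  rw [norm_mul, Complex.norm_real, Real.norm_eq_abs]
  exact mul_le_mul_of_nonneg_left (h1 z) (abs_nonneg a)

theorem Nice.mul (h : Nice F) (h' : Nice F') : Nice (fun z => F z * F' z) := by
  obtain ⟨m1, C1, h1⟩ := h
  obtain ⟨m2, C2, h2⟩ := h'
  refine ⟨m1.mul m2, |C1| * |C2|, fun z => ?_⟩
  rw [norm_mul]
  exact mul_le_mul ((h1 z).trans (le_abs_self _)) ((h2 z).trans (le_abs_self _)) (norm_nonneg _)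
    (abs_nonneg _)

theorem Nice.sum {ι : Type} (s : Finset ι) (a : ι → ℝ) (G : ι → (Fin n → ℂ) → ℂ)
    (hG : ∀ i, Nice (G i)) : Nice (fun z => ∑ i ∈ s, (a i : ℂ) * G i z) := by
  classical
  induction s using Finset.induction_on with
  | empty =>
    simp only [Finset.sum_empty]
    exact ⟨measurable_const, 0, fun z => by simp⟩
  | insert i s hi ih =>
    simp only [Finset.sum_insert hi]
    exact ((hG i).smul (a i)).add ih

theorem corr_addL (h : Nice F) (h' : Nice F') (hH : Nice H) (ρ : Fin n → ℂ) :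
    corr (fun z => F z + F' z) H ρ = corr F H ρ + corr F' H ρ := by
  obtain ⟨m1, C1, h1⟩ := h
  obtain ⟨m2, C2, h2⟩ := h'
  obtain ⟨m3, C3, h3⟩ := hH
  exact corr_add_left F F' H m1 m2 m3 (max C1 (max C2 C3))
    (fun z => (h1 z).trans (le_max_left _ _))
    (fun z => (h2 z).trans ((le_max_left _ _).trans (le_max_right _ _)))
    (fun z => (h3 z).trans ((le_max_right _ _).trans (le_max_right _ _))) ρ

theorem corr_addR (h : Nice F) (h' : Nice F') (hH : Nice H) (ρ : Fin n → ℂ) :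
    corr H (fun z => F z + F' z) ρ = corr H F ρ + corr H F' ρ := by
  obtain ⟨m1, C1, h1⟩ := h
  obtain ⟨m2, C2, h2⟩ := h'
  obtain ⟨m3, C3, h3⟩ := hH
  exact corr_add_right F F' H m1 m2 m3 (max C1 (max C2 C3))
    (fun z => (h1 z).trans (le_max_left _ _))
    (fun z => (h2 z).trans ((le_max_left _ _).trans (le_max_right _ _)))
    (fun z => (h3 z).trans ((le_max_right _ _).trans (le_max_right _ _))) ρ

theorem corr_smulL (F H : (Fin n → ℂ) → ℂ) (a : ℝ) (ρ : Fin n → ℂ) :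
    corr (fun z => (a : ℂ) * F z) H ρ = (a : ℂ) * corr F H ρ := by
  have := corr_smul F H a 1 ρ
  simpa using this

theorem corr_smulR (F H : (Fin n → ℂ) → ℂ) (a : ℝ) (ρ : Fin n → ℂ) :
    corr F (fun z => (a : ℂ) * H z) ρ = (a : ℂ) * corr F H ρ := by
  have := corr_smul F H 1 a ρ
  simpa using this

theorem corr_sumL {ι : Type} (s : Finset ι) (a : ι → ℝ) (G : ι → (Fin n → ℂ) → ℂ)
    (hG : ∀ i, Nice (G i)) (hH : Nice H) (ρ : Fin n → ℂ) :
    corr (fun z => ∑ i ∈ s, (a i : ℂ) * G i z) H ρ = ∑ i ∈ s, (a i : ℂ) * corr (G i) H ρ := by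
  classical
  induction s using Finset.induction_on with
  | empty =>
    simp only [Finset.sum_empty]
    unfold corr
    simp
  | insert i s hi ih =>
    simp only [Finset.sum_insert hi]
    rw [corr_addL ((hG i).smul (a i)) (Nice.sum s a G hG) hH, corr_smulL, ih]

theorem corr_sumR {ι : Type} (s : Finset ι) (a : ι → ℝ) (G : ι → (Fin n → ℂ) → ℂ)
    (hG : ∀ i, Nice (G i)) (hH : Nice H) (ρ : Fin n → ℂ) :
    corr H (fun z => ∑ i ∈ s, (a i : ℂ) * G i z) ρ = ∑ i ∈ s, (a i : ℂ) * corr H (G i) ρ := by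
  classical
  induction s using Finset.induction_on with
  | empty =>
    simp only [Finset.sum_empty]
    unfold corr
    simp
  | insert i s hi ih =>
    simp only [Finset.sum_insert hi]
    rw [corr_addR ((hG i).smul (a i)) (Nice.sum s a G hG) hH, corr_smulR, ih]

theorem integrable_of_bdd {f : (Fin n → ℂ) → ℝ} (hf : Measurable f) (C : ℝ)
    (h : ∀ z, |f z| ≤ C) : Integrable f (gam n) := by
  refine Integrable.of_bound hf.aestronglyMeasurable C (Filter.Eventually.of_forall fun z => ?_)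
  rw [Real.norm_eq_abs]
  exact h z

/-- comparison of integrals of bounded functions -/
theorem int_le {f g : (Fin n → ℂ) → ℝ} (hf : Measurable f) (hg : Measurable g) (C : ℝ)
    (hC : ∀ z, |g z| ≤ C) (h0 : ∀ z, 0 ≤ f z) (h : ∀ z, f z ≤ g z) :
    ∫ z, f z ∂(gam n) ≤ ∫ z, g z ∂(gam n) := by
  refine integral_mono (integrable_of_bdd hf C fun z => ?_) (integrable_of_bdd hg C hC) h
  rw [abs_of_nonneg (h0 z)]
  exact (h z).trans ((le_abs_self _).trans (hC z))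

end nice

theorem form_re {P : M2 ℝ} (hP : P.psd) (z : Fin 2 → ℂ) : 0 ≤ (P.form z).re := by
  obtain ⟨ha, hd, hbc⟩ := hP
  unfold M2.form
  have h1 : ((P.a : ℂ) * (conj (z 0) * z 0) + P.b * (conj (z 0) * z 1) + P.c * (conj (z 1) * z 0)
      + P.d * (conj (z 1) * z 1)).re = P.a * ((z 0).re ^ 2 + (z 0).im ^ 2)
      + (P.b + P.c) * ((z 0).re * (z 1).re + (z 0).im * (z 1).im)
      + P.d * ((z 1).re ^ 2 + (z 1).im ^ 2) := by
    simp only [add_re, mul_re, ofReal_re, ofReal_im, conj_re, conj_im, mul_im]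
    ring
  rw [h1]
  set x0 := (z 0).re
  set y0 := (z 0).im
  set x1 := (z 1).re
  set y1 := (z 1).im
  have key : ∀ u v : ℝ, 0 ≤ P.a * u ^ 2 + (P.b + P.c) * (u * v) + P.d * v ^ 2 := by
    intro u v
    rcases eq_or_lt_of_le ha with h0 | h0
    · have hb0 : P.b + P.c = 0 := by
        rw [← h0] at hbc
        have : (P.b + P.c) ^ 2 ≤ 0 := by linarith
        exact pow_eq_zero_iff (two_ne_zero) |>.1 (le_antisymm this (sq_nonneg _))
      rw [← h0, hb0]
      have := mul_nonneg hd (sq_nonneg v)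
      linarith
    · have h2 : 0 ≤ 4 * P.a * (P.a * u ^ 2 + (P.b + P.c) * (u * v) + P.d * v ^ 2) := by
        have h3 : 4 * P.a * (P.a * u ^ 2 + (P.b + P.c) * (u * v) + P.d * v ^ 2)
            = (2 * P.a * u + (P.b + P.c) * v) ^ 2 + (4 * P.a * P.d - (P.b + P.c) ^ 2) * v ^ 2 := by
          ring
        rw [h3]
        have := mul_nonneg (sub_nonneg.2 hbc) (sq_nonneg v)
        have := sq_nonneg (2 * P.a * u + (P.b + P.c) * v)
        linarith
      exact nonneg_of_mul_nonneg_right h2 (by linarith)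
  have h2 := key x0 x1
  have h3 := key y0 y1
  nlinarith

theorem form_measurable (P : M2 ℝ) : Measurable (fun z : Fin 2 → ℂ => P.form z) := by
  unfold M2.form
  have h0 : Measurable (fun z : Fin 2 → ℂ => z 0) := measurable_pi_apply 0
  have h1 : Measurable (fun z : Fin 2 → ℂ => z 1) := measurable_pi_apply 1
  have c0 : Measurable (fun z : Fin 2 → ℂ => conj (z 0)) := Complex.continuous_conj.measurable.comp h0
  have c1 : Measurable (fun z : Fin 2 → ℂ => conj (z 1)) := Complex.continuous_conj.measurable.comp h1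
  exact (((((c0.mul h0).const_mul _).add ((c0.mul h1).const_mul _))).add
    ((c1.mul h0).const_mul _)).add ((c1.mul h1).const_mul _)

theorem exp_nice {P : M2 ℝ} (hP : P.psd) : Nice (fun z : Fin 2 → ℂ => exp (-(P.form z))) := by
  refine ⟨Complex.measurable_exp.comp (form_measurable P).neg, 1, fun z => ?_⟩
  rw [Complex.norm_exp, neg_re]
  exact Real.exp_le_one_iff.2 (by linarith [form_re hP z])

theorem sgv_nice (v1 v2 : ℝ) : Nice (fun z : Fin 2 → ℂ => sg (v1 * z 0 + v2 * z 1)) := by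
  have h0 : Measurable (fun z : Fin 2 → ℂ => z 0) := measurable_pi_apply 0
  have h1 : Measurable (fun z : Fin 2 → ℂ => z 1) := measurable_pi_apply 1
  exact ⟨sg_measurable.comp ((h0.const_mul _).add (h1.const_mul _)), 1, fun z => sg_norm_le _⟩

theorem fP_nice (v1 v2 : ℝ) {P : M2 ℝ} (hP : P.psd) : Nice (fP v1 v2 P) :=
  (sgv_nice v1 v2).mul (exp_nice hP)

theorem psd_zero : (M2.zero : M2 ℝ).psd := by
  refine ⟨le_rfl, le_rfl, ?_⟩
  simp [M2.zero]

theorem psd_add {P Q : M2 ℝ} (hP : P.psd) (hQ : Q.psd) : (P.add Q).psd := by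
  obtain ⟨ha, hd, hbc⟩ := hP
  obtain ⟨ha', hd', hbc'⟩ := hQ
  refine ⟨add_nonneg ha ha', add_nonneg hd hd', ?_⟩
  show (P.b + Q.b + (P.c + Q.c)) ^ 2 ≤ 4 * (P.a + Q.a) * (P.d + Q.d)
  set x := P.b + P.c with hx
  set y := Q.b + Q.c with hy
  have h1 : P.b + Q.b + (P.c + Q.c) = x + y := by rw [hx, hy]; ring
  rw [h1]
  have hp1 := mul_nonneg ha hd'
  have hp2 := mul_nonneg ha' hd
  have h2 : (x * y) ^ 2 ≤ (2 * (P.a * Q.d + Q.a * P.d)) ^ 2 := by
    have h3 : (x * y) ^ 2 ≤ (4 * P.a * P.d) * (4 * Q.a * Q.d) := by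
      rw [mul_pow]
      exact mul_le_mul hbc hbc' (sq_nonneg _) ((sq_nonneg _).trans hbc)
    refine h3.trans ?_
    nlinarith [sq_nonneg (P.a * Q.d - Q.a * P.d)]
  have h4 : x * y ≤ 2 * (P.a * Q.d + Q.a * P.d) := by
    refine le_of_sq_le_sq h2 (by linarith)
  nlinarith

theorem form_add (P Q : M2 ℝ) (z : Fin 2 → ℂ) : (P.add Q).form z = P.form z + Q.form z := by
  unfold M2.form M2.add
  push_cast
  ring

theorem fP_zero (v1 v2 : ℝ) (z : Fin 2 → ℂ) :
    fP v1 v2 M2.zero z = sg (v1 * z 0 + v2 * z 1) := by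
  unfold fP M2.form M2.zero
  simp

theorem fP_eq (v1 v2 : ℝ) (P : M2 ℝ) (z : Fin 2 → ℂ) :
    fP v1 v2 P z = fP v1 v2 M2.zero z * exp (-(P.form z)) := by
  rw [fP_zero]
  rfl

end LossAux

open LossAux

/-- the second order approximation of the scheme `F₂/|F₂|`, `F₂ = sgn(v·z)(1 + X + X²/2)`,
`X = ∑ γ_l exp(-z*P_l z)` purely imaginary -/
theorem loss_bound {L : ℕ} (v1 v2 : ℝ) (hv : 0 < v1 ^ 2 + v2 ^ 2) (γ : Fin L → ℝ) (P : Fin L → M2 ℝ)
    (hP : ∀ l, (P l).psd)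
    (hX : ∀ z, (∑ l, (γ l : ℂ) * exp (-((P l).form z))).re = 0)
    (k : Fin 2 → Polynomial ℝ) (hk : ∀ j, kl1 (k j) = 1) (I1 I2 I4 : ℝ)
    (h1 : 0 ≤ I1) (h2 : 0 ≤ I2) (h4 : 0 ≤ I4)
    (hI1 : ∫ z, ‖∑ l, (γ l : ℂ) * exp (-((P l).form z))‖ ^ 2 ∂(gam 2) ≤ I1 ^ 2)
    (hI2 : ∫ z, ‖∑ l, (γ l : ℂ) * exp (-((P l).form z))‖ ^ 4 ∂(gam 2) ≤ I2 ^ 2)
    (hI4 : ∫ z, ‖∑ l, (γ l : ℂ) * exp (-((P l).form z))‖ ^ 8 ∂(gam 2) ≤ I4 ^ 2) :
    Adm (fun s =>
      corr (fP v1 v2 M2.zero) (fP v1 v2 M2.zero) (fun j => ker (k j) s)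
      + ∑ l, (γ l : ℂ) * (corr (fP v1 v2 (P l)) (fP v1 v2 M2.zero) (fun j => ker (k j) s)
          + corr (fP v1 v2 M2.zero) (fP v1 v2 (P l)) (fun j => ker (k j) s))
      + ∑ l, ∑ m, (γ l : ℂ) * (γ m : ℂ)
          * corr (fP v1 v2 (P l)) (fP v1 v2 (P m)) (fun j => ker (k j) s)
      + ∑ l, ∑ m, ((γ l : ℂ) * (γ m : ℂ) / 2)
          * (corr (fP v1 v2 ((P l).add (P m))) (fP v1 v2 M2.zero) (fun j => ker (k j) s)
            + corr (fP v1 v2 M2.zero) (fP v1 v2 ((P l).add (P m))) (fun j => ker (k j) s)))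
      1 (I1 * I2 + I2 ^ 2 / 4 + I4 / 8 * (2 + I2 ^ 2 / 8)) := by
  classical
  obtain ⟨X, hXdef⟩ : ∃ X : (Fin 2 → ℂ) → ℂ, X = fun z => ∑ l, (γ l : ℂ) * exp (-((P l).form z)) :=
    ⟨_, rfl⟩
  have hXz : ∀ z, ∑ l, (γ l : ℂ) * exp (-((P l).form z)) = X z := fun z => by rw [hXdef]
  simp only [hXz] at hX hI1 hI2 hI4
  have hXn : Nice X := by
    rw [hXdef]
    exact Nice.sum Finset.univ γ (fun l z => exp (-((P l).form z))) fun l => exp_nice (hP l)
  obtain ⟨f0, hf0⟩ : ∃ f : (Fin 2 → ℂ) → ℂ, f = fP v1 v2 M2.zero := ⟨_, rfl⟩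
  have hf0n : Nice f0 := by rw [hf0]; exact fP_nice v1 v2 psd_zero
  have hf01 : ∀ z, ‖f0 z‖ ≤ 1 := fun z => by rw [hf0, fP_zero]; exact sg_norm_le _
  -- the three parts
  obtain ⟨G1, hG1⟩ : ∃ f : (Fin 2 → ℂ) → ℂ, f = fun z => f0 z * X z := ⟨_, rfl⟩
  obtain ⟨G2, hG2⟩ : ∃ f : (Fin 2 → ℂ) → ℂ, f = fun z => ((1 / 2 : ℝ) : ℂ) * (f0 z * (X z * X z)) :=
    ⟨_, rfl⟩
  have hG1n : Nice G1 := by rw [hG1]; exact hf0n.mul hXn
  have hG2n : Nice G2 := by rw [hG2]; exact (hf0n.mul (hXn.mul hXn)).smul _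
  obtain ⟨F2, hF2⟩ : ∃ f : (Fin 2 → ℂ) → ℂ, f = fun z => (f0 z + G1 z) + G2 z := ⟨_, rfl⟩
  have hF2n : Nice F2 := by rw [hF2]; exact (hf0n.add hG1n).add hG2n
  obtain ⟨N, hN⟩ : ∃ N : (Fin 2 → ℂ) → ℝ, N = fun z => √(1 + ‖X z‖ ^ 4 / 4) := ⟨_, rfl⟩
  have hN1 : ∀ z, 1 ≤ N z := by
    intro z
    rw [hN]
    refine Real.one_le_sqrt.2 ?_
    have := pow_nonneg (norm_nonneg (X z)) 4
    linarith
  have hNsq : ∀ z, N z ^ 2 = 1 + ‖X z‖ ^ 4 / 4 := by
    intro z
    rw [hN]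
    exact Real.sq_sqrt (by positivity)
  have hNle : ∀ z, N z - 1 ≤ ‖X z‖ ^ 4 / 8 := by
    intro z
    have h := hNsq z
    nlinarith [hN1 z, pow_nonneg (norm_nonneg (X z)) 4]
  have hNm : Measurable N := by
    rw [hN]
    exact (((hXn.1.norm.pow_const 4).div_const 4).const_add 1).sqrt
  have hF2norm : ∀ z, ‖F2 z‖ = ‖f0 z‖ * N z := by
    intro z
    have h5 : F2 z = f0 z * (1 + X z + X z ^ 2 / 2) := by
      rw [hF2, hG1, hG2]
      push_cast
      ring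
    rw [h5, norm_mul]
    congr 1
    have h6 : X z = ((X z).im : ℂ) * I := by
      apply Complex.ext
      · simp [hX z]
      · simp
    set y := (X z).im with hy
    have h7 : ‖X z‖ ^ 2 = y ^ 2 := by
      rw [h6, norm_mul, Complex.norm_I, mul_one, Complex.norm_real, Real.norm_eq_abs, sq_abs]
    have h8 : ‖1 + X z + X z ^ 2 / 2‖ ^ 2 = N z ^ 2 := by
      rw [hNsq]
      have h9 : 1 + X z + X z ^ 2 / 2 = (((1 - y ^ 2 / 2 : ℝ)) : ℂ) + (y : ℂ) * I := by
        rw [h6, mul_pow, Complex.I_sq]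
        push_cast
        ring
      have h10 : ‖X z‖ ^ 4 = y ^ 4 := by
        have : ‖X z‖ ^ 4 = (‖X z‖ ^ 2) ^ 2 := by ring
        rw [this, h7]; ring
      rw [h9, h10, ← Complex.normSq_eq_norm_sq, Complex.normSq_add_mul_I]
      ring
    exact (pow_left_inj₀ (norm_nonneg _) (by linarith [hN1 z]) two_ne_zero).1 h8
  obtain ⟨F, hF⟩ : ∃ f : (Fin 2 → ℂ) → ℂ, f = fun z => (((N z)⁻¹ : ℝ) : ℂ) * F2 z := ⟨_, rfl⟩
  have hFnorm : ∀ z, ‖F z‖ = ‖f0 z‖ := by
    intro z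
    rw [hF]
    simp only
    rw [norm_mul, Complex.norm_real, Real.norm_eq_abs, hF2norm,
      abs_of_nonneg (inv_nonneg.2 (by linarith [hN1 z]))]
    have : N z ≠ 0 := by linarith [hN1 z]
    field_simp
  have hF1 : ∀ z, ‖F z‖ ≤ 1 := fun z => by rw [hFnorm]; exact hf01 z
  have hFm : Measurable F := by
    rw [hF]
    exact (Complex.measurable_ofReal.comp hNm.inv).mul hF2n.1
  have hFn : Nice F := ⟨hFm, 1, hF1⟩
  obtain ⟨R, hR⟩ : ∃ f : (Fin 2 → ℂ) → ℂ, f = fun z => F2 z + ((-1 : ℝ) : ℂ) * F z := ⟨_, rfl⟩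
  have hRn : Nice R := by rw [hR]; exact hF2n.add (hFn.smul _)
  have hRnorm : ∀ z, ‖R z‖ ≤ ‖X z‖ ^ 4 / 8 := by
    intro z
    have h5 : R z = ((1 - (N z)⁻¹ : ℝ) : ℂ) * F2 z := by
      rw [hR, hF]
      push_cast
      ring
    have hNpos : 0 < N z := by linarith [hN1 z]
    have h6 : 0 ≤ 1 - (N z)⁻¹ := by
      have := inv_le_one_of_one_le₀ (hN1 z)
      linarith
    rw [h5, norm_mul, Complex.norm_real, Real.norm_eq_abs, abs_of_nonneg h6, hF2norm]
    have h7 : (1 - (N z)⁻¹) * (‖f0 z‖ * N z) = ‖f0 z‖ * (N z - 1) := by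
      field_simp
    rw [h7]
    have h8 : ‖f0 z‖ * (N z - 1) ≤ 1 * (N z - 1) :=
      mul_le_mul_of_nonneg_right (hf01 z) (by linarith [hN1 z])
    linarith [hNle z]
  -- a common bound
  obtain ⟨C, hC⟩ : ∃ C : ℝ, (∀ z, ‖G1 z‖ ≤ C) ∧ (∀ z, ‖G2 z‖ ≤ C) ∧ (∀ z, ‖F z‖ ≤ C) ∧
      (∀ z, ‖F2 z‖ ≤ C) ∧ (∀ z, ‖R z‖ ≤ C) ∧ ∀ z, ‖X z‖ ≤ C := by
    obtain ⟨C1, hC1⟩ := hG1n.2
    obtain ⟨C2, hC2⟩ := hG2n.2
    obtain ⟨C3, hC3⟩ := hFn.2
    obtain ⟨C4, hC4⟩ := hF2n.2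
    obtain ⟨C5, hC5⟩ := hRn.2
    obtain ⟨C6, hC6⟩ := hXn.2
    refine ⟨|C1| + |C2| + |C3| + |C4| + |C5| + |C6|, ?_, ?_, ?_, ?_, ?_, ?_⟩ <;> intro z
    · linarith [hC1 z, le_abs_self C1, abs_nonneg C2, abs_nonneg C3, abs_nonneg C4,
        abs_nonneg C5, abs_nonneg C6]
    · linarith [hC2 z, le_abs_self C2, abs_nonneg C1, abs_nonneg C3, abs_nonneg C4,
        abs_nonneg C5, abs_nonneg C6]
    · linarith [hC3 z, le_abs_self C3, abs_nonneg C2, abs_nonneg C1, abs_nonneg C4,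
        abs_nonneg C5, abs_nonneg C6]
    · linarith [hC4 z, le_abs_self C4, abs_nonneg C2, abs_nonneg C3, abs_nonneg C1,
        abs_nonneg C5, abs_nonneg C6]
    · linarith [hC5 z, le_abs_self C5, abs_nonneg C2, abs_nonneg C3, abs_nonneg C4,
        abs_nonneg C1, abs_nonneg C6]
    · linarith [hC6 z, le_abs_self C6, abs_nonneg C2, abs_nonneg C3, abs_nonneg C4,
        abs_nonneg C5, abs_nonneg C1]
  obtain ⟨hC1, hC2, hC3, hC4, hC5, hC6⟩ := hC
  have hXpow : ∀ (j : ℕ) (z : Fin 2 → ℂ), |‖X z‖ ^ j| ≤ C ^ j := by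
    intro j z
    rw [abs_of_nonneg (pow_nonneg (norm_nonneg _) _)]
    exact pow_le_pow_left₀ (norm_nonneg _) (hC6 z) j
  have hXm : ∀ j : ℕ, Measurable (fun z => ‖X z‖ ^ j) := fun j => hXn.1.norm.pow_const j
  -- L² bounds
  have b1 : ∫ z, ‖G1 z‖ ^ 2 ∂(gam 2) ≤ I1 ^ 2 := by
    refine le_trans (int_le (hG1n.1.norm.pow_const 2) (hXm 2) (C ^ 2) (hXpow 2)
      (fun z => sq_nonneg _) fun z => ?_) hI1
    rw [hG1]
    simp only
    rw [norm_mul, mul_pow]
    have := pow_le_one₀ (n := 2) (norm_nonneg _) (hf01 z)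
    exact mul_le_of_le_one_left (sq_nonneg _) this
  have b2 : ∫ z, ‖G2 z‖ ^ 2 ∂(gam 2) ≤ (I2 / 2) ^ 2 := by
    have h5 : ∫ z, ‖G2 z‖ ^ 2 ∂(gam 2) ≤ ∫ z, (1 / 4 : ℝ) * ‖X z‖ ^ 4 ∂(gam 2) := by
      refine int_le (hG2n.1.norm.pow_const 2) ((hXm 4).const_mul _) (C ^ 4)
        (fun z => ?_) (fun z => sq_nonneg _) fun z => ?_
      · rw [abs_mul]
        have := hXpow 4 z
        have h6 : |(1 / 4 : ℝ)| = 1 / 4 := abs_of_pos (by norm_num)
        rw [h6]
        have := abs_nonneg (‖X z‖ ^ 4)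
        linarith
      · rw [hG2]
        simp only
        rw [norm_mul, norm_mul, norm_mul, Complex.norm_real]
        have h6 : ‖(1 / 2 : ℝ)‖ = 1 / 2 := by rw [Real.norm_eq_abs]; exact abs_of_pos (by norm_num)
        rw [h6]
        have h7 := pow_le_one₀ (n := 2) (norm_nonneg _) (hf01 z)
        have h8 : (1 / 2 * (‖f0 z‖ * (‖X z‖ * ‖X z‖))) ^ 2
            = 1 / 4 * (‖f0 z‖ ^ 2 * ‖X z‖ ^ 4) := by ring
        rw [h8]
        have h9 := mul_le_of_le_one_left (pow_nonneg (norm_nonneg (X z)) 4) h7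
        linarith
    rw [integral_const_mul] at h5
    refine h5.trans ?_
    have : (I2 / 2) ^ 2 = 1 / 4 * I2 ^ 2 := by ring
    rw [this]
    linarith
  have b3 : ∫ z, ‖F z‖ ^ 2 ∂(gam 2) ≤ (1 : ℝ) ^ 2 := by
    have h5 : ∫ z, ‖F z‖ ^ 2 ∂(gam 2) ≤ ∫ z, (1 : ℝ) ∂(gam 2) := by
      refine int_le (hFm.norm.pow_const 2) measurable_const 1 (fun z => by simp)
        (fun z => sq_nonneg _) fun z => pow_le_one₀ (norm_nonneg _) (hF1 z)
    simpa using h5
  have b4 : ∫ z, ‖F2 z‖ ^ 2 ∂(gam 2) ≤ (1 + I2 ^ 2 / 8) ^ 2 := by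
    have h5 : ∫ z, ‖F2 z‖ ^ 2 ∂(gam 2) ≤ ∫ z, (1 + (1 / 4 : ℝ) * ‖X z‖ ^ 4) ∂(gam 2) := by
      refine int_le (hF2n.1.norm.pow_const 2) (((hXm 4).const_mul _).const_add 1) (1 + C ^ 4)
        (fun z => ?_) (fun z => sq_nonneg _) fun z => ?_
      · have h6 := hXpow 4 z
        rw [abs_of_nonneg (pow_nonneg (norm_nonneg (X z)) 4)] at h6
        rw [abs_of_nonneg (by positivity)]
        have := pow_nonneg (norm_nonneg (X z)) 4
        linarith
      · rw [hF2norm, mul_pow, hNsq]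
        have h7 := pow_le_one₀ (n := 2) (norm_nonneg _) (hf01 z)
        have h9 := mul_le_of_le_one_left (b := 1 + ‖X z‖ ^ 4 / 4) (by positivity) h7
        linarith
    rw [integral_add (integrable_const _) ((integrable_of_bdd (hXm 4) _ (hXpow 4)).const_mul _),
      integral_const_mul] at h5
    simp only [integral_const, probReal_univ, smul_eq_mul, mul_one] at h5
    refine h5.trans ?_
    nlinarith [sq_nonneg (I2 ^ 2)]
  have b5 : ∫ z, ‖R z‖ ^ 2 ∂(gam 2) ≤ (I4 / 8) ^ 2 := by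
    have h5 : ∫ z, ‖R z‖ ^ 2 ∂(gam 2) ≤ ∫ z, (1 / 64 : ℝ) * ‖X z‖ ^ 8 ∂(gam 2) := by
      refine int_le (hRn.1.norm.pow_const 2) ((hXm 8).const_mul _) (C ^ 8)
        (fun z => ?_) (fun z => sq_nonneg _) fun z => ?_
      · rw [abs_mul]
        have := hXpow 8 z
        have h6 : |(1 / 64 : ℝ)| = 1 / 64 := abs_of_pos (by norm_num)
        rw [h6]
        have := abs_nonneg (‖X z‖ ^ 8)
        linarith
      · have h6 := pow_le_pow_left₀ (norm_nonneg _) (hRnorm z) 2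
        refine h6.trans (le_of_eq ?_)
        ring
    rw [integral_const_mul] at h5
    refine h5.trans ?_
    have : (I4 / 8) ^ 2 = 1 / 64 * I4 ^ 2 := by ring
    rw [this]
    linarith
  -- admissible parts
  have a0 := Adm_corr F F hFm hFm hF1 hF1 k hk
  have a1 := Adm_corr_L2 R F2 hRn.1 hF2n.1 C hC5 hC4 k hk (I4 / 8) (1 + I2 ^ 2 / 8)
    (by positivity) (by positivity) b5 b4
  have a2 := Adm_corr_L2 F R hFm hRn.1 C hC3 hC5 k hk 1 (I4 / 8) (by positivity) (by positivity)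
    b3 b5
  have a3 := (Adm_corr_L2 G1 G2 hG1n.1 hG2n.1 C hC1 hC2 k hk I1 (I2 / 2) h1 (by positivity)
    b1 b2).neg
  have a4 := (Adm_corr_L2 G2 G1 hG2n.1 hG1n.1 C hC2 hC1 k hk (I2 / 2) I1 (by positivity) h1
    b2 b1).neg
  have a5 := (Adm_corr_L2 G2 G2 hG2n.1 hG2n.1 C hC2 hC2 k hk (I2 / 2) (I2 / 2) (by positivity)
    (by positivity) b2 b2).neg
  refine ((((((a0.add a1).add a2).add a3).add a4).add a5).congr fun s _ => ?_).mono ?_ ?_
  · set ρ : Fin 2 → ℂ := fun j => ker (k j) s with hρ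
    -- expansions of the target
    have e1 : ∑ l, (γ l : ℂ) * corr (fP v1 v2 (P l)) f0 ρ = corr G1 f0 ρ := by
      rw [← corr_sumL Finset.univ γ (fun l => fP v1 v2 (P l)) (fun l => fP_nice v1 v2 (hP l)) hf0n]
      congr 1
      funext z
      rw [hG1, hXdef]
      simp only
      rw [Finset.mul_sum]
      refine Finset.sum_congr rfl fun l _ => ?_
      rw [fP_eq, hf0]
      ring
    have e2 : ∑ l, (γ l : ℂ) * corr f0 (fP v1 v2 (P l)) ρ = corr f0 G1 ρ := by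
      rw [← corr_sumR Finset.univ γ (fun l => fP v1 v2 (P l)) (fun l => fP_nice v1 v2 (hP l)) hf0n]
      congr 1
      funext z
      rw [hG1, hXdef]
      simp only
      rw [Finset.mul_sum]
      refine Finset.sum_congr rfl fun l _ => ?_
      rw [fP_eq, hf0]
      ring
    have hG1s : G1 = fun z => ∑ l, (γ l : ℂ) * fP v1 v2 (P l) z := by
      funext z
      rw [hG1, hXdef]
      simp only
      rw [Finset.mul_sum]
      refine Finset.sum_congr rfl fun l _ => ?_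
      rw [fP_eq, hf0]
      ring
    have e3 : ∑ l, ∑ m, (γ l : ℂ) * (γ m : ℂ) * corr (fP v1 v2 (P l)) (fP v1 v2 (P m)) ρ
        = corr G1 G1 ρ := by
      have h5 : corr G1 G1 ρ = ∑ l, (γ l : ℂ) * corr (fP v1 v2 (P l)) G1 ρ := by
        conv_lhs => rw [show corr G1 G1 ρ = corr (fun z => ∑ l, (γ l : ℂ) * fP v1 v2 (P l) z) G1 ρ
          by rw [← hG1s]]
        exact corr_sumL Finset.univ γ (fun l => fP v1 v2 (P l)) (fun l => fP_nice v1 v2 (hP l))
          hG1n ρ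
      rw [h5]
      refine Finset.sum_congr rfl fun l _ => ?_
      have h6 : corr (fP v1 v2 (P l)) G1 ρ
          = ∑ m, (γ m : ℂ) * corr (fP v1 v2 (P l)) (fP v1 v2 (P m)) ρ := by
        rw [hG1s]
        exact corr_sumR Finset.univ γ (fun l => fP v1 v2 (P l)) (fun l => fP_nice v1 v2 (hP l))
          (fP_nice v1 v2 (hP l)) ρ
      rw [h6, Finset.mul_sum]
      refine Finset.sum_congr rfl fun m _ => ?_
      ring
    let γ2 : Fin L × Fin L → ℝ := fun x => γ x.1 * γ x.2 / 2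
    have hnn : ∀ x : Fin L × Fin L, Nice (fP v1 v2 ((P x.1).add (P x.2))) :=
      fun x => fP_nice v1 v2 (psd_add (hP _) (hP _))
    have hG2s : G2 = fun z => ∑ x : Fin L × Fin L, (γ2 x : ℂ) * fP v1 v2 ((P x.1).add (P x.2)) z := by
      funext z
      rw [hG2, hXdef]
      simp only
      rw [Finset.sum_mul_sum, Finset.mul_sum, Finset.mul_sum, ← Finset.univ_product_univ,
        Finset.sum_product]
      refine Finset.sum_congr rfl fun l _ => ?_
      rw [Finset.mul_sum, Finset.mul_sum]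
      refine Finset.sum_congr rfl fun m _ => ?_
      rw [fP_eq v1 v2 ((P (l, m).1).add (P (l, m).2)), hf0, form_add, neg_add, Complex.exp_add]
      simp only [γ2]
      push_cast
      ring
    have e4 : ∑ l, ∑ m, ((γ l : ℂ) * (γ m : ℂ) / 2) * corr (fP v1 v2 ((P l).add (P m))) f0 ρ
        = corr G2 f0 ρ := by
      have h5 : corr G2 f0 ρ = ∑ x : Fin L × Fin L,
          (γ2 x : ℂ) * corr (fP v1 v2 ((P x.1).add (P x.2))) f0 ρ := by
        rw [hG2s]
        exact corr_sumL Finset.univ γ2 (fun x => fP v1 v2 ((P x.1).add (P x.2))) hnn hf0n ρ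
      rw [h5, ← Finset.univ_product_univ, Finset.sum_product]
      refine Finset.sum_congr rfl fun l _ => Finset.sum_congr rfl fun m _ => ?_
      simp only [γ2]
      push_cast
      ring
    have e5 : ∑ l, ∑ m, ((γ l : ℂ) * (γ m : ℂ) / 2) * corr f0 (fP v1 v2 ((P l).add (P m))) ρ
        = corr f0 G2 ρ := by
      have h5 : corr f0 G2 ρ = ∑ x : Fin L × Fin L,
          (γ2 x : ℂ) * corr f0 (fP v1 v2 ((P x.1).add (P x.2))) ρ := by
        rw [hG2s]
        exact corr_sumR Finset.univ γ2 (fun x => fP v1 v2 ((P x.1).add (P x.2))) hnn hf0n ρ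
      rw [h5, ← Finset.univ_product_univ, Finset.sum_product]
      refine Finset.sum_congr rfl fun l _ => Finset.sum_congr rfl fun m _ => ?_
      simp only [γ2]
      push_cast
      ring
    have hF2F : F2 = fun z => F z + R z := by
      funext z
      rw [hR]
      push_cast
      ring
    have x1 : corr F2 F2 ρ = corr F F ρ + corr R F2 ρ + corr F R ρ := by
      have h5 : corr F2 F2 ρ = corr F F2 ρ + corr R F2 ρ := by
        have h6 := corr_addL hFn hRn hF2n ρ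
        rw [← hF2F] at h6
        exact h6
      have h7 : corr F F2 ρ = corr F F ρ + corr F R ρ := by
        have h6 := corr_addR hFn hRn hFn ρ
        rw [← hF2F] at h6
        exact h6
      rw [h5, h7]
      ring
    have x2 : corr F2 F2 ρ = corr f0 f0 ρ + corr G1 f0 ρ + corr G2 f0 ρ
        + (corr f0 G1 ρ + corr G1 G1 ρ + corr G2 G1 ρ)
        + (corr f0 G2 ρ + corr G1 G2 ρ + corr G2 G2 ρ) := by
      have hexp : ∀ H : (Fin 2 → ℂ) → ℂ, Nice H →
          corr F2 H ρ = corr f0 H ρ + corr G1 H ρ + corr G2 H ρ := by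
        intro H hH
        rw [hF2, corr_addL (hf0n.add hG1n) hG2n hH, corr_addL hf0n hG1n hH]
      have hexp2 : corr F2 F2 ρ = corr F2 f0 ρ + corr F2 G1 ρ + corr F2 G2 ρ := by
        have h6 := corr_addR (hf0n.add hG1n) hG2n hF2n ρ
        rw [corr_addR hf0n hG1n hF2n] at h6
        rw [← hF2] at h6
        exact h6
      rw [hexp2, hexp f0 hf0n, hexp G1 hG1n, hexp G2 hG2n]
    rw [← hf0]
    simp only [mul_add, Finset.sum_add_distrib]
    rw [e1, e2, e3, e4, e5]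
    have x3 := x1.symm.trans x2
    linear_combination x3
  · norm_num
  · apply le_of_eq
    ring

end GUB
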