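import Pool.Agent.Lib.MP_721eb4_an.UB.GaussG
import Pool.Agent.Lib.MP_721eb4_an.UB.Data
import Pool.Agent.Lib.MP_721eb4_an.UB.Loss

/-! Upper bound for the complex Grothendieck constant: module Mom -/

set_option autoImplicit false

open MeasureTheory Complex Set GLB
open scoped ComplexConjugate

namespace GUB

/-- `i P₀ + j P₁ + k P₂ + l P₃` in units of `10⁻⁶` -/
def Mom_Z (i j k l : ℕ) : M2 ℤ :=
  ⟨i * (pA 0).a + j * (pA 1).a + k * (pA 2).a + l * (pA 3).a,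
    i * (pA 0).b + j * (pA 1).b + k * (pA 2).b + l * (pA 3).b,
    i * (pA 0).c + j * (pA 1).c + k * (pA 2).c + l * (pA 3).c,
    i * (pA 0).d + j * (pA 1).d + k * (pA 2).d + l * (pA 3).d⟩

/-- the four exponentials -/
noncomputable def Mom_E (l : Fin 4) (z : Fin 2 → ℂ) : ℂ := exp (-((toR (pA l)).form z))

theorem Mom_prod (i j k l : ℕ) (z : Fin 2 → ℂ) :
    Mom_E 0 z ^ i * Mom_E 1 z ^ j * Mom_E 2 z ^ k * Mom_E 3 z ^ l
      = exp (-((toR (Mom_Z i j k l)).form z)) := by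
  simp only [Mom_E, ← Complex.exp_nat_mul, ← Complex.exp_add]
  congr 1
  simp only [toR, M2.map, M2.form, Mom_Z]
  push_cast
  ring

/-- integral of a monomial, as a rational number -/
def Mom_I (i j k l : ℕ) : ℚ :=
  Rat.divInt 1000000000000 (1000000000000 + 1000000 * ((Mom_Z i j k l).a + (Mom_Z i j k l).d)
    + ((Mom_Z i j k l).a * (Mom_Z i j k l).d - (Mom_Z i j k l).b * (Mom_Z i j k l).c))

/-- coefficients of the power of `X`, in units of `(2·10⁶)⁻ⁿ` -/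
def Mom_c (n m i j : ℕ) : ℤ :=
  (n.choose m * m.choose i * (n - m).choose j : ℕ) *
   ((-190000) ^ i * 190000 ^ (m - i) * 190000 ^ j * (-190000) ^ (n - m - j))

/-- moments of `X` -/
def Mom_S (n : ℕ) : ℚ :=
  ∑ m ∈ Finset.range (n + 1), ∑ i ∈ Finset.range (m + 1), ∑ j ∈ Finset.range (n - m + 1),
    (Mom_c n m i j : ℚ) * Mom_I i (m - i) j (n - m - j)

theorem Mom_num2 : -(Mom_S 2) / (2 * 10 ^ 6) ^ 2 ≤ (5435 / 10 ^ 6) ^ 2 := by decide +kernel
theorem Mom_num4 : (Mom_S 4) / (2 * 10 ^ 6) ^ 4 ≤ (1317 / 10 ^ 7) ^ 2 := by decide +kernel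
theorem Mom_num8 : (Mom_S 8) / (2 * 10 ^ 6) ^ 8 ≤ (393 / 10 ^ 9) ^ 2 := by decide +kernel

theorem Mom_psd (hP : ∀ l, (toR (pA l)).psd) (i j k l : ℕ) : (toR (Mom_Z i j k l)).psd := by
  have hs : ∀ (n : ℕ) (P : M2 ℝ), P.psd → (⟨n * P.a, n * P.b, n * P.c, n * P.d⟩ : M2 ℝ).psd := by
    intro n P ⟨h1, h2, h3⟩
    refine ⟨by positivity, by positivity, ?_⟩
    have : (0 : ℝ) ≤ (n : ℝ) ^ 2 := by positivity
    show ((n : ℝ) * P.b + n * P.c) ^ 2 ≤ 4 * (n * P.a) * (n * P.d)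
    nlinarith [mul_le_mul_of_nonneg_left h3 this]
  have h := LossAux.psd_add (LossAux.psd_add (LossAux.psd_add (hs i _ (hP 0)) (hs j _ (hP 1)))
    (hs k _ (hP 2))) (hs l _ (hP 3))
  have e : toR (Mom_Z i j k l) = (((⟨i * (toR (pA 0)).a, i * (toR (pA 0)).b, i * (toR (pA 0)).c,
      i * (toR (pA 0)).d⟩ : M2 ℝ).add ⟨j * (toR (pA 1)).a, j * (toR (pA 1)).b, j * (toR (pA 1)).c,
      j * (toR (pA 1)).d⟩).add ⟨k * (toR (pA 2)).a, k * (toR (pA 2)).b, k * (toR (pA 2)).c,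
      k * (toR (pA 2)).d⟩).add ⟨l * (toR (pA 3)).a, l * (toR (pA 3)).b, l * (toR (pA 3)).c,
      l * (toR (pA 3)).d⟩ := by
    simp only [toR, M2.map, Mom_Z, M2.add, M2.mk.injEq]
    push_cast
    refine ⟨by ring, by ring, by ring, by ring⟩
  rw [e]
  exact h

theorem Mom_int (hP : ∀ l, (toR (pA l)).psd) (i j k l : ℕ) :
    Integrable (fun z => exp (-((toR (Mom_Z i j k l)).form z))) (gam 2) := by
  have h := LossAux.exp_nice (Mom_psd hP i j k l)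
  obtain ⟨hm, C, hC⟩ := h
  exact Integrable.of_bound hm.aestronglyMeasurable C (Filter.Eventually.of_forall hC)

theorem Mom_val (hP : ∀ l, (toR (pA l)).psd) (i j k l : ℕ) :
    ∫ z, exp (-((toR (Mom_Z i j k l)).form z)) ∂(gam 2) = ((Mom_I i j k l : ℚ) : ℂ) := by
  rw [gam_form _ (Mom_psd hP i j k l)]
  have h : (1 / (1 + (toR (Mom_Z i j k l)).a + (toR (Mom_Z i j k l)).d
      + (toR (Mom_Z i j k l)).det) : ℝ) = ((Mom_I i j k l : ℚ) : ℝ) := by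
    simp only [Mom_I, toR, M2.map, M2.det, Rat.divInt_eq_div]
    push_cast
    set a : ℝ := ((Mom_Z i j k l).a : ℝ)
    set b : ℝ := ((Mom_Z i j k l).b : ℝ)
    set c : ℝ := ((Mom_Z i j k l).c : ℝ)
    set d : ℝ := ((Mom_Z i j k l).d : ℝ)
    have e : (1000000000000 + 1000000 * (a + d) + (a * d - b * c) : ℝ)
        = 1000000000000 * (1 + a / 10 ^ 6 + d / 10 ^ 6 + (a / 10 ^ 6 * (d / 10 ^ 6)
          - b / 10 ^ 6 * (c / 10 ^ 6))) := by ring
    rw [e, div_mul_eq_div_div, div_self (by norm_num)]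
  rw [h]
  norm_cast

/-- `X = g₀ E₀ + g₁ E₁ + g₂ E₂ + g₃ E₃` -/
theorem Mom_pow (n : ℕ) (z : Fin 2 → ℂ) :
    XA z ^ n = ((2 * 10 ^ 6 : ℂ) ^ n)⁻¹ *
      ∑ m ∈ Finset.range (n + 1), ∑ i ∈ Finset.range (m + 1), ∑ j ∈ Finset.range (n - m + 1),
        (Mom_c n m i j : ℂ) * exp (-((toR (Mom_Z i (m - i) j (n - m - j))).form z)) := by
  have h1 : XA z = (2 * 10 ^ 6 : ℂ)⁻¹ * ((-190000 * Mom_E 0 z + 190000 * Mom_E 1 z)
      + (190000 * Mom_E 2 z + (-190000) * Mom_E 3 z)) := by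
    simp only [XA, Fin.sum_univ_four, gA, Mom_E, Matrix.cons_val_zero, Matrix.cons_val_one,
      Matrix.cons_val]
    push_cast
    ring
  rw [h1, mul_pow, inv_pow, add_pow]
  congr 1
  refine Finset.sum_congr rfl fun m hm => ?_
  rw [add_pow, add_pow, Finset.sum_mul_sum, Finset.sum_mul]
  refine Finset.sum_congr rfl fun i hi => ?_
  rw [Finset.sum_mul]
  refine Finset.sum_congr rfl fun j hj => ?_
  rw [← Mom_prod]
  simp only [mul_pow, Mom_c]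
  push_cast
  ring

theorem Mom_integral (hP : ∀ l, (toR (pA l)).psd) (n : ℕ) :
    ∫ z, XA z ^ n ∂(gam 2) = ((Mom_S n / (2 * 10 ^ 6) ^ n : ℚ) : ℂ) := by
  have h1 : ∀ z, XA z ^ n = ((2 * 10 ^ 6 : ℂ) ^ n)⁻¹ *
      ∑ m ∈ Finset.range (n + 1), ∑ i ∈ Finset.range (m + 1), ∑ j ∈ Finset.range (n - m + 1),
        (Mom_c n m i j : ℂ) * exp (-((toR (Mom_Z i (m - i) j (n - m - j))).form z)) :=
    fun z => Mom_pow n z
  simp_rw [h1]
  rw [integral_const_mul, integral_finsetSum]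
  swap
  · intro m _
    refine integrable_finsetSum _ fun i _ => integrable_finsetSum _ fun j _ => ?_
    exact (Mom_int hP _ _ _ _).const_mul _
  have h2 : ∀ m ∈ Finset.range (n + 1), ∫ z, (∑ i ∈ Finset.range (m + 1),
      ∑ j ∈ Finset.range (n - m + 1), (Mom_c n m i j : ℂ) *
        exp (-((toR (Mom_Z i (m - i) j (n - m - j))).form z))) ∂(gam 2)
      = ∑ i ∈ Finset.range (m + 1), ∑ j ∈ Finset.range (n - m + 1),
        (Mom_c n m i j : ℂ) * ((Mom_I i (m - i) j (n - m - j) : ℚ) : ℂ) := by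
    intro m _
    rw [integral_finsetSum]
    swap
    · intro i _
      refine integrable_finsetSum _ fun j _ => ?_
      exact (Mom_int hP _ _ _ _).const_mul _
    refine Finset.sum_congr rfl fun i _ => ?_
    rw [integral_finsetSum]
    swap
    · intro j _
      exact (Mom_int hP _ _ _ _).const_mul _
    refine Finset.sum_congr rfl fun j _ => ?_
    rw [integral_const_mul, Mom_val hP]
  rw [Finset.sum_congr rfl h2, Mom_S]
  push_cast
  rw [mul_comm, ← div_eq_mul_inv]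

theorem Mom_formtr (P : M2 ℝ) (z : Fin 2 → ℂ) : P.tr.form z = conj (P.form z) := by
  simp only [M2.form, M2.tr, map_add, map_mul, Complex.conj_ofReal, Complex.conj_conj]
  ring

theorem XA_re (z : Fin 2 → ℂ) : (XA z).re = 0 := by
  have e1 : Mom_E 1 z = conj (Mom_E 0 z) := by
    have : toR (pA 1) = (toR (pA 0)).tr := rfl
    rw [Mom_E, Mom_E, this, Mom_formtr, ← map_neg, Complex.exp_conj]
  have e3 : Mom_E 3 z = conj (Mom_E 2 z) := by
    have : toR (pA 3) = (toR (pA 2)).tr := rfl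
    rw [Mom_E, Mom_E, this, Mom_formtr, ← map_neg, Complex.exp_conj]
  have h1 : XA z = ((-190000 / (2 * 10 ^ 6) : ℝ) : ℂ) * Mom_E 0 z
      + ((190000 / (2 * 10 ^ 6) : ℝ) : ℂ) * Mom_E 1 z
      + ((190000 / (2 * 10 ^ 6) : ℝ) : ℂ) * Mom_E 2 z
      + ((-190000 / (2 * 10 ^ 6) : ℝ) : ℂ) * Mom_E 3 z := by
    simp only [XA, Fin.sum_univ_four, gA, Mom_E, Matrix.cons_val_zero, Matrix.cons_val_one,
      Matrix.cons_val]
  rw [h1, e1, e3]
  simp only [Complex.add_re, Complex.re_ofReal_mul, Complex.conj_re]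
  ring

theorem Mom_norm (z : Fin 2 → ℂ) : ((‖XA z‖ : ℝ) : ℂ) ^ 2 = -(XA z) ^ 2 := by
  have h : conj (XA z) = -XA z := by
    apply Complex.ext
    · simp [XA_re z]
    · simp
  rw [← Complex.conj_mul', h]
  ring

theorem Mom_hP (l : Fin 4) : (toR (pA l)).psd := by
  fin_cases l <;>
    · simp only [toR, M2.map, M2.psd, pA, Matrix.cons_val_zero, Matrix.cons_val_one,
        Matrix.cons_val, Fin.zero_eta, Fin.mk_one, Fin.reduceFinMk]
      norm_num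

/-- even moments of `|X|` -/
theorem Mom_abs (k : ℕ) :
    ∫ z, ‖XA z‖ ^ (2 * k) ∂(gam 2) = (((-1) ^ k * (Mom_S (2 * k) / (2 * 10 ^ 6) ^ (2 * k)) : ℚ) : ℝ) := by
  have h1 : ((∫ z, ‖XA z‖ ^ (2 * k) ∂(gam 2) : ℝ) : ℂ)
      = ∫ z, (-1) ^ k * (XA z) ^ (2 * k) ∂(gam 2) := by
    rw [← integral_complex_ofReal]
    refine integral_congr_ae (Filter.Eventually.of_forall fun z => ?_)
    simp only
    rw [Complex.ofReal_pow, pow_mul, Mom_norm, pow_mul, neg_pow]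
  rw [integral_const_mul, Mom_integral Mom_hP] at h1
  exact_mod_cast h1

theorem XA_mom2 : ∫ z, ‖XA z‖ ^ 2 ∂(gam 2) ≤ (5435 / 10 ^ 6) ^ 2 := by
  have h := Mom_abs 1
  have h2 : ((-1) ^ 1 * (Mom_S (2 * 1) / (2 * 10 ^ 6) ^ (2 * 1)) : ℚ) ≤ (5435 / 10 ^ 6) ^ 2 := by
    have := Mom_num2
    rw [neg_div] at this
    linarith
  refine (le_of_eq h).trans ((Rat.cast_le.2 h2).trans (le_of_eq ?_))
  push_cast
  rfl

theorem XA_mom4 : ∫ z, ‖XA z‖ ^ 4 ∂(gam 2) ≤ (1317 / 10 ^ 7) ^ 2 := by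
  have h := Mom_abs 2
  have h2 : ((-1) ^ 2 * (Mom_S (2 * 2) / (2 * 10 ^ 6) ^ (2 * 2)) : ℚ) ≤ (1317 / 10 ^ 7) ^ 2 := by
    have := Mom_num4
    linarith
  refine (le_of_eq h).trans ((Rat.cast_le.2 h2).trans (le_of_eq ?_))
  push_cast
  rfl

theorem XA_mom8 : ∫ z, ‖XA z‖ ^ 8 ∂(gam 2) ≤ (393 / 10 ^ 9) ^ 2 := by
  have h := Mom_abs 4
  have h2 : ((-1) ^ 4 * (Mom_S (2 * 4) / (2 * 10 ^ 6) ^ (2 * 4)) : ℚ) ≤ (393 / 10 ^ 9) ^ 2 := by
    have := Mom_num8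
    linarith
  refine (le_of_eq h).trans ((Rat.cast_le.2 h2).trans (le_of_eq ?_))
  push_cast
  rfl

end GUB
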