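import Pool.Agent.Lib.MP_721eb4_an.UB.Data
import Pool.Agent.Lib.MP_721eb4_an.UB.AsmPair
import Pool.Agent.Lib.MP_721eb4_an.UB.Loss
import Pool.Agent.Lib.MP_721eb4_an.UB.Mom

/-! Upper bound for the complex Grothendieck constant: module AsmA -/

set_option autoImplicit false

open MeasureTheory Complex Set GLB
open scoped ComplexConjugate

namespace GUB

/-! ### the series of the list of pairs -/

private lemma hasSum_list {α : Type} (l : List α) (f : α → ℕ → ℂ) (g : α → ℂ)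
    (h : ∀ t ∈ l, HasSum (f t) (g t)) :
    HasSum (fun N => (l.map (fun t => f t N)).sum) ((l.map g).sum) := by
  induction l with
  | nil => simp
  | cons a l ih =>
    simp only [List.map_cons, List.sum_cons]
    exact (h a (by simp)).add (ih fun t ht => h t (by simp [ht]))

private lemma list_sum_mul {α : Type} (l : List α) (f : α → ℂ) (c : ℂ) :
    (l.map f).sum * c = (l.map (fun t => f t * c)).sum := by
  induction l with
  | nil => simp
  | cons a l ih =>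
    simp only [List.map_cons, List.sum_cons, add_mul, ih]

private lemma ofReal_list_sum {α : Type} (l : List α) (f : α → ℝ) :
    (((l.map f).sum : ℝ) : ℂ) = (l.map (fun t => ((f t : ℝ) : ℂ))).sum := by
  induction l with
  | nil => simp
  | cons a l ih =>
    simp only [List.map_cons, List.sum_cons, Complex.ofReal_add, ih]

private lemma mul_list_sum {α : Type} (l : List α) (f : α → ℝ) (c : ℝ) :
    c * (l.map f).sum = (l.map (fun t => c * f t)).sum := by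
  induction l with
  | nil => simp
  | cons a l ih =>
    simp only [List.map_cons, List.sum_cons, mul_add, ih]

private lemma abs_list_sum_le {α : Type} (l : List α) (f g : α → ℝ)
    (h : ∀ t ∈ l, |f t| ≤ g t) : |(l.map f).sum| ≤ (l.map g).sum := by
  induction l with
  | nil => simp
  | cons a l ih =>
    simp only [List.map_cons, List.sum_cons]
    exact (abs_add_le _ _).trans (add_le_add (h a (by simp)) (ih fun t ht => h t (by simp [ht])))

theorem PhiA_series (s : ℂ) (hs : ‖s‖ < 1) :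
    HasSum (fun N => (((Real.pi / 4) * ThA N : ℝ) : ℂ) * (s * (((‖s‖ ^ 2) ^ N : ℝ) : ℂ)))
      (PhiA s) := by
  have h1 := hasSum_list prA
    (fun t N => (((t.1 : ℝ) / (4 * 10 ^ 12) : ℝ) : ℂ) *
      ((((Real.pi / 4) * ThP t.2.1 t.2.2 N : ℝ) : ℂ) * (s * (((‖s‖ ^ 2) ^ N : ℝ) : ℂ))))
    (fun t => (((t.1 : ℝ) / (4 * 10 ^ 12) : ℝ) : ℂ) * cor t.2.1 t.2.2 s)
    (fun t ht => ((pair_col t ht).2 s hs).mul_left _)
  have h2 : (fun N => (((Real.pi / 4) * ThA N : ℝ) : ℂ) * (s * (((‖s‖ ^ 2) ^ N : ℝ) : ℂ)))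
      = fun N => (prA.map (fun t => (((t.1 : ℝ) / (4 * 10 ^ 12) : ℝ) : ℂ) *
      ((((Real.pi / 4) * ThP t.2.1 t.2.2 N : ℝ) : ℂ) * (s * (((‖s‖ ^ 2) ^ N : ℝ) : ℂ))))).sum := by
    funext N
    unfold ThA
    rw [mul_list_sum, ofReal_list_sum, list_sum_mul]
    congr 1
    apply List.map_congr_left
    intro t _
    push_cast
    ring
  rw [h2]
  exact h1

theorem ThA_tail (N : ℕ) : |(Real.pi / 4) * ThA N| ≤ 22 / 10 * (7 / 5 : ℝ)⁻¹ ^ N := by
  have h1 : |(prA.map (fun t => (Real.pi / 4) * ((t.1 : ℝ) / (4 * 10 ^ 12) *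
      ThP t.2.1 t.2.2 N))).sum| ≤
      (prA.map (fun t => (21 / 20 * (7 / 5 : ℝ)⁻¹ ^ N) * (|(t.1 : ℝ)| / (4 * 10 ^ 12)))).sum := by
    apply abs_list_sum_le
    intro t ht
    have h2 := (pair_col t ht).1 N
    have h3 : (Real.pi / 4) * ((t.1 : ℝ) / (4 * 10 ^ 12) * ThP t.2.1 t.2.2 N)
        = (t.1 : ℝ) / (4 * 10 ^ 12) * ((Real.pi / 4) * ThP t.2.1 t.2.2 N) := by ring
    rw [h3, abs_mul, abs_div, abs_of_pos (show (0 : ℝ) < 4 * 10 ^ 12 by norm_num), mul_comm]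
    exact mul_le_mul_of_nonneg_right h2 (by positivity)
  unfold ThA
  rw [mul_list_sum]
  refine h1.trans ?_
  rw [← mul_list_sum]
  have h4 : (prA.map (fun t => (|(t.1 : ℝ)| / (4 * 10 ^ 12)))).sum ≤ 44 / 21 := by
    unfold prA
    simp only [List.map_cons, List.map_nil, List.sum_cons, List.sum_nil]
    norm_num [abs_of_nonneg, abs_of_neg]
  have h5 : 0 ≤ (21 / 20 * (7 / 5 : ℝ)⁻¹ ^ N) := by positivity
  calc (21 / 20 * (7 / 5 : ℝ)⁻¹ ^ N) * (prA.map (fun t => (|(t.1 : ℝ)| / (4 * 10 ^ 12)))).sum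
      ≤ (21 / 20 * (7 / 5 : ℝ)⁻¹ ^ N) * (44 / 21) := mul_le_mul_of_nonneg_left h4 h5
    _ = 22 / 10 * (7 / 5 : ℝ)⁻¹ ^ N := by ring

/-! ### the second order approximation -/

private lemma toR_add (P Q : M2 ℤ) : (toR P).add (toR Q) = toR (P.add Q) := by
  simp only [toR, M2.map, M2.add, M2.mk.injEq]
  push_cast
  refine ⟨?_, ?_, ?_, ?_⟩ <;> ring

private lemma toR_zero : (M2.zero : M2 ℝ) = toR ⟨0, 0, 0, 0⟩ := by
  simp [toR, M2.map, M2.zero]

private lemma corr_cor (P Q : M2 ℤ) (s : ℂ) :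
    corr (fP 1 rA (toR P)) (fP 1 rA (toR Q)) (fun j => ker (kA j) s) = cor P Q.tr s := rfl

private lemma psd_pA (l : Fin 4) : (toR (pA l)).psd := by
  fin_cases l <;>
    simp [toR, M2.map, M2.psd, pA] <;> norm_num

private lemma kl1_kA (j : Fin 2) : kl1 (kA j) = 1 := by
  fin_cases j
  · show kl1 (1 : Polynomial ℝ) = 1
    unfold kl1
    have h : (1 : Polynomial ℝ).support = {0} := by
      rw [← Polynomial.C_1]
      exact Polynomial.support_C one_ne_zero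
    rw [h]
    simp
  · show kl1 (-Polynomial.X : Polynomial ℝ) = 1
    unfold kl1
    rw [Polynomial.support_neg, Polynomial.support_X]
    simp

/-- the symmetry, in the form used below -/
private lemma sym0 (P : M2 ℤ) (hP : (toR P).psd) (s : ℂ) (hs : ‖s‖ < 1) :
    cor ⟨0, 0, 0, 0⟩ P.tr s = cor P ⟨0, 0, 0, 0⟩ s :=
  cor_symm ⟨0, 0, 0, 0⟩ P (by simp [toR, M2.map, M2.psd]) hP s hs

private lemma psd_add {P Q : M2 ℝ} (hP : P.psd) (hQ : Q.psd) : (P.add Q).psd := by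
  obtain ⟨a1, a2, a3⟩ := hP
  obtain ⟨b1, b2, b3⟩ := hQ
  refine ⟨add_nonneg a1 b1, add_nonneg a2 b2, ?_⟩
  show (P.b + Q.b + (P.c + Q.c)) ^ 2 ≤ 4 * (P.a + Q.a) * (P.d + Q.d)
  have h1 : ((P.b + P.c) * (Q.b + Q.c)) ^ 2 ≤ (4 * P.a * P.d) * (4 * Q.a * Q.d) := by
    rw [mul_pow]
    exact mul_le_mul a3 b3 (sq_nonneg _) (by positivity)
  have h2 : (P.b + P.c) * (Q.b + Q.c) ≤ 2 * (P.a * Q.d + Q.a * P.d) := by
    apply le_of_sq_le_sq _ (by positivity)
    nlinarith [sq_nonneg (P.a * Q.d - Q.a * P.d)]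
  nlinarith

theorem PhiA_adm : Adm PhiA 1 (82 / 10 ^ 8) := by
  have h := loss_bound 1 rA (by positivity) gA (fun l => toR (pA l)) psd_pA XA_re kA kl1_kA
    (5435 / 10 ^ 6) (1317 / 10 ^ 7) (393 / 10 ^ 9) (by norm_num) (by norm_num) (by norm_num)
    XA_mom2 XA_mom4 XA_mom8
  refine (h.congr ?_).mono le_rfl (by norm_num)
  intro s hs
  simp only [toR_add, toR_zero, corr_cor]
  have hz : (⟨0, 0, 0, 0⟩ : M2 ℤ).tr = ⟨0, 0, 0, 0⟩ := rfl
  have h1 : ∀ l : Fin 4, cor ⟨0, 0, 0, 0⟩ (pA l).tr s = cor (pA l) ⟨0, 0, 0, 0⟩ s :=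
    fun l => sym0 _ (psd_pA l) s hs
  have h2 : ∀ l m : Fin 4, cor ⟨0, 0, 0, 0⟩ ((pA l).add (pA m)).tr s
      = cor ((pA l).add (pA m)) ⟨0, 0, 0, 0⟩ s := fun l m =>
    sym0 _ (by rw [← toR_add]; exact psd_add (psd_pA l) (psd_pA m)) s hs
  have h3 : ∀ l m : Fin 4, cor (pA l) (pA m).tr s = cor (pA m) (pA l).tr s := fun l m =>
    cor_symm _ _ (psd_pA l) (psd_pA m) s hs
  simp only [hz, h1, h2, Fin.sum_univ_four]
  have s10 := h3 1 0
  have s20 := h3 2 0
  have s30 := h3 3 0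
  have s21 := h3 2 1
  have s31 := h3 3 1
  have s32 := h3 3 2
  have p0 : pA 0 = ⟨1669256, 898293, 182800, 321715⟩ := rfl
  have p1 : pA 1 = ⟨1669256, 182800, 898293, 321715⟩ := rfl
  have p2 : pA 2 = ⟨1156906, 849005, 311922, 291532⟩ := rfl
  have p3 : pA 3 = ⟨1156906, 311922, 849005, 291532⟩ := rfl
  have g0 : gA 0 = -190000 / (2 * 10 ^ 6) := rfl
  have g1 : gA 1 = 190000 / (2 * 10 ^ 6) := rfl
  have g2 : gA 2 = 190000 / (2 * 10 ^ 6) := rfl
  have g3 : gA 3 = -190000 / (2 * 10 ^ 6) := rfl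
  simp only [p0, p1, p2, p3] at s10 s20 s30 s21 s31 s32 ⊢
  simp only [M2.tr, M2.add] at s10 s20 s30 s21 s31 s32 ⊢
  norm_num only at s10 s20 s30 s21 s31 s32 ⊢
  unfold PhiA prA
  simp only [List.map_cons, List.map_nil, List.sum_cons, List.sum_nil]
  rw [g0, g1, g2, g3, s10, s20, s30, s21, s31, s32]
  push_cast
  ring

end GUB
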