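import Pool.Agent.Lib.MP_721eb4_an.UB.Defs

/-! Upper bound for the complex Grothendieck constant: module Uniq -/

set_option autoImplicit false

open MeasureTheory Complex Set GLB
open scoped ComplexConjugate

namespace GUB

private lemma Uniq_aux (d : ℕ → ℂ) (δ : ℝ) (hδ : 0 < δ)
    (hd : ∀ s : ℝ, 0 < s → s < δ → Summable (fun m => ‖d m‖ * s ^ m))
    (h : ∀ s : ℝ, 0 < s → s < δ → ∑' m, d m * (s : ℂ) ^ m = 0) (m : ℕ)
    (hm : ∀ j < m, d j = 0) : d m = 0 := by
  have hs0 : 0 < δ / 2 := by linarith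
  have hs0' : δ / 2 < δ := by linarith
  have hshift : ∀ s : ℝ, 0 < s → s < δ → Summable (fun k => ‖d (k + (m + 1))‖ * s ^ k) := by
    intro s hs hs'
    have h1 := (summable_nat_add_iff (m + 1)).2 (hd s hs hs')
    have h2 := h1.mul_left (s ^ (m + 1))⁻¹
    refine h2.congr fun k => ?_
    have h3 : s ^ (m + 1) ≠ 0 := pow_ne_zero _ hs.ne'
    rw [pow_add]
    field_simp
    ring
  set M : ℝ := ∑' k, ‖d (k + (m + 1))‖ * (δ / 2) ^ k with hM
  have key : ∀ s : ℝ, 0 < s → s ≤ δ / 2 → ‖d m‖ ≤ s * M := by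
    intro s hs hs'
    have hsδ : s < δ := by linarith
    have hsum : Summable (fun n => d n * (s : ℂ) ^ n) := by
      refine Summable.of_norm ((hd s hs hsδ).congr fun n => ?_)
      rw [norm_mul, norm_pow, Complex.norm_real, Real.norm_of_nonneg hs.le]
    have h1 := hsum.sum_add_tsum_nat_add (m + 1)
    rw [h s hs hsδ, Finset.sum_range_succ,
      Finset.sum_eq_zero (fun j hj => by rw [hm j (Finset.mem_range.1 hj), zero_mul]),
      zero_add] at h1
    have h2 : d m * (s : ℂ) ^ m = -∑' k, d (k + (m + 1)) * (s : ℂ) ^ (k + (m + 1)) :=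
      eq_neg_of_add_eq_zero_left h1
    have h3 : ‖d m‖ * s ^ m ≤ ∑' k, ‖d (k + (m + 1))‖ * s ^ (k + (m + 1)) := by
      calc ‖d m‖ * s ^ m = ‖d m * (s : ℂ) ^ m‖ := by
            rw [norm_mul, norm_pow, Complex.norm_real, Real.norm_of_nonneg hs.le]
        _ = ‖∑' k, d (k + (m + 1)) * (s : ℂ) ^ (k + (m + 1))‖ := by rw [h2, norm_neg]
        _ ≤ ∑' k, ‖d (k + (m + 1)) * (s : ℂ) ^ (k + (m + 1))‖ := by
            refine norm_tsum_le_tsum_norm ?_
            refine ((summable_nat_add_iff (m + 1)).2 (hd s hs hsδ)).congr fun k => ?_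
            rw [norm_mul, norm_pow, Complex.norm_real, Real.norm_of_nonneg hs.le]
        _ = ∑' k, ‖d (k + (m + 1))‖ * s ^ (k + (m + 1)) := by
            refine tsum_congr fun k => ?_
            rw [norm_mul, norm_pow, Complex.norm_real, Real.norm_of_nonneg hs.le]
    have h4 : ∑' k, ‖d (k + (m + 1))‖ * s ^ (k + (m + 1)) ≤ s ^ m * (s * M) := by
      have h5 : ∀ k, ‖d (k + (m + 1))‖ * s ^ (k + (m + 1)) =
          (s ^ m * s) * (‖d (k + (m + 1))‖ * s ^ k) := by
        intro k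
        rw [pow_add, pow_succ]
        ring
      rw [tsum_congr h5, tsum_mul_left, ← mul_assoc]
      refine mul_le_mul_of_nonneg_left ?_ (by positivity)
      refine (hshift s hs hsδ).tsum_le_tsum (fun k => ?_) (hshift (δ / 2) hs0 hs0')
      exact mul_le_mul_of_nonneg_left (pow_le_pow_left₀ hs.le hs' k) (norm_nonneg _)
    have h6 : s ^ m * ‖d m‖ ≤ s ^ m * (s * M) := by
      rw [mul_comm]
      exact h3.trans h4
    exact le_of_mul_le_mul_left h6 (pow_pos hs m)
  have hM0 : 0 ≤ M := tsum_nonneg fun k => by positivity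
  have h7 : ‖d m‖ ≤ 0 := by
    refine le_of_forall_pos_le_add fun ε hε => ?_
    rw [zero_add]
    have h8 : 0 < min (δ / 2) (ε / (M + 1)) := lt_min hs0 (by positivity)
    refine (key _ h8 (min_le_left _ _)).trans ?_
    calc min (δ / 2) (ε / (M + 1)) * M ≤ ε / (M + 1) * M :=
          mul_le_mul_of_nonneg_right (min_le_right _ _) hM0
      _ ≤ ε := by
          rw [div_mul_eq_mul_div, div_le_iff₀ (by positivity)]
          nlinarith
  exact norm_le_zero_iff.1 h7

/-- Uniqueness of power series coefficients. -/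
theorem pser_uniq (a b : ℕ → ℂ) (δ : ℝ) (hδ : 0 < δ)
    (ha : ∀ s : ℝ, 0 < s → s < δ → Summable (fun m => ‖a m‖ * s ^ m))
    (hb : ∀ s : ℝ, 0 < s → s < δ → Summable (fun m => ‖b m‖ * s ^ m))
    (h : ∀ s : ℝ, 0 < s → s < δ → ∑' m, a m * (s : ℂ) ^ m = ∑' m, b m * (s : ℂ) ^ m) :
    a = b := by
  have hsum : ∀ (c : ℕ → ℂ) (s : ℝ), 0 < s → Summable (fun m => ‖c m‖ * s ^ m) →
      Summable (fun m => c m * (s : ℂ) ^ m) := by
    intro c s hs hc
    refine Summable.of_norm (hc.congr fun n => ?_)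
    rw [norm_mul, norm_pow, Complex.norm_real, Real.norm_of_nonneg hs.le]
  have hd : ∀ s : ℝ, 0 < s → s < δ → Summable (fun m => ‖a m - b m‖ * s ^ m) := by
    intro s hs hs'
    refine Summable.of_nonneg_of_le (fun m => by positivity) (fun m => ?_)
      ((ha s hs hs').add (hb s hs hs'))
    rw [← add_mul]
    exact mul_le_mul_of_nonneg_right (norm_sub_le _ _) (by positivity)
  have h0 : ∀ s : ℝ, 0 < s → s < δ → ∑' m, (a m - b m) * (s : ℂ) ^ m = 0 := by
    intro s hs hs'
    have h1 : ∀ m, (a m - b m) * (s : ℂ) ^ m = a m * (s : ℂ) ^ m - b m * (s : ℂ) ^ m :=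
      fun m => by ring
    rw [tsum_congr h1, (hsum a s hs (ha s hs hs')).tsum_sub (hsum b s hs (hb s hs hs')),
      h s hs hs', sub_self]
  funext m
  have h2 : a m - b m = 0 := by
    induction m using Nat.strong_induction_on with
    | _ m ih => exact Uniq_aux (fun m => a m - b m) δ hδ hd h0 m ih
  exact sub_eq_zero.1 h2

end GUB
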