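import Pool.Agent.Lib.MP_721eb4_an.UB.Defs
import Pool.Agent.Lib.MP_721eb4_an.UB.Uniq

/-! Upper bound for the complex Grothendieck constant: module Comp -/

set_option autoImplicit false

open MeasureTheory Complex Set GLB
open scoped ComplexConjugate

namespace GUB

/-- the polynomial with the absolute values of the coefficients -/
noncomputable def kab (k : Polynomial ℝ) : Polynomial ℝ :=
  ∑ l ∈ k.support, Polynomial.monomial l |k.coeff l|

theorem kab_coeff (k : Polynomial ℝ) (l : ℕ) : (kab k).coeff l = |k.coeff l| := by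
  unfold kab
  rw [Polynomial.finsetSum_coeff]
  simp only [Polynomial.coeff_monomial]
  rw [Finset.sum_ite_eq']
  split_ifs with h
  · rfl
  · rw [Polynomial.notMem_support_iff.1 h, abs_zero]

theorem kab_pow (k : Polynomial ℝ) (n l : ℕ) : |(k ^ n).coeff l| ≤ ((kab k) ^ n).coeff l := by
  induction n generalizing l with
  | zero =>
    simp only [pow_zero, Polynomial.coeff_one]
    split_ifs <;> simp
  | succ n ih =>
    rw [pow_succ, pow_succ, Polynomial.coeff_mul, Polynomial.coeff_mul]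
    refine le_trans (Finset.abs_sum_le_sum_abs _ _) (Finset.sum_le_sum fun p _ => ?_)
    rw [abs_mul, kab_coeff]
    exact mul_le_mul_of_nonneg_right (ih _) (abs_nonneg _)

theorem kab_pow_nonneg (k : Polynomial ℝ) (n l : ℕ) : 0 ≤ ((kab k) ^ n).coeff l :=
  le_trans (abs_nonneg _) (kab_pow k n l)

theorem hasSum_eval (p : Polynomial ℝ) (x : ℝ) :
    HasSum (fun l => p.coeff l * x ^ l) (p.eval x) := by
  rw [Polynomial.eval_eq_sum, Polynomial.sum]
  refine hasSum_sum_of_ne_finset_zero (fun l hl => ?_)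
  rw [Polynomial.notMem_support_iff.1 hl, zero_mul]

theorem abs_eval_le (k : Polynomial ℝ) (x : ℝ) (hx : 0 ≤ x) : |k.eval x| ≤ (kab k).eval x := by
  have h1 := hasSum_eval k x
  have h2 := hasSum_eval (kab k) x
  rw [← Real.norm_eq_abs, ← h1.tsum_eq]
  refine tsum_of_norm_bounded h2 (fun l => ?_)
  rw [norm_mul, norm_pow, Real.norm_eq_abs, Real.norm_eq_abs, abs_of_nonneg hx, kab_coeff]

theorem kab_eval_mono (k : Polynomial ℝ) (x : ℝ) (hx : 0 ≤ x) (hx1 : x ≤ 1) :
    (kab k).eval x ≤ (kab k).eval 1 := by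
  have h1 := hasSum_eval (kab k) x
  have h2 := hasSum_eval (kab k) 1
  refine hasSum_le (fun l => ?_) h1 h2
  rw [one_pow]
  refine mul_le_mul_of_nonneg_left (pow_le_one₀ hx hx1) ?_
  rw [kab_coeff]
  exact abs_nonneg _

theorem kab_eval_nonneg (k : Polynomial ℝ) (x : ℝ) (hx : 0 ≤ x) :
    0 ≤ (kab k).eval x := by
  have h1 := hasSum_eval (kab k) x
  refine h1.nonneg (fun l => ?_)
  rw [kab_coeff]
  positivity

/-- the double series is absolutely summable -/
theorem comp_summable (b : ℕ → ℝ) (k : Polynomial ℝ) (s : ℝ) (hs : 0 < s)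
    (hs1 : s * (kab k).eval (s ^ 2) < 1)
    (hb : ∀ ρ : ℝ, |ρ| < 1 → Summable (fun N => |b N| * |ρ| ^ (2 * N + 1))) :
    Summable (fun p : ℕ × ℕ => ‖b p.1 * (k ^ (2 * p.1 + 1)).coeff p.2 *
      s ^ (2 * (p.1 + p.2) + 1)‖) := by
  have hk0 := kab_eval_nonneg k (s ^ 2) (by positivity)
  have hbound : ∀ N l : ℕ, ‖b N * (k ^ (2 * N + 1)).coeff l * s ^ (2 * (N + l) + 1)‖ ≤
      |b N| * s ^ (2 * N + 1) * (((kab k) ^ (2 * N + 1)).coeff l * (s ^ 2) ^ l) := by
    intro N l
    rw [norm_mul, norm_mul, Real.norm_eq_abs, Real.norm_eq_abs, Real.norm_eq_abs,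
      abs_of_pos (pow_pos hs _)]
    have h1 : s ^ (2 * (N + l) + 1) = s ^ (2 * N + 1) * (s ^ 2) ^ l := by
      rw [← pow_mul, ← pow_add]
      congr 1
      ring
    rw [h1]
    have h2 := kab_pow k (2 * N + 1) l
    calc |b N| * |(k ^ (2 * N + 1)).coeff l| * (s ^ (2 * N + 1) * (s ^ 2) ^ l)
        ≤ |b N| * ((kab k) ^ (2 * N + 1)).coeff l * (s ^ (2 * N + 1) * (s ^ 2) ^ l) := by
          gcongr
      _ = _ := by ring
  have hrow : ∀ N : ℕ, HasSum (fun l => |b N| * s ^ (2 * N + 1) *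
      (((kab k) ^ (2 * N + 1)).coeff l * (s ^ 2) ^ l))
      (|b N| * (s * (kab k).eval (s ^ 2)) ^ (2 * N + 1)) := by
    intro N
    have h1 := (hasSum_eval ((kab k) ^ (2 * N + 1)) (s ^ 2)).mul_left (|b N| * s ^ (2 * N + 1))
    rw [Polynomial.eval_pow] at h1
    rw [mul_pow, ← mul_assoc]
    exact h1
  rw [summable_prod_of_nonneg (fun p => norm_nonneg _)]
  constructor
  · intro N
    exact Summable.of_nonneg_of_le (fun l => norm_nonneg _) (hbound N) (hrow N).summable
  · have h2 := hb (s * (kab k).eval (s ^ 2)) (by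
      rw [abs_of_nonneg (by positivity)]
      exact hs1)
    rw [abs_of_nonneg (by positivity : 0 ≤ s * (kab k).eval (s ^ 2))] at h2
    refine Summable.of_nonneg_of_le (fun N => tsum_nonneg fun l => norm_nonneg _)
      (fun N => ?_) h2
    rw [← (hrow N).tsum_eq]
    exact (Summable.of_nonneg_of_le (fun l => norm_nonneg _) (hbound N)
      (hrow N).summable).tsum_le_tsum (hbound N) (hrow N).summable

theorem comp_hasSum (b : ℕ → ℝ) (k : Polynomial ℝ) (s : ℝ) (hs : 0 < s)
    (hs1 : s * (kab k).eval (s ^ 2) < 1)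
    (hb : ∀ ρ : ℝ, |ρ| < 1 → Summable (fun N => |b N| * |ρ| ^ (2 * N + 1))) :
    Summable (fun M => |compC b k M| * s ^ (2 * M + 1)) ∧
    ∑' M, compC b k M * s ^ (2 * M + 1) = ∑' N, b N * (kerR k s) ^ (2 * N + 1) := by
  have hf := comp_summable b k s hs hs1 hb
  set f : ℕ × ℕ → ℝ := fun p => b p.1 * (k ^ (2 * p.1 + 1)).coeff p.2 *
      s ^ (2 * (p.1 + p.2) + 1) with hfd
  have hanti : ∀ M : ℕ, ∑ p ∈ Finset.HasAntidiagonal.antidiagonal M, f p = compC b k M * s ^ (2 * M + 1) := by
    intro M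
    unfold compC
    rw [Finset.sum_mul, Finset.Nat.sum_antidiagonal_eq_sum_range_succ_mk]
    refine Finset.sum_congr rfl fun j hj => ?_
    rw [hfd]
    simp only
    have h1 : j + (M - j) = M := by
      have := Finset.mem_range.1 hj
      omega
    rw [h1]
  have hfn : Summable (fun p => ‖f p‖) := hf
  have hfs : Summable f := hfn.of_norm
  constructor
  · have h1 : Summable (fun x : Σ n : ℕ, Finset.HasAntidiagonal.antidiagonal n => ‖f (x.2 : ℕ × ℕ)‖) :=
      Finset.HasAntidiagonal.sigmaAntidiagonalEquivProd.summable_iff.mpr hfn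
    have h2 := h1.sigma
    refine Summable.of_nonneg_of_le (fun M => by positivity) (fun M => ?_) h2
    simp only
    rw [tsum_fintype, Finset.sum_coe_sort (Finset.HasAntidiagonal.antidiagonal M) (fun p => ‖f p‖)]
    have h3 : |compC b k M| * s ^ (2 * M + 1) = ‖∑ p ∈ Finset.HasAntidiagonal.antidiagonal M, f p‖ := by
      rw [hanti, norm_mul, Real.norm_eq_abs, Real.norm_eq_abs, abs_of_pos (pow_pos hs _)]
    rw [h3]
    exact norm_sum_le _ _
  · have h1 : Summable (fun x : Σ n : ℕ, Finset.HasAntidiagonal.antidiagonal n => f (x.2 : ℕ × ℕ)) :=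
      Finset.HasAntidiagonal.sigmaAntidiagonalEquivProd.summable_iff.mpr hfs
    have h2 : ∑' x : Σ n : ℕ, Finset.HasAntidiagonal.antidiagonal n, f (x.2 : ℕ × ℕ) = ∑' p, f p :=
      Finset.HasAntidiagonal.sigmaAntidiagonalEquivProd.tsum_eq f
    have h3 : ∑' M, compC b k M * s ^ (2 * M + 1) =
        ∑' x : Σ n : ℕ, Finset.HasAntidiagonal.antidiagonal n, f (x.2 : ℕ × ℕ) := by
      rw [h1.tsum_sigma]
      refine tsum_congr fun M => ?_
      rw [tsum_fintype, Finset.sum_coe_sort (Finset.HasAntidiagonal.antidiagonal M) (fun p => f p), hanti]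
    rw [h3, h2, hfs.tsum_prod]
    refine tsum_congr fun N => ?_
    have h4 := (hasSum_eval (k ^ (2 * N + 1)) (s ^ 2)).mul_left (b N * s ^ (2 * N + 1))
    rw [Polynomial.eval_pow] at h4
    have h5 : b N * (kerR k s) ^ (2 * N + 1) =
        b N * s ^ (2 * N + 1) * Polynomial.eval (s ^ 2) k ^ (2 * N + 1) := by
      unfold kerR
      rw [mul_pow, mul_assoc]
    rw [h5, ← h4.tsum_eq]
    refine tsum_congr fun l => ?_
    rw [hfd]
    simp only
    have h6 : s ^ (2 * (N + l) + 1) = s ^ (2 * N + 1) * (s ^ 2) ^ l := by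
      rw [← pow_mul, ← pow_add]
      congr 1
      ring
    rw [h6]
    ring

theorem comp_coeff (b : ℕ → ℝ) (k : Polynomial ℝ) (g : ℕ → ℂ) (C R : ℝ) (hR : 0 < R)
    (hg : ∀ m, ‖g m‖ ≤ C * R⁻¹ ^ m)
    (hb : ∀ ρ : ℝ, |ρ| < 1 → Summable (fun N => |b N| * |ρ| ^ (2 * N + 1)))
    (h : ∀ r : ℝ, |r| < R → |kerR k r| < 1 →
      ∑' m, g m * (r : ℂ) ^ m = ((∑' N, b N * (kerR k r) ^ (2 * N + 1) : ℝ) : ℂ)) (N : ℕ) :
    g (2 * N + 1) = (compC b k N : ℂ) ∧ g (2 * N) = 0 := by
  set κ := (kab k).eval 1 with hκ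
  have hκ0 : 0 ≤ κ := kab_eval_nonneg k 1 zero_le_one
  set δ : ℝ := min R (min 1 (1 / (κ + 1))) with hδ
  have hδ0 : 0 < δ := by
    rw [hδ]
    refine lt_min hR (lt_min one_pos (by positivity))
  have hsm : ∀ s : ℝ, 0 < s → s < δ → s * (kab k).eval (s ^ 2) < 1 ∧ s < R := by
    intro s hs hsd
    have h1 : s < R := lt_of_lt_of_le hsd (min_le_left _ _)
    have h2 : s < 1 := lt_of_lt_of_le hsd (le_trans (min_le_right _ _) (min_le_left _ _))
    have h3 : s < 1 / (κ + 1) :=
      lt_of_lt_of_le hsd (le_trans (min_le_right _ _) (min_le_right _ _))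
    refine ⟨?_, h1⟩
    have h4 : (kab k).eval (s ^ 2) ≤ κ :=
      kab_eval_mono k _ (by positivity) (by nlinarith)
    rw [lt_div_iff₀ (by positivity)] at h3
    have h5 : s * (kab k).eval (s ^ 2) ≤ s * κ := mul_le_mul_of_nonneg_left h4 hs.le
    nlinarith
  let a : ℕ → ℂ := fun m => if m % 2 = 1 then (compC b k (m / 2) : ℂ) else 0
  have ha0 : ∀ M, a (2 * M) = 0 := by
    intro M
    simp [a]
  have ha1 : ∀ M, a (2 * M + 1) = (compC b k M : ℂ) := by
    intro M
    have e1 : (2 * M + 1) % 2 = 1 := by omega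
    have e2 : (2 * M + 1) / 2 = M := by omega
    simp only [a, e1, e2, if_true]
  have hmain : g = a := by
    refine pser_uniq g a δ hδ0 ?_ ?_ ?_
    · intro s hs hsd
      obtain ⟨_, h2⟩ := hsm s hs hsd
      have h3 : Summable (fun m : ℕ => C * (R⁻¹ * s) ^ m) := by
        refine Summable.mul_left C (summable_geometric_of_lt_one (by positivity) ?_)
        rw [inv_mul_lt_iff₀ hR]
        linarith
      refine Summable.of_nonneg_of_le (fun m => by positivity) (fun m => ?_) h3
      calc ‖g m‖ * s ^ m ≤ (C * R⁻¹ ^ m) * s ^ m :=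
            mul_le_mul_of_nonneg_right (hg m) (by positivity)
        _ = C * (R⁻¹ * s) ^ m := by rw [mul_pow]; ring
    · intro s hs hsd
      obtain ⟨h1, _⟩ := hsm s hs hsd
      have h2 := (comp_hasSum b k s hs h1 hb).1
      have h3 : Summable (fun M => ‖a (2 * M)‖ * s ^ (2 * M)) := by
        simp only [ha0, norm_zero, zero_mul]
        exact summable_zero
      have h4 : Summable (fun M => ‖a (2 * M + 1)‖ * s ^ (2 * M + 1)) := by
        simp only [ha1, Complex.norm_real, Real.norm_eq_abs]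
        exact h2
      exact (HasSum.even_add_odd (f := fun m => ‖a m‖ * s ^ m) h3.hasSum h4.hasSum).summable
    · intro s hs hsd
      obtain ⟨h1, h2⟩ := hsm s hs hsd
      have h3 := comp_hasSum b k s hs h1 hb
      have hk : |kerR k s| < 1 := by
        unfold kerR
        rw [abs_mul, abs_of_pos hs]
        exact lt_of_le_of_lt (mul_le_mul_of_nonneg_left
          (abs_eval_le k (s ^ 2) (by positivity)) hs.le) h1
      rw [h s (by rw [abs_of_pos hs]; exact h2) hk, ← h3.2]
      have h4 : HasSum (fun M => a (2 * M) * (s : ℂ) ^ (2 * M)) 0 := by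
        simp only [ha0, zero_mul]
        exact hasSum_zero
      have h5 : HasSum (fun M => a (2 * M + 1) * (s : ℂ) ^ (2 * M + 1))
          ((∑' M, compC b k M * s ^ (2 * M + 1) : ℝ) : ℂ) := by
        have h6 : Summable (fun M => compC b k M * s ^ (2 * M + 1)) := by
          refine Summable.of_norm ?_
          refine h3.1.congr (fun M => ?_)
          rw [norm_mul, Real.norm_eq_abs, Real.norm_eq_abs, abs_of_pos (pow_pos hs _)]
        have h7 := Complex.hasSum_ofReal.2 h6.hasSum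
        have h8 : (fun M => a (2 * M + 1) * (s : ℂ) ^ (2 * M + 1)) =
            fun M => ((compC b k M * s ^ (2 * M + 1) : ℝ) : ℂ) := by
          funext M
          rw [ha1]
          push_cast
          rfl
        rw [h8]
        exact h7
      have h8 := HasSum.even_add_odd (f := fun m => a m * (s : ℂ) ^ m) h4 h5
      rw [zero_add] at h8
      exact h8.tsum_eq.symm
  exact ⟨by rw [hmain, ha1], by rw [hmain, ha0]⟩

end GUB
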