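import Pool.Agent.Lib.MP_721eb4_an.UB.Defs

/-! Upper bound for the complex Grothendieck constant: module NB -/

set_option autoImplicit false

open MeasureTheory Complex Set GLB
open scoped ComplexConjugate

namespace GUB

theorem nb_gauss {a : ℝ} (ha : 0 < a) :
    ∫ z : ℂ, Real.exp (-a * ‖z‖ ^ 2) = Real.pi / a := by
  have h := GaussianFourier.integral_rexp_neg_mul_sq_norm (V := ℂ) ha
  rw [h, Complex.finrank_real_complex]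
  norm_num

theorem nb_gauss_int {a : ℝ} (ha : 0 < a) :
    Integrable (fun z : ℂ => Real.exp (-a * ‖z‖ ^ 2)) := by
  by_contra h
  have h1 := integral_undef h
  rw [nb_gauss ha] at h1
  exact (div_pos Real.pi_pos ha).ne' h1

theorem nb_norm_sub (z w : ℂ) (t : ℝ) :
    ‖w - (t : ℂ) * z‖ ^ 2 = ‖w‖ ^ 2 - 2 * t * (z * conj w).re + t ^ 2 * ‖z‖ ^ 2 := by
  rw [← Complex.normSq_eq_norm_sq, ← Complex.normSq_eq_norm_sq, ← Complex.normSq_eq_norm_sq,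
    Complex.normSq_apply, Complex.normSq_apply, Complex.normSq_apply]
  simp only [sub_re, sub_im, mul_re, mul_im, ofReal_re, ofReal_im, conj_re, conj_im]
  ring

/-- the shear `(z, w) ↦ (z, w - t z)` -/
theorem nb_shear (t : ℝ) :
    MeasurePreserving (fun p : ℂ × ℂ => (p.1, p.2 - (t : ℂ) * p.1)) volume volume := by
  refine (MeasurePreserving.id volume).skew_product (g := fun z w => w - (t : ℂ) * z) ?_
    (Filter.Eventually.of_forall fun z => ?_)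
  · fun_prop
  · exact (measurePreserving_sub_right volume ((t : ℂ) * z)).map_eq

theorem nb_two {a b : ℝ} (h1 : 0 < a + b) (h2 : 0 < a - b) :
    Integrable (fun p : ℂ × ℂ =>
      Real.exp (-(a * (‖p.1‖ ^ 2 + ‖p.2‖ ^ 2) - 2 * b * (p.1 * conj p.2).re))) ∧
    ∫ p : ℂ × ℂ, Real.exp (-(a * (‖p.1‖ ^ 2 + ‖p.2‖ ^ 2) - 2 * b * (p.1 * conj p.2).re)) =
      Real.pi ^ 2 / (a ^ 2 - b ^ 2) := by
  have ha : 0 < a := by linarith
  have hab : 0 < a ^ 2 - b ^ 2 := by nlinarith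
  set c : ℝ := (a ^ 2 - b ^ 2) / a with hc
  have hc0 : 0 < c := div_pos hab ha
  set g : ℂ × ℂ → ℝ := fun p => Real.exp (-c * ‖p.1‖ ^ 2) * Real.exp (-a * ‖p.2‖ ^ 2) with hg
  have hgi : Integrable g := (nb_gauss_int hc0).mul_prod (nb_gauss_int ha)
  have hΨ := nb_shear (b / a)
  have hfg : (fun p : ℂ × ℂ =>
      Real.exp (-(a * (‖p.1‖ ^ 2 + ‖p.2‖ ^ 2) - 2 * b * (p.1 * conj p.2).re))) =
      g ∘ (fun p : ℂ × ℂ => (p.1, p.2 - ((b / a : ℝ) : ℂ) * p.1)) := by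
    funext p
    simp only [hg, Function.comp]
    rw [← Real.exp_add]
    congr 1
    rw [nb_norm_sub, hc]
    field_simp
    ring
  constructor
  · rw [hfg]
    exact (hΨ.integrable_comp hgi.aestronglyMeasurable).mpr hgi
  · rw [hfg]
    have h3 := integral_map hΨ.aemeasurable (f := g) (by rw [hΨ.map_eq]; exact hgi.aestronglyMeasurable)
    rw [hΨ.map_eq] at h3
    have h4 : ∫ p, (g ∘ (fun p : ℂ × ℂ => (p.1, p.2 - ((b / a : ℝ) : ℂ) * p.1))) p =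
        ∫ p, g p := h3.symm
    rw [h4]
    have h5 : ∫ p, g p = (∫ z : ℂ, Real.exp (-c * ‖z‖ ^ 2)) * ∫ z : ℂ, Real.exp (-a * ‖z‖ ^ 2) :=
      integral_prod_mul (fun z : ℂ => Real.exp (-c * ‖z‖ ^ 2)) (fun z : ℂ => Real.exp (-a * ‖z‖ ^ 2))
    rw [h5, nb_gauss hc0, nb_gauss ha, hc]
    field_simp

theorem nb_ne {ρ : ℂ} (hρ : |ρ.re| < 1) : (1 - ρ : ℂ) ≠ 0 ∧ (1 + ρ : ℂ) ≠ 0 := by
  rw [abs_lt] at hρ
  constructor
  · intro h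
    have := congrArg Complex.re h
    simp at this
    linarith
  · intro h
    have := congrArg Complex.re h
    simp at this
    linarith

theorem nb_ne' {ρ : ℂ} (hρ : |ρ.re| < 1) : (1 - ρ ^ 2 : ℂ) ≠ 0 := by
  have h := nb_ne hρ
  rw [show (1 - ρ ^ 2 : ℂ) = (1 - ρ) * (1 + ρ) by ring]
  exact mul_ne_zero h.1 h.2

theorem nb_add {ρ : ℂ} (hρ : |ρ.re| < 1) :
    ((1 - ρ ^ 2)⁻¹).re + (ρ * (1 - ρ ^ 2)⁻¹).re = (1 - ρ.re) / ‖1 - ρ‖ ^ 2 := by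
  have h := nb_ne hρ
  rw [← Complex.add_re, show (1 - ρ ^ 2)⁻¹ + ρ * (1 - ρ ^ 2)⁻¹ = (1 - ρ)⁻¹ by
    rw [show (1 - ρ ^ 2 : ℂ) = (1 - ρ) * (1 + ρ) by ring]
    field_simp [h.1, h.2], Complex.inv_re, Complex.normSq_eq_norm_sq]
  simp

theorem nb_sub {ρ : ℂ} (hρ : |ρ.re| < 1) :
    ((1 - ρ ^ 2)⁻¹).re - (ρ * (1 - ρ ^ 2)⁻¹).re = (1 + ρ.re) / ‖1 + ρ‖ ^ 2 := by
  have h := nb_ne hρ
  rw [← Complex.sub_re, show (1 - ρ ^ 2)⁻¹ - ρ * (1 - ρ ^ 2)⁻¹ = (1 + ρ)⁻¹ by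
    rw [show (1 - ρ ^ 2 : ℂ) = (1 - ρ) * (1 + ρ) by ring]
    field_simp [h.1, h.2], Complex.inv_re, Complex.normSq_eq_norm_sq]
  simp

theorem nb_norm_kd (ρ z w : ℂ) :
    ‖kd ρ z w‖ = (Real.pi ^ 2 * ‖1 - ρ ^ 2‖)⁻¹ *
      Real.exp (-(((1 - ρ ^ 2)⁻¹).re * (‖z‖ ^ 2 + ‖w‖ ^ 2) -
        2 * (ρ * (1 - ρ ^ 2)⁻¹).re * (z * conj w).re)) := by
  unfold kd
  rw [norm_mul, norm_inv, norm_mul, norm_pow, Complex.norm_real, Real.norm_eq_abs,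
    abs_of_pos Real.pi_pos, Complex.norm_exp]
  congr 2
  have e1 : z * conj z = ((‖z‖ ^ 2 : ℝ) : ℂ) := by
    rw [Complex.mul_conj, Complex.normSq_eq_norm_sq]
  have e2 : w * conj w = ((‖w‖ ^ 2 : ℝ) : ℂ) := by
    rw [Complex.mul_conj, Complex.normSq_eq_norm_sq]
  have e3 : z * conj w + conj z * w = ((2 * (z * conj w).re : ℝ) : ℂ) := by
    apply Complex.ext
    · simp only [add_re, mul_re, conj_re, conj_im, ofReal_re]
      ring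
    · simp only [add_im, mul_im, conj_re, conj_im, ofReal_im]
      ring
  rw [e1, e2, e3]
  have e4 : -((((‖z‖ ^ 2 : ℝ) : ℂ) + ((‖w‖ ^ 2 : ℝ) : ℂ) - ρ * ((2 * (z * conj w).re : ℝ) : ℂ)) /
      (1 - ρ ^ 2)) = -(((‖z‖ ^ 2 + ‖w‖ ^ 2 : ℝ) : ℂ) * (1 - ρ ^ 2)⁻¹ -
        ((2 * (z * conj w).re : ℝ) : ℂ) * (ρ * (1 - ρ ^ 2)⁻¹)) := by
    push_cast
    ring
  rw [e4, neg_re, sub_re, re_ofReal_mul, re_ofReal_mul]
  ring

theorem nb_pos {ρ : ℂ} (hρ : |ρ.re| < 1) :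
    0 < ((1 - ρ ^ 2)⁻¹).re + (ρ * (1 - ρ ^ 2)⁻¹).re ∧
    0 < ((1 - ρ ^ 2)⁻¹).re - (ρ * (1 - ρ ^ 2)⁻¹).re := by
  have h := nb_ne hρ
  have h' := abs_lt.mp hρ
  rw [nb_add hρ, nb_sub hρ]
  have h1 : 0 < ‖1 - ρ‖ := norm_pos_iff.mpr h.1
  have h2 : 0 < ‖1 + ρ‖ := norm_pos_iff.mpr h.2
  constructor
  · exact div_pos (by linarith) (by positivity)
  · exact div_pos (by linarith) (by positivity)

theorem nb_continuous_kd (ρ : ℂ) : Continuous (fun p : ℂ × ℂ => kd ρ p.1 p.2) := by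
  unfold kd
  fun_prop

theorem kd_integrable (ρ : ℂ) (hρ : |ρ.re| < 1) :
    Integrable (fun p : ℂ × ℂ => kd ρ p.1 p.2) := by
  rw [← integrable_norm_iff (nb_continuous_kd ρ).aestronglyMeasurable]
  simp_rw [nb_norm_kd]
  exact (nb_two (nb_pos hρ).1 (nb_pos hρ).2).1.const_mul _

theorem integral_norm_kd (ρ : ℂ) (hρ : |ρ.re| < 1) :
    ∫ p : ℂ × ℂ, ‖kd ρ p.1 p.2‖ = NN ρ := by
  simp_rw [nb_norm_kd]
  rw [integral_const_mul, (nb_two (nb_pos hρ).1 (nb_pos hρ).2).2]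
  have h := nb_ne hρ
  have h' := abs_lt.mp hρ
  have e : ((1 - ρ ^ 2)⁻¹).re ^ 2 - (ρ * (1 - ρ ^ 2)⁻¹).re ^ 2 =
      (1 - ρ.re ^ 2) / ‖1 - ρ ^ 2‖ ^ 2 := by
    rw [sq_sub_sq, nb_add hρ, nb_sub hρ, show (1 - ρ ^ 2 : ℂ) = (1 - ρ) * (1 + ρ) by ring,
      norm_mul, mul_pow]
    have h1 : ‖1 - ρ‖ ≠ 0 := norm_ne_zero_iff.mpr h.1
    have h2 : ‖1 + ρ‖ ≠ 0 := norm_ne_zero_iff.mpr h.2
    field_simp
    ring
  rw [e, NN]
  have h3 : ‖1 - ρ ^ 2‖ ≠ 0 := norm_ne_zero_iff.mpr (nb_ne' hρ)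
  have h4 : (1 - ρ.re ^ 2) ≠ 0 := by
    have : 0 < 1 - ρ.re ^ 2 := by nlinarith
    exact this.ne'
  have h5 := Real.pi_ne_zero
  field_simp

theorem prod_kd_integrable {n : ℕ} (ρ : Fin n → ℂ) (hρ : ∀ j, |(ρ j).re| < 1) :
    Integrable (fun p : (Fin n → ℂ) × (Fin n → ℂ) => ∏ j, kd (ρ j) (p.1 j) (p.2 j)) := by
  have hm := volume_measurePreserving_arrowProdEquivProdArrow ℂ ℂ (Fin n)
  have h1 : Integrable (fun x : Fin n → ℂ × ℂ => ∏ j, kd (ρ j) (x j).1 (x j).2) :=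
    Integrable.fintype_prod (f := fun j (q : ℂ × ℂ) => kd (ρ j) q.1 q.2)
      (fun j => kd_integrable (ρ j) (hρ j))
  rw [← hm.integrable_comp_emb (MeasurableEquiv.measurableEmbedding _)]
  exact h1

theorem integral_norm_prod_kd {n : ℕ} (ρ : Fin n → ℂ) (hρ : ∀ j, |(ρ j).re| < 1) :
    ∫ p : (Fin n → ℂ) × (Fin n → ℂ), ‖∏ j, kd (ρ j) (p.1 j) (p.2 j)‖ = ∏ j, NN (ρ j) := by
  have hm := volume_measurePreserving_arrowProdEquivProdArrow ℂ ℂ (Fin n)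
  rw [← hm.integral_comp' (fun p : (Fin n → ℂ) × (Fin n → ℂ) =>
    ‖∏ j, kd (ρ j) (p.1 j) (p.2 j)‖)]
  have h1 : ∫ x : Fin n → ℂ × ℂ, ∏ j, ‖kd (ρ j) (x j).1 (x j).2‖ = ∏ j, NN (ρ j) := by
    have h2 := integral_fintype_prod_volume_eq_prod (ι := Fin n) (E := fun _ => ℂ × ℂ)
      (fun j (q : ℂ × ℂ) => ‖kd (ρ j) q.1 q.2‖)
    rw [h2]
    exact Finset.prod_congr rfl fun j _ => integral_norm_kd (ρ j) (hρ j)
  rw [← h1]
  refine integral_congr_ae (Filter.Eventually.of_forall fun x => ?_)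
  simp only
  rw [norm_prod]
  rfl

end GUB
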