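import Pool.Agent.Lib.MP_721eb4_an.UB.Defs
import Pool.Agent.Lib.MP_721eb4_an.UB.Dens
import Pool.Agent.Lib.MP_721eb4_an.UB.NB
import Pool.Agent.Lib.MP_721eb4_an.UB.PSer

/-! Upper bound for the complex Grothendieck constant: module Univ -/

set_option autoImplicit false

open MeasureTheory Complex Set GLB
open scoped ComplexConjugate

namespace GUB

theorem Univ_ne {ρ : ℂ} (h : |ρ.re| < 1) : 1 - ρ ^ 2 ≠ 0 := by
  intro h0
  have h1 : (1 - ρ) * (1 + ρ) = 0 := by rw [← h0]; ring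
  rw [abs_lt] at h
  rcases mul_eq_zero.1 h1 with h2 | h2
  · have : ρ = 1 := (sub_eq_zero.1 h2).symm
    rw [this] at h
    simp at h
  · have : ρ = -1 := by
      have h3 := eq_neg_of_add_eq_zero_left h2
      rw [← neg_eq_iff_eq_neg, h3.symm]
    rw [this] at h
    simp at h

theorem Univ_kd_diff {ρ : ℂ} (h : |ρ.re| < 1) (z w : ℂ) :
    DifferentiableAt ℂ (fun ρ : ℂ => kd ρ z w) ρ := by
  have h0 := Univ_ne h
  have hpi : (Real.pi : ℂ) ≠ 0 := by exact_mod_cast Real.pi_ne_zero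
  have h1 : (Real.pi : ℂ) ^ 2 * (1 - ρ ^ 2) ≠ 0 := mul_ne_zero (pow_ne_zero _ hpi) h0
  unfold kd
  fun_prop (disch := assumption)

theorem Univ_kerC_diff (k : Polynomial ℝ) (s : ℂ) : DifferentiableAt ℂ (kerC k) s := by
  unfold kerC
  refine differentiableAt_id.mul ?_
  have h1 : (fun s : ℂ => Polynomial.aeval (s ^ 2) k) =
      fun s : ℂ => (k.map (algebraMap ℝ ℂ)).eval (s ^ 2) := by
    funext s
    rw [Polynomial.aeval_def, Polynomial.eval_map]
  show DifferentiableAt ℂ (fun s : ℂ => Polynomial.aeval (s ^ 2) k) s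
  rw [h1]
  have h2 : DifferentiableAt ℂ (fun s : ℂ => s ^ 2) s := by fun_prop
  exact ((k.map (algebraMap ℝ ℂ)).differentiableAt (x := s ^ 2)).comp s h2

theorem Univ_kerC_ofReal (k : Polynomial ℝ) (r : ℝ) : kerC k (r : ℂ) = ((kerR k r : ℝ) : ℂ) := by
  unfold kerC kerR
  rw [Complex.ofReal_mul]
  congr 1
  have h := Polynomial.aeval_algebraMap_apply_eq_algebraMap_eval (A := ℂ) (r ^ 2) k
  rw [Complex.coe_algebraMap] at h
  rw [← h, Complex.ofReal_pow]

theorem Univ_kd_comp {X : Type} [MeasurableSpace X] {a b c : X → ℂ} (ha : Measurable a)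
    (hb : Measurable b) (hc : Measurable c) : Measurable (fun x => kd (a x) (b x) (c x)) := by
  unfold kd
  have hcc : Measurable (fun z : ℂ => conj z) := Complex.continuous_conj.measurable
  fun_prop

theorem univ_tail {n : ℕ} (F H : (Fin n → ℂ) → ℂ) (hF : Measurable F) (hH : Measurable H)
    (hF1 : ∀ z, ‖F z‖ ≤ 1) (hH1 : ∀ z, ‖H z‖ ≤ 1) (k : Fin n → Polynomial ℝ) (R C : ℝ)
    (hR : 0 < R) (hre : ∀ j, ∀ s : ℂ, ‖s‖ ≤ R → |(kerC (k j) s).re| < 1)
    (hN : ∀ s : ℂ, ‖s‖ = R → ∏ j, NN (kerC (k j) s) ≤ C) :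
    ∃ g : ℕ → ℂ, (∀ m, ‖g m‖ ≤ C * R⁻¹ ^ m) ∧
      ∀ r : ℝ, |r| < R → HasSum (fun m => g m * (r : ℂ) ^ m)
        (corr F H (fun j => ((kerR (k j) r : ℝ) : ℂ))) := by
  let f : (Fin n → ℂ) × (Fin n → ℂ) → ℂ → ℂ := fun p s =>
    F p.1 * conj (H p.2) * ∏ j, kd (kerC (k j) s) (p.1 j) (p.2 j)
  have hdiff : ∀ p s, ‖s‖ ≤ R → DifferentiableAt ℂ (f p) s := by
    intro p s hs
    refine DifferentiableAt.mul (differentiableAt_const _) ?_
    refine DifferentiableAt.fun_finsetProd fun j _ => ?_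
    exact (Univ_kd_diff (hre j s hs) (p.1 j) (p.2 j)).comp s (Univ_kerC_diff (k j) s)
  have hkerCm : ∀ j, Measurable (kerC (k j)) := fun j =>
    Continuous.measurable (continuous_iff_continuousAt.2 fun s =>
      (Univ_kerC_diff (k j) s).continuousAt)
  have hjoint : Measurable (fun q : ((Fin n → ℂ) × (Fin n → ℂ)) × ℂ => f q.1 q.2) := by
    refine Measurable.mul (Measurable.mul ?_ ?_) ?_
    · exact hF.comp (measurable_fst.comp measurable_fst)
    · exact Complex.continuous_conj.measurable.comp (hH.comp (measurable_snd.comp measurable_fst))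
    · have h4 : ∀ j, Measurable (fun q : ((Fin n → ℂ) × (Fin n → ℂ)) × ℂ =>
          kd (kerC (k j) q.2) (q.1.1 j) (q.1.2 j)) := by
        intro j
        have h2 : Measurable (fun q : ((Fin n → ℂ) × (Fin n → ℂ)) × ℂ => q.1.1 j) := by
          fun_prop
        have h3 : Measurable (fun q : ((Fin n → ℂ) × (Fin n → ℂ)) × ℂ => q.1.2 j) := by
          fun_prop
        have h5 : Measurable (fun q : ((Fin n → ℂ) × (Fin n → ℂ)) × ℂ => kerC (k j) q.2) :=
          (hkerCm j).comp measurable_snd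
        exact Univ_kd_comp h5 h2 h3
      exact Finset.measurable_fun_prod _ fun j _ => h4 j
  have hbound : ∀ p s, ‖f p s‖ ≤ ‖∏ j, kd (kerC (k j) s) (p.1 j) (p.2 j)‖ := by
    intro p s
    show ‖F p.1 * conj (H p.2) * ∏ j, kd (kerC (k j) s) (p.1 j) (p.2 j)‖ ≤ _
    rw [norm_mul, norm_mul, RCLike.norm_conj]
    have h1 : ‖F p.1‖ * ‖H p.2‖ ≤ 1 := mul_le_one₀ (hF1 _) (norm_nonneg _) (hH1 _)
    exact mul_le_of_le_one_left (norm_nonneg _) h1
  have hfm : ∀ s, Measurable (fun p => f p s) := fun s =>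
    hjoint.comp (measurable_id.prodMk measurable_const)
  obtain ⟨g, hg1, hg2⟩ := param_series (volume : Measure ((Fin n → ℂ) × (Fin n → ℂ))) f R C hR
    (fun p s hs => (hdiff p s (by
      rw [Metric.mem_ball, dist_zero_right] at hs; exact hs.le)).differentiableWithinAt)
    (fun p s hs => (hdiff p s (by
      rw [Metric.mem_closedBall, dist_zero_right] at hs; exact hs)).continuousAt.continuousWithinAt)
    (fun s _ => (hfm s).aestronglyMeasurable)
    (hjoint.comp (measurable_fst.prodMk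
      ((continuous_circleMap 0 R).measurable.comp measurable_snd))).aestronglyMeasurable
    (by
      intro s hs
      have hI := prod_kd_integrable (fun j => kerC (k j) s) (fun j => hre j s hs.le)
      have hint : Integrable (fun p => f p s) := by
        refine Integrable.mono hI (hfm s).aestronglyMeasurable ?_
        exact Filter.Eventually.of_forall fun p => hbound p s
      refine ⟨hint, ?_⟩
      calc ∫ p, ‖f p s‖ ≤ ∫ p : (Fin n → ℂ) × (Fin n → ℂ),
            ‖∏ j, kd (kerC (k j) s) (p.1 j) (p.2 j)‖ :=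
            integral_mono hint.norm hI.norm fun p => hbound p s
        _ = ∏ j, NN (kerC (k j) s) :=
            integral_norm_prod_kd (fun j => kerC (k j) s) (fun j => hre j s hs.le)
        _ ≤ C := hN s hs)
  refine ⟨g, hg1, fun r hr => ?_⟩
  have hrn : ‖(r : ℂ)‖ < R := by rw [Complex.norm_real, Real.norm_eq_abs]; exact hr
  have hker : ∀ j, |kerR (k j) r| < 1 := by
    intro j
    have h1 := hre j (r : ℂ) hrn.le
    rw [Univ_kerC_ofReal, Complex.ofReal_re] at h1
    exact h1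
  rw [corr_dens F H hF hH 1 hF1 hH1 (fun j => kerR (k j) r) hker]
  have h2 := hg2 (r : ℂ) hrn
  have h3 : ∫ p, f p (r : ℂ) = ∫ p : (Fin n → ℂ) × (Fin n → ℂ), F p.1 * conj (H p.2) *
      ∏ j, kd ((kerR (k j) r : ℝ) : ℂ) (p.1 j) (p.2 j) := by
    refine integral_congr_ae (Filter.Eventually.of_forall fun p => ?_)
    show F p.1 * conj (H p.2) * ∏ j, kd (kerC (k j) (r : ℂ)) (p.1 j) (p.2 j) = _
    simp only [Univ_kerC_ofReal]
  rw [h3] at h2
  exact h2

end GUB
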