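import Pool.Agent.Lib.MP_721eb4_an.UB.Data
import Pool.Agent.Lib.MP_721eb4_an.UB.Univ
import Pool.Agent.Lib.MP_721eb4_an.UB.Comp
import Pool.Agent.Lib.MP_721eb4_an.UB.Rot

/-! Upper bound for the complex Grothendieck constant: common part of the modules AsmT and AsmN -/

set_option autoImplicit false

open MeasureTheory Complex Set GLB
open scoped ComplexConjugate

namespace GUB

theorem AsmG_compC_smul (a : ℝ) (b : ℕ → ℝ) (k : Polynomial ℝ) (N : ℕ) :
    compC (fun m => a * b m) k N = a * compC b k N := by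
  unfold compC
  rw [Finset.mul_sum]
  exact Finset.sum_congr rfl fun j _ => mul_assoc _ _ _

theorem AsmG_NN_nonneg {ρ : ℂ} (h : |ρ.re| < 1) : 0 ≤ NN ρ := by
  unfold NN
  have h1 : ρ.re ^ 2 < 1 := by
    rw [← sq_abs]
    have := abs_nonneg ρ.re
    nlinarith
  exact div_nonneg (norm_nonneg _) (by linarith)

theorem AsmG_kl1 (k : Polynomial ℝ) (n : ℕ) (hk : ∀ m, n ≤ m → k.coeff m = 0) :
    kl1 k = ∑ m ∈ Finset.range n, |k.coeff m| := by
  unfold kl1
  refine Finset.sum_subset ?_ ?_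
  · intro m hm
    rw [Finset.mem_range]
    by_contra hc
    exact (Polynomial.mem_support_iff.1 hm) (hk m (not_lt.1 hc))
  · intro m _ hm
    rw [Polynomial.notMem_support_iff.1 hm, abs_zero]

theorem AsmG_congr {X : Type} [AddCommMonoid X] [TopologicalSpace X] {f g : ℕ → X} {a : X}
    (h : ∀ n, f n = g n) (hf : HasSum f a) : HasSum g a := by
  have h1 : f = g := funext h
  rwa [h1] at hf

theorem AsmG_main {n : ℕ} (F H : (Fin n → ℂ) → ℂ) (hF : Measurable F) (hH : Measurable H)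
    (hF1 : ∀ z, ‖F z‖ ≤ 1) (hH1 : ∀ z, ‖H z‖ ≤ 1)
    (eH : ∀ (w : ℂ) (z : Fin n → ℂ), ‖w‖ = 1 → H (fun j => w * z j) = w * H z)
    (k : Polynomial ℝ) (R C : ℝ) (hR : 1 < R)
    (hre : ∀ s : ℂ, ‖s‖ ≤ R → |(kerC k s).re| < 1)
    (hN : ∀ s : ℂ, ‖s‖ = R → (NN (kerC k s)) ^ n ≤ C)
    (b : ℕ → ℝ) (hb : ∀ ρ : ℝ, |ρ| < 1 → Summable (fun N => |b N| * |ρ| ^ (2 * N + 1)))
    (hs : ∀ ρ : ℝ, |ρ| < 1 → HasSum (fun N => (((Real.pi / 4) * (b N * ρ ^ (2 * N + 1)) : ℝ) : ℂ))
      (corr F H (fun _ => (ρ : ℂ)))) :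
    (∀ N, |(Real.pi / 4) * compC b k N| ≤ C * R⁻¹ ^ (2 * N + 1)) ∧
    ∀ s : ℂ, ‖s‖ < 1 → HasSum (fun N => (((Real.pi / 4) * compC b k N : ℝ) : ℂ)
      * (s * (((‖s‖ ^ 2) ^ N : ℝ) : ℂ))) (corr F H (fun _ => ker k s)) := by
  have hR0 : 0 < R := by linarith
  obtain ⟨g, hg1, hg2⟩ := univ_tail F H hF hH hF1 hH1 (fun _ => k) R C hR0
    (fun _ s hs => hre s hs) (fun s hs => by
      rw [Finset.prod_const, Finset.card_univ, Fintype.card_fin]
      exact hN s hs)
  have hcoef : ∀ N, g (2 * N + 1) = (((Real.pi / 4) * compC b k N : ℝ) : ℂ) ∧ g (2 * N) = 0 := by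
    intro N
    have h1 := comp_coeff (fun m => (Real.pi / 4) * b m) k g C R hR0 hg1 (by
      intro ρ hρ
      have h2 := (hb ρ hρ).mul_left |Real.pi / 4|
      refine h2.congr fun m => ?_
      rw [abs_mul, mul_assoc]) (by
      intro r hr hk
      have h2 := (hg2 r hr).tsum_eq
      have h3 := hs (kerR k r) hk
      rw [h2]
      have h4 : HasSum (fun N => (Real.pi / 4) * b N * kerR k r ^ (2 * N + 1))
          (∑' N, (Real.pi / 4) * b N * kerR k r ^ (2 * N + 1)) := by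
        refine Summable.hasSum ?_
        have h5 := h3.summable
        rw [Complex.summable_ofReal] at h5
        refine h5.congr fun m => ?_
        ring
      have h6 := (Complex.hasSum_ofReal.2 h4)
      refine h3.unique ?_
      refine AsmG_congr ?_ h6
      intro m
      push_cast
      ring) N
    rw [AsmG_compC_smul] at h1
    exact h1
  refine ⟨fun N => ?_, fun s hs1 => ?_⟩
  · have h1 := hg1 (2 * N + 1)
    rw [(hcoef N).1, Complex.norm_real, Real.norm_eq_abs] at h1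
    exact h1
  · obtain ⟨w, hw, hws⟩ : ∃ w : ℂ, ‖w‖ = 1 ∧ s = w * ((‖s‖ : ℝ) : ℂ) := by
      by_cases h0 : s = 0
      · refine ⟨1, norm_one, ?_⟩
        rw [h0, norm_zero, Complex.ofReal_zero, mul_zero]
      · have h1 : ‖s‖ ≠ 0 := norm_ne_zero_iff.2 h0
        refine ⟨s / ((‖s‖ : ℝ) : ℂ), ?_, ?_⟩
        · rw [norm_div, Complex.norm_real, norm_norm, div_self h1]
        · rw [div_mul_cancel₀]
          exact_mod_cast h1
    have hr1 : |‖s‖| < R := by rw [abs_norm]; linarith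
    have h1 := hg2 ‖s‖ hr1
    have hinj : Function.Injective (fun N : ℕ => 2 * N + 1) := fun a b h => by
      simp only at h
      omega
    have h2 : HasSum ((fun m => g m * ((‖s‖ : ℝ) : ℂ) ^ m) ∘ (fun N : ℕ => 2 * N + 1))
        (corr F H (fun _ => ((kerR k ‖s‖ : ℝ) : ℂ))) := by
      refine (hinj.hasSum_iff ?_).2 h1
      intro m hm
      have h3 : ∃ N, m = 2 * N := by
        rcases Nat.even_or_odd' m with ⟨c, hc | hc⟩
        · exact ⟨c, hc⟩
        · exact absurd ⟨c, hc.symm⟩ hm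
      obtain ⟨N, rfl⟩ := h3
      rw [(hcoef N).2, zero_mul]
    have h3 := h2.mul_left w
    have h4 : (fun _ : Fin n => ker k s) = fun _ => w * ((kerR k ‖s‖ : ℝ) : ℂ) := by
      funext _
      unfold ker kerR
      conv_lhs => rw [hws]
      rw [norm_mul, hw, one_mul, Complex.norm_real, norm_norm]
      push_cast
      ring
    rw [h4, corr_rot F H hF hH eH (fun _ => ((kerR k ‖s‖ : ℝ) : ℂ)) w hw]
    refine AsmG_congr ?_ h3
    intro N
    show w * (g (2 * N + 1) * ((‖s‖ : ℝ) : ℂ) ^ (2 * N + 1)) = _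
    rw [(hcoef N).1]
    conv_rhs => rw [hws]
    rw [norm_mul, hw, one_mul, Complex.norm_real, norm_norm]
    push_cast
    ring

end GUB
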