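import Pool.Agent.Lib.MP_721eb4_an.UB.Defs
import Pool.Agent.Lib.MP_721eb4_an.UB.PF
import Pool.Agent.Lib.MP_721eb4_an.UB.JI

/-! Upper bound for the complex Grothendieck constant: module Psi -/

set_option autoImplicit false

open MeasureTheory Complex Set GLB
open scoped ComplexConjugate

namespace GUB

private theorem Psi_fP (v1 v2 : ℝ) :
    fP v1 v2 M2.zero = fun z : Fin 2 → ℂ => sg (v1 * z 0 + v2 * z 1) := by
  funext z
  simp [fP, M2.form, M2.zero]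

private theorem Psi_tr : (M2.zero : M2 ℝ).tr = M2.zero := rfl

/-- two-dimensional Haagerup formula -/
theorem corr_sg2 (v1 v2 w1 w2 : ℝ) (hv : v1 ^ 2 + v2 ^ 2 = 1) (hw : w1 ^ 2 + w2 ^ 2 = 1)
    (r : ℝ) (hr : |r| < 1) :
    HasSum (fun m => (((Real.pi / 4) * (hc m * (r * (v1 * w1 + v2 * w2)) ^ (2 * m + 1)) : ℝ) : ℂ))
      (corr (fun z : Fin 2 → ℂ => sg (v1 * z 0 + v2 * z 1))
        (fun z : Fin 2 → ℂ => sg (w1 * z 0 + w2 * z 1)) (fun _ => (r : ℂ))) := by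
  have hpsd : (M2.zero : M2 ℝ).psd := by
    refine ⟨le_refl _, le_refl _, ?_⟩
    simp [M2.zero]
  have h1 := pair_formula v1 v2 w1 w2 (by rw [hv]; exact one_pos) (by rw [hw]; exact one_pos)
    M2.zero M2.zero hpsd hpsd r r hr hr
  rw [Psi_tr, Psi_fP, Psi_fP] at h1
  have e1 : (![(r : ℂ), (r : ℂ)] : Fin 2 → ℂ) = fun _ => (r : ℂ) := by
    funext i
    fin_cases i <;> rfl
  rw [e1] at h1
  rw [h1]
  have eD : D2 (M2.zero : M2 ℝ) M2.zero r r = 1 := by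
    simp [D2, M2.zero, M2.det]
  have eA : ∀ a b : ℝ, a ^ 2 + b ^ 2 = 1 → A2 a b (M2.zero : M2 ℝ) M2.zero r r = 1 := by
    intro a b h
    simp only [A2, M2.zero, M2.det, al]
    linear_combination h
  have eE : E2 v1 v2 w1 w2 (M2.zero : M2 ℝ) M2.zero r r = 1 - (r * (v1 * w1 + v2 * w2)) ^ 2 := by
    simp only [E2, M2.zero, al]
    linear_combination (w1 ^ 2 + w2 ^ 2) * hv + hw
  have ec : c2 v1 v2 w1 w2 (M2.zero : M2 ℝ) M2.zero r r = r * (v1 * w1 + v2 * w2) := by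
    simp only [c2, M2.zero]
    ring
  rw [eD, eA v1 v2 hv, eA w1 w2 hw, eE, ec]
  set c : ℝ := v1 * w1 + v2 * w2 with hcdef
  have hcs : c ^ 2 ≤ 1 := by
    have : (v1 ^ 2 + v2 ^ 2) * (w1 ^ 2 + w2 ^ 2) = c ^ 2 + (v1 * w2 - v2 * w1) ^ 2 := by
      rw [hcdef]; ring
    rw [hv, hw] at this
    nlinarith [sq_nonneg (v1 * w2 - v2 * w1)]
  have hr2 : r ^ 2 < 1 := by
    have := abs_nonneg r
    rw [← sq_abs]
    nlinarith
  have hx : |(r * c) ^ 2| < 1 := by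
    rw [abs_of_nonneg (sq_nonneg _), mul_pow]
    nlinarith [sq_nonneg r, sq_nonneg c]
  have h2 := Jint_series 1 1 1 (1 - (r * c) ^ 2) (r * c) ((r * c) ^ 2) one_pos one_pos one_pos hx
    (by ring)
  have h3 : HasSum (fun m => (Real.pi / 4) * (hc m * (r * c) ^ (2 * m + 1)))
      (Jint 1 1 1 (1 - (r * c) ^ 2) (r * c)) := by
    have e : (fun k => (Real.pi / 4) * ((r * c) / (1 * √(1 * 1))) * (hc k * ((r * c) ^ 2) ^ k)) =
        fun m => (Real.pi / 4) * (hc m * (r * c) ^ (2 * m + 1)) := by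
      funext m
      rw [mul_one, Real.sqrt_one, ← pow_mul, pow_succ (r * c) (2 * m), mul_one, div_one]
      ring
    rw [← e]
    exact h2
  exact Complex.hasSum_ofReal.2 h3

end GUB
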