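import Pool.Agent.Lib.MP_721eb4_an.UB.Data
import Pool.Agent.Lib.MP_721eb4_an.UB.Psi
import Pool.Agent.Lib.MP_721eb4_an.UB.Univ
import Pool.Agent.Lib.MP_721eb4_an.UB.Comp
import Pool.Agent.Lib.MP_721eb4_an.UB.TailN
import Pool.Agent.Lib.MP_721eb4_an.UB.Rot
import Pool.Agent.Lib.MP_721eb4_an.UB.AdmA
import Pool.Agent.Lib.MP_721eb4_an.UB.AsmG

/-! Upper bound for the complex Grothendieck constant: module AsmN -/

set_option autoImplicit false

open MeasureTheory Complex Set GLB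
open scoped ComplexConjugate

namespace GUB

noncomputable def corN (s : ℂ) : ℂ :=
  corr (fun z : Fin 2 → ℂ => sg (z 0)) (fun z : Fin 2 → ℂ => sg (z 0)) (fun _ => ker kN s)

theorem AsmN_kl1 : kl1 kN = 1 := by
  have h0 : kN.coeff 0 = 496929 / 1000000 := by
    simp [kN]
  have h1 : kN.coeff 1 = -(200460 / 1000000) := by
    simp [kN, Polynomial.coeff_C, Polynomial.coeff_X_pow]
  have h2 : kN.coeff 2 = 149372 / 1000000 := by
    simp [kN, Polynomial.coeff_C, Polynomial.coeff_X_pow, Polynomial.coeff_X]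
  have h3 : kN.coeff 3 = -(153239 / 1000000) := by
    simp [kN, Polynomial.coeff_C, Polynomial.coeff_X_pow, Polynomial.coeff_X]
  have h4 : ∀ m, 4 ≤ m → kN.coeff m = 0 := by
    intro m hm
    have e0 : m ≠ 0 := by omega
    have e1 : 1 ≠ m := by omega
    have e2 : m ≠ 2 := by omega
    have e3 : m ≠ 3 := by omega
    simp [kN, Polynomial.coeff_C, Polynomial.coeff_X, Polynomial.coeff_X_pow, e0, e1, e2, e3]
  rw [AsmG_kl1 kN 4 h4, Finset.sum_range_succ, Finset.sum_range_succ, Finset.sum_range_succ,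
    Finset.sum_range_one, h0, h1, h2, h3]
  norm_num

theorem AsmN_meas : Measurable (fun z : Fin 2 → ℂ => sg (z 0)) :=
  sg_measurable.comp (measurable_pi_apply 0)

theorem corN_adm : Adm corN 1 0 :=
  Adm_corr _ _ AsmN_meas AsmN_meas
    (fun _ => sg_norm_le _) (fun _ => sg_norm_le _) (fun _ => kN) (fun _ => AsmN_kl1)

theorem AsmN_series (ρ : ℝ) (hρ : |ρ| < 1) :
    HasSum (fun N => (((Real.pi / 4) * (hc N * ρ ^ (2 * N + 1)) : ℝ) : ℂ))
      (corr (fun z : Fin 2 → ℂ => sg (z 0)) (fun z : Fin 2 → ℂ => sg (z 0))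
        (fun _ => (ρ : ℂ))) := by
  have h1 := corr_sg2 1 0 1 0 (by norm_num) (by norm_num) ρ hρ
  have h2 : (fun z : Fin 2 → ℂ => sg (((1 : ℝ) : ℂ) * z 0 + ((0 : ℝ) : ℂ) * z 1)) =
      fun z : Fin 2 → ℂ => sg (z 0) := by
    funext z
    congr 1
    push_cast
    ring
  rw [h2] at h1
  refine AsmG_congr (fun m => ?_) h1
  congr 2
  ring

theorem AsmN_hc_nonneg (k : ℕ) : 0 ≤ hc k := by
  unfold hc
  positivity

theorem AsmN_summable (ρ : ℝ) (hρ : |ρ| < 1) :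
    Summable (fun N => |hc N| * |ρ| ^ (2 * N + 1)) := by
  have h1 := (AsmN_series |ρ| (by rw [abs_abs]; exact hρ)).summable
  rw [Complex.summable_ofReal] at h1
  have h2 := h1.mul_left (4 / Real.pi)
  refine h2.congr fun m => ?_
  rw [abs_of_nonneg (AsmN_hc_nonneg m)]
  have := Real.pi_pos
  field_simp

theorem AsmN_both :
    (∀ N, |(Real.pi / 4) * compC hc kN N| ≤ 28 * (11 / 10 : ℝ)⁻¹ ^ (2 * N + 1)) ∧
    ∀ s : ℂ, ‖s‖ < 1 → HasSum (fun N => (((Real.pi / 4) * compC hc kN N : ℝ) : ℂ)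
      * (s * (((‖s‖ ^ 2) ^ N : ℝ) : ℂ))) (corN s) := by
  refine AsmG_main _ _ AsmN_meas AsmN_meas
    (fun _ => sg_norm_le _) (fun _ => sg_norm_le _) (fun w z hw => sg_mul w (z 0) hw) kN
    (11 / 10) 28 (by norm_num) (fun s hs => kN_re s hs) ?_ hc
    AsmN_summable AsmN_series
  intro s hs
  have h1 : NN (kerC kN s) ≤ 52 / 10 := kN_NN s hs
  have h0 : 0 ≤ NN (kerC kN s) := AsmG_NN_nonneg (kN_re s hs.le)
  calc NN (kerC kN s) ^ 2 ≤ (52 / 10 : ℝ) ^ 2 := pow_le_pow_left₀ h0 h1 2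
    _ ≤ 28 := by norm_num

theorem corN_tail (N : ℕ) :
    |(Real.pi / 4) * compC hc kN N| ≤ 28 * (11 / 10 : ℝ)⁻¹ ^ (2 * N + 1) :=
  AsmN_both.1 N

theorem corN_series (s : ℂ) (hs : ‖s‖ < 1) :
    HasSum (fun N => (((Real.pi / 4) * compC hc kN N : ℝ) : ℂ)
      * (s * (((‖s‖ ^ 2) ^ N : ℝ) : ℂ))) (corN s) :=
  AsmN_both.2 s hs

end GUB
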