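import Pool.Agent.Lib.MP_721eb4_an.UB.TailAux

/-! Upper bound for the complex Grothendieck constant: module TailT -/

set_option autoImplicit false

open MeasureTheory Complex Set GLB
open scoped ComplexConjugate

namespace GUB

theorem TailT_re (s : ℂ) :
    (kerC (Polynomial.C (19 / 20) - Polynomial.C (1 / 20) * Polynomial.X) s).re =
      19 / 20 * s.re - 1 / 20 * (s.re ^ 3 - 3 * s.re * s.im ^ 2) := by
  unfold kerC
  simp [pow_succ, Complex.mul_re, Complex.mul_im]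
  ring

theorem TailT_im (s : ℂ) :
    (kerC (Polynomial.C (19 / 20) - Polynomial.C (1 / 20) * Polynomial.X) s).im =
      19 / 20 * s.im - 1 / 20 * (3 * s.re ^ 2 * s.im - s.im ^ 3) := by
  unfold kerC
  simp [pow_succ, Complex.mul_re, Complex.mul_im]
  ring

theorem TailT_bd (s : ℂ) (hs : ‖s‖ = 11 / 10) :
    |(kerC (Polynomial.C (19 / 20) - Polynomial.C (1 / 20) * Polynomial.X) s).re| ≤ 98 / 100 := by
  rw [TailT_re, TailAux_sphere hs]
  have h1 : |s.re| ≤ 11 / 10 := by rw [← hs]; exact Complex.abs_re_le_norm s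
  have h2 := abs_le.1 h1
  rw [abs_le]
  constructor <;> nlinarith [sq_nonneg (s.re - 11 / 10), sq_nonneg (s.re + 11 / 10)]

theorem kT_re (s : ℂ) (hs : ‖s‖ ≤ 11 / 10) :
    |(kerC (Polynomial.C (19 / 20) - Polynomial.C (1 / 20) * Polynomial.X) s).re| < 1 := by
  have h : |(kerC (Polynomial.C (19 / 20) - Polynomial.C (1 / 20) * Polynomial.X) s).re|
      ≤ 98 / 100 := by
    apply TailAux_re_le _ _ (by norm_num : (0 : ℝ) < 11 / 10) TailT_bd s hs
    unfold kerC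
    simp only [map_sub, map_mul, Polynomial.aeval_C, Polynomial.aeval_X]
    fun_prop
  linarith

theorem kT_NN (s : ℂ) (hs : ‖s‖ = 11 / 10) :
    NN (kerC (Polynomial.C (19 / 20) - Polynomial.C (1 / 20) * Polynomial.X) s) ≤ 62 / 10 := by
  apply TailAux_NN_le _ _ (by norm_num) (kT_re s hs.le)
  rw [TailT_re, TailT_im]
  have h1 : |s.re| ≤ 11 / 10 := by rw [← hs]; exact Complex.abs_re_le_norm s
  have hX1 : s.re ^ 2 ≤ 121 / 100 := by
    have := abs_le.1 h1
    nlinarith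
  have hX0 := sq_nonneg s.re
  have e1 : (19 / 20 * s.re - 1 / 20 * (s.re ^ 3 - 3 * s.re * s.im ^ 2)) ^ 2 =
      s.re ^ 2 * (11315 / 10000 - 2 / 10 * s.re ^ 2) ^ 2 := by
    rw [TailAux_sphere hs]; ring
  have e2 : (19 / 20 * s.im - 1 / 20 * (3 * s.re ^ 2 * s.im - s.im ^ 3)) ^ 2 =
      s.im ^ 2 * (19 / 20 - 1 / 20 * (3 * s.re ^ 2 - s.im ^ 2)) ^ 2 := by ring
  rw [e2, mul_pow, e1, TailAux_sphere hs]
  set X := s.re ^ 2 with hX
  clear_value X
  have e3 : X * (11315 / 10000 - 2 / 10 * X) ^ 2 +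
      ((11 / 10) ^ 2 - X) * (19 / 20 - 1 / 20 * (3 * X - ((11 / 10) ^ 2 - X))) ^ 2 =
      121 / 100 * (102111025 / 100000000 - 19 / 100 * X) := by ring
  rw [e3]
  set v := X * (11315 / 10000 - 2 / 10 * X) ^ 2 with hv
  have h3 : 0 ≤ (1 - v - 8 / 100) ^ 2 := sq_nonneg _
  nlinarith [mul_nonneg hX0 (sq_nonneg (X - 111 / 100)), mul_nonneg (sub_nonneg.2 hX1) (sq_nonneg (X - 111 / 100)), sq_nonneg (X - 111 / 100)]

end GUB
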