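import Pool.Agent.Lib.MP_721eb4_an.UB.Defs
import Pool.Agent.Lib.MP_721eb4_an.UB.Psi

/-! Upper bound for the complex Grothendieck constant: module Trot1 -/

set_option autoImplicit false

open MeasureTheory Complex Set GLB
open scoped ComplexConjugate

namespace GUB

/-- concatenation -/
def Trot1_T (q : (Fin 2 → ℂ) × (Fin 3 → ℂ)) : Fin 5 → ℂ :=
  ![q.1 0, q.1 1, q.2 0, q.2 1, q.2 2]

theorem Trot1_T_meas : Measurable Trot1_T := by
  refine measurable_pi_iff.2 fun i => ?_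
  fin_cases i
  · show Measurable fun q : (Fin 2 → ℂ) × (Fin 3 → ℂ) => q.1 0
    fun_prop
  · show Measurable fun q : (Fin 2 → ℂ) × (Fin 3 → ℂ) => q.1 1
    fun_prop
  · show Measurable fun q : (Fin 2 → ℂ) × (Fin 3 → ℂ) => q.2 0
    fun_prop
  · show Measurable fun q : (Fin 2 → ℂ) × (Fin 3 → ℂ) => q.2 1
    fun_prop
  · show Measurable fun q : (Fin 2 → ℂ) × (Fin 3 → ℂ) => q.2 2
    fun_prop

instance Trot1_prob (n : ℕ) : IsProbabilityMeasure (gam n) := by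
  unfold gam
  infer_instance

theorem Trot1_T_mp : MeasurePreserving Trot1_T ((gam 2).prod (gam 3)) (gam 5) := by
  refine ⟨Trot1_T_meas, ?_⟩
  symm
  unfold gam
  refine Measure.pi_eq fun s hs => ?_
  rw [Measure.map_apply Trot1_T_meas (MeasurableSet.univ_pi hs)]
  have e : Trot1_T ⁻¹' (Set.univ.pi s) =
      (Set.univ.pi ![s 0, s 1]) ×ˢ (Set.univ.pi ![s 2, s 3, s 4]) := by
    ext q
    simp only [Set.mem_preimage, Set.mem_univ_pi, Set.mem_prod, Trot1_T]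
    constructor
    · intro h
      refine ⟨fun i => ?_, fun i => ?_⟩
      · fin_cases i
        · exact h 0
        · exact h 1
      · fin_cases i
        · exact h 2
        · exact h 3
        · exact h 4
    · rintro ⟨h1, h2⟩ i
      fin_cases i
      · exact h1 0
      · exact h1 1
      · exact h2 0
      · exact h2 1
      · exact h2 2
  rw [e, Measure.prod_prod, Measure.pi_pi, Measure.pi_pi, Fin.prod_univ_two, Fin.prod_univ_three,
    Fin.prod_univ_five]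
  simp only [Matrix.cons_val_zero, Matrix.cons_val_one, Matrix.cons_val]
  ring

/-- rearrangement of four factors -/
theorem Trot1_re {X Y : Type*} [MeasurableSpace X] [MeasurableSpace Y] (μ : Measure X)
    (ν : Measure Y) [IsProbabilityMeasure μ] [IsProbabilityMeasure ν] :
    MeasurePreserving (fun q : (Y × Y) × (X × X) => ((q.2.1, q.1.1), (q.2.2, q.1.2)))
      ((ν.prod ν).prod (μ.prod μ)) ((μ.prod ν).prod (μ.prod ν)) := by
  have h1 : MeasurePreserving (MeasurableEquiv.prodAssoc (α := Y) (β := Y) (γ := X × X))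
      ((ν.prod ν).prod (μ.prod μ)) (ν.prod (ν.prod (μ.prod μ))) :=
    ⟨MeasurableEquiv.measurable _, Measure.prodAssoc_prod⟩
  have h2 : MeasurePreserving (MeasurableEquiv.prodAssoc (α := Y) (β := X) (γ := X))
      ((ν.prod μ).prod μ) (ν.prod (μ.prod μ)) :=
    ⟨MeasurableEquiv.measurable _, Measure.prodAssoc_prod⟩
  have h3 : MeasurePreserving (MeasurableEquiv.prodAssoc (α := X) (β := Y) (γ := X))
      ((μ.prod ν).prod μ) (μ.prod (ν.prod μ)) :=
    ⟨MeasurableEquiv.measurable _, Measure.prodAssoc_prod⟩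
  have h4 : MeasurePreserving (MeasurableEquiv.prodAssoc (α := Y) (β := X) (γ := Y × X))
      ((ν.prod μ).prod (ν.prod μ)) (ν.prod (μ.prod (ν.prod μ))) :=
    ⟨MeasurableEquiv.measurable _, Measure.prodAssoc_prod⟩
  have s1 : MeasurePreserving (Prod.swap : Y × X → X × Y) (ν.prod μ) (μ.prod ν) :=
    Measure.measurePreserving_swap
  have a1 := (MeasurePreserving.id ν).prod h2.symm
  have a2 := (MeasurePreserving.id ν).prod (s1.prod (MeasurePreserving.id μ))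
  have a3 := (MeasurePreserving.id ν).prod h3
  exact (s1.prod s1).comp (h4.symm.comp (a3.comp (a2.comp (a1.comp h1))))

theorem Trot1_S_mp : MeasurePreserving
    (fun q : ((Fin 3 → ℂ) × (Fin 3 → ℂ)) × ((Fin 2 → ℂ) × (Fin 2 → ℂ)) =>
      (Trot1_T (q.2.1, q.1.1), Trot1_T (q.2.2, q.1.2)))
    (((gam 3).prod (gam 3)).prod ((gam 2).prod (gam 2))) ((gam 5).prod (gam 5)) :=
  (Trot1_T_mp.prod Trot1_T_mp).comp (Trot1_re (gam 2) (gam 3))

theorem Trot1_sg_meas : Measurable sg := by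
  unfold sg
  fun_prop

theorem Trot1_sg_norm (z : ℂ) : ‖sg z‖ ≤ 1 := by
  unfold sg
  rw [norm_div, Complex.norm_real, norm_norm]
  exact div_self_le_one _

theorem Trot1_part_meas {n : ℕ} (ρ : Fin n → ℂ) : Measurable (part ρ) := by
  unfold part
  fun_prop

theorem Trot1_FT_meas (κ : ℂ) (e : ℝ) : Measurable (FT κ e) := by
  unfold FT
  refine Trot1_sg_meas.comp ?_
  fun_prop

theorem Trot1_HT_meas (e : ℝ) : Measurable (HT e) := by
  unfold HT
  refine Trot1_sg_meas.comp ?_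
  fun_prop

/-- the phase -/
noncomputable def Trot1_a (κ : ℂ) (e : ℝ) (z : Fin 3 → ℂ) : ℂ :=
  κ * exp (I * e * (‖z 0‖ ^ 2 + ‖z 1‖ ^ 2 + ‖z 2‖ ^ 2))

theorem Trot1_a_norm (κ : ℂ) (hκ : ‖κ‖ = 1) (e : ℝ) (z : Fin 3 → ℂ) : ‖Trot1_a κ e z‖ = 1 := by
  unfold Trot1_a
  rw [norm_mul, hκ, one_mul]
  have : (I * e * (‖z 0‖ ^ 2 + ‖z 1‖ ^ 2 + ‖z 2‖ ^ 2) : ℂ) =
      ((e * (‖z 0‖ ^ 2 + ‖z 1‖ ^ 2 + ‖z 2‖ ^ 2) : ℝ) : ℂ) * I := by
    push_cast; ring
  rw [this, Complex.norm_exp_ofReal_mul_I]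

theorem Trot1_sq {a : ℂ} (h : ‖a‖ = 1) : a.re ^ 2 + a.im ^ 2 = 1 := by
  have := Complex.sq_norm a
  rw [h, Complex.normSq_apply] at this
  linarith

theorem Trot1_FT_T (κ : ℂ) (e : ℝ) (x : Fin 2 → ℂ) (y : Fin 3 → ℂ) :
    FT κ e (Trot1_T (x, y)) =
      sg (((Trot1_a κ e y).re : ℂ) * x 0 + ((Trot1_a κ e y).im : ℂ) * x 1) := rfl

theorem Trot1_HT_T (e : ℝ) (x : Fin 2 → ℂ) (y : Fin 3 → ℂ) :
    HT e (Trot1_T (x, y)) =
      sg (((Trot1_a 1 e y).re : ℂ) * x 0 + ((-(Trot1_a 1 e y).im : ℝ) : ℂ) * x 1) := by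
  unfold HT Trot1_a
  rw [one_mul, Complex.ofReal_neg, neg_mul, ← sub_eq_add_neg]
  rfl

theorem Trot1_part_T (ρ : ℝ) (q : ((Fin 3 → ℂ) × (Fin 3 → ℂ)) × ((Fin 2 → ℂ) × (Fin 2 → ℂ))) :
    part (fun _ => (ρ : ℂ)) (Trot1_T (q.2.1, q.1.1), Trot1_T (q.2.2, q.1.2)) =
      Trot1_T (part (fun _ => (ρ : ℂ)) q.2, part (fun _ => (ρ : ℂ)) q.1) := by
  funext i
  fin_cases i <;> rfl

theorem Trot1_int (κ : ℂ) (e ρ : ℝ) :
    Integrable (fun p : (Fin 5 → ℂ) × (Fin 5 → ℂ) =>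
      FT κ e p.1 * conj (HT e (part (fun _ => (ρ : ℂ)) p))) ((gam 5).prod (gam 5)) := by
  refine Integrable.of_bound (C := 1) ?_ (Filter.Eventually.of_forall fun p => ?_)
  · refine Measurable.aestronglyMeasurable ?_
    refine ((Trot1_FT_meas κ e).comp measurable_fst).mul ?_
    exact Complex.continuous_conj.measurable.comp
      ((Trot1_HT_meas e).comp (Trot1_part_meas _))
  · rw [norm_mul, RCLike.norm_conj]
    exact mul_le_one₀ (Trot1_sg_norm _) (norm_nonneg _) (Trot1_sg_norm _)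

theorem rotor_cond (κ : ℂ) (hκ : ‖κ‖ = 1) (e ρ : ℝ) (hρ : |ρ| < 1) :
    HasSum (fun m => (((Real.pi / 4) * hc m * ρ ^ (2 * m + 1) : ℝ) : ℂ) *
        ∫ p : (Fin 3 → ℂ) × (Fin 3 → ℂ),
          ((((κ * exp (I * e * (‖p.1 0‖ ^ 2 + ‖p.1 1‖ ^ 2 + ‖p.1 2‖ ^ 2
            + ‖part (fun _ => (ρ : ℂ)) p 0‖ ^ 2 + ‖part (fun _ => (ρ : ℂ)) p 1‖ ^ 2
            + ‖part (fun _ => (ρ : ℂ)) p 2‖ ^ 2))).re) ^ (2 * m + 1) : ℝ) : ℂ)
          ∂((gam 3).prod (gam 3)))
      (corr (FT κ e) (HT e) (fun _ => (ρ : ℂ))) := by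
  -- the integrand
  set f : (Fin 5 → ℂ) × (Fin 5 → ℂ) → ℂ := fun p =>
    FT κ e p.1 * conj (HT e (part (fun _ => (ρ : ℂ)) p)) with hf
  have h1 : corr (FT κ e) (HT e) (fun _ => (ρ : ℂ)) = ∫ p : (Fin 3 → ℂ) × (Fin 3 → ℂ),
      (∫ q : (Fin 2 → ℂ) × (Fin 2 → ℂ), f (Trot1_T (q.1, p.1), Trot1_T (q.2, p.2))
        ∂((gam 2).prod (gam 2))) ∂((gam 3).prod (gam 3)) := by
    have hint := Trot1_int κ e ρ
    have i2 : SFinite ((gam 2).prod (gam 2)) := Measure.prod.instSFinite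
    have i3 : SFinite ((gam 3).prod (gam 3)) := Measure.prod.instSFinite
    have h2 : corr (FT κ e) (HT e) (fun _ => (ρ : ℂ)) = ∫ p, f p ∂((gam 5).prod (gam 5)) := rfl
    have h3 := integral_prod (μ := (gam 3).prod (gam 3)) (ν := (gam 2).prod (gam 2)) _
      (Trot1_S_mp.integrable_comp_of_integrable hint)
    rw [h2, ← Trot1_S_mp.map_eq, integral_map Trot1_S_mp.aemeasurable
      (by rw [Trot1_S_mp.map_eq]; exact hint.aestronglyMeasurable)]
    exact h3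
  -- the inner integral
  set w : (Fin 3 → ℂ) × (Fin 3 → ℂ) → ℝ := fun p =>
    (κ * exp (I * e * (‖p.1 0‖ ^ 2 + ‖p.1 1‖ ^ 2 + ‖p.1 2‖ ^ 2
            + ‖part (fun _ => (ρ : ℂ)) p 0‖ ^ 2 + ‖part (fun _ => (ρ : ℂ)) p 1‖ ^ 2
            + ‖part (fun _ => (ρ : ℂ)) p 2‖ ^ 2))).re with hw
  have hw' : ∀ p, w p = (Trot1_a κ e p.1 * Trot1_a 1 e (part (fun _ => (ρ : ℂ)) p)).re := by
    intro p
    rw [hw]
    simp only [Trot1_a, one_mul]
    rw [mul_assoc κ, ← Complex.exp_add]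
    congr 3
    ring
  have hw1 : ∀ p, |w p| ≤ 1 := by
    intro p
    rw [hw' p]
    refine (Complex.abs_re_le_norm _).trans ?_
    rw [norm_mul, Trot1_a_norm κ hκ, Trot1_a_norm 1 norm_one, one_mul]
  have h2 : ∀ p : (Fin 3 → ℂ) × (Fin 3 → ℂ),
      HasSum (fun m => (((Real.pi / 4) * (hc m * (ρ * w p) ^ (2 * m + 1)) : ℝ) : ℂ))
      (∫ q : (Fin 2 → ℂ) × (Fin 2 → ℂ), f (Trot1_T (q.1, p.1), Trot1_T (q.2, p.2))
        ∂((gam 2).prod (gam 2))) := by
    intro p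
    have ha := Trot1_sq (Trot1_a_norm κ hκ e p.1)
    have hb := Trot1_sq (Trot1_a_norm 1 norm_one e (part (fun _ => (ρ : ℂ)) p))
    have h3 := corr_sg2 (Trot1_a κ e p.1).re (Trot1_a κ e p.1).im
      (Trot1_a 1 e (part (fun _ => (ρ : ℂ)) p)).re (-(Trot1_a 1 e (part (fun _ => (ρ : ℂ)) p)).im)
      ha (by rw [neg_sq]; exact hb) ρ hρ
    have e1 : (Trot1_a κ e p.1).re * (Trot1_a 1 e (part (fun _ => (ρ : ℂ)) p)).re +
        (Trot1_a κ e p.1).im * (-(Trot1_a 1 e (part (fun _ => (ρ : ℂ)) p)).im) = w p := by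
      rw [hw' p, Complex.mul_re]
      ring
    rw [e1] at h3
    have e2 : (∫ q : (Fin 2 → ℂ) × (Fin 2 → ℂ), f (Trot1_T (q.1, p.1), Trot1_T (q.2, p.2))
        ∂((gam 2).prod (gam 2))) =
        corr (fun z : Fin 2 → ℂ => sg (((Trot1_a κ e p.1).re : ℂ) * z 0 +
          ((Trot1_a κ e p.1).im : ℂ) * z 1))
        (fun z : Fin 2 → ℂ => sg (((Trot1_a 1 e (part (fun _ => (ρ : ℂ)) p)).re : ℂ) * z 0 +
          ((-(Trot1_a 1 e (part (fun _ => (ρ : ℂ)) p)).im : ℝ) : ℂ) * z 1))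
          (fun _ => (ρ : ℂ)) := by
      unfold corr
      refine integral_congr_ae (Filter.Eventually.of_forall fun q => ?_)
      show FT κ e (Trot1_T (q.1, p.1)) * conj (HT e (part (fun _ => (ρ : ℂ))
        (Trot1_T (q.1, p.1), Trot1_T (q.2, p.2)))) = _
      rw [Trot1_part_T ρ (p, q), Trot1_FT_T, Trot1_HT_T]
    rw [e2]
    exact h3
  -- measurability of `w`
  have hwm : Measurable w := by
    have h3 : Measurable (part (n := 3) (fun _ => (ρ : ℂ))) := Trot1_part_meas _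
    have h4 : ∀ i : Fin 3, Measurable fun p : (Fin 3 → ℂ) × (Fin 3 → ℂ) =>
        part (fun _ => (ρ : ℂ)) p i := fun i => (measurable_pi_apply i).comp h3
    have := h4 0
    have := h4 1
    have := h4 2
    rw [hw]
    fun_prop
  -- dominated convergence
  have h3 := hasSum_integral_of_dominated_convergence
    (μ := (gam 3).prod (gam 3))
    (F := fun m p => (((Real.pi / 4) * (hc m * (ρ * w p) ^ (2 * m + 1)) : ℝ) : ℂ))
    (f := fun p => ∫ q : (Fin 2 → ℂ) × (Fin 2 → ℂ), f (Trot1_T (q.1, p.1), Trot1_T (q.2, p.2))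
        ∂((gam 2).prod (gam 2)))
    (fun m _ => (Real.pi / 4) * hc m) ?_ ?_ ?_ ?_ ?_
  · rw [h1]
    have e3 : (fun m => (((Real.pi / 4) * hc m * ρ ^ (2 * m + 1) : ℝ) : ℂ) *
        ∫ p : (Fin 3 → ℂ) × (Fin 3 → ℂ), (((w p) ^ (2 * m + 1) : ℝ) : ℂ)
          ∂((gam 3).prod (gam 3))) =
        fun m => ∫ p : (Fin 3 → ℂ) × (Fin 3 → ℂ),
          (((Real.pi / 4) * (hc m * (ρ * w p) ^ (2 * m + 1)) : ℝ) : ℂ)
          ∂((gam 3).prod (gam 3)) := by
      funext m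
      rw [← integral_const_mul]
      refine integral_congr_ae (Filter.Eventually.of_forall fun p => ?_)
      show _ * _ = (((Real.pi / 4) * (hc m * (ρ * w p) ^ (2 * m + 1)) : ℝ) : ℂ)
      rw [← Complex.ofReal_mul, mul_pow]
      congr 1
      ring
    have h4 := h3
    rw [← e3] at h4
    exact h4
  · intro m
    refine Measurable.aestronglyMeasurable ?_
    fun_prop
  · intro m
    refine Filter.Eventually.of_forall fun p => ?_
    rw [Complex.norm_real, Real.norm_eq_abs, abs_mul, abs_mul, abs_of_pos (hc_pos m),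
      abs_of_pos (by positivity : 0 < Real.pi / 4), abs_pow, abs_mul]
    have h4 : |ρ| * |w p| ≤ 1 := mul_le_one₀ hρ.le (abs_nonneg _) (hw1 p)
    have h5 : (|ρ| * |w p|) ^ (2 * m + 1) ≤ 1 := pow_le_one₀ (by positivity) h4
    have h6 := hc_pos m
    have : hc m * (|ρ| * |w p|) ^ (2 * m + 1) ≤ hc m := mul_le_of_le_one_right h6.le h5
    exact mul_le_mul_of_nonneg_left this (by positivity)
  · exact Filter.Eventually.of_forall fun p => hc_summable.mul_left _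
  · exact integrable_const _
  · exact Filter.Eventually.of_forall fun p => h2 p

end GUB
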