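import Pool.Agent.Lib.MP_721eb4_an.UB.Defs
import Pool.Agent.Lib.MP_721eb4_an.LB.Gauss1

/-! Upper bound for the complex Grothendieck constant: module Trot2 -/

set_option autoImplicit false

open MeasureTheory Complex Set GLB
open scoped ComplexConjugate

namespace GUB

private theorem Trot2_vol (b c1 c2 : ℂ) (hb : 0 < b.re) :
    ∫ z : ℂ, exp (-b * (‖z‖ : ℂ) ^ 2 + c1 * z + c2 * conj z)
      = (Real.pi : ℂ) / b * exp (c1 * c2 / b) := by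
  have hb0 : b ≠ 0 := by
    intro h; rw [h] at hb; simp at hb
  have hb' : (-b).re < 0 := by simpa using hb
  rw [← (Complex.volume_preserving_equiv_real_prod.symm).integral_comp
    Complex.measurableEquivRealProd.symm.measurableEmbedding]
  have e : ∀ p : ℝ × ℝ, exp (-b * (‖Complex.measurableEquivRealProd.symm p‖ : ℂ) ^ 2 +
      c1 * Complex.measurableEquivRealProd.symm p +
        c2 * conj (Complex.measurableEquivRealProd.symm p)) =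
      exp (-b * (p.1 : ℂ) ^ 2 + (c1 + c2) * p.1 + 0) *
        exp (-b * (p.2 : ℂ) ^ 2 + (I * (c1 - c2)) * p.2 + 0) := by
    intro p
    have h1 : Complex.measurableEquivRealProd.symm p = (p.1 : ℂ) + p.2 * I := by
      rw [Complex.measurableEquivRealProd_symm_apply, Complex.mk_eq_add_mul_I]
    rw [h1, ← Complex.mul_conj', ← Complex.exp_add]
    congr 1
    simp only [map_add, map_mul, Complex.conj_ofReal, Complex.conj_I]
    ring_nf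
    rw [Complex.I_sq]
    ring
  simp_rw [e]
  rw [Measure.volume_eq_prod, integral_prod_mul (f := fun x : ℝ => exp (-b * (x : ℂ) ^ 2 +
      (c1 + c2) * x + 0)) (g := fun x : ℝ => exp (-b * (x : ℂ) ^ 2 + (I * (c1 - c2)) * x + 0)),
    integral_cexp_quadratic hb', integral_cexp_quadratic hb', neg_neg]
  have hpb : (Real.pi : ℂ) / b ≠ 0 := div_ne_zero (by exact_mod_cast Real.pi_ne_zero) hb0
  have h2 : ((Real.pi : ℂ) / b) ^ (1 / 2 : ℂ) * ((Real.pi : ℂ) / b) ^ (1 / 2 : ℂ) =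
      (Real.pi : ℂ) / b := by
    rw [← Complex.cpow_add _ _ hpb]
    norm_num
  rw [mul_mul_mul_comm, h2, ← Complex.exp_add]
  congr 2
  field_simp
  ring_nf
  rw [Complex.I_sq]
  ring

private theorem Trot2_cg (b c1 c2 : ℂ) (hb : 0 < (1 + b).re) :
    ∫ z : ℂ, exp (-b * (‖z‖ : ℂ) ^ 2 + c1 * z + c2 * conj z) ∂cg
      = (1 + b)⁻¹ * exp (c1 * c2 / (1 + b)) := by
  have hpi : (Real.pi : ℂ) ≠ 0 := by exact_mod_cast Real.pi_ne_zero
  rw [integral_cg]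
  have e : ∀ z : ℂ, dens z • exp (-b * (‖z‖ : ℂ) ^ 2 + c1 * z + c2 * conj z) =
      (Real.pi : ℂ)⁻¹ * exp (-(1 + b) * (‖z‖ : ℂ) ^ 2 + c1 * z + c2 * conj z) := by
    intro z
    unfold dens
    rw [Complex.real_smul]
    push_cast
    rw [div_mul_eq_mul_div, ← Complex.exp_add, div_eq_inv_mul]
    congr 2
    ring
  simp_rw [e]
  rw [integral_const_mul, Trot2_vol (1 + b) c1 c2 hb]
  field_simp

private theorem Trot2_pair (ν ρ : ℝ) (hρ : |ρ| < 1) :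
    ∫ q : ℂ × ℂ, exp (I * ν * ((‖q.1‖ : ℂ) ^ 2 +
        (‖(ρ : ℂ) * q.1 + ((√(1 - ρ ^ 2) : ℝ) : ℂ) * q.2‖ : ℂ) ^ 2)) ∂(cg.prod cg)
      = ((1 - I * ν) ^ 2 + (ν : ℂ) ^ 2 * (ρ : ℂ) ^ 2)⁻¹ := by
  have hρ2 : 0 ≤ 1 - ρ ^ 2 := by
    have := abs_lt.1 hρ
    nlinarith
  set σ := √(1 - ρ ^ 2) with hσ
  have hσ2 : σ ^ 2 = 1 - ρ ^ 2 := Real.sq_sqrt hρ2
  have hσc : (σ : ℂ) ^ 2 = 1 - (ρ : ℂ) ^ 2 := by exact_mod_cast hσ2
  have hint : Integrable (fun q : ℂ × ℂ => exp (I * ν * ((‖q.1‖ : ℂ) ^ 2 +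
        (‖(ρ : ℂ) * q.1 + (σ : ℂ) * q.2‖ : ℂ) ^ 2))) (cg.prod cg) := by
    apply Integrable.of_bound (C := 1)
    · apply Continuous.aestronglyMeasurable
      fun_prop
    · refine Filter.Eventually.of_forall (fun q => ?_)
      rw [Complex.norm_exp]
      have : (I * ν * ((‖q.1‖ : ℂ) ^ 2 +
        (‖(ρ : ℂ) * q.1 + (σ : ℂ) * q.2‖ : ℂ) ^ 2)).re = 0 := by
        rw [← Complex.ofReal_pow, ← Complex.ofReal_pow, ← Complex.ofReal_add, mul_assoc,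
          ← Complex.ofReal_mul, Complex.I_mul_re, Complex.ofReal_im, neg_zero]
      rw [this, Real.exp_zero]
  rw [integral_prod _ hint]
  set d : ℂ := 1 - I * ν * (σ : ℂ) ^ 2 with hd
  have hdre : d.re = 1 := by
    rw [hd, mul_assoc, ← Complex.ofReal_pow, ← Complex.ofReal_mul, Complex.sub_re,
      Complex.I_mul_re, Complex.ofReal_im, Complex.one_re]
    ring
  have hd0 : d ≠ 0 := by
    intro h; rw [h] at hdre; simp at hdre
  set B : ℂ := -(I * ν * (1 + (ρ : ℂ) ^ 2) + (I * ν * ρ * σ) ^ 2 / d) with hB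
  have hinner : ∀ z : ℂ, ∫ w : ℂ, exp (I * ν * ((‖z‖ : ℂ) ^ 2 +
        (‖(ρ : ℂ) * z + (σ : ℂ) * w‖ : ℂ) ^ 2)) ∂cg =
      d⁻¹ * exp (-B * (‖z‖ : ℂ) ^ 2 + 0 * z + 0 * conj z) := by
    intro z
    have e : ∀ w : ℂ, exp (I * ν * ((‖z‖ : ℂ) ^ 2 +
        (‖(ρ : ℂ) * z + (σ : ℂ) * w‖ : ℂ) ^ 2)) =
        exp (I * ν * (1 + (ρ : ℂ) ^ 2) * (‖z‖ : ℂ) ^ 2) *
        exp (-(-(I * ν * (σ : ℂ) ^ 2)) * (‖w‖ : ℂ) ^ 2 + (I * ν * ρ * σ * conj z) * w +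
          (I * ν * ρ * σ * z) * conj w) := by
      intro w
      rw [← Complex.exp_add]
      congr 1
      rw [← Complex.mul_conj', ← Complex.mul_conj', ← Complex.mul_conj']
      simp only [map_add, map_mul, Complex.conj_ofReal]
      ring
    simp_rw [e]
    rw [integral_const_mul, Trot2_cg]
    · have e1 : (1 + -(I * ν * (σ : ℂ) ^ 2)) = d := by rw [hd]; ring
      rw [e1, mul_left_comm, ← Complex.exp_add]
      congr 2
      rw [hB, ← Complex.mul_conj']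
      field_simp
      ring
    · have e1 : (1 + -(I * ν * (σ : ℂ) ^ 2)) = d := by rw [hd]; ring
      rw [e1, hdre]
      norm_num
  simp_rw [hinner]
  have hB1 : 1 + B = 1 - I * ν * (1 + (ρ : ℂ) ^ 2) + ((ν * ρ * σ) ^ 2 : ℝ) * d⁻¹ := by
    rw [hB]
    push_cast
    have : (I * ν * ρ * σ) ^ 2 = -((ν : ℂ) * ρ * σ) ^ 2 := by
      rw [show (I * (ν : ℂ) * ρ * σ) = I * (ν * ρ * σ) by ring, mul_pow, Complex.I_sq]
      ring
    rw [this]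
    ring
  have hBre : 0 < (1 + B).re := by
    rw [hB1, Complex.add_re, Complex.sub_re, Complex.re_ofReal_mul, Complex.inv_re, hdre]
    have h1 : (I * ν * (1 + (ρ : ℂ) ^ 2)).re = 0 := by
      rw [mul_assoc, ← Complex.ofReal_one, ← Complex.ofReal_pow, ← Complex.ofReal_add,
        ← Complex.ofReal_mul, Complex.I_mul_re, Complex.ofReal_im, neg_zero]
    rw [h1, Complex.one_re]
    have h2 : 0 ≤ 1 / normSq d := by
      have := normSq_nonneg d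
      positivity
    have h3 : 0 ≤ (ν * ρ * σ) ^ 2 * (1 / normSq d) := by positivity
    linarith
  rw [integral_const_mul, Trot2_cg B 0 0 hBre]
  rw [zero_mul, zero_div, Complex.exp_zero, mul_one, ← mul_inv]
  congr 1
  rw [hB1, mul_add, mul_left_comm, mul_inv_cancel₀ hd0, mul_one, hd]
  push_cast
  rw [mul_pow _ (σ : ℂ), hσc]
  ring_nf
  rw [Complex.I_sq]
  ring

theorem rotor_aux (e ρ : ℝ) (hρ : |ρ| < 1) (n : ℕ) :
    ∫ p : (Fin 3 → ℂ) × (Fin 3 → ℂ),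
        exp (I * (n * e) * (‖p.1 0‖ ^ 2 + ‖p.1 1‖ ^ 2 + ‖p.1 2‖ ^ 2
            + ‖part (fun _ => (ρ : ℂ)) p 0‖ ^ 2 + ‖part (fun _ => (ρ : ℂ)) p 1‖ ^ 2
            + ‖part (fun _ => (ρ : ℂ)) p 2‖ ^ 2)) ∂((gam 3).prod (gam 3))
      = (((1 - I * (n * e)) ^ 2 + (n * e) ^ 2 * ρ ^ 2) ^ 3)⁻¹ := by
  unfold gam
  refine ((measurePreserving_arrowProdEquivProdArrow ℂ ℂ (Fin 3) (fun _ => cg)
    (fun _ => cg)).integral_comp' _).symm.trans ?_
  have e1 : ∀ g : Fin 3 → ℂ × ℂ, exp (I * (n * e) *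
      (‖(MeasurableEquiv.arrowProdEquivProdArrow ℂ ℂ (Fin 3) g).1 0‖ ^ 2 +
        ‖(MeasurableEquiv.arrowProdEquivProdArrow ℂ ℂ (Fin 3) g).1 1‖ ^ 2 +
        ‖(MeasurableEquiv.arrowProdEquivProdArrow ℂ ℂ (Fin 3) g).1 2‖ ^ 2
            + ‖part (fun _ => (ρ : ℂ)) (MeasurableEquiv.arrowProdEquivProdArrow ℂ ℂ (Fin 3) g) 0‖ ^ 2
            + ‖part (fun _ => (ρ : ℂ)) (MeasurableEquiv.arrowProdEquivProdArrow ℂ ℂ (Fin 3) g) 1‖ ^ 2
            + ‖part (fun _ => (ρ : ℂ)) (MeasurableEquiv.arrowProdEquivProdArrow ℂ ℂ (Fin 3) g) 2‖ ^ 2)) =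
      ∏ j : Fin 3, exp (I * ((n * e : ℝ) : ℂ) * ((‖(g j).1‖ : ℂ) ^ 2 +
        (‖(ρ : ℂ) * (g j).1 + ((√(1 - ρ ^ 2) : ℝ) : ℂ) * (g j).2‖ : ℂ) ^ 2)) := by
    intro g
    rw [Fin.prod_univ_three, ← Complex.exp_add, ← Complex.exp_add]
    have h1 : ∀ j, (MeasurableEquiv.arrowProdEquivProdArrow ℂ ℂ (Fin 3) g).1 j = (g j).1 :=
      fun j => rfl
    have h2 : ∀ j, part (fun _ => (ρ : ℂ))
        (MeasurableEquiv.arrowProdEquivProdArrow ℂ ℂ (Fin 3) g) j =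
        (ρ : ℂ) * (g j).1 + ((√(1 - ρ ^ 2) : ℝ) : ℂ) * (g j).2 := by
      intro j
      change conj (ρ : ℂ) * (g j).1 + ((√(1 - ‖(ρ : ℂ)‖ ^ 2) : ℝ) : ℂ) * (g j).2 = _
      rw [Complex.conj_ofReal, Complex.norm_real, Real.norm_eq_abs, sq_abs]
    rw [h1, h1, h1, h2, h2, h2]
    congr 1
    push_cast
    ring
  simp_rw [e1]
  rw [integral_fintype_prod_eq_prod (f := fun _ : Fin 3 => fun q : ℂ × ℂ =>
    exp (I * ((n * e : ℝ) : ℂ) * ((‖q.1‖ : ℂ) ^ 2 +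
        (‖(ρ : ℂ) * q.1 + ((√(1 - ρ ^ 2) : ℝ) : ℂ) * q.2‖ : ℂ) ^ 2)))]
  rw [Fin.prod_univ_three, Trot2_pair _ _ hρ, ← inv_pow]
  push_cast
  ring

end GUB
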