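import Pool.Agent.Lib.MP_721eb4_an.UB.Defs
import Pool.Agent.Lib.MP_721eb4_an.UB.Trot1
import Pool.Agent.Lib.MP_721eb4_an.UB.Trot2

/-! Upper bound for the complex Grothendieck constant: module Trot3 -/

set_option autoImplicit false

open MeasureTheory Complex Set GLB
open scoped ComplexConjugate

namespace GUB

namespace Trot3Aux

instance isProb (n : ℕ) : IsProbabilityMeasure (gam n) := by
  unfold gam
  infer_instance

theorem hs_congr {X : Type} [AddCommMonoid X] [TopologicalSpace X] {f g : ℕ → X} {a : X}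
    (h : ∀ n, f n = g n) (hf : HasSum f a) : HasSum g a := by
  rw [← funext h]; exact hf

/-- linearisation of odd powers of the cosine -/
theorem re_pow (w : ℂ) (hw : ‖w‖ = 1) (m : ℕ) :
    w.re ^ (2 * m + 1) = (1 / 4 ^ m : ℝ) *
      ∑ j ∈ Finset.range (m + 1), ((2 * m + 1).choose j : ℝ) * (w ^ (2 * (m - j) + 1)).re := by
  have hww : w * conj w = 1 := by
    rw [Complex.mul_conj, Complex.normSq_eq_norm_sq, hw]; simp
  have h1 : (w + conj w) ^ (2 * m + 1) = ∑ j ∈ Finset.range (m + 1),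
      (((2 * m + 1).choose j : ℝ) : ℂ) * ((2 * (w ^ (2 * (m - j) + 1)).re : ℝ) : ℂ) := by
    have h2 : 2 * m + 1 + 1 = (m + 1) + (m + 1) := by ring
    rw [add_comm w, add_pow, h2, Finset.sum_range_add]
    have h3 : ∑ x ∈ Finset.range (m + 1), conj w ^ (m + 1 + x) * w ^ (2 * m + 1 - (m + 1 + x))
          * (((2 * m + 1).choose (m + 1 + x) : ℕ) : ℂ)
        = ∑ x ∈ Finset.range (m + 1), conj w ^ (2 * m + 1 - x) * w ^ x
          * (((2 * m + 1).choose x : ℕ) : ℂ) := by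
      rw [← Finset.sum_range_reflect]
      refine Finset.sum_congr rfl fun x hx => ?_
      have hx' := Finset.mem_range.1 hx
      have e1 : m + 1 + (m + 1 - 1 - x) = 2 * m + 1 - x := by omega
      have e2 : 2 * m + 1 - (2 * m + 1 - x) = x := by omega
      rw [e1, e2, Nat.choose_symm (by omega)]
    rw [h3, ← Finset.sum_add_distrib]
    refine Finset.sum_congr rfl fun x hx => ?_
    have hx' := Finset.mem_range.1 hx
    have e1 : 2 * m + 1 - x = x + (2 * (m - x) + 1) := by omega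
    have hr : ((2 * (w ^ (2 * (m - x) + 1)).re : ℝ) : ℂ)
        = w ^ (2 * (m - x) + 1) + conj w ^ (2 * (m - x) + 1) := by
      rw [← map_pow, Complex.add_conj]
    rw [hr, e1, pow_add w x, pow_add (conj w) x]
    have e3 : conj w ^ x * (w ^ x * w ^ (2 * (m - x) + 1)) = w ^ (2 * (m - x) + 1) := by
      rw [← mul_assoc, ← mul_pow, mul_comm (conj w), hww, one_pow, one_mul]
    have e4 : conj w ^ x * conj w ^ (2 * (m - x) + 1) * w ^ x = conj w ^ (2 * (m - x) + 1) := by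
      rw [mul_right_comm, ← mul_pow, mul_comm (conj w), hww, one_pow, one_mul]
    rw [e3, e4]
    push_cast
    ring
  have h2 : (w + conj w) ^ (2 * m + 1) = (((2 * w.re) ^ (2 * m + 1) : ℝ) : ℂ) := by
    rw [Complex.add_conj]
    push_cast
    ring
  rw [h2] at h1
  have h3 : (2 * w.re) ^ (2 * m + 1) = ∑ j ∈ Finset.range (m + 1),
      ((2 * m + 1).choose j : ℝ) * (2 * (w ^ (2 * (m - j) + 1)).re) := by
    exact_mod_cast h1
  have h4 : (2 * w.re) ^ (2 * m + 1) = 2 * 4 ^ m * w.re ^ (2 * m + 1) := by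
    have h5 : (2 : ℝ) ^ (2 * m + 1) = 2 * 4 ^ m := by
      rw [pow_succ, pow_mul, mul_comm]
      norm_num
    rw [mul_pow, h5]
  rw [h4] at h3
  have h5 : ∑ j ∈ Finset.range (m + 1), ((2 * m + 1).choose j : ℝ) * (2 * (w ^ (2 * (m - j) + 1)).re)
      = 2 * ∑ j ∈ Finset.range (m + 1), ((2 * m + 1).choose j : ℝ) * (w ^ (2 * (m - j) + 1)).re := by
    rw [Finset.mul_sum]
    refine Finset.sum_congr rfl fun j _ => ?_
    ring
  rw [h5] at h3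
  have h6 : (4 : ℝ) ^ m ≠ 0 := by positivity
  field_simp
  linarith

theorem norm_a_sq (x : ℝ) : ‖(1 : ℂ) - I * x‖ ^ 2 = 1 + x ^ 2 := by
  rw [← Complex.normSq_eq_norm_sq, Complex.normSq_apply]
  simp
  ring

/-- bound for the coefficients -/
theorem bT_le (κ : ℂ) (hκ : ‖κ‖ = 1) (e : ℝ) (n l : ℕ) : |bT κ e n l| ≤ ((l + 2).choose 2 : ℝ) := by
  unfold bT
  refine (Complex.abs_re_le_norm _).trans ?_
  have h0 : (1 : ℂ) - I * n * e = 1 - I * ((n * e : ℝ) : ℂ) := by push_cast; ring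
  have h1 : ‖(1 : ℂ) - I * n * e‖ ^ 2 = 1 + (n * e) ^ 2 := by rw [h0, norm_a_sq]
  have h2 : ‖(1 : ℂ) - I * n * e‖ ^ (6 + 2 * l) = (1 + (n * e) ^ 2) ^ (3 + l) := by
    rw [← h1, ← pow_mul]
    congr 1
    ring
  have h3 : ‖-((n : ℂ) ^ 2 * (e : ℂ) ^ 2)‖ = (n * e) ^ 2 := by
    rw [norm_neg, norm_mul, norm_pow, norm_pow, Complex.norm_natCast, Complex.norm_real,
      Real.norm_eq_abs, sq_abs]
    ring
  rw [norm_div, norm_mul, norm_mul, norm_pow, norm_pow, norm_pow, hκ, one_pow, one_mul, h3, h2,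
    Complex.norm_natCast]
  have hpos : 0 ≤ ((n : ℝ) * e) ^ 2 := sq_nonneg _
  have h4 : (1 : ℝ) ≤ 1 + (n * e) ^ 2 := by linarith
  rw [div_le_iff₀ (by positivity)]
  refine mul_le_mul_of_nonneg_left ?_ (Nat.cast_nonneg _)
  calc (((n : ℝ) * e) ^ 2) ^ l ≤ (1 + (n * e) ^ 2) ^ l := pow_le_pow_left₀ hpos (by linarith) l
    _ ≤ (1 + (n * e) ^ 2) ^ (3 + l) := pow_le_pow_right₀ h4 (by omega)

/-- the expansion of the inverse cube -/
theorem bT_hasSum (κ : ℂ) (e ρ : ℝ) (hρ : |ρ| < 1) (n : ℕ) :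
    HasSum (fun l => bT κ e n l * ρ ^ (2 * l))
      (κ ^ n * (((1 - I * (n * e)) ^ 2 + (n * e) ^ 2 * ρ ^ 2) ^ 3)⁻¹ : ℂ).re := by
  set a : ℂ := 1 - I * n * e with ha
  have ha' : (1 : ℂ) - I * (n * e) = a := by rw [ha]; ring
  have h0 : (1 : ℂ) - I * n * e = 1 - I * ((n * e : ℝ) : ℂ) := by push_cast; ring
  have h1 : ‖a‖ ^ 2 = 1 + (n * e) ^ 2 := by rw [ha, h0, norm_a_sq]
  have hpos : 0 ≤ ((n : ℝ) * e) ^ 2 := sq_nonneg _
  have hane : a ≠ 0 := by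
    intro h
    rw [h, norm_zero] at h1
    nlinarith
  set x : ℂ := -((n : ℂ) ^ 2 * (e : ℂ) ^ 2) * (ρ : ℂ) ^ 2 / a ^ 2 with hx
  have hρ2 : ρ ^ 2 < 1 := by
    rw [← sq_abs]
    exact pow_lt_one₀ (abs_nonneg _) hρ two_ne_zero
  have hxn : ‖x‖ < 1 := by
    have h2 : ‖x‖ = (n * e) ^ 2 * ρ ^ 2 / (1 + (n * e) ^ 2) := by
      rw [hx, norm_div, norm_mul, norm_neg, norm_mul, norm_pow, norm_pow, norm_pow, norm_pow,
        Complex.norm_natCast, Complex.norm_real, Complex.norm_real, Real.norm_eq_abs,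
        Real.norm_eq_abs, sq_abs, sq_abs, h1]
      ring
    rw [h2, div_lt_one (by linarith)]
    nlinarith [mul_le_mul_of_nonneg_left hρ2.le hpos]
  have h3 := hasSum_choose_mul_geometric_of_norm_lt_one 2 hxn
  have h4 := h3.mul_left (κ ^ n / a ^ 6)
  have h5 := Complex.hasSum_re h4
  have e1 : (κ ^ n / a ^ 6 * (1 / (1 - x) ^ (2 + 1)) : ℂ)
      = κ ^ n * (((1 - I * (n * e)) ^ 2 + (n * e) ^ 2 * ρ ^ 2) ^ 3)⁻¹ := by
    rw [ha']
    have h6 : a ^ 2 + ((n : ℂ) * e) ^ 2 * (ρ : ℂ) ^ 2 = a ^ 2 * (1 - x) := by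
      rw [hx]
      field_simp
      ring
    rw [h6, mul_pow]
    have h7 : (1 - x) ≠ 0 := by
      intro h
      have : x = 1 := (sub_eq_zero.1 h).symm
      rw [this, norm_one] at hxn
      exact lt_irrefl _ hxn
    field_simp
  have e2 : ∀ l : ℕ, (κ ^ n / a ^ 6 * (((l + 2).choose 2 : ℂ) * x ^ l)).re
      = bT κ e n l * ρ ^ (2 * l) := by
    intro l
    have h6 : κ ^ n / a ^ 6 * (((l + 2).choose 2 : ℂ) * x ^ l)
        = (κ ^ n * ((l + 2).choose 2 : ℂ) * (-((n : ℂ) ^ 2 * (e : ℂ) ^ 2)) ^ l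
          / a ^ (6 + 2 * l)) * ((ρ ^ (2 * l) : ℝ) : ℂ) := by
      rw [hx, div_pow, mul_pow, ← pow_mul, ← pow_mul, pow_add]
      push_cast
      field_simp
    rw [h6, Complex.re_mul_ofReal]
    rfl
  rw [e1] at h5
  exact hs_congr e2 h5

/-- the rotating factor -/
noncomputable def W (κ : ℂ) (e ρ : ℝ) (p : (Fin 3 → ℂ) × (Fin 3 → ℂ)) : ℂ :=
  κ * exp (I * e * (‖p.1 0‖ ^ 2 + ‖p.1 1‖ ^ 2 + ‖p.1 2‖ ^ 2
            + ‖part (fun _ => (ρ : ℂ)) p 0‖ ^ 2 + ‖part (fun _ => (ρ : ℂ)) p 1‖ ^ 2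
            + ‖part (fun _ => (ρ : ℂ)) p 2‖ ^ 2))

theorem W_cont (κ : ℂ) (e ρ : ℝ) : Continuous (W κ e ρ) := by
  unfold W part
  fun_prop

theorem W_norm (κ : ℂ) (hκ : ‖κ‖ = 1) (e ρ : ℝ) (p : (Fin 3 → ℂ) × (Fin 3 → ℂ)) :
    ‖W κ e ρ p‖ = 1 := by
  unfold W
  rw [norm_mul, hκ, one_mul]
  have h : I * (e : ℂ) * ((‖p.1 0‖ : ℂ) ^ 2 + (‖p.1 1‖ : ℂ) ^ 2 + (‖p.1 2‖ : ℂ) ^ 2
            + (‖part (fun _ => (ρ : ℂ)) p 0‖ : ℂ) ^ 2 + (‖part (fun _ => (ρ : ℂ)) p 1‖ : ℂ) ^ 2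
            + (‖part (fun _ => (ρ : ℂ)) p 2‖ : ℂ) ^ 2)
      = ((e * (‖p.1 0‖ ^ 2 + ‖p.1 1‖ ^ 2 + ‖p.1 2‖ ^ 2
            + ‖part (fun _ => (ρ : ℂ)) p 0‖ ^ 2 + ‖part (fun _ => (ρ : ℂ)) p 1‖ ^ 2
            + ‖part (fun _ => (ρ : ℂ)) p 2‖ ^ 2) : ℝ) : ℂ) * I := by
    push_cast
    ring
  rw [h, Complex.norm_exp_ofReal_mul_I]

theorem W_pow (κ : ℂ) (e ρ : ℝ) (p : (Fin 3 → ℂ) × (Fin 3 → ℂ)) (n : ℕ) :
    W κ e ρ p ^ n = κ ^ n * exp (I * (n * e) * (‖p.1 0‖ ^ 2 + ‖p.1 1‖ ^ 2 + ‖p.1 2‖ ^ 2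
            + ‖part (fun _ => (ρ : ℂ)) p 0‖ ^ 2 + ‖part (fun _ => (ρ : ℂ)) p 1‖ ^ 2
            + ‖part (fun _ => (ρ : ℂ)) p 2‖ ^ 2)) := by
  unfold W
  rw [mul_pow, ← Complex.exp_nat_mul]
  congr 2
  ring

theorem W_integrable (κ : ℂ) (hκ : ‖κ‖ = 1) (e ρ : ℝ) (n : ℕ) :
    Integrable (fun p => W κ e ρ p ^ n) ((gam 3).prod (gam 3)) := by
  refine Integrable.of_bound ((W_cont κ e ρ).pow n).aestronglyMeasurable 1
    (Filter.Eventually.of_forall fun p => ?_)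
  rw [norm_pow, W_norm κ hκ, one_pow]

/-- the moments of the rotating factor -/
theorem W_moment (κ : ℂ) (hκ : ‖κ‖ = 1) (e ρ : ℝ) (hρ : |ρ| < 1) (n : ℕ) :
    ∫ p, (W κ e ρ p ^ n).re ∂((gam 3).prod (gam 3))
      = (κ ^ n * (((1 - I * (n * e)) ^ 2 + (n * e) ^ 2 * ρ ^ 2) ^ 3)⁻¹ : ℂ).re := by
  have h1 := integral_re (𝕜 := ℂ) (W_integrable κ hκ e ρ n)
  simp only [RCLike.re_eq_complex_re] at h1
  rw [h1]
  congr 1
  simp only [W_pow]
  rw [integral_const_mul, rotor_aux e ρ hρ n]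

theorem W_odd (κ : ℂ) (hκ : ‖κ‖ = 1) (e ρ : ℝ) (hρ : |ρ| < 1) (m : ℕ) :
    ∫ p, (W κ e ρ p).re ^ (2 * m + 1) ∂((gam 3).prod (gam 3))
      = (1 / 4 ^ m : ℝ) * ∑ j ∈ Finset.range (m + 1), ((2 * m + 1).choose j : ℝ) *
        (κ ^ (2 * (m - j) + 1) * (((1 - I * (((2 * (m - j) + 1 : ℕ) : ℂ) * e)) ^ 2
          + (((2 * (m - j) + 1 : ℕ) : ℂ) * e) ^ 2 * ρ ^ 2) ^ 3)⁻¹ : ℂ).re := by
  have h1 : ∀ p, (W κ e ρ p).re ^ (2 * m + 1) = (1 / 4 ^ m : ℝ) *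
      ∑ j ∈ Finset.range (m + 1), ((2 * m + 1).choose j : ℝ) *
        (W κ e ρ p ^ (2 * (m - j) + 1)).re := fun p => re_pow _ (W_norm κ hκ e ρ p) m
  simp only [h1]
  rw [integral_const_mul, integral_finsetSum]
  · congr 1
    refine Finset.sum_congr rfl fun j _ => ?_
    rw [integral_const_mul, W_moment κ hκ e ρ hρ]
  · intro j _
    have h2 := ((W_integrable κ hκ e ρ (2 * (m - j) + 1)).re).const_mul ((2 * m + 1).choose j : ℝ)
    simpa [RCLike.re_eq_complex_re] using h2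

/-- the inner coefficient -/
noncomputable def Bml (κ : ℂ) (e : ℝ) (m l : ℕ) : ℝ :=
  ∑ j ∈ Finset.range (m + 1), ((2 * m + 1).choose j : ℝ) * bT κ e (2 * (m - j) + 1) l

theorem Bml_le (κ : ℂ) (hκ : ‖κ‖ = 1) (e : ℝ) (m l : ℕ) :
    |Bml κ e m l| ≤ 4 ^ m * ((l + 2).choose 2 : ℝ) := by
  unfold Bml
  refine (Finset.abs_sum_le_sum_abs _ _).trans ?_
  have h1 : ∀ j ∈ Finset.range (m + 1), |((2 * m + 1).choose j : ℝ) * bT κ e (2 * (m - j) + 1) l|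
      ≤ ((2 * m + 1).choose j : ℝ) * ((l + 2).choose 2 : ℝ) := by
    intro j _
    rw [abs_mul, Nat.abs_cast]
    exact mul_le_mul_of_nonneg_left (bT_le κ hκ e _ l) (Nat.cast_nonneg _)
  refine (Finset.sum_le_sum h1).trans ?_
  rw [← Finset.sum_mul]
  have h2 := Nat.sum_range_choose_halfway m
  have h3 : (∑ j ∈ Finset.range (m + 1), ((2 * m + 1).choose j : ℝ)) = 4 ^ m := by
    exact_mod_cast h2
  rw [h3]

/-- the double series -/
noncomputable def FF (κ : ℂ) (e ρ : ℝ) (x : ℕ × ℕ) : ℝ :=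
  (Real.pi / 4) * (hc x.1 / 4 ^ x.1 * Bml κ e x.1 x.2) * ρ ^ (2 * (x.1 + x.2) + 1)

theorem FF_summable (κ : ℂ) (hκ : ‖κ‖ = 1) (e ρ : ℝ) (hρ : |ρ| < 1) :
    Summable (FF κ e ρ) := by
  have hρ2 : ‖ρ ^ 2‖ < 1 := by
    rw [norm_pow, Real.norm_eq_abs]
    exact pow_lt_one₀ (abs_nonneg _) hρ two_ne_zero
  have h1 : Summable (fun l : ℕ => ((l + 2).choose 2 : ℝ) * (ρ ^ 2) ^ l) :=
    summable_choose_mul_geometric_of_norm_lt_one 2 hρ2
  have h2 : Summable (fun x : ℕ × ℕ => ((Real.pi / 4) * hc x.1) *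
      (((x.2 + 2).choose 2 : ℝ) * (ρ ^ 2) ^ x.2)) := by
    refine Summable.mul_of_nonneg (hc_summable.mul_left _) h1 (fun m => ?_) (fun l => ?_)
    · have := hc_pos m
      positivity
    · positivity
  refine Summable.of_norm_bounded h2 fun x => ?_
  obtain ⟨m, l⟩ := x
  unfold FF
  simp only
  rw [Real.norm_eq_abs, abs_mul, abs_mul, abs_mul, abs_pow,
    abs_of_pos (show (0 : ℝ) < Real.pi / 4 by positivity),
    abs_of_pos (show (0 : ℝ) < hc m / 4 ^ m from div_pos (hc_pos m) (by positivity))]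
  have h3 := Bml_le κ hκ e m l
  have h4 : |ρ| ^ (2 * (m + l) + 1) ≤ (ρ ^ 2) ^ l := by
    rw [← sq_abs, ← pow_mul]
    exact pow_le_pow_of_le_one (abs_nonneg _) hρ.le (by omega)
  have hp := hc_pos m
  have h5 : hc m / 4 ^ m * |Bml κ e m l| ≤ hc m * ((l + 2).choose 2 : ℝ) := by
    calc hc m / 4 ^ m * |Bml κ e m l| ≤ hc m / 4 ^ m * (4 ^ m * ((l + 2).choose 2 : ℝ)) :=
          mul_le_mul_of_nonneg_left h3 (by positivity)
      _ = hc m * ((l + 2).choose 2 : ℝ) := by field_simp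
  calc Real.pi / 4 * (hc m / 4 ^ m * |Bml κ e m l|) * |ρ| ^ (2 * (m + l) + 1)
      ≤ Real.pi / 4 * (hc m * ((l + 2).choose 2 : ℝ)) * (ρ ^ 2) ^ l := by
        refine mul_le_mul (mul_le_mul_of_nonneg_left h5 (by positivity)) h4 (by positivity)
          (by positivity)
    _ = Real.pi / 4 * hc m * (((l + 2).choose 2 : ℝ) * (ρ ^ 2) ^ l) := by ring

theorem FF_fiber (κ : ℂ) (hκ : ‖κ‖ = 1) (e ρ : ℝ) (hρ : |ρ| < 1) (m : ℕ) :
    HasSum (fun l => FF κ e ρ (m, l)) ((Real.pi / 4) * hc m * ρ ^ (2 * m + 1) *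
      ∫ p, (W κ e ρ p).re ^ (2 * m + 1) ∂((gam 3).prod (gam 3))) := by
  rw [W_odd κ hκ e ρ hρ]
  have h1 : HasSum (fun l => ∑ j ∈ Finset.range (m + 1), ((2 * m + 1).choose j : ℝ) *
      (bT κ e (2 * (m - j) + 1) l * ρ ^ (2 * l)))
      (∑ j ∈ Finset.range (m + 1), ((2 * m + 1).choose j : ℝ) *
        (κ ^ (2 * (m - j) + 1) * (((1 - I * (((2 * (m - j) + 1 : ℕ) : ℂ) * e)) ^ 2
          + (((2 * (m - j) + 1 : ℕ) : ℂ) * e) ^ 2 * ρ ^ 2) ^ 3)⁻¹ : ℂ).re) :=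
    hasSum_sum fun j _ => (bT_hasSum κ e ρ hρ _).mul_left _
  have h2 := (h1.mul_left (1 / 4 ^ m : ℝ)).mul_left ((Real.pi / 4) * hc m * ρ ^ (2 * m + 1))
  refine hs_congr (fun l => ?_) h2
  unfold FF Bml
  simp only
  have h3 : ∑ j ∈ Finset.range (m + 1), ((2 * m + 1).choose j : ℝ) *
      (bT κ e (2 * (m - j) + 1) l * ρ ^ (2 * l)) = (∑ j ∈ Finset.range (m + 1),
      ((2 * m + 1).choose j : ℝ) * bT κ e (2 * (m - j) + 1) l) * ρ ^ (2 * l) := by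
    rw [Finset.sum_mul]
    refine Finset.sum_congr rfl fun j _ => ?_
    ring
  rw [h3]
  have h4 : ρ ^ (2 * (m + l) + 1) = ρ ^ (2 * m + 1) * ρ ^ (2 * l) := by
    rw [← pow_add]
    congr 1
    ring
  rw [h4]
  field_simp

theorem FF_anti (κ : ℂ) (e ρ : ℝ) (N : ℕ) :
    ∑ x ∈ Finset.HasAntidiagonal.antidiagonal N, FF κ e ρ x = (Real.pi / 4) * (That κ e N * ρ ^ (2 * N + 1)) := by
  rw [Finset.Nat.sum_antidiagonal_eq_sum_range_succ_mk]
  unfold That FF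
  rw [Finset.sum_mul, Finset.mul_sum]
  refine Finset.sum_congr rfl fun m hm => ?_
  have hm' := Finset.mem_range.1 hm
  simp only
  have h1 : m + (N - m) = N := by omega
  rw [h1]
  unfold Bml
  ring

end Trot3Aux

open Trot3Aux

theorem rotor_series (κ : ℂ) (hκ : ‖κ‖ = 1) (e ρ : ℝ) (hρ : |ρ| < 1) :
    Summable (fun N => |That κ e N| * |ρ| ^ (2 * N + 1)) ∧
    HasSum (fun N => (((Real.pi / 4) * (That κ e N * ρ ^ (2 * N + 1)) : ℝ) : ℂ))
      (corr (FT κ e) (HT e) (fun _ => (ρ : ℂ))) := by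
  have hs := FF_summable κ hκ e ρ hρ
  obtain ⟨T, hT⟩ : ∃ T : ℝ, HasSum (FF κ e ρ) T := hs
  -- sum over the fibres
  have h1 : HasSum (fun m => (Real.pi / 4) * hc m * ρ ^ (2 * m + 1) *
      ∫ p, (W κ e ρ p).re ^ (2 * m + 1) ∂((gam 3).prod (gam 3))) T :=
    hT.prod_fiberwise fun m => FF_fiber κ hκ e ρ hρ m
  have h2 := rotor_cond κ hκ e ρ hρ
  have h3 : HasSum (fun m => ((((Real.pi / 4) * hc m * ρ ^ (2 * m + 1) *
      ∫ p, (W κ e ρ p).re ^ (2 * m + 1) ∂((gam 3).prod (gam 3))) : ℝ) : ℂ)) (T : ℂ) :=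
    Complex.hasSum_ofReal.2 h1
  have h4 : corr (FT κ e) (HT e) (fun _ => (ρ : ℂ)) = (T : ℂ) := by
    refine h2.unique (hs_congr (fun m => ?_) h3)
    rw [Complex.ofReal_mul]
    congr 1
    exact (integral_ofReal (𝕜 := ℂ) (f := fun p => (W κ e ρ p).re ^ (2 * m + 1))).symm
  -- sum over the antidiagonals
  have h5 : HasSum (fun N => (Real.pi / 4) * (That κ e N * ρ ^ (2 * N + 1))) T := by
    have h6 : HasSum (fun x => FF κ e ρ
        (Finset.HasAntidiagonal.sigmaAntidiagonalEquivProd x)) T :=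
      (Finset.HasAntidiagonal.sigmaAntidiagonalEquivProd.hasSum_iff).2 hT
    have h7 := h6.sigma (g := fun N => (Real.pi / 4) * (That κ e N * ρ ^ (2 * N + 1)))
      fun N => by
        have h8 : HasSum (fun x : Finset.HasAntidiagonal.antidiagonal N => FF κ e ρ x.1)
            (∑ x : Finset.HasAntidiagonal.antidiagonal N, FF κ e ρ x.1) := hasSum_fintype _
        rw [Finset.univ_eq_attach, Finset.sum_attach (Finset.HasAntidiagonal.antidiagonal N) (FF κ e ρ),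
          FF_anti] at h8
        exact h8
    exact h7
  refine ⟨?_, ?_⟩
  · have h6 := (h5.summable.abs).mul_left (4 / Real.pi)
    refine h6.congr fun N => ?_
    rw [abs_mul, abs_mul, abs_pow, abs_of_pos (show (0 : ℝ) < Real.pi / 4 by positivity)]
    have := Real.pi_ne_zero
    field_simp
  · rw [h4]
    exact Complex.hasSum_ofReal.2 h5

end GUB
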