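import Pool.Agent.Lib.MP_721eb4_an.UB.Data
import Pool.Agent.Lib.MP_721eb4_an.UB.Trot3
import Pool.Agent.Lib.MP_721eb4_an.UB.Univ
import Pool.Agent.Lib.MP_721eb4_an.UB.Comp
import Pool.Agent.Lib.MP_721eb4_an.UB.TailT
import Pool.Agent.Lib.MP_721eb4_an.UB.Rot
import Pool.Agent.Lib.MP_721eb4_an.UB.AdmA
import Pool.Agent.Lib.MP_721eb4_an.UB.AsmG

/-! Upper bound for the complex Grothendieck constant: module AsmT -/

set_option autoImplicit false

open MeasureTheory Complex Set GLB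
open scoped ComplexConjugate

namespace GUB

noncomputable def corT (s : ℂ) : ℂ := corr (FT kapT eT) (HT eT) (fun _ => ker kT s)

theorem AsmT_kap : ‖kapT‖ = 1 := by
  have h1 : kapT = ((1194051 / 1930949 : ℝ) : ℂ) + ((-(1517500 / 1930949) : ℝ) : ℂ) * I := by
    unfold kapT
    push_cast
    ring
  rw [h1, Complex.norm_add_mul_I]
  rw [show (1194051 / 1930949 : ℝ) ^ 2 + (-(1517500 / 1930949) : ℝ) ^ 2 = 1 by norm_num]
  exact Real.sqrt_one

theorem AsmT_kl1 : kl1 kT = 1 := by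
  have h0 : kT.coeff 0 = 19 / 20 := by
    simp [kT]
  have h1 : kT.coeff 1 = -(1 / 20) := by
    simp [kT, Polynomial.coeff_C]
  have h2 : ∀ m, 2 ≤ m → kT.coeff m = 0 := by
    intro m hm
    have h3 : m ≠ 0 := by omega
    have h4 : 1 ≠ m := by omega
    simp [kT, Polynomial.coeff_C, h3, Polynomial.coeff_X, h4]
  rw [AsmG_kl1 kT 2 h2, Finset.sum_range_succ, Finset.sum_range_one, h0, h1]
  norm_num

theorem AsmT_FT_meas (κ : ℂ) (e : ℝ) : Measurable (FT κ e) := by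
  unfold FT
  exact sg_measurable.comp (by fun_prop)

theorem AsmT_HT_meas (e : ℝ) : Measurable (HT e) := by
  unfold HT
  exact sg_measurable.comp (by fun_prop)

theorem AsmT_HT_rot (e : ℝ) (w : ℂ) (z : Fin 5 → ℂ) (hw : ‖w‖ = 1) :
    HT e (fun j => w * z j) = w * HT e z := by
  unfold HT
  have hn : ∀ j, ‖w * z j‖ = ‖z j‖ := fun j => by rw [norm_mul, hw, one_mul]
  simp only [hn]
  rw [← sg_mul w _ hw]
  congr 1
  ring

theorem corT_adm : Adm corT 1 0 :=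
  Adm_corr (FT kapT eT) (HT eT) (AsmT_FT_meas _ _) (AsmT_HT_meas _)
    (fun _ => sg_norm_le _) (fun _ => sg_norm_le _) (fun _ => kT) (fun _ => AsmT_kl1)

theorem AsmT_both :
    (∀ N, |(Real.pi / 4) * compC (That kapT eT) kT N| ≤ 9162 * (11 / 10 : ℝ)⁻¹ ^ (2 * N + 1)) ∧
    ∀ s : ℂ, ‖s‖ < 1 → HasSum (fun N => (((Real.pi / 4) * compC (That kapT eT) kT N : ℝ) : ℂ)
      * (s * (((‖s‖ ^ 2) ^ N : ℝ) : ℂ))) (corT s) := by
  refine AsmG_main (FT kapT eT) (HT eT) (AsmT_FT_meas _ _) (AsmT_HT_meas _)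
    (fun _ => sg_norm_le _) (fun _ => sg_norm_le _) (AsmT_HT_rot eT) kT (11 / 10) 9162
    (by norm_num) (fun s hs => kT_re s hs) ?_ (That kapT eT)
    (fun ρ hρ => (rotor_series kapT AsmT_kap eT ρ hρ).1)
    (fun ρ hρ => (rotor_series kapT AsmT_kap eT ρ hρ).2)
  intro s hs
  have h1 : NN (kerC kT s) ≤ 62 / 10 := kT_NN s hs
  have h0 : 0 ≤ NN (kerC kT s) := AsmG_NN_nonneg (kT_re s hs.le)
  calc NN (kerC kT s) ^ 5 ≤ (62 / 10 : ℝ) ^ 5 := pow_le_pow_left₀ h0 h1 5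
    _ ≤ 9162 := by norm_num

theorem corT_tail (N : ℕ) :
    |(Real.pi / 4) * compC (That kapT eT) kT N| ≤ 9162 * (11 / 10 : ℝ)⁻¹ ^ (2 * N + 1) :=
  AsmT_both.1 N

theorem corT_series (s : ℂ) (hs : ‖s‖ < 1) :
    HasSum (fun N => (((Real.pi / 4) * compC (That kapT eT) kT N : ℝ) : ℂ)
      * (s * (((‖s‖ ^ 2) ^ N : ℝ) : ℂ))) (corT s) :=
  AsmT_both.2 s hs

end GUB
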