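import Pool.Agent.Lib.MP_721eb4_an.UB.Defs

/-! Upper bound for the complex Grothendieck constant: module Ci -/

set_option autoImplicit false

open MeasureTheory Complex Set GLB
open scoped ComplexConjugate

namespace GUB

/-- a cubic polynomial slightly above `1/√(1+x)` on `[0,1]` -/
noncomputable def ciq (x : ℝ) : ℝ := 1 - 47 / 100 * x + 6 / 25 * x ^ 2 - 3 / 50 * x ^ 3

theorem ciq_pos (x : ℝ) (h0 : 0 ≤ x) (h1 : x ≤ 1) : 0 < ciq x := by
  unfold ciq
  nlinarith [mul_nonneg h0 h0, mul_nonneg (mul_nonneg h0 h0) (sub_nonneg.2 h1)]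

theorem ciq_key (x : ℝ) (h0 : 0 ≤ x) (h1 : x ≤ 1) : 1 ≤ (1 + x) * ciq x ^ 2 := by
  have hx : 0 ≤ 1 - x := sub_nonneg.2 h1
  have h : (1 + x) * ciq x ^ 2 = 1 + ((3 / 50) * (x ^ 1 * (1 - x) ^ 7) + (1809 / 10000) * (x ^ 2 * (1 - x) ^ 6) + (1807 / 10000) * (x ^ 3 * (1 - x) ^ 5) + (73 / 1250) * (x ^ 4 * (1 - x) ^ 4) + (149 / 5000) * (x ^ 5 * (1 - x) ^ 3) + (673 / 10000) * (x ^ 6 * (1 - x) ^ 2) + (443 / 10000) * (x ^ 7 * (1 - x) ^ 1) + (41 / 5000) * (x ^ 8 * (1 - x) ^ 0)) := by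
    unfold ciq
    ring
  rw [h]
  have : 0 ≤ (3 / 50) * (x ^ 1 * (1 - x) ^ 7) + (1809 / 10000) * (x ^ 2 * (1 - x) ^ 6) + (1807 / 10000) * (x ^ 3 * (1 - x) ^ 5) + (73 / 1250) * (x ^ 4 * (1 - x) ^ 4) + (149 / 5000) * (x ^ 5 * (1 - x) ^ 3) + (673 / 10000) * (x ^ 6 * (1 - x) ^ 2) + (443 / 10000) * (x ^ 7 * (1 - x) ^ 1) + (41 / 5000) * (x ^ 8 * (1 - x) ^ 0) := by
    positivity
  linarith

theorem ci_point (x : ℝ) (h0 : 0 ≤ x) (h1 : x ≤ 1) :
    (√(1 + x))⁻¹ ≤ ciq x * (15 - 10 * ((1 + x) * ciq x ^ 2) + 3 * ((1 + x) * ciq x ^ 2) ^ 2) / 8 := by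
  have hq := ciq_pos x h0 h1
  have hk := ciq_key x h0 h1
  have hy : 0 < √(1 + x) := Real.sqrt_pos.2 (by linarith)
  have hy2 : √(1 + x) ^ 2 = 1 + x := Real.sq_sqrt (by linarith)
  set y := √(1 + x) with hyd
  set q := ciq x with hqd
  rw [← hy2] at hk ⊢
  have ht : 1 ≤ y * q := by
    have h2 : 1 ≤ (y * q) ^ 2 := by
      calc (1 : ℝ) ≤ y ^ 2 * q ^ 2 := hk
        _ = (y * q) ^ 2 := by ring
    by_contra h3
    push Not at h3
    have h4 : 0 ≤ y * q := by positivity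
    nlinarith
  rw [inv_le_iff_one_le_mul₀ hy]
  have h5 : 0 ≤ (y * q - 1) ^ 3 * (3 * (y * q) ^ 2 + 9 * (y * q) + 8) := by
    have : 0 ≤ y * q - 1 := by linarith
    positivity
  nlinarith [h5]

/-- coefficients -/
noncomputable def cid : ℕ → ℝ
  | 0 => 1
  | 1 => -3 / 2
  | 2 => 7 / 8
  | 3 => -274973 / 400000
  | 4 => 93604443 / 160000000
  | 5 => -41105625521 / 80000000000
  | 6 => 35958000639 / 80000000000
  | 7 => -29990534049 / 80000000000
  | 8 => 22717952331 / 80000000000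
  | 9 => -1498626351 / 8000000000
  | 10 => 4186198521 / 40000000000
  | 11 => -488608821 / 10000000000
  | 12 => 189741231 / 10000000000
  | 13 => -7613433 / 1250000000
  | 14 => 24867 / 15625000
  | 15 => -1650213 / 5000000000
  | 16 => 259767 / 5000000000
  | 17 => -13851 / 2500000000
  | 18 => 729 / 2500000000
  | _ => 0

theorem int_sin_pow_half (k : ℕ) : ∫ x in (0:ℝ)..(Real.pi / 2), Real.sin x ^ (2 * k)
    = Real.pi / 2 * ∏ i ∈ Finset.range k, ((2 * (i : ℝ) + 1) / (2 * (i : ℝ) + 2)) := by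
  induction k with
  | zero => simp
  | succ k ih =>
    rw [show 2 * (k + 1) = 2 * k + 2 by ring, integral_sin_pow, ih, Finset.prod_range_succ]
    simp
    ring

/-- the integral, to eight digits, in units of `π/4` -/
theorem ci_le : ∫ θ in (0:ℝ)..(Real.pi / 2), Real.cos θ ^ 2 / Real.sqrt (1 + Real.sin θ ^ 2)
    ≤ Real.pi / 4 * (906494 / 10 ^ 6) := by
  have hpi : (0 : ℝ) ≤ Real.pi / 2 := by positivity
  have h1 : ∫ θ in (0:ℝ)..(Real.pi / 2), Real.cos θ ^ 2 / Real.sqrt (1 + Real.sin θ ^ 2)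
      ≤ ∫ θ in (0:ℝ)..(Real.pi / 2), ∑ k ∈ Finset.range 19, cid k * Real.sin θ ^ (2 * k) := by
    apply intervalIntegral.integral_mono_on hpi
    · apply Continuous.intervalIntegrable
      refine Continuous.div (by fun_prop) (by fun_prop) (fun θ => ?_)
      positivity
    · apply Continuous.intervalIntegrable
      fun_prop
    · intro θ _
      have hs0 : 0 ≤ Real.sin θ ^ 2 := by positivity
      have hs1 : Real.sin θ ^ 2 ≤ 1 := Real.sin_sq_le_one θ
      have h2 := ci_point _ hs0 hs1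
      have h3 : Real.cos θ ^ 2 = 1 - Real.sin θ ^ 2 := by
        have := Real.sin_sq_add_cos_sq θ
        linarith
      rw [div_eq_mul_inv, h3]
      refine le_trans (mul_le_mul_of_nonneg_left h2 (by linarith)) (le_of_eq ?_)
      simp only [Finset.sum_range_succ, Finset.sum_range_zero, cid, ciq]
      ring
  refine le_trans h1 ?_
  rw [intervalIntegral.integral_finsetSum]
  · have h4 : ∀ k ∈ Finset.range 19, ∫ θ in (0:ℝ)..(Real.pi / 2), cid k * Real.sin θ ^ (2 * k) =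
        cid k * (Real.pi / 2 * ∏ i ∈ Finset.range k, ((2 * (i : ℝ) + 1) / (2 * (i : ℝ) + 2))) := by
      intro k _
      rw [intervalIntegral.integral_const_mul, int_sin_pow_half]
    rw [Finset.sum_congr rfl h4]
    have h5 : ∑ k ∈ Finset.range 19, cid k * (Real.pi / 2 * ∏ i ∈ Finset.range k,
        ((2 * (i : ℝ) + 1) / (2 * (i : ℝ) + 2))) = Real.pi / 4 * (2 * ∑ k ∈ Finset.range 19,
          cid k * ∏ i ∈ Finset.range k, ((2 * (i : ℝ) + 1) / (2 * (i : ℝ) + 2))) := by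
      rw [Finset.mul_sum, Finset.mul_sum]
      refine Finset.sum_congr rfl fun k _ => ?_
      ring
    rw [h5]
    apply mul_le_mul_of_nonneg_left _ (by positivity)
    simp only [Finset.sum_range_succ, Finset.sum_range_zero, Finset.prod_range_succ,
      Finset.prod_range_zero, cid]
    norm_num
  · intro k _
    apply Continuous.intervalIntegrable
    fun_prop

end GUB
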