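import Pool.Agent.Lib.MP_721eb4_an.LB.GaussN

/-! Upper bound for the complex Grothendieck constant: common definitions. -/

set_option autoImplicit false

open MeasureTheory Complex Set GLB
open scoped ComplexConjugate

namespace GUB

/-- the complex sign -/
noncomputable def sg (z : ℂ) : ℂ := z / ((‖z‖ : ℝ) : ℂ)

/-- the standard Gaussian measure on `Fin n → ℂ` (each coordinate has `E|z|² = 1`) -/
noncomputable def gam (n : ℕ) : Measure (Fin n → ℂ) := Measure.pi (fun _ => cg)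

/-- the correlated partner: `w_j = conj ρ_j z_j + √(1-|ρ_j|²) z'_j`, so `E z_j conj w_j = ρ_j` -/
noncomputable def part {n : ℕ} (ρ : Fin n → ℂ) (p : (Fin n → ℂ) × (Fin n → ℂ)) : Fin n → ℂ :=
  fun j => conj (ρ j) * p.1 j + ((√(1 - ‖ρ j‖ ^ 2) : ℝ) : ℂ) * p.2 j

/-- the correlation `E F(z) conj H(w)` where `z, w` are standard Gaussian vectors with
independent pairs `(z_j, w_j)` of correlation `E z_j conj w_j = ρ_j` -/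
noncomputable def corr {n : ℕ} (F H : (Fin n → ℂ) → ℂ) (ρ : Fin n → ℂ) : ℂ :=
  ∫ p, F p.1 * conj (H (part ρ p)) ∂((gam n).prod (gam n))

/-- `ℓ¹` norm of the coefficients -/
noncomputable def kl1 (k : Polynomial ℝ) : ℝ := ∑ m ∈ k.support, |k.coeff m|

/-- the kernel `s k(|s|²)` on the disc -/
noncomputable def ker (k : Polynomial ℝ) (s : ℂ) : ℂ := s * ((k.eval (‖s‖ ^ 2) : ℝ) : ℂ)

/-- the kernel `r k(r²)` on the real line -/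
noncomputable def kerR (k : Polynomial ℝ) (r : ℝ) : ℝ := r * k.eval (r ^ 2)

/-- the kernel `s k(s²)`, an entire function -/
noncomputable def kerC (k : Polynomial ℝ) (s : ℂ) : ℂ := s * Polynomial.aeval (s ^ 2) k

/-- the norm of `a` as a bilinear form on the polydisc is at most 1 -/
def PolyNorm {n : ℕ} (a : Matrix (Fin n) (Fin n) ℂ) : Prop :=
  ∀ s t : Fin n → ℂ, (∀ i, ‖s i‖ ≤ 1) → (∀ j, ‖t j‖ ≤ 1) →
    ‖∑ i, ∑ j, a i j * s i * t j‖ ≤ 1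

/-- the Hilbert space norm of `a` is at most `S` -/
def HilbBound {n : ℕ} (a : Matrix (Fin n) (Fin n) ℂ) (S : ℝ) : Prop :=
  ∀ (m : ℕ) (x y : Fin n → E m), (∀ i, ‖x i‖ ≤ 1) → (∀ j, ‖y j‖ ≤ 1) →
    ‖∑ i, ∑ j, a i j * inner ℂ (x i) (y j)‖ ≤ S

/-- `Φ` is admissible with constants `α, β`: for every matrix `a` of polydisc norm `≤ 1` and
Hilbert norm `≤ S` one has `|∑ a_ij Φ(⟨x_i, y_j⟩)| ≤ α + β S` for all unit vectors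
`x_i, y_j` with `|⟨x_i, y_j⟩| < 1`. -/
def Adm (Φ : ℂ → ℂ) (α β : ℝ) : Prop :=
  ∀ (n : ℕ) (a : Matrix (Fin n) (Fin n) ℂ), PolyNorm a → ∀ S : ℝ, HilbBound a S →
    ∀ (m : ℕ) (x y : Fin n → E m), (∀ i, ‖x i‖ = 1) → (∀ j, ‖y j‖ = 1) →
      (∀ i j, ‖inner ℂ (x i) (y j)‖ < 1) →
      ‖∑ i, ∑ j, a i j * Φ (inner ℂ (x i) (y j))‖ ≤ α + β * S

/-- the density of the pair `(z,w)` with correlation `ρ`, continued to complex `ρ` -/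
noncomputable def kd (ρ z w : ℂ) : ℂ :=
  ((Real.pi : ℂ) ^ 2 * (1 - ρ ^ 2))⁻¹ *
    exp (-((z * conj z + w * conj w - ρ * (z * conj w + conj z * w)) / (1 - ρ ^ 2)))

/-- the total variation of `kd ρ` -/
noncomputable def NN (ρ : ℂ) : ℝ := ‖1 - ρ ^ 2‖ / (1 - ρ.re ^ 2)

/-- `((1/2)_k)^2 / (k! (k+1)!)` -/
noncomputable def hc (k : ℕ) : ℝ := ((Nat.centralBinom k : ℝ) / 4 ^ k) ^ 2 / (k + 1)

/-- a 2 × 2 matrix `(a b; c d)` -/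
structure M2 (R : Type) where
  a : R
  b : R
  c : R
  d : R

namespace M2

variable {R : Type} [CommRing R]

def det (P : M2 R) : R := P.a * P.d - P.b * P.c
/-- the transposed matrix -/
def tr (P : M2 R) : M2 R := ⟨P.a, P.c, P.b, P.d⟩
def zero : M2 R := ⟨0, 0, 0, 0⟩
def add (P Q : M2 R) : M2 R := ⟨P.a + Q.a, P.b + Q.b, P.c + Q.c, P.d + Q.d⟩
def map {S : Type} (f : R → S) (P : M2 R) : M2 S := ⟨f P.a, f P.b, f P.c, f P.d⟩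

end M2

/-- positive semidefinite symmetric part -/
def M2.psd (P : M2 ℝ) : Prop := 0 ≤ P.a ∧ 0 ≤ P.d ∧ (P.b + P.c) ^ 2 ≤ 4 * P.a * P.d

/-- the form `z* P z` -/
noncomputable def M2.form (P : M2 ℝ) (z : Fin 2 → ℂ) : ℂ :=
  P.a * (conj (z 0) * z 0) + P.b * (conj (z 0) * z 1) + P.c * (conj (z 1) * z 0)
    + P.d * (conj (z 1) * z 1)

/-- the function `sgn(v·z) exp(-z*Pz)` on `ℂ²` -/
noncomputable def fP (v1 v2 : ℝ) (P : M2 ℝ) (z : Fin 2 → ℂ) : ℂ :=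
  sg (v1 * z 0 + v2 * z 1) * exp (-(P.form z))

section polys
variable {R : Type} [CommRing R]

/-- `α(v,P) = v1² d + v2² a - v1 v2 (b+c)` -/
def al (v1 v2 : R) (P : M2 R) : R := v1 * v1 * P.d + v2 * v2 * P.a - v1 * v2 * (P.b + P.c)

/-- `det (1 + Σ diag(P,Q))` with `Σ = (1 C; C 1)`, `C = diag(r1,r2)` -/
def D2 (P Q : M2 R) (r1 r2 : R) : R :=
  (1 + P.a + P.d + P.det) * (1 + Q.a + Q.d + Q.det) - r1 ^ 2 * ((P.a + P.det) * (Q.a + Q.det))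
    - r2 ^ 2 * ((P.d + P.det) * (Q.d + Q.det)) - r1 * r2 * (P.b * Q.c + P.c * Q.b)
    + r1 ^ 2 * r2 ^ 2 * (P.det * Q.det)

/-- coefficient of `t` in `D2 (P + t v vᵀ) Q` -/
def A2 (v1 v2 : R) (P Q : M2 R) (r1 r2 : R) : R :=
  (v1 * v1 + v2 * v2 + al v1 v2 P) * (1 + Q.a + Q.d + Q.det)
    - r1 ^ 2 * ((v1 * v1 + al v1 v2 P) * (Q.a + Q.det))
    - r2 ^ 2 * ((v2 * v2 + al v1 v2 P) * (Q.d + Q.det)) - r1 * r2 * (v1 * v2 * (Q.b + Q.c))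
    + r1 ^ 2 * r2 ^ 2 * (al v1 v2 P * Q.det)

/-- coefficient of `t u` in `D2 (P + t v vᵀ) (Q + u w wᵀ)` -/
def E2 (v1 v2 w1 w2 : R) (P Q : M2 R) (r1 r2 : R) : R :=
  (v1 * v1 + v2 * v2 + al v1 v2 P) * (w1 * w1 + w2 * w2 + al w1 w2 Q)
    - r1 ^ 2 * ((v1 * v1 + al v1 v2 P) * (w1 * w1 + al w1 w2 Q))
    - r2 ^ 2 * ((v2 * v2 + al v1 v2 P) * (w2 * w2 + al w1 w2 Q))
    - 2 * (r1 * r2 * (v1 * v2 * w1 * w2))
    + r1 ^ 2 * r2 ^ 2 * (al v1 v2 P * al w1 w2 Q)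

/-- the numerator `D · vᵀ [(1+ΣN)⁻¹Σ]₁₂ w`, `N = diag(P,Q)` -/
def c2 (v1 v2 w1 w2 : R) (P Q : M2 R) (r1 r2 : R) : R :=
  v1 * w1 * (r1 * ((1 + P.d) * (1 + Q.d) - r2 ^ 2 * (P.d * Q.d)) + r2 * (1 - r1 ^ 2) * (P.b * Q.c))
  + v1 * w2 * (-(r2 * (1 - r1 ^ 2) * P.b * Q.a) - r2 * P.b - r1 * (1 + P.d) * Q.b
      + r1 * r2 ^ 2 * (P.d * Q.b))
  + v2 * w1 * (-(r2 * (1 - r1 ^ 2) * P.a * Q.c) - r2 * Q.c - r1 * P.c * (1 + Q.d)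
      + r1 * r2 ^ 2 * (P.c * Q.d))
  + v2 * w2 * (r2 * ((1 + P.a) * (1 + Q.a) - r1 ^ 2 * (P.a * Q.a)) + r1 * (1 - r2 ^ 2) * (P.c * Q.b))

/-- `D2 P Q s (-s³)` as a list of coefficients in `q = s²` -/
def Dl (P Q : M2 R) : List R :=
  [(1 + P.a + P.d + P.det) * (1 + Q.a + Q.d + Q.det), -((P.a + P.det) * (Q.a + Q.det)),
    P.b * Q.c + P.c * Q.b, -((P.d + P.det) * (Q.d + Q.det)), P.det * Q.det]

/-- `A2 v1 v2 P Q s (-s³)` -/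
def Al (v1 v2 : R) (P Q : M2 R) : List R :=
  [(v1 * v1 + v2 * v2 + al v1 v2 P) * (1 + Q.a + Q.d + Q.det),
    -((v1 * v1 + al v1 v2 P) * (Q.a + Q.det)), v1 * v2 * (Q.b + Q.c),
    -((v2 * v2 + al v1 v2 P) * (Q.d + Q.det)), al v1 v2 P * Q.det]

/-- `E2 v1 v2 v1 v2 P Q s (-s³)` -/
def El (v1 v2 : R) (P Q : M2 R) : List R :=
  [(v1 * v1 + v2 * v2 + al v1 v2 P) * (v1 * v1 + v2 * v2 + al v1 v2 Q),
    -((v1 * v1 + al v1 v2 P) * (v1 * v1 + al v1 v2 Q)), 2 * (v1 * v2 * v1 * v2),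
    -((v2 * v2 + al v1 v2 P) * (v2 * v2 + al v1 v2 Q)), al v1 v2 P * al v1 v2 Q]

/-- `c2 v1 v2 v1 v2 P Q s (-s³) / s` -/
def Cl (v1 v2 : R) (P Q : M2 R) : List R :=
  [v1 * v1 * ((1 + P.d) * (1 + Q.d)) - v1 * v2 * ((1 + P.d) * Q.b)
      - v2 * v1 * (P.c * (1 + Q.d)) + v2 * v2 * (P.c * Q.b),
    -(v1 * v1 * (P.b * Q.c)) + v1 * v2 * (P.b * (1 + Q.a)) + v2 * v1 * ((1 + P.a) * Q.c)
      - v2 * v2 * ((1 + P.a) * (1 + Q.a)),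
    v1 * v1 * (P.b * Q.c) - v1 * v2 * (P.b * Q.a) - v2 * v1 * (P.a * Q.c)
      + v2 * v2 * (P.a * Q.a),
    -(v1 * v1 * (P.d * Q.d)) + v1 * v2 * (P.d * Q.b) + v2 * v1 * (P.c * Q.d)
      - v2 * v2 * (P.c * Q.b)]

end polys

/-- the polynomial with a given list of coefficients -/
noncomputable def lp (l : List ℝ) : Polynomial ℝ :=
  l.foldr (fun a p => Polynomial.C a + Polynomial.X * p) 0

/-- the double integral `(1/π) ∫∫ (tu)^{-1/2} c / (D + tA + uB + tuE)²` -/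
noncomputable def Jint (D A B Ee c : ℝ) : ℝ :=
  (1 / Real.pi) * ∫ t in Ioi (0 : ℝ), ∫ u in Ioi (0 : ℝ),
    (√t)⁻¹ * (√u)⁻¹ * c / (D + t * A + u * B + t * u * Ee) ^ 2

/-- The formal series `c D⁻¹ W ∑_k hc k (X c c' W²)^k`, coefficient `N`
(with `W² (A B) = 1`). -/
noncomputable def Theta (D W c c' : PowerSeries ℝ) (N : ℕ) : ℝ :=
  PowerSeries.coeff N (c * D⁻¹ * W * ∑ k ∈ Finset.range (N + 1),
    PowerSeries.C (hc k) * (PowerSeries.X * c * c' * W ^ 2) ^ k)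

/-- first function of the rotor scheme -/
noncomputable def FT (κ : ℂ) (e : ℝ) (z : Fin 5 → ℂ) : ℂ :=
  sg (((κ * exp (I * e * (‖z 2‖ ^ 2 + ‖z 3‖ ^ 2 + ‖z 4‖ ^ 2))).re : ℂ) * z 0
    + ((κ * exp (I * e * (‖z 2‖ ^ 2 + ‖z 3‖ ^ 2 + ‖z 4‖ ^ 2))).im : ℂ) * z 1)

/-- second function of the rotor scheme -/
noncomputable def HT (e : ℝ) (z : Fin 5 → ℂ) : ℂ :=
  sg (((exp (I * e * (‖z 2‖ ^ 2 + ‖z 3‖ ^ 2 + ‖z 4‖ ^ 2))).re : ℂ) * z 0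
    - ((exp (I * e * (‖z 2‖ ^ 2 + ‖z 3‖ ^ 2 + ‖z 4‖ ^ 2))).im : ℂ) * z 1)

/-- coefficient of `q^l` in `Re κ^n [(1 - i n e)² + n² e² q]^{-3}` -/
noncomputable def bT (κ : ℂ) (e : ℝ) (n l : ℕ) : ℝ :=
  (κ ^ n * ((l + 2).choose 2 : ℂ) * (-((n : ℂ) ^ 2 * (e : ℂ) ^ 2)) ^ l
    / (1 - I * n * e) ^ (6 + 2 * l)).re

/-- coefficient of `ρ^{2N+1}` of the rotor scheme, in units of `π/4` -/
noncomputable def That (κ : ℂ) (e : ℝ) (N : ℕ) : ℝ :=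
  ∑ m ∈ Finset.range (N + 1), hc m / 4 ^ m *
    ∑ j ∈ Finset.range (m + 1), ((2 * m + 1).choose j : ℝ) * bT κ e (2 * (m - j) + 1) (N - m)

/-- coefficient `N` of `∑_j b_j q^j k(q)^{2j+1}` -/
noncomputable def compC (b : ℕ → ℝ) (k : Polynomial ℝ) (N : ℕ) : ℝ :=
  ∑ j ∈ Finset.range (N + 1), b j * (k ^ (2 * j + 1)).coeff (N - j)

end GUB
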