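import Pool.Agent.Lib.MP_721eb4_an.UB.Digits

/-! Upper bound for the complex Grothendieck constant: kernel evaluations -/

set_option autoImplicit false
set_option maxRecDepth 100000

namespace GUB.Num
open GUB

theorem evA6 : (fun b : Ball => (b.ok, Nat.ble b.e (2 ^ 60), dig b))
    (pairBall 50 wA6 ⟨1669256, 898293, 182800, 321715⟩ ⟨1669256, 898293, 182800, 321715⟩) = (true, true, dA6) := by
  decide +kernel

theorem evA7 : (fun b : Ball => (b.ok, Nat.ble b.e (2 ^ 60), dig b))
    (pairBall 50 wA7 ⟨1669256, 898293, 182800, 321715⟩ ⟨1156906, 311922, 849005, 291532⟩) = (true, true, dA7) := by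
  decide +kernel

theorem evA8 : (fun b : Ball => (b.ok, Nat.ble b.e (2 ^ 60), dig b))
    (pairBall 50 wA8 ⟨1669256, 898293, 182800, 321715⟩ ⟨1156906, 849005, 311922, 291532⟩) = (true, true, dA8) := by
  decide +kernel

theorem evA9 : (fun b : Ball => (b.ok, Nat.ble b.e (2 ^ 60), dig b))
    (pairBall 50 wA9 ⟨1669256, 182800, 898293, 321715⟩ ⟨1669256, 898293, 182800, 321715⟩) = (true, true, dA9) := by
  decide +kernel

theorem evA10 : (fun b : Ball => (b.ok, Nat.ble b.e (2 ^ 60), dig b))
    (pairBall 50 wA10 ⟨1669256, 182800, 898293, 321715⟩ ⟨1156906, 311922, 849005, 291532⟩) = (true, true, dA10) := by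
  decide +kernel

theorem evA11 : (fun b : Ball => (b.ok, Nat.ble b.e (2 ^ 60), dig b))
    (pairBall 50 wA11 ⟨1669256, 182800, 898293, 321715⟩ ⟨1156906, 849005, 311922, 291532⟩) = (true, true, dA11) := by
  decide +kernel

end GUB.Num
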