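import Pool.Agent.Lib.MP_721eb4_an.UB.Digits

/-! Upper bound for the complex Grothendieck constant: kernel evaluations -/

set_option autoImplicit false
set_option maxRecDepth 100000

namespace GUB.Num
open GUB

theorem evA12 : (fun b : Ball => (b.ok, Nat.ble b.e (2 ^ 60), dig b))
    (pairBall 50 wA12 ⟨1156906, 849005, 311922, 291532⟩ ⟨1156906, 311922, 849005, 291532⟩) = (true, true, dA12) := by
  decide +kernel

theorem evA13 : (fun b : Ball => (b.ok, Nat.ble b.e (2 ^ 60), dig b))
    (pairBall 50 wA13 ⟨1156906, 849005, 311922, 291532⟩ ⟨1156906, 849005, 311922, 291532⟩) = (true, true, dA13) := by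
  decide +kernel

theorem evA14 : (fun b : Ball => (b.ok, Nat.ble b.e (2 ^ 60), dig b))
    (pairBall 50 wA14 ⟨1156906, 311922, 849005, 291532⟩ ⟨1156906, 849005, 311922, 291532⟩) = (true, true, dA14) := by
  decide +kernel

theorem evA15 : (fun b : Ball => (b.ok, Nat.ble b.e (2 ^ 60), dig b))
    (pairBall 50 wA15 ⟨3338512, 1796586, 365600, 643430⟩ ⟨0, 0, 0, 0⟩) = (true, true, dA15) := by
  decide +kernel

theorem evA16 : (fun b : Ball => (b.ok, Nat.ble b.e (2 ^ 60), dig b))
    (pairBall 50 wA16 ⟨3338512, 1081093, 1081093, 643430⟩ ⟨0, 0, 0, 0⟩) = (true, true, dA16) := by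
  decide +kernel

theorem evA17 : (fun b : Ball => (b.ok, Nat.ble b.e (2 ^ 60), dig b))
    (pairBall 50 wA17 ⟨2826162, 1747298, 494722, 613247⟩ ⟨0, 0, 0, 0⟩) = (true, true, dA17) := by
  decide +kernel

end GUB.Num
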