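import Pool.Agent.Lib.MP_721eb4_an.UB.Digits

/-! Upper bound for the complex Grothendieck constant: kernel evaluations -/

set_option autoImplicit false
set_option maxRecDepth 100000

namespace GUB.Num
open GUB

theorem evA18 : (fun b : Ball => (b.ok, Nat.ble b.e (2 ^ 60), dig b))
    (pairBall 50 wA18 ⟨2826162, 1210215, 1031805, 613247⟩ ⟨0, 0, 0, 0⟩) = (true, true, dA18) := by
  decide +kernel

theorem evA19 : (fun b : Ball => (b.ok, Nat.ble b.e (2 ^ 60), dig b))
    (pairBall 50 wA19 ⟨3338512, 365600, 1796586, 643430⟩ ⟨0, 0, 0, 0⟩) = (true, true, dA19) := by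
  decide +kernel

theorem evA20 : (fun b : Ball => (b.ok, Nat.ble b.e (2 ^ 60), dig b))
    (pairBall 50 wA20 ⟨2826162, 1031805, 1210215, 613247⟩ ⟨0, 0, 0, 0⟩) = (true, true, dA20) := by
  decide +kernel

theorem evA21 : (fun b : Ball => (b.ok, Nat.ble b.e (2 ^ 60), dig b))
    (pairBall 50 wA21 ⟨2826162, 494722, 1747298, 613247⟩ ⟨0, 0, 0, 0⟩) = (true, true, dA21) := by
  decide +kernel

theorem evA22 : (fun b : Ball => (b.ok, Nat.ble b.e (2 ^ 60), dig b))
    (pairBall 50 wA22 ⟨2313812, 1698010, 623844, 583064⟩ ⟨0, 0, 0, 0⟩) = (true, true, dA22) := by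
  decide +kernel

theorem evA23 : (fun b : Ball => (b.ok, Nat.ble b.e (2 ^ 60), dig b))
    (pairBall 50 wA23 ⟨2313812, 1160927, 1160927, 583064⟩ ⟨0, 0, 0, 0⟩) = (true, true, dA23) := by
  decide +kernel

theorem evA24 : (fun b : Ball => (b.ok, Nat.ble b.e (2 ^ 60), dig b))
    (pairBall 50 wA24 ⟨2313812, 623844, 1698010, 583064⟩ ⟨0, 0, 0, 0⟩) = (true, true, dA24) := by
  decide +kernel

end GUB.Num
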