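import Pool.Agent.Lib.MP_721eb4_an.UB.Digits

/-! Upper bound for the complex Grothendieck constant: kernel evaluations -/

set_option autoImplicit false
set_option maxRecDepth 100000

namespace GUB.Num
open GUB

theorem evN : (fun b : Ball => (b.ok, Nat.ble b.e (2 ^ 260), dig b))
    (compBall 110 (hcs 111 0 1 []).reverse 1 [496929, -200460, 149372, -153239] 1000000)
      = (true, true, dN) := by
  decide +kernel

end GUB.Num
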