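import Pool.Agent.Lib.MP_721eb4_an.UB.Digits

/-! Upper bound for the complex Grothendieck constant: kernel evaluations -/

set_option autoImplicit false
set_option maxRecDepth 100000

namespace GUB.Num
open GUB

/-- composition with the kernel `kT` -/
def uT (t : Ball) : Ball := compBall 110 t.l t.e [19, -1] 20

theorem evT : (fun t : Ball => (fun b : Ball => (t.ok, b.ok, Nat.ble b.e (2 ^ 260), dig b)) (uT t))
    (thatBall 110) = (true, true, true, dT) := by
  decide +kernel

end GUB.Num
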