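import Pool.Agent.Lib.MP_721eb4_an.UB.Defs
import Pool.Agent.Lib.MP_721eb4_an.UB.JI
import Pool.Agent.Lib.MP_721eb4_an.UB.Uniq

/-! Upper bound for the complex Grothendieck constant: module Form -/

set_option autoImplicit false

open MeasureTheory Complex Set GLB
open scoped ComplexConjugate

namespace GUB

/-- coefficients of the square root of a power series -/
noncomputable def Form_sqc (v : ℕ → ℝ) : ℕ → ℝ
  | 0 => √(v 0)
  | n + 1 => (v (n + 1) - ∑ i : Fin n, Form_sqc v (i + 1) * Form_sqc v (n - i)) / (2 * √(v 0))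
termination_by n => n
decreasing_by
  all_goals
    have := i.isLt
    omega

theorem exists_sqrt_series (Y : PowerSeries ℝ) (hY : 0 < PowerSeries.constantCoeff Y) :
    ∃ W : PowerSeries ℝ, W ^ 2 * Y = 1 ∧ 0 < PowerSeries.constantCoeff W := by
  set v : ℕ → ℝ := fun n => PowerSeries.coeff n Y⁻¹ with hv
  have hv0 : 0 < v 0 := by
    rw [hv]
    simp only [PowerSeries.coeff_zero_eq_constantCoeff]
    rw [PowerSeries.constantCoeff_inv]
    positivity
  have hs : 0 < √(v 0) := Real.sqrt_pos.mpr hv0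
  have hW : (PowerSeries.mk (Form_sqc v)) ^ 2 = Y⁻¹ := by
    ext n
    rw [pow_two, PowerSeries.coeff_mul]
    simp only [PowerSeries.coeff_mk]
    rw [Finset.Nat.sum_antidiagonal_eq_sum_range_succ (fun i j => Form_sqc v i * Form_sqc v j)]
    cases n with
    | zero =>
      simp only [Nat.succ_eq_add_one, zero_add, Finset.range_one, Finset.sum_singleton,
        Nat.sub_self]
      rw [Form_sqc, Real.mul_self_sqrt hv0.le]
    | succ n =>
      rw [Finset.sum_range_succ', Finset.sum_range_succ]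
      have e0 : Form_sqc v (n + 1) * (2 * √(v 0)) = v (n + 1) -
          ∑ k ∈ Finset.range n, Form_sqc v (k + 1) * Form_sqc v (n - k) := by
        rw [Form_sqc, div_mul_cancel₀ _ (by positivity),
          Finset.sum_range (fun k => Form_sqc v (k + 1) * Form_sqc v (n - k))]
      have e1 : Form_sqc v 0 = √(v 0) := by rw [Form_sqc]
      have e2 : ∀ k, n + 1 - (k + 1) = n - k := fun k => by omega
      simp only [e2, Nat.sub_self, Nat.sub_zero, e1]
      have e3 : v (n + 1) = PowerSeries.coeff (n + 1) Y⁻¹ := rfl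
      rw [← e3]
      linarith
  refine ⟨PowerSeries.mk (Form_sqc v), ?_, ?_⟩
  · rw [hW]
    exact PowerSeries.inv_mul_cancel _ hY.ne'
  · rw [← PowerSeries.coeff_zero_eq_constantCoeff_apply, PowerSeries.coeff_mk, Form_sqc]
    exact hs

/-- the power series `F` converges on `(0, δ)` to `f` -/
def FEv (F : PowerSeries ℝ) (δ : ℝ) (f : ℝ → ℝ) : Prop :=
  ∀ q : ℝ, 0 < q → q < δ → Summable (fun n => ‖PowerSeries.coeff n F * q ^ n‖) ∧
    ∑' n, PowerSeries.coeff n F * q ^ n = f q

theorem FEv.mono {F : PowerSeries ℝ} {δ δ' : ℝ} {f : ℝ → ℝ} (h : FEv F δ f) (hd : δ' ≤ δ) :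
    FEv F δ' f := fun q h0 h1 => h q h0 (h1.trans_le hd)

theorem FEv.congr {F : PowerSeries ℝ} {δ : ℝ} {f g : ℝ → ℝ} (h : FEv F δ f)
    (hfg : ∀ q, 0 < q → q < δ → f q = g q) : FEv F δ g := fun q h0 h1 =>
  ⟨(h q h0 h1).1, (h q h0 h1).2.trans (hfg q h0 h1)⟩

theorem FEv.add {F G : PowerSeries ℝ} {δ : ℝ} {f g : ℝ → ℝ} (hF : FEv F δ f) (hG : FEv G δ g) :
    FEv (F + G) δ (fun q => f q + g q) := by
  intro q h0 h1
  obtain ⟨a1, a2⟩ := hF q h0 h1
  obtain ⟨b1, b2⟩ := hG q h0 h1
  have e : ∀ n, PowerSeries.coeff n (F + G) * q ^ n =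
      PowerSeries.coeff n F * q ^ n + PowerSeries.coeff n G * q ^ n := fun n => by
    rw [map_add, add_mul]
  simp only [e]
  refine ⟨(a1.add b1).of_nonneg_of_le (fun _ => norm_nonneg _) (fun n => norm_add_le _ _), ?_⟩
  rw [a1.of_norm.tsum_add b1.of_norm, a2, b2]

theorem FEv.mul {F G : PowerSeries ℝ} {δ : ℝ} {f g : ℝ → ℝ} (hF : FEv F δ f) (hG : FEv G δ g) :
    FEv (F * G) δ (fun q => f q * g q) := by
  intro q h0 h1
  obtain ⟨a1, a2⟩ := hF q h0 h1
  obtain ⟨b1, b2⟩ := hG q h0 h1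
  set f1 : ℕ → ℝ := fun n => PowerSeries.coeff n F * q ^ n with hf1
  set g1 : ℕ → ℝ := fun n => PowerSeries.coeff n G * q ^ n with hg1
  have e : ∀ n, ∑ kl ∈ Finset.HasAntidiagonal.antidiagonal n, f1 kl.1 * g1 kl.2 =
      PowerSeries.coeff n (F * G) * q ^ n := by
    intro n
    have e1 : PowerSeries.coeff n (F * G) = ∑ kl ∈ Finset.HasAntidiagonal.antidiagonal n,
        PowerSeries.coeff kl.1 F * PowerSeries.coeff kl.2 G := PowerSeries.coeff_mul n F G
    rw [e1, Finset.sum_mul]
    apply Finset.sum_congr rfl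
    intro kl hkl
    have hk : kl.1 + kl.2 = n := Finset.HasAntidiagonal.mem_antidiagonal.1 hkl
    have hp : q ^ n = q ^ kl.1 * q ^ kl.2 := by rw [← pow_add, hk]
    rw [hp, hf1, hg1]
    ring
  have hs := summable_norm_sum_mul_antidiagonal_of_summable_norm (f := f1) (g := g1) a1 b1
  have ht := tsum_mul_tsum_eq_tsum_sum_antidiagonal_of_summable_norm (f := f1) (g := g1) a1 b1
  refine ⟨hs.congr (fun n => by rw [e n]), ?_⟩
  have ht2 : ∑' n, PowerSeries.coeff n (F * G) * q ^ n = tsum f1 * tsum g1 := by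
    rw [ht]
    exact tsum_congr (fun n => (e n).symm)
  rw [ht2, a2, b2]

theorem FEv_poly (p : Polynomial ℝ) (δ : ℝ) :
    FEv (p : PowerSeries ℝ) δ (fun q => p.eval q) := by
  intro q h0 h1
  have hz : ∀ n ∉ Finset.range (p.natDegree + 1),
      PowerSeries.coeff n (p : PowerSeries ℝ) * q ^ n = 0 := by
    intro n hn
    rw [Polynomial.coeff_coe, Polynomial.coeff_eq_zero_of_natDegree_lt, zero_mul]
    rw [Finset.mem_range] at hn
    omega
  refine ⟨?_, ?_⟩
  · apply summable_of_ne_finset_zero (s := Finset.range (p.natDegree + 1))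
    intro n hn
    rw [hz n hn, norm_zero]
  · change _ = p.eval q
    rw [tsum_eq_sum hz, Polynomial.eval_eq_sum_range]
    simp only [Polynomial.coeff_coe]

theorem FEv_unique {F G : PowerSeries ℝ} {δ : ℝ} {f : ℝ → ℝ} (hδ : 0 < δ) (hF : FEv F δ f)
    (hG : FEv G δ f) : F = G := by
  have key : (fun n => ((PowerSeries.coeff n F : ℝ) : ℂ)) =
      fun n => ((PowerSeries.coeff n G : ℝ) : ℂ) := by
    apply pser_uniq _ _ δ hδ
    · intro s h0 h1
      refine (hF s h0 h1).1.congr (fun n => ?_)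
      rw [Complex.norm_real, norm_mul, norm_pow, Real.norm_of_nonneg h0.le]
    · intro s h0 h1
      refine (hG s h0 h1).1.congr (fun n => ?_)
      rw [Complex.norm_real, norm_mul, norm_pow, Real.norm_of_nonneg h0.le]
    · intro s h0 h1
      have e : ∀ H : PowerSeries ℝ, ∑' n, ((PowerSeries.coeff n H : ℝ) : ℂ) * (s : ℂ) ^ n =
          ((∑' n, PowerSeries.coeff n H * s ^ n : ℝ) : ℂ) := by
        intro H
        rw [Complex.ofReal_tsum]
        push_cast
        rfl
      rw [e, e, (hF s h0 h1).2, (hG s h0 h1).2]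
  ext n
  have := congrFun key n
  exact_mod_cast this

theorem FEv_analytic {f : ℝ → ℝ} (hf : AnalyticAt ℝ f 0) :
    ∃ (F : PowerSeries ℝ) (δ : ℝ), 0 < δ ∧ FEv F δ f ∧ PowerSeries.constantCoeff F = f 0 := by
  obtain ⟨p, r, hp⟩ := hf
  obtain ⟨δ, hδ0, hδr⟩ := ENNReal.lt_iff_exists_nnreal_btwn.1 hp.r_pos
  have hδ0' : 0 < (δ : ℝ) := by exact_mod_cast hδ0
  refine ⟨PowerSeries.mk (fun n => p.coeff n), δ, hδ0', ?_, ?_⟩
  · intro q h0 h1
    have hq : q ∈ Metric.eball (0 : ℝ) r := by
      rw [Metric.mem_eball, edist_zero_right]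
      refine lt_trans ?_ hδr
      rw [← ENNReal.ofReal_coe_nnreal, Real.enorm_eq_ofReal h0.le]
      exact (ENNReal.ofReal_lt_ofReal_iff hδ0').2 h1
    have hs := hp.hasSum hq
    rw [zero_add] at hs
    have e : ∀ n, (p n) (fun _ => q) = PowerSeries.coeff n (PowerSeries.mk (fun n => p.coeff n)) *
        q ^ n := by
      intro n
      rw [PowerSeries.coeff_mk, FormalMultilinearSeries.apply_eq_pow_smul_coeff, smul_eq_mul,
        mul_comm]
    simp only [e] at hs
    refine ⟨?_, hs.tsum_eq⟩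
    have hq2 : q ∈ Metric.eball (0 : ℝ) p.radius := Metric.eball_subset_eball hp.r_le hq
    have := p.summable_norm_apply hq2
    simp only [e] at this
    exact this
  · rw [← PowerSeries.coeff_zero_eq_constantCoeff_apply, PowerSeries.coeff_mk]
    have := hp.coeff_zero (fun _ => (1 : ℝ))
    rw [FormalMultilinearSeries.apply_eq_pow_smul_coeff] at this
    simpa using this

/-- bounded coefficients give an analytic function -/
theorem Form_analytic_bdd (u : ℕ → ℝ) (C : ℝ) (hu : ∀ n, |u n| ≤ C) :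
    AnalyticAt ℝ (fun y : ℝ => ∑' n, u n * y ^ n) 0 := by
  set p := FormalMultilinearSeries.ofScalars ℝ u with hp
  have hr : (1 : ENNReal) ≤ p.radius := by
    have := p.le_radius_of_bound (r := 1) C (fun n => by
      rw [hp, FormalMultilinearSeries.ofScalars_norm]
      simpa using hu n)
    simpa using this
  have h1 : HasFPowerSeriesOnBall p.sum p 0 p.radius :=
    p.hasFPowerSeriesOnBall (lt_of_lt_of_le (by norm_num) hr)
  have h2 : p.sum = fun y : ℝ => ∑' n, u n * y ^ n := by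
    funext y
    have := FormalMultilinearSeries.ofScalars_sum_eq (E := ℝ) u y
    unfold FormalMultilinearSeries.ofScalarsSum at this
    rw [hp, this]
    simp only [smul_eq_mul]
  rw [← h2]
  exact h1.analyticAt

theorem coeff_eq_Theta (D A B Ee c c' : Polynomial ℝ) (hD : 0 < D.coeff 0) (hA : 0 < A.coeff 0)
    (hB : 0 < B.coeff 0) (hE : A * B - D * Ee = Polynomial.X * c * c')
    (W : PowerSeries ℝ) (hW : W ^ 2 * ((A * B : Polynomial ℝ) : PowerSeries ℝ) = 1)
    (hW0 : 0 < PowerSeries.constantCoeff W)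
    (φ : ℕ → ℝ) (Q γ : ℝ) (hQ : 0 < Q) (hφ : ∀ N, |φ N| ≤ γ * Q⁻¹ ^ N)
    (h : ∀ q : ℝ, 0 < q → q < Q →
      ∑' N, φ N * q ^ N = Jint (D.eval q) (A.eval q) (B.eval q) (Ee.eval q) (c.eval q)) (N : ℕ) :
    φ N = (Real.pi / 4) * Theta (D : PowerSeries ℝ) W (c : PowerSeries ℝ) (c' : PowerSeries ℝ) N := by
  -- analytic functions
  have hpoly : ∀ p : Polynomial ℝ, AnalyticAt ℝ (fun q => p.eval q) 0 := fun p =>
    (AnalyticOnNhd.eval_polynomial p) 0 (mem_univ _)
  have hD0 : 0 < D.eval 0 := by rwa [← Polynomial.coeff_zero_eq_eval_zero]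
  have hA0 : 0 < A.eval 0 := by rwa [← Polynomial.coeff_zero_eq_eval_zero]
  have hB0 : 0 < B.eval 0 := by rwa [← Polynomial.coeff_zero_eq_eval_zero]
  set w : ℝ → ℝ := fun q => Real.exp (-(Real.log (A.eval q * B.eval q) / 2)) with hw
  have hwan : AnalyticAt ℝ w 0 := by
    have h1 : AnalyticAt ℝ (fun q => A.eval q * B.eval q) 0 := (hpoly A).mul (hpoly B)
    have h2 : AnalyticAt ℝ Real.log ((fun q => A.eval q * B.eval q) 0) :=
      analyticAt_log (by positivity)
    have h3 : AnalyticAt ℝ (fun q => Real.log (A.eval q * B.eval q)) 0 :=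
      AnalyticAt.comp (g := Real.log) (f := fun q => A.eval q * B.eval q) h2 h1
    exact (h3.div_const.neg).rexp'
  have hwpos : ∀ q, 0 < w q := fun q => Real.exp_pos _
  have hw2 : ∀ q, 0 < A.eval q * B.eval q → w q ^ 2 * (A.eval q * B.eval q) = 1 := by
    intro q hq
    rw [hw]
    simp only
    rw [← Real.exp_nat_mul]
    have : ((2 : ℕ) : ℝ) * -(Real.log (A.eval q * B.eval q) / 2) =
      -Real.log (A.eval q * B.eval q) := by push_cast; ring
    rw [this, Real.exp_neg, Real.exp_log hq, inv_mul_cancel₀ hq.ne']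
  have hw3 : ∀ q, 0 < A.eval q * B.eval q → w q = (√(A.eval q * B.eval q))⁻¹ := by
    intro q hq
    have h1 := hw2 q hq
    have h2 : 0 < √(A.eval q * B.eval q) := Real.sqrt_pos.mpr hq
    apply eq_inv_of_mul_eq_one_left
    have h3 : (w q * √(A.eval q * B.eval q)) ^ 2 = 1 := by
      rw [mul_pow, Real.sq_sqrt hq.le, h1]
    have h4 : 0 < w q * √(A.eval q * B.eval q) := mul_pos (hwpos q) h2
    nlinarith
  set xf : ℝ → ℝ := fun q => q * c.eval q * c'.eval q * w q ^ 2 with hxf
  have hxan : AnalyticAt ℝ xf 0 := by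
    have := ((analyticAt_id.mul (hpoly c)).mul (hpoly c')).mul (hwan.pow 2)
    exact this
  have hx0 : xf 0 = 0 := by rw [hxf]; simp
  -- summability of hc
  have hcb : ∃ C : ℝ, ∀ n, |hc n| ≤ C := by
    refine ⟨∑' n, hc n, fun n => ?_⟩
    rw [abs_of_pos (hc_pos n)]
    exact hc_summable.le_tsum n (fun j _ => (hc_pos j).le)
  obtain ⟨Ch, hCh⟩ := hcb
  set rr : ℝ → ℝ := fun q => ∑' k, hc (k + (N + 1)) * xf q ^ k with hrr
  have hran : AnalyticAt ℝ rr 0 := by
    have h1 := Form_analytic_bdd (fun k => hc (k + (N + 1))) Ch (fun k => hCh _)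
    rw [← hx0] at h1
    exact h1.comp hxan
  have hDi : AnalyticAt ℝ (fun q => (D.eval q)⁻¹) 0 := (hpoly D).inv hD0.ne'
  obtain ⟨FD, δ1, hδ1, hFD, -⟩ := FEv_analytic hDi
  obtain ⟨FW, δ2, hδ2, hFW, hFW0⟩ := FEv_analytic hwan
  obtain ⟨FR, δ3, hδ3, hFR, -⟩ := FEv_analytic hran
  -- positivity near zero
  have hpos : ∀ᶠ q in nhds (0 : ℝ), 0 < D.eval q ∧ 0 < A.eval q ∧ 0 < B.eval q ∧ |xf q| < 1 := by
    have t1 : ∀ᶠ q in nhds (0 : ℝ), 0 < D.eval q :=
      D.continuous.continuousAt.eventually (lt_mem_nhds hD0)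
    have t2 : ∀ᶠ q in nhds (0 : ℝ), 0 < A.eval q :=
      A.continuous.continuousAt.eventually (lt_mem_nhds hA0)
    have t3 : ∀ᶠ q in nhds (0 : ℝ), 0 < B.eval q :=
      B.continuous.continuousAt.eventually (lt_mem_nhds hB0)
    have t4 : ∀ᶠ q in nhds (0 : ℝ), |xf q| < 1 := by
      have hlt : |xf 0| < 1 := by rw [hx0]; simp
      exact hxan.continuousAt.abs.eventually_lt continuousAt_const hlt
    filter_upwards [t1, t2, t3, t4] with q h1 h2 h3 h4 using ⟨h1, h2, h3, h4⟩
  obtain ⟨δ4, hδ4, hpos4⟩ := Metric.eventually_nhds_iff.1 hpos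
  set δ := min (min δ1 δ2) (min (min δ3 δ4) Q) with hδ
  have hδ0 : 0 < δ := by positivity
  have hd1 : δ ≤ δ1 := (min_le_left _ _).trans (min_le_left _ _)
  have hd2 : δ ≤ δ2 := (min_le_left _ _).trans (min_le_right _ _)
  have hd3 : δ ≤ δ3 := (min_le_right _ _).trans ((min_le_left _ _).trans (min_le_left _ _))
  have hd4 : δ ≤ δ4 := (min_le_right _ _).trans ((min_le_left _ _).trans (min_le_right _ _))
  have hdQ : δ ≤ Q := (min_le_right _ _).trans (min_le_right _ _)
  have hpos' : ∀ q, 0 < q → q < δ → 0 < D.eval q ∧ 0 < A.eval q ∧ 0 < B.eval q ∧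
      |xf q| < 1 := by
    intro q h0 h1
    apply hpos4
    rw [Real.dist_eq, sub_zero, abs_of_pos h0]
    linarith
  have hone : FEv (1 : PowerSeries ℝ) δ (fun _ => 1) := by
    have := FEv_poly (1 : Polynomial ℝ) δ
    simpa using this
  -- identification of FD
  have hFD1 : FD = (D : PowerSeries ℝ)⁻¹ := by
    have hDc : PowerSeries.constantCoeff (D : PowerSeries ℝ) ≠ 0 := by
      rw [← PowerSeries.coeff_zero_eq_constantCoeff_apply, Polynomial.coeff_coe]
      exact hD.ne'
    rw [PowerSeries.eq_inv_iff_mul_eq_one hDc]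
    refine FEv_unique hδ0 (((hFD.mono hd1).mul (FEv_poly D δ)).congr ?_) hone
    intro q h0 h1
    exact inv_mul_cancel₀ (hpos' q h0 h1).1.ne'
  -- identification of FW
  have hFW1 : FW = W := by
    have h1 : FW ^ 2 * ((A * B : Polynomial ℝ) : PowerSeries ℝ) = 1 := by
      rw [pow_two]
      refine FEv_unique hδ0 ((((hFW.mono hd2).mul (hFW.mono hd2)).mul
        (FEv_poly (A * B) δ)).congr ?_) hone
      intro q h0 h1
      obtain ⟨-, hA', hB', -⟩ := hpos' q h0 h1
      rw [Polynomial.eval_mul, ← pow_two]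
      exact hw2 q (mul_pos hA' hB')
    have h2 : ((A * B : Polynomial ℝ) : PowerSeries ℝ) ≠ 0 := by
      intro h0
      rw [h0, mul_zero] at hW
      exact zero_ne_one hW
    have h3 : FW ^ 2 = W ^ 2 := mul_right_cancel₀ h2 (h1.trans hW.symm)
    rcases sq_eq_sq_iff_eq_or_eq_neg.1 h3 with h4 | h4
    · exact h4
    · exfalso
      have h5 := congrArg PowerSeries.constantCoeff h4
      rw [hFW0, map_neg] at h5
      have := hwpos 0
      linarith
  -- the formal series of φ
  have hΦ : FEv (PowerSeries.mk φ) δ (fun q => ∑' n, φ n * q ^ n) := by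
    intro q h0 h1
    have hqQ : q < Q := by linarith
    refine ⟨?_, by simp only [PowerSeries.coeff_mk]⟩
    have hg : Summable (fun n => γ * (Q⁻¹ * q) ^ n) := by
      apply Summable.mul_left
      apply summable_geometric_of_lt_one (by positivity)
      rw [inv_mul_lt_one₀ hQ]
      exact hqQ
    refine hg.of_nonneg_of_le (fun _ => norm_nonneg _) (fun n => ?_)
    rw [PowerSeries.coeff_mk, norm_mul, Real.norm_eq_abs, norm_pow, Real.norm_of_nonneg h0.le,
      mul_pow, ← mul_assoc]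
    gcongr
    exact hφ n
  -- the other expansion
  set Z : PowerSeries ℝ := PowerSeries.X * (c : PowerSeries ℝ) * (c' : PowerSeries ℝ) * W ^ 2
    with hZ
  have hX : FEv (PowerSeries.X : PowerSeries ℝ) δ (fun q => q) := by
    have := FEv_poly (Polynomial.X : Polynomial ℝ) δ
    simpa using this
  have hWev : FEv W δ w := by
    rw [← hFW1]; exact hFW.mono hd2
  have hZev : FEv Z δ xf := by
    rw [hZ, pow_two]
    refine (((hX.mul (FEv_poly c δ)).mul (FEv_poly c' δ)).mul (hWev.mul hWev)).congr ?_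
    intro q h0 h1
    rw [hxf]
    simp only
    ring
  have hZpow : ∀ k : ℕ, FEv (Z ^ k) δ (fun q => xf q ^ k) := by
    intro k
    induction k with
    | zero => simpa using hone
    | succ k ih =>
      rw [pow_succ]
      exact (ih.mul hZev).congr (fun q _ _ => (pow_succ _ _).symm)
  have hC : ∀ a : ℝ, FEv (PowerSeries.C a : PowerSeries ℝ) δ (fun _ => a) := by
    intro a
    have := FEv_poly (Polynomial.C a : Polynomial ℝ) δ
    simpa using this
  have hsum : ∀ M : ℕ, FEv (∑ k ∈ Finset.range M, PowerSeries.C (hc k) * Z ^ k) δ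
      (fun q => ∑ k ∈ Finset.range M, hc k * xf q ^ k) := by
    intro M
    induction M with
    | zero =>
      have := FEv_poly (0 : Polynomial ℝ) δ
      simpa using this
    | succ M ih =>
      simp only [Finset.sum_range_succ]
      exact ih.add ((hC (hc M)).mul (hZpow M))
  have hG : FEv (PowerSeries.C (Real.pi / 4) * ((c : PowerSeries ℝ) * (D : PowerSeries ℝ)⁻¹ * W *
      (∑ k ∈ Finset.range (N + 1), PowerSeries.C (hc k) * Z ^ k + Z ^ (N + 1) * FR))) δ
      (fun q => Real.pi / 4 * (c.eval q * (D.eval q)⁻¹ * w q *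
        (∑ k ∈ Finset.range (N + 1), hc k * xf q ^ k + xf q ^ (N + 1) * rr q))) := by
    refine (hC (Real.pi / 4)).mul ((((FEv_poly c δ).mul ?_).mul hWev).mul
      ((hsum (N + 1)).add ((hZpow (N + 1)).mul (hFR.mono hd3))))
    rw [← hFD1]
    exact hFD.mono hd1
  have hmain : PowerSeries.mk φ = PowerSeries.C (Real.pi / 4) * ((c : PowerSeries ℝ) *
      (D : PowerSeries ℝ)⁻¹ * W *
      (∑ k ∈ Finset.range (N + 1), PowerSeries.C (hc k) * Z ^ k + Z ^ (N + 1) * FR)) := by
    refine FEv_unique hδ0 (hΦ.congr ?_) hG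
    intro q h0 h1
    have hqQ : q < Q := by linarith
    obtain ⟨hDq, hAq, hBq, hxq⟩ := hpos' q h0 h1
    have hABq : 0 < A.eval q * B.eval q := mul_pos hAq hBq
    rw [h q h0 hqQ]
    have hEq : A.eval q * B.eval q - D.eval q * Ee.eval q = A.eval q * B.eval q * xf q := by
      have h1 := congrArg (Polynomial.eval q) hE
      simp only [Polynomial.eval_sub, Polynomial.eval_mul, Polynomial.eval_X] at h1
      rw [h1, hxf]
      simp only
      have h2 := hw2 q hABq
      calc q * c.eval q * c'.eval q = q * c.eval q * c'.eval q *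
            (w q ^ 2 * (A.eval q * B.eval q)) := by rw [h2, mul_one]
        _ = _ := by ring
    have hJ := Jint_series (D.eval q) (A.eval q) (B.eval q) (Ee.eval q) (c.eval q) (xf q)
      hDq hAq hBq hxq hEq
    rw [← hJ.tsum_eq, tsum_mul_left]
    have hsm : Summable (fun k => hc k * xf q ^ k) := by
      apply Summable.of_norm_bounded (g := hc) hc_summable
      intro k
      rw [norm_mul, norm_pow, Real.norm_of_nonneg (hc_pos k).le]
      have : ‖xf q‖ ^ k ≤ 1 := pow_le_one₀ (norm_nonneg _) hxq.le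
      have h2 := (hc_pos k).le
      nlinarith
    have hsplit := hsm.sum_add_tsum_nat_add (N + 1)
    rw [← hsplit]
    have e3 : ∑' i, hc (i + (N + 1)) * xf q ^ (i + (N + 1)) = xf q ^ (N + 1) * rr q := by
      rw [hrr]
      simp only
      rw [← tsum_mul_left]
      refine tsum_congr (fun i => ?_)
      rw [pow_add]; ring
    rw [e3, hw3 q hABq]
    have hs : 0 < √(A.eval q * B.eval q) := Real.sqrt_pos.mpr hABq
    field_simp
  have hco := congrArg (PowerSeries.coeff N) hmain
  rw [PowerSeries.coeff_mk, PowerSeries.coeff_C_mul, mul_add, map_add] at hco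
  have hzero : PowerSeries.coeff N ((c : PowerSeries ℝ) * (D : PowerSeries ℝ)⁻¹ * W *
      (Z ^ (N + 1) * FR)) = 0 := by
    have hdvd : (PowerSeries.X : PowerSeries ℝ) ^ (N + 1) ∣ ((c : PowerSeries ℝ) *
        (D : PowerSeries ℝ)⁻¹ * W * (Z ^ (N + 1) * FR)) := by
      apply Dvd.dvd.mul_left
      apply Dvd.dvd.mul_right
      apply pow_dvd_pow_of_dvd
      rw [hZ]
      exact ((Dvd.intro _ rfl).mul_right _).mul_right _
    exact PowerSeries.X_pow_dvd_iff.1 hdvd N (Nat.lt_succ_self N)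
  rw [hzero, add_zero] at hco
  rw [hco]
  rfl

end GUB
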