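import Pool.Agent.Lib.MP_721eb4_an.UB.Defs
import Pool.Agent.Lib.MP_721eb4_an.UB.Gauss

/-! Upper bound for the complex Grothendieck constant: module GaussG -/

set_option autoImplicit false

open MeasureTheory Complex Set GLB
open scoped ComplexConjugate

namespace GUB

/-- the Gaussian measure on `ℂ²` in terms of its density -/
theorem GaussG_gam2 (f : (Fin 2 → ℂ) → ℂ) :
    ∫ z, f z ∂(gam 2) = ∫ z : Fin 2 → ℂ, (dens (z 0) * dens (z 1)) • f z := by
  have e1 : ∫ z, f z ∂(gam 2) =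
      ∫ p : ℂ × ℂ, f (MeasurableEquiv.finTwoArrow.symm p) ∂(cg.prod cg) := by
    rw [gam]
    exact ((measurePreserving_finTwoArrow cg).symm.integral_comp' f).symm
  have e2 : ∫ z : Fin 2 → ℂ, (dens (z 0) * dens (z 1)) • f z =
      ∫ p : ℂ × ℂ, (dens p.1 * dens p.2) • f (MeasurableEquiv.finTwoArrow.symm p) := by
    have := (volume_preserving_finTwoArrow ℂ).symm.integral_comp'
      (fun z : Fin 2 → ℂ => (dens (z 0) * dens (z 1)) • f z)
    rw [← this]
    rfl
  rw [e1, e2]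
  have hm : Measurable (fun z => ENNReal.ofReal (dens z)) :=
    continuous_dens.measurable.ennreal_ofReal
  have hm2 : AEMeasurable (fun z : ℂ × ℂ => ENNReal.ofReal (dens z.1) * ENNReal.ofReal (dens z.2))
      ((volume : Measure ℂ).prod (volume : Measure ℂ)) :=
    ((hm.comp measurable_fst).mul (hm.comp measurable_snd)).aemeasurable
  rw [cg_eq, prod_withDensity hm hm, integral_withDensity_eq_integral_toReal_smul₀ hm2
    (Filter.Eventually.of_forall fun z => ENNReal.mul_lt_top ENNReal.ofReal_lt_top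
      ENNReal.ofReal_lt_top)]
  refine integral_congr_ae (Filter.Eventually.of_forall fun z => ?_)
  simp only [ENNReal.toReal_mul, ENNReal.toReal_ofReal (dens_nonneg _)]

theorem GaussG_quad {a d s : ℝ} (ha : 0 ≤ a) (hd : 0 ≤ d) (hs : s ^ 2 ≤ 4 * a * d) (x u : ℝ) :
    0 ≤ a * x ^ 2 + s * x * u + d * u ^ 2 := by
  rcases ha.eq_or_lt with h | h
  · have : s = 0 := by
      rw [← h] at hs
      nlinarith [sq_nonneg s]
    rw [← h, this]
    have := mul_nonneg hd (sq_nonneg u)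
    linarith
  · have h1 : 0 ≤ 4 * a * (a * x ^ 2 + s * x * u + d * u ^ 2) := by
      have : 4 * a * (a * x ^ 2 + s * x * u + d * u ^ 2) =
          (2 * a * x + s * u) ^ 2 + (4 * a * d - s ^ 2) * u ^ 2 := by ring
      rw [this]
      have := mul_nonneg (sub_nonneg.2 hs) (sq_nonneg u)
      positivity
    exact nonneg_of_mul_nonneg_right h1 (by positivity)

theorem gam_form (P : M2 ℝ) (hP : P.psd) :
    ∫ z, exp (-(P.form z)) ∂(gam 2) = ((1 / (1 + P.a + P.d + P.det) : ℝ) : ℂ) := by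
  rw [GaussG_gam2]
  let M : Matrix (Fin 2) (Fin 2) ℂ := !![1 + (P.a : ℂ), (P.b : ℂ); (P.c : ℂ), 1 + (P.d : ℂ)]
  have hq : ∀ z : Fin 2 → ℂ, star z ⬝ᵥ M.mulVec z =
      (((‖z 0‖ ^ 2 + ‖z 1‖ ^ 2 : ℝ) : ℂ)) + P.form z := by
    intro z
    simp only [dotProduct, Matrix.mulVec, Fin.sum_univ_two, M, M2.form, Pi.star_apply,
      RCLike.star_def, Matrix.of_apply, Matrix.cons_val', Matrix.cons_val_zero,
      Matrix.cons_val_one, Matrix.cons_val_fin_one]
    push_cast
    rw [← Complex.conj_mul', ← Complex.conj_mul']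
    ring
  have hpos : ∀ z : Fin 2 → ℂ, 0 ≤ (P.form z).re := by
    intro z
    obtain ⟨ha, hd, hb⟩ := hP
    have e : (P.form z).re =
        (P.a * (z 0).re ^ 2 + (P.b + P.c) * (z 0).re * (z 1).re + P.d * (z 1).re ^ 2) +
        (P.a * (z 0).im ^ 2 + (P.b + P.c) * (z 0).im * (z 1).im + P.d * (z 1).im ^ 2) := by
      simp only [M2.form, Complex.add_re, Complex.mul_re, Complex.conj_re, Complex.conj_im,
        Complex.ofReal_re, Complex.ofReal_im, Complex.mul_im]
      ring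
    rw [e]
    exact add_nonneg (GaussG_quad ha hd hb _ _) (GaussG_quad ha hd hb _ _)
  have hM : ∀ z : Fin 2 → ℂ, (1 : ℝ) * ∑ j, ‖z j‖ ^ 2 ≤ (star z ⬝ᵥ M.mulVec z).re := by
    intro z
    rw [hq, Complex.add_re, Complex.ofReal_re, Fin.sum_univ_two]
    linarith [hpos z]
  have h := gauss_integral M 1 one_pos hM
  have e : ∀ z : Fin 2 → ℂ, (dens (z 0) * dens (z 1)) • exp (-(P.form z)) =
      ((Real.pi : ℂ) ^ 2)⁻¹ * exp (-(star z ⬝ᵥ M.mulVec z)) := by
    intro z
    rw [hq, neg_add, Complex.exp_add, Complex.real_smul, dens, dens]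
    push_cast
    rw [show (-((‖z 0‖ : ℂ) ^ 2 + (‖z 1‖ : ℂ) ^ 2)) = -(‖z 0‖ : ℂ) ^ 2 + -(‖z 1‖ : ℂ) ^ 2 by ring,
      Complex.exp_add]
    have : (Real.pi : ℂ) ≠ 0 := by exact_mod_cast Real.pi_ne_zero
    field_simp
  rw [integral_congr_ae (Filter.Eventually.of_forall e), integral_const_mul, h]
  have hdet : M.det = ((1 + P.a + P.d + P.det : ℝ) : ℂ) := by
    rw [Matrix.det_fin_two_of, M2.det]
    push_cast
    ring
  rw [hdet]
  have : (Real.pi : ℂ) ≠ 0 := by exact_mod_cast Real.pi_ne_zero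
  push_cast
  field_simp

end GUB
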