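import Pool.Agent.Lib.MP_721eb4_an.UB.Defs

/-! Upper bound for the complex Grothendieck constant: module MinP -/

set_option autoImplicit false

open MeasureTheory Complex Set GLB
open scoped ComplexConjugate

namespace GUB

private lemma MinP_circle (p : Polynomial ℝ) (Q θ : ℝ) :
    (Polynomial.aeval (Q * exp (θ * I) : ℂ) p).re =
      ∑ m ∈ Finset.range (p.natDegree + 1),
        p.coeff m * Q ^ m * (Polynomial.Chebyshev.T ℝ m).eval (Real.cos θ) := by
  rw [Polynomial.aeval_eq_sum_range, Complex.re_sum]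
  refine Finset.sum_congr rfl fun m _ => ?_
  rw [Polynomial.Chebyshev.T_real_cos, mul_pow, ← Complex.exp_nat_mul, Complex.real_smul,
    Complex.re_ofReal_mul, ← Complex.ofReal_pow, Complex.re_ofReal_mul]
  have h1 : ((m : ℂ) * (θ * I)) = ((m * θ : ℝ) : ℂ) * I := by
    push_cast
    ring
  rw [h1, Complex.exp_ofReal_mul_I_re, mul_assoc]
  norm_num

/-- the real part of a real polynomial on the disc is bounded below by its minimum on the circle,
which is a Chebyshev polynomial expression in `x = cos θ` -/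
theorem minP (p : Polynomial ℝ) (Q δ : ℝ) (hQ : 0 < Q)
    (h : ∀ x : ℝ, -1 ≤ x → x ≤ 1 →
      δ ≤ ∑ m ∈ Finset.range (p.natDegree + 1),
        p.coeff m * Q ^ m * (Polynomial.Chebyshev.T ℝ m).eval x) :
    ∀ q : ℂ, ‖q‖ ≤ Q → δ ≤ (Polynomial.aeval q p).re := by
  intro q hq
  have hd : Differentiable ℂ (fun z : ℂ => exp (-(Polynomial.aeval z p))) :=
    (p.differentiable_aeval).neg.cexp
  have h1 : ∀ z ∈ frontier (Metric.ball (0 : ℂ) Q),
      ‖exp (-(Polynomial.aeval z p))‖ ≤ Real.exp (-δ) := by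
    intro z hz
    rw [frontier_ball _ hQ.ne', mem_sphere_zero_iff_norm] at hz
    rw [Complex.norm_exp, Complex.neg_re]
    refine Real.exp_le_exp.2 (neg_le_neg ?_)
    have h2 : z = (Q * exp ((Complex.arg z : ℝ) * I) : ℂ) := by
      rw [← hz]
      exact (Complex.norm_mul_exp_arg_mul_I z).symm
    rw [h2, MinP_circle]
    exact h _ (Real.neg_one_le_cos _) (Real.cos_le_one _)
  have h3 : q ∈ closure (Metric.ball (0 : ℂ) Q) := by
    rw [closure_ball _ hQ.ne', mem_closedBall_zero_iff]
    exact hq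
  have h4 := Complex.norm_le_of_forall_mem_frontier_norm_le Metric.isBounded_ball
    hd.diffContOnCl h1 h3
  rw [Complex.norm_exp, Complex.neg_re, Real.exp_le_exp] at h4
  linarith

end GUB
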