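import Pool.Agent.Lib.MP_721eb4_an.UB.NumLib
import Pool.Agent.Lib.MP_721eb4_an.UB.Defs

/-! Upper bound for the complex Grothendieck constant: central binomial coefficients -/

set_option autoImplicit false

namespace GUB.Num

theorem nextC_spec (k : ℕ) : nextC k (Nat.centralBinom k) = Nat.centralBinom (k + 1) := by
  have h := Nat.succ_mul_centralBinom_succ k
  have e : nextC k (Nat.centralBinom k) = (Nat.centralBinom k * (2 * (2 * k + 1))) / (k + 1) := rfl
  rw [e]
  refine Nat.div_eq_of_eq_mul_right (Nat.succ_pos k) ?_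
  rw [h]
  ring

theorem cbl_spec (m k : ℕ) :
    cbl m k (Nat.centralBinom k) = (List.range m).map (fun i => Nat.centralBinom (k + i)) := by
  induction m generalizing k with
  | zero => rfl
  | succ m ih =>
    have e : cbl (m + 1) k (Nat.centralBinom k) =
      Nat.centralBinom k :: cbl m (k + 1) (nextC k (Nat.centralBinom k)) := rfl
    rw [e, nextC_spec, ih, List.range_succ_eq_map, List.map_cons, List.map_map, Nat.add_zero]
    refine congrArg _ (List.map_congr_left fun i _ => ?_)
    simp only [Function.comp]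
    refine congrArg _ ?_
    omega

namespace NL3aux

/-- the encoded value of `hc k` -/
def ench (k : ℕ) : ℕ :=
  Nat.add (Nat.div (Nat.mul (Nat.mul (Nat.centralBinom k) (Nat.centralBinom k)) SC)
    (Nat.mul (Nat.pow 16 k) (Nat.succ k))) OB

theorem hcs_step (m k : ℕ) (acc : List ℕ) : hcs (m + 1) k (Nat.centralBinom k) acc =
    hcs m (k + 1) (Nat.centralBinom (k + 1)) (ench k :: acc) := by
  rw [← nextC_spec]
  rfl

theorem hcs_gen (m k : ℕ) (acc : List ℕ) :
    (hcs m k (Nat.centralBinom k) acc).length = m + acc.length ∧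
    (∀ j < m, (hcs m k (Nat.centralBinom k) acc).getD j 0 = ench (k + (m - 1 - j))) ∧
    (∀ j, (hcs m k (Nat.centralBinom k) acc).getD (m + j) 0 = acc.getD j 0) := by
  induction m generalizing k acc with
  | zero =>
    refine ⟨?_, ?_, ?_⟩
    · simp [hcs]
    · intro j hj
      exact absurd hj (Nat.not_lt_zero j)
    · intro j
      simp [hcs]
  | succ m ih =>
    rw [hcs_step]
    obtain ⟨h1, h2, h3⟩ := ih (k + 1) (ench k :: acc)
    refine ⟨?_, ?_, ?_⟩
    · rw [h1, List.length_cons]
      omega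
    · intro j hj
      rcases Nat.lt_succ_iff_lt_or_eq.mp hj with h | h
      · rw [h2 j h]
        refine congrArg ench ?_
        omega
      · subst h
        have h4 : (hcs j (k + 1) (Nat.centralBinom (k + 1)) (ench k :: acc)).getD j 0 =
            (ench k :: acc).getD 0 0 := h3 0
        rw [h4, List.getD_cons_zero]
        refine congrArg ench ?_
        omega
    · intro j
      have := h3 (j + 1)
      rw [List.getD_cons_succ] at this
      rw [← this]
      refine congrArg (fun i => List.getD _ i 0) ?_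
      omega

theorem ench_spec (k : ℕ) : |hc k * (SC : ℝ) - ((ench k : ℝ) - (OB : ℝ))| ≤ 1 := by
  have hcast : ((ench k : ℕ) : ℝ) - (OB : ℝ) =
      (((Nat.centralBinom k * Nat.centralBinom k * SC) / (16 ^ k * (k + 1)) : ℕ) : ℝ) := by
    have e : ench k = (Nat.centralBinom k * Nat.centralBinom k * SC) / (16 ^ k * (k + 1)) + OB := rfl
    rw [e]
    push_cast
    ring
  rw [hcast]
  have hpos : 0 < 16 ^ k * (k + 1) := by positivity
  have hposR : (0 : ℝ) < 16 ^ k * (k + 1) := by positivity
  have hval : hc k * (SC : ℝ) =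
      ((Nat.centralBinom k * Nat.centralBinom k * SC : ℕ) : ℝ) / ((16 ^ k * (k + 1) : ℕ) : ℝ) := by
    unfold hc
    push_cast
    have h16 : (16 : ℝ) ^ k = (4 ^ k) ^ 2 := by
      rw [← pow_mul, mul_comm k 2, pow_mul]
      norm_num
    rw [h16]
    field_simp
  rw [hval]
  have h1 := @Nat.cast_div_le ℝ _ _ _ (Nat.centralBinom k * Nat.centralBinom k * SC)
    (16 ^ k * (k + 1))
  have h2 : ((Nat.centralBinom k * Nat.centralBinom k * SC : ℕ) : ℝ) /
      ((16 ^ k * (k + 1) : ℕ) : ℝ) <
      (((Nat.centralBinom k * Nat.centralBinom k * SC) / (16 ^ k * (k + 1)) : ℕ) : ℝ) + 1 := by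
    rw [div_lt_iff₀ (by exact_mod_cast hpos)]
    have := Nat.lt_div_mul_add (a := Nat.centralBinom k * Nat.centralBinom k * SC) hpos
    have h3 : ((Nat.centralBinom k * Nat.centralBinom k * SC : ℕ) : ℝ) <
      (((Nat.centralBinom k * Nat.centralBinom k * SC) / (16 ^ k * (k + 1)) *
        (16 ^ k * (k + 1)) + 16 ^ k * (k + 1) : ℕ) : ℝ) := by exact_mod_cast this
    refine lt_of_lt_of_eq h3 ?_
    push_cast
    ring
  rw [abs_le]
  constructor <;> linarith

end NL3aux

/-- reversed list of the encoded `hc k`, `k ≤ n` -/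
theorem hcs_spec (n : ℕ) : (hcs (n + 1) 0 1 []).length = n + 1 ∧
    ∀ j < n + 1, |hc (n - j) * (SC : ℝ) - (((hcs (n + 1) 0 1 []).getD j 0 : ℝ) - (OB : ℝ))| ≤ 1 := by
  have e : (1 : ℕ) = Nat.centralBinom 0 := Nat.centralBinom_zero.symm
  obtain ⟨h1, h2, -⟩ := NL3aux.hcs_gen (n + 1) 0 []
  rw [← e] at h1 h2
  refine ⟨by simpa using h1, fun j hj => ?_⟩
  rw [h2 j hj]
  have e2 : 0 + (n + 1 - 1 - j) = n - j := by omega
  rw [e2]
  exact NL3aux.ench_spec (n - j)

end GUB.Num
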