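import Pool.Agent.Lib.MP_721eb4_an.UB.NumLib

/-! The coefficients of the rotor scheme -/

set_option autoImplicit false

namespace GUB.Num

/-- encoded `hc m / 4^m * C(2m+1, m-i)` for `m = i, i+1, ...`; first argument: the central binomial
coefficients `C(2m,m)`, `bn = C(2m+1, m-i)` -/
def arow (i : ℕ) : List ℕ → ℕ → ℕ → List ℕ
  | [], _, _ => []
  | c :: cs, m, bn =>
    Nat.add (Nat.div (Nat.mul (Nat.mul bn (Nat.mul c c)) SC) (Nat.mul (Nat.pow 64 m) (Nat.succ m))) OB
      :: arow i cs (Nat.succ m) (Nat.div (Nat.mul bn (Nat.mul (2 * m + 3) (2 * m + 2)))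
          (Nat.mul (Nat.sub (Nat.succ m) i) (m + 2 + i)))

/-- multiplication of Gaussian integers -/
def gmul (x y : ℤ × ℤ) : ℤ × ℤ := (x.1 * y.1 - x.2 * y.2, x.1 * y.2 + x.2 * y.1)

/-- multiply the `l`-th entry by `C(l+2,2)` and encode; the list starts at `l` -/
def wrow : ℕ → List ℤ → List ℕ
  | _, [] => []
  | l, x :: xs => Int.toNat (x * (((l + 1) * (l + 2) / 2 : ℕ) : ℤ) + OBz) :: wrow (l + 1) xs

/-- the row `bT κ e (2i+1) l`, `l < len`; `K = 1930949^n κ^n` (Gaussian integer), `d = 1930949^n`,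
`n = 2i+1` -/
def brow (i len : ℕ) (K : ℤ × ℤ) (d : ℤ) : List ℕ :=
  let nE : ℤ := (2 * (i : ℤ) + 1) * 150677
  let S : ℤ := 1000000
  let a : ℤ := nE * nE
  let b : ℤ := S * S
  let z : ℤ × ℤ := (S, nE)
  let z2 := gmul z z
  let z4 := gmul z2 z2
  let z6 := gmul z4 z2
  let z8 := gmul z4 z4
  let g0 : ℤ := (S ^ 6 * (gmul K z6).1 * SCz) / ((a + b) ^ 6 * d)
  let g1 : ℤ := (-(a * S ^ 6) * (gmul K z8).1 * SCz) / ((a + b) ^ 8 * d)
  match len with
  | 0 => []
  | 1 => wrow 0 [g0]
  | m + 2 => wrow 0 (divS ((a + b) ^ 2) [2 * a * (b - a), a * a] (List.replicate m 0) [g1, g0]).reverse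

/-- error of the row (before the weights `C(l+2,2)`) : `e ↦ 3 e + 1` -/
def berr (len : ℕ) : ℕ := Nat.mul (errR 3 len 1) (Nat.mul (len + 1) (len + 2))

/-- add encoded lists of the same length -/
def addE : List ℕ → List ℕ → List ℕ
  | a :: l, b :: m => Nat.sub (Nat.add a b) OB :: addE l m
  | _, _ => []

/-- the coefficients `That N`, `N ≥ i`, contributions of the rows `≥ i`.  `cs` = list of central
binomial coefficients from `i` on. -/
def tgo : List ℕ → ℕ → ℤ × ℤ → ℤ → Ball
  | [], _, _, _ => ⟨[], 0, true⟩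
  | c :: cs, i, K, d =>
    let r := tgo cs (i + 1) (gmul K (gmul (1194051, -1517500) (1194051, -1517500)))
      (d * (1930949 * 1930949))
    let len := Nat.succ cs.length
    let A := arow i (c :: cs) i 1
    let B := brow i len K d
    let T := conv A B
    ⟨addE T (OB :: r.l), Nat.add r.e (errM (nrm A) (nrm B) len 1 (berr len)),
      r.ok && posL A && posL B && posL T && posL (addE T (OB :: r.l))⟩

/-- `That kapT eT N`, `N ≤ n` -/
def thatBall (n : ℕ) : Ball := tgo (cbl (n + 1) 0 1) 0 (1194051, -1517500) 1930949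

/-- composition with a polynomial kernel with integer coefficients `k` over `den`:
`∑_j b_j q^j k(q)^{2j+1}` -/
def compBall (n : ℕ) (b : List ℕ) (eb : ℕ) (k : List ℤ) (den : ℤ) : Ball :=
  let k2 := pad (n + 1) (pmul k k)
  let U := k2.map (fun x => Int.toNat (x * SCz / (den * den) + OBz))
  let K := (pad (n + 1) k).map (fun x => Int.toNat (x * SCz / den + OBz))
  match b.reverse with
  | [] => ⟨[], 0, false⟩
  | h :: hs =>
    let r := horner U (nrm U) 1 eb hs [h] eb true
    let T := conv K r.1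
    ⟨T, errM (nrm K) (nrm r.1) (n + 1) 1 r.2.1, r.2.2 && posL U && posL K && posL T⟩

end GUB.Num
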