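import Pool.Agent.Lib.MP_721eb4_an.UB.NL1
import Pool.Agent.Lib.MP_721eb4_an.UB.NL3
import Pool.Agent.Lib.MP_721eb4_an.UB.NumRot
import Pool.Agent.Lib.MP_721eb4_an.UB.Defs

/-! Upper bound for the complex Grothendieck constant: composition -/

set_option autoImplicit false

namespace GUB.Num

namespace NCaux

open Polynomial

/-- the integer polynomial with a given list of coefficients -/
noncomputable def lpZ (l : List ℤ) : Polynomial ℤ := l.foldr (fun a p => C a + X * p) 0

theorem lpZ_nil : lpZ [] = 0 := rfl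

theorem lpZ_cons (a : ℤ) (l : List ℤ) : lpZ (a :: l) = C a + X * lpZ l := rfl

theorem lpZ_coeff (l : List ℤ) (i : ℕ) : (lpZ l).coeff i = l.getD i 0 := by
  induction l generalizing i with
  | nil => simp [lpZ_nil]
  | cons a l ih =>
    rw [lpZ_cons, coeff_add]
    cases i with
    | zero => simp
    | succ i => rw [coeff_X_mul, ih, coeff_C_succ, zero_add, List.getD_cons_succ]

theorem lpZ_padd (l m : List ℤ) : lpZ (padd l m) = lpZ l + lpZ m := by
  induction l generalizing m with
  | nil =>
    cases m with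
    | nil => simp [padd, lpZ_nil]
    | cons b m => simp [padd, lpZ_nil]
  | cons a l ih =>
    cases m with
    | nil => simp [padd, lpZ_nil]
    | cons b m =>
      have e : padd (a :: l) (b :: m) = (a + b) :: padd l m := rfl
      rw [e, lpZ_cons, lpZ_cons, lpZ_cons, ih, C_add]
      ring

theorem lpZ_map (a : ℤ) (m : List ℤ) : lpZ (m.map (fun x => a * x)) = C a * lpZ m := by
  induction m with
  | nil => simp [lpZ_nil]
  | cons b m ih =>
    rw [List.map_cons, lpZ_cons, lpZ_cons, ih, C_mul]
    ring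

theorem lpZ_pmul (l m : List ℤ) : lpZ (pmul l m) = lpZ l * lpZ m := by
  induction l with
  | nil => simp [pmul, lpZ_nil]
  | cons a l ih =>
    have e : pmul (a :: l) m = padd (m.map (fun x => a * x)) (0 :: pmul l m) := rfl
    rw [e, lpZ_padd, lpZ_map, lpZ_cons, lpZ_cons, ih, C_0]
    ring

theorem pad_length (n : ℕ) (l : List ℤ) : (pad n l).length = n := by
  induction n generalizing l with
  | zero => cases l <;> rfl
  | succ n ih =>
    cases l with
    | nil =>
      have e : pad (n + 1) [] = 0 :: pad n [] := rfl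
      rw [e, List.length_cons, ih]
    | cons a l =>
      have e : pad (n + 1) (a :: l) = a :: pad n l := rfl
      rw [e, List.length_cons, ih]

theorem pad_getD (n : ℕ) (l : List ℤ) (i : ℕ) (hi : i < n) : (pad n l).getD i 0 = l.getD i 0 := by
  induction n generalizing l i with
  | zero => exact absurd hi (Nat.not_lt_zero i)
  | succ n ih =>
    cases l with
    | nil =>
      have e : pad (n + 1) [] = 0 :: pad n [] := rfl
      rw [e]
      cases i with
      | zero => simp
      | succ i =>
        rw [List.getD_cons_succ, ih [] i (by omega)]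
        simp
    | cons a l =>
      have e : pad (n + 1) (a :: l) = a :: pad n l := rfl
      rw [e]
      cases i with
      | zero => simp
      | succ i =>
        rw [List.getD_cons_succ, List.getD_cons_succ, ih l i (by omega)]

theorem posL_cons (x : ℕ) (X : List ℕ) : posL (x :: X) = (Nat.blt 0 x && posL X) := rfl

theorem posL_pos (X : List ℕ) (h : posL X = true) (i : ℕ) (hi : i < X.length) :
    0 < X.getD i 0 := by
  induction X generalizing i with
  | nil => simp at hi
  | cons x X ih =>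
    rw [posL_cons, Bool.and_eq_true] at h
    cases i with
    | zero =>
      rw [List.getD_cons_zero]
      exact (Nat.blt_eq).mp h.1
    | succ i =>
      rw [List.getD_cons_succ]
      exact ih h.2 i (by simpa using hi)

theorem enc_spec (x D : ℤ) (hD : 0 < D) (h : 0 < Int.toNat (x * SCz / D + OBz)) :
    |((x : ℝ) / (D : ℝ)) * (SC : ℝ) - (((Int.toNat (x * SCz / D + OBz) : ℕ) : ℝ) - (OB : ℝ))| ≤ 1 := by
  have h0 : 0 ≤ x * SCz / D + OBz := by
    by_contra hneg
    rw [Int.toNat_of_nonpos (le_of_lt (not_le.mp hneg))] at h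
    exact lt_irrefl 0 h
  have h1 : ((Int.toNat (x * SCz / D + OBz) : ℕ) : ℤ) = x * SCz / D + OBz := Int.toNat_of_nonneg h0
  have h2 : ((Int.toNat (x * SCz / D + OBz) : ℕ) : ℝ) = ((x * SCz / D : ℤ) : ℝ) + (OB : ℝ) := by
    have : (((Int.toNat (x * SCz / D + OBz) : ℕ) : ℤ) : ℝ) = ((x * SCz / D + OBz : ℤ) : ℝ) := by
      rw [h1]
    rw [Int.cast_natCast] at this
    rw [this, Int.cast_add]
    refine congrArg _ ?_
    have e : OBz = ((OB : ℕ) : ℤ) := rfl
    rw [e, Int.cast_natCast]
  rw [h2, add_sub_cancel_right]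
  have hDR : (0 : ℝ) < (D : ℝ) := by exact_mod_cast hD
  have e2 : (x : ℝ) / (D : ℝ) * (SC : ℝ) = ((x * SCz : ℤ) : ℝ) / (D : ℝ) := by
    have e : SCz = ((SC : ℕ) : ℤ) := rfl
    rw [e, Int.cast_mul, Int.cast_natCast]
    ring
  rw [e2]
  have h3 : ((x * SCz / D : ℤ) : ℝ) ≤ ((x * SCz : ℤ) : ℝ) / (D : ℝ) := by
    rw [le_div_iff₀ hDR]
    have := Int.ediv_mul_le (x * SCz) (ne_of_gt hD)
    exact_mod_cast this
  have h4 : ((x * SCz : ℤ) : ℝ) / (D : ℝ) ≤ ((x * SCz / D : ℤ) : ℝ) + 1 := by
    rw [div_le_iff₀ hDR]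
    have := Int.lt_ediv_add_one_mul_self (x * SCz) hD
    exact_mod_cast le_of_lt this
  rw [abs_le]
  constructor <;> linarith

theorem lp_eq (k : List ℤ) (den : ℤ) :
    lp (k.map (fun x : ℤ => (x : ℝ) / den)) =
      C (1 / (den : ℝ)) * (lpZ k).map (Int.castRingHom ℝ) := by
  induction k with
  | nil => simp [lp, lpZ_nil]
  | cons a k ih =>
    have e : lp ((a :: k).map (fun x : ℤ => (x : ℝ) / den)) =
      C ((a : ℝ) / den) + X * lp (k.map (fun x : ℤ => (x : ℝ) / den)) := rfl
    rw [e, ih, lpZ_cons, Polynomial.map_add, Polynomial.map_mul, map_C, map_X]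
    have e2 : (Int.castRingHom ℝ) a = (a : ℝ) := rfl
    rw [e2, mul_add, ← C_mul]
    have e3 : (1 / (den : ℝ)) * (a : ℝ) = (a : ℝ) / den := by ring
    rw [e3]
    ring

theorem lp_coeff (k : List ℤ) (den : ℤ) (i : ℕ) :
    (lp (k.map (fun x : ℤ => (x : ℝ) / den))).coeff i = ((k.getD i 0 : ℤ) : ℝ) / den := by
  rw [lp_eq, coeff_C_mul, coeff_map, lpZ_coeff]
  have e2 : ∀ a : ℤ, (Int.castRingHom ℝ) a = (a : ℝ) := fun a => rfl
  rw [e2]
  ring

theorem lp_sq_coeff (k : List ℤ) (den : ℤ) (i : ℕ) :
    (lp (k.map (fun x : ℤ => (x : ℝ) / den)) ^ 2).coeff i =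
      (((pmul k k).getD i 0 : ℤ) : ℝ) / ((den * den : ℤ) : ℝ) := by
  rw [lp_eq, mul_pow, ← C_pow, coeff_C_mul, ← Polynomial.map_pow, coeff_map, pow_two (lpZ k),
    ← lpZ_pmul, lpZ_coeff]
  have e2 : ∀ a : ℤ, (Int.castRingHom ℝ) a = (a : ℝ) := fun a => rfl
  rw [e2]
  push_cast
  ring

theorem getD_map_toNat (l : List ℤ) (g : ℤ → ℕ) (i : ℕ) (hi : i < l.length) :
    (l.map g).getD i 0 = g (l.getD i 0) := by
  rw [List.getD_eq_getElem _ _ (by rw [List.length_map]; exact hi), List.getElem_map,
    List.getD_eq_getElem _ _ hi]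

theorem comp_coeff (f : ℕ → ℝ) (kp : Polynomial ℝ) (n i : ℕ) (hi : i < n + 1) :
    PowerSeries.coeff i ((kp : PowerSeries ℝ) * ∑ j ∈ Finset.range (n + 1),
      PowerSeries.C (f j) * (PowerSeries.X * (kp : PowerSeries ℝ) ^ 2) ^ j) =
      compC f kp i := by
  unfold compC
  have h1 : ∀ j, (kp : PowerSeries ℝ) * (PowerSeries.C (f j) *
      (PowerSeries.X * (kp : PowerSeries ℝ) ^ 2) ^ j) =
      PowerSeries.C (f j) * (PowerSeries.X ^ j * ((kp ^ (2 * j + 1) : Polynomial ℝ) :
        PowerSeries ℝ)) := by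
    intro j
    rw [Polynomial.coe_pow, mul_pow, pow_add, pow_mul, pow_one]
    ring
  rw [Finset.mul_sum, map_sum]
  have h2 : ∀ j, PowerSeries.coeff i ((kp : PowerSeries ℝ) * (PowerSeries.C (f j) *
      (PowerSeries.X * (kp : PowerSeries ℝ) ^ 2) ^ j)) =
      if j ≤ i then f j * (kp ^ (2 * j + 1)).coeff (i - j) else 0 := by
    intro j
    rw [h1, PowerSeries.coeff_C_mul, PowerSeries.coeff_X_pow_mul', Polynomial.coeff_coe]
    split_ifs
    · rfl
    · rw [mul_zero]
  rw [Finset.sum_congr rfl (fun j _ => h2 j), ← Finset.sum_filter]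
  refine Finset.sum_congr ?_ fun j _ => rfl
  ext j
  simp only [Finset.mem_filter, Finset.mem_range]
  omega

end NCaux

theorem compBall_spec (n : ℕ) (b : List ℕ) (eb : ℕ) (k : List ℤ) (den : ℤ) (hden : 0 < den)
    (f : ℕ → ℝ) (hb : b.length = n + 1) (hf : Rel f b eb)
    (h : (compBall n b eb k den).ok = true) :
    (compBall n b eb k den).l.length = n + 1 ∧
      Rel (compC f (lp (k.map (fun x : ℤ => (x : ℝ) / den)))) (compBall n b eb k den).l
        (compBall n b eb k den).e := by
  obtain ⟨hd, hs, hrev⟩ : ∃ hd hs, b.reverse = hd :: hs := by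
    cases hr : b.reverse with
    | nil =>
      have := congrArg List.length hr
      rw [List.length_reverse, hb] at this
      simp at this
    | cons x xs => exact ⟨x, xs, rfl⟩
  have hslen : hs.length = n := by
    have := congrArg List.length hrev
    rw [List.length_reverse, hb, List.length_cons] at this
    omega
  let U : List ℕ := (pad (n + 1) (pmul k k)).map (fun x => Int.toNat (x * SCz / (den * den) + OBz))
  let K : List ℕ := (pad (n + 1) k).map (fun x => Int.toNat (x * SCz / den + OBz))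
  let r := horner U (nrm U) 1 eb hs [hd] eb true
  let T := conv K r.1
  have hcomp : compBall n b eb k den =
      ⟨T, errM (nrm K) (nrm r.1) (n + 1) 1 r.2.1, r.2.2 && posL U && posL K && posL T⟩ := by
    simp only [compBall, hrev]
    rfl
  rw [hcomp] at h
  rw [hcomp]
  simp only [Bool.and_eq_true] at h
  obtain ⟨⟨⟨hok, hpU⟩, hpK⟩, hpT⟩ := h
  let kp : Polynomial ℝ := lp (k.map (fun x : ℤ => (x : ℝ) / den))
  have hUlen : U.length = n + 1 := by
    simp only [U, List.length_map, NCaux.pad_length]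
  have hKlen : K.length = n + 1 := by
    simp only [K, List.length_map, NCaux.pad_length]
  have hUrel : Rel (fun i => PowerSeries.coeff i ((kp : PowerSeries ℝ) ^ 2)) U 1 := by
    intro i hi
    have hi' : i < n + 1 := by rw [hUlen] at hi; exact hi
    have hp := NCaux.posL_pos U hpU i hi
    have e1 : U.getD i 0 = Int.toNat ((pmul k k).getD i 0 * SCz / (den * den) + OBz) := by
      simp only [U]
      rw [NCaux.getD_map_toNat _ _ i (by rw [NCaux.pad_length]; exact hi'), NCaux.pad_getD _ _ _ hi']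
    rw [e1] at hp
    beta_reduce
    rw [e1, ← Polynomial.coe_pow, Polynomial.coeff_coe, NCaux.lp_sq_coeff]
    have := NCaux.enc_spec ((pmul k k).getD i 0) (den * den) (mul_pos hden hden) hp
    simpa using this
  have hKrel : Rel (fun i => PowerSeries.coeff i (kp : PowerSeries ℝ)) K 1 := by
    intro i hi
    have hi' : i < n + 1 := by rw [hKlen] at hi; exact hi
    have hp := NCaux.posL_pos K hpK i hi
    have e1 : K.getD i 0 = Int.toNat (k.getD i 0 * SCz / den + OBz) := by
      simp only [K]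
      rw [NCaux.getD_map_toNat _ _ i (by rw [NCaux.pad_length]; exact hi'), NCaux.pad_getD _ _ _ hi']
    rw [e1] at hp
    beta_reduce
    rw [e1, Polynomial.coeff_coe, NCaux.lp_coeff]
    have := NCaux.enc_spec (k.getD i 0) den hden hp
    simpa using this
  have hgetrev : ∀ j < n + 1, (hd :: hs).getD j 0 = b.getD (n - j) 0 := by
    intro j hj
    rw [← hrev, List.getD_eq_getElem _ _ (by rw [List.length_reverse, hb]; exact hj),
      List.getElem_reverse, List.getD_eq_getElem _ _ (by rw [hb]; omega)]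
    have e3 : b.length - 1 - j = n - j := by rw [hb]; omega
    simp only [e3]
  have hhd : |f n * (SC : ℝ) - ((hd : ℝ) - (OB : ℝ))| ≤ eb := by
    have := hgetrev 0 (Nat.succ_pos n)
    rw [List.getD_cons_zero, Nat.sub_zero] at this
    rw [this]
    exact hf n (by rw [hb]; exact Nat.lt_succ_self n)
  have hhs : ∀ j < n, |f (n - 1 - j) * (SC : ℝ) - ((hs.getD j 0 : ℝ) - (OB : ℝ))| ≤ eb := by
    intro j hj
    have := hgetrev (j + 1) (by omega)
    rw [List.getD_cons_succ] at this
    rw [this]
    have e : n - (j + 1) = n - 1 - j := by omega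
    rw [e]
    exact hf (n - 1 - j) (by rw [hb]; omega)
  obtain ⟨hlen, hrel⟩ := horner_rel ((kp : PowerSeries ℝ) ^ 2) U 1 eb hUrel f hs hd n hslen hhs hhd
    (by rw [hUlen]; omega) hok
  have hlenT : T.length = n + 1 := by
    have := conv_length K r.1 (by rw [hKlen]; exact le_of_eq hlen)
    rw [this]
    exact hlen
  refine ⟨hlenT, ?_⟩
  have hfin := conv_rel_ps (kp : PowerSeries ℝ) _ K r.1 1 r.2.1 hKrel hrel
    (by rw [hKlen]; exact le_of_eq hlen) hpT
  intro i hi
  have hi' : i < n + 1 := by rw [← hlenT]; exact hi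
  have := hfin i hi
  beta_reduce at this
  rw [NCaux.comp_coeff f kp n i hi'] at this
  have hl : r.1.length = n + 1 := hlen
  rw [hl] at this
  exact this

end GUB.Num
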