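import Pool.Agent.Lib.MP_721eb4_an.UB.NumLib

/-! Upper bound for the complex Grothendieck constant: specification of the truncated power series arithmetic -/

set_option autoImplicit false

namespace GUB.Num

/-- `l` represents the first coefficients of `F` with error `e` -/
def Rel (F : ℕ → ℝ) (l : List ℕ) (e : ℕ) : Prop :=
  ∀ i < l.length, |F i * (SC : ℝ) - ((l.getD i 0 : ℝ) - (OB : ℝ))| ≤ e

theorem Rel.mono {F : ℕ → ℝ} {l : List ℕ} {e e' : ℕ} (h : Rel F l e) (he : e ≤ e') :
    Rel F l e' := by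
  intro i hi
  exact (h i hi).trans (by exact_mod_cast he)

namespace NL1aux

set_option exponentiation.threshold 1000 in
theorem SC_eq : SC = 2 ^ 320 := rfl

theorem SC_pos : 0 < SC := by
  rw [SC_eq]
  positivity

attribute [local irreducible] SC OB

theorem ndiv (a b : ℕ) : Nat.div a b = a / b := rfl

theorem convA_cons (X : List ℕ) (b : ℕ) (bs rev : List ℕ) (x : ℕ) (xs : List ℕ) (sm k : ℕ) :
    convA X (b :: bs) rev (x :: xs) sm k =
      (dotN X (b :: rev) 0 + (k + 1) * (OB * OB) + OB * SC - OB * (sm + b + x)) / SC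
        :: convA X bs (b :: rev) xs (sm + b + x) (k + 1) := by
  rw [convA]
  simp only [Nat.add_eq, Nat.mul_eq, Nat.sub_eq, ndiv, Nat.succ_eq_add_one]

theorem convA_nil (X rev xs : List ℕ) (sm k : ℕ) : convA X [] rev xs sm k = [] := by
  rw [convA]

theorem dotN_nil (m : List ℕ) (acc : ℕ) : dotN [] m acc = acc := rfl

theorem dotN_cons_nil (a : ℕ) (l : List ℕ) (acc : ℕ) : dotN (a :: l) [] acc = acc := rfl

theorem dotN_cons_cons (a : ℕ) (l : List ℕ) (b : ℕ) (m : List ℕ) (acc : ℕ) :
    dotN (a :: l) (b :: m) acc = dotN l m (acc + a * b) := rfl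

theorem dotN_eq (l m : List ℕ) (acc : ℕ) (h : m.length ≤ l.length) :
    dotN l m acc = acc + ∑ i ∈ Finset.range m.length, l.getD i 0 * m.getD i 0 := by
  induction l generalizing m acc with
  | nil =>
    cases m with
    | nil => simp [dotN_nil]
    | cons b m => simp at h
  | cons a l ih =>
    cases m with
    | nil => simp [dotN_cons_nil]
    | cons b m =>
      rw [dotN_cons_cons, ih m (acc + a * b) (by simpa using h)]
      rw [List.length_cons, Finset.sum_range_succ']
      simp only [List.getD_cons_succ, List.getD_cons_zero]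
      ring

/-- the value of an entry -/
def ent (X Y : List ℕ) (k : ℕ) : ℕ :=
  (((∑ i ∈ Finset.range (k + 1), X.getD i 0 * Y.getD (k - i) 0) + (k + 1) * (OB * OB) + OB * SC)
    - OB * ((∑ i ∈ Finset.range (k + 1), X.getD i 0) + ∑ i ∈ Finset.range (k + 1), Y.getD i 0)) / SC

theorem rev_getD (Y : List ℕ) (k i : ℕ) (hk : k < Y.length) (hi : i < k + 1) :
    ((Y.take (k + 1)).reverse).getD i 0 = Y.getD (k - i) 0 := by
  have hl : (Y.take (k + 1)).length = k + 1 := by
    rw [List.length_take]; omega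
  rw [List.getD_eq_getElem _ _ (by rw [List.length_reverse, hl]; exact hi),
    List.getElem_reverse, List.getElem_take, List.getD_eq_getElem _ _ (by omega)]
  congr 1
  rw [hl]
  omega

theorem take_succ_reverse (Y : List ℕ) (k : ℕ) (hk : k < Y.length) :
    (Y.take (k + 1)).reverse = Y[k] :: (Y.take k).reverse := by
  rw [List.take_succ_eq_append_getElem hk, List.reverse_append]
  rfl

theorem convA_spec (X Y : List ℕ) (h : Y.length ≤ X.length) :
    ∀ (bs rev xs : List ℕ) (sm k : ℕ), bs = Y.drop k → rev = (Y.take k).reverse →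
      xs = X.drop k →
      sm = (∑ i ∈ Finset.range k, X.getD i 0) + ∑ i ∈ Finset.range k, Y.getD i 0 →
      (convA X bs rev xs sm k).length = bs.length ∧
      ∀ j < bs.length, (convA X bs rev xs sm k).getD j 0 = ent X Y (k + j) := by
  intro bs
  induction bs with
  | nil =>
    intro rev xs sm k _ _ _ _
    refine ⟨by rw [convA_nil], ?_⟩
    intro j hj
    simp at hj
  | cons b bs ih =>
    intro rev xs sm k hbs hrev hxs hsm
    have hk : k < Y.length := by
      by_contra hcon
      rw [List.drop_eq_nil_of_le (by omega)] at hbs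
      exact absurd hbs (by simp)
    have hd := List.drop_eq_getElem_cons hk
    rw [hd] at hbs
    injection hbs with hb hbs'
    have hkX : k < X.length := by omega
    have hdX := List.drop_eq_getElem_cons hkX
    rw [hdX] at hxs
    subst hxs
    have hrev' : b :: rev = (Y.take (k + 1)).reverse := by
      rw [take_succ_reverse Y k hk, hb, hrev]
    have hYk : b = Y.getD k 0 := by rw [hb, List.getD_eq_getElem _ _ hk]
    have hXk : X[k] = X.getD k 0 := by rw [List.getD_eq_getElem _ _ hkX]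
    have hsm' : (sm + b) + X[k] =
        (∑ i ∈ Finset.range (k + 1), X.getD i 0) + ∑ i ∈ Finset.range (k + 1), Y.getD i 0 := by
      rw [Finset.sum_range_succ, Finset.sum_range_succ, hsm, hYk, hXk]
      ring
    have hE : (dotN X (b :: rev) 0 + (k + 1) * (OB * OB) + OB * SC
        - OB * (sm + b + X[k])) / SC = ent X Y k := by
      have hlen : (b :: rev).length = k + 1 := by
        rw [hrev', List.length_reverse, List.length_take]; omega
      have hdot : dotN X (b :: rev) 0 =
          ∑ i ∈ Finset.range (k + 1), X.getD i 0 * Y.getD (k - i) 0 := by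
        rw [dotN_eq X (b :: rev) 0 (by rw [hlen]; omega), hlen, zero_add]
        refine Finset.sum_congr rfl ?_
        intro i hi
        rw [hrev', rev_getD Y k i hk (Finset.mem_range.mp hi)]
      rw [hsm', hdot, ent]
    obtain ⟨h1, h2⟩ := ih (b :: rev) (X.drop (k + 1)) (sm + b + X[k]) (k + 1) hbs' hrev' rfl hsm'
    have hstep : convA X (b :: bs) rev (X[k] :: X.drop (k + 1)) sm k =
      ent X Y k :: convA X bs (b :: rev) (X.drop (k + 1)) (sm + b + X[k]) (k + 1) := by
      rw [convA_cons, hE]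
    rw [hstep]
    refine ⟨by rw [List.length_cons, List.length_cons, h1], ?_⟩
    intro j hj
    cases j with
    | zero => rw [List.getD_cons_zero, add_zero]
    | succ j =>
      rw [List.getD_cons_succ, h2 j (by simpa using hj)]
      congr 1
      omega

theorem nrm_nil : nrm [] = 0 := rfl

theorem nrm_cons (x : ℕ) (X : List ℕ) : nrm (x :: X) = nrm X + ((x - OB) + (OB - x)) := by
  rw [nrm, List.foldr_cons]
  simp only [Nat.add_eq, Nat.sub_eq]
  rfl

theorem posL_nil : posL [] = true := rfl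

theorem posL_cons (x : ℕ) (X : List ℕ) : posL (x :: X) = (Nat.blt 0 x && posL X) := by
  rw [posL, List.foldr_cons]
  rfl

theorem abs_le_nrm (X : List ℕ) :
    ∑ i ∈ Finset.range X.length, |(X.getD i 0 : ℝ) - (OB : ℝ)| ≤ nrm X := by
  induction X with
  | nil => simp [nrm_nil]
  | cons x X ih =>
    rw [List.length_cons, Finset.sum_range_succ', nrm_cons]
    simp only [List.getD_cons_succ, List.getD_cons_zero]
    have h1 : |(x : ℝ) - (OB : ℝ)| = (((x - OB) + (OB - x) : ℕ) : ℝ) := by
      rcases le_total x OB with hx | hx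
      · rw [Nat.sub_eq_zero_of_le hx, zero_add, Nat.cast_sub hx, abs_sub_comm, abs_of_nonneg]
        have : (x : ℝ) ≤ OB := by exact_mod_cast hx
        linarith
      · rw [Nat.sub_eq_zero_of_le hx, add_zero, Nat.cast_sub hx, abs_of_nonneg]
        have : (OB : ℝ) ≤ x := by exact_mod_cast hx
        linarith
    rw [h1]
    push_cast at ih ⊢
    linarith

theorem abs_sum_le_nrm (X : List ℕ) (n : ℕ) (hn : n ≤ X.length) :
    ∑ i ∈ Finset.range n, |(X.getD i 0 : ℝ) - (OB : ℝ)| ≤ nrm X := by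
  refine le_trans ?_ (abs_le_nrm X)
  exact Finset.sum_le_sum_of_subset_of_nonneg (Finset.range_mono hn)
    (fun _ _ _ => abs_nonneg _)

theorem posL_iff (X : List ℕ) : posL X = true ↔ ∀ i < X.length, 0 < X.getD i 0 := by
  induction X with
  | nil => simp [posL_nil]
  | cons x X ih =>
    rw [posL_cons, Bool.and_eq_true, Nat.blt_eq, ih]
    constructor
    · rintro ⟨h1, h2⟩ i hi
      cases i with
      | zero => simpa using h1
      | succ i => rw [List.getD_cons_succ]; exact h2 i (by simpa using hi)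
    · intro h
      refine ⟨by simpa using h 0 (by simp), ?_⟩
      intro i hi
      have := h (i + 1) (by simpa using hi)
      rwa [List.getD_cons_succ] at this

theorem conv_spec (X Y : List ℕ) (h : Y.length ≤ X.length) :
    (conv X Y).length = Y.length ∧ ∀ j < Y.length, (conv X Y).getD j 0 = ent X Y j := by
  have h0 := convA_spec X Y h Y [] X 0 0 (by rw [List.drop_zero]) (by rw [List.take_zero]; rfl)
    (by rw [List.drop_zero]) (by rw [Finset.sum_range_zero, Finset.sum_range_zero, Nat.add_zero])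
  refine ⟨h0.1, ?_⟩
  intro j hj
  have h2 := h0.2 j hj
  rw [Nat.zero_add] at h2
  exact h2

theorem sum_reflect (f : ℕ → ℝ) (k : ℕ) :
    ∑ i ∈ Finset.range (k + 1), f (k - i) = ∑ i ∈ Finset.range (k + 1), f i := by
  have := Finset.sum_range_reflect f (k + 1)
  rw [← this]
  refine Finset.sum_congr rfl ?_
  intro i _
  congr 1

theorem ent_val (X Y : List ℕ) (k : ℕ) (hpos : 0 < ent X Y k) :
    |(∑ i ∈ Finset.range (k + 1), ((X.getD i 0 : ℝ) - OB) * ((Y.getD (k - i) 0 : ℝ) - OB)) / SC
      - ((ent X Y k : ℝ) - OB)| ≤ 1 := by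
  obtain ⟨A, hA⟩ : ∃ A : ℕ, A = (∑ i ∈ Finset.range (k + 1), X.getD i 0 * Y.getD (k - i) 0)
    + (k + 1) * (OB * OB) + OB * SC := ⟨_, rfl⟩
  obtain ⟨B, hB⟩ : ∃ B : ℕ, B = OB * ((∑ i ∈ Finset.range (k + 1), X.getD i 0) +
    ∑ i ∈ Finset.range (k + 1), Y.getD i 0) := ⟨_, rfl⟩
  obtain ⟨S, hS⟩ : ∃ S : ℝ, S = ∑ i ∈ Finset.range (k + 1),
    ((X.getD i 0 : ℝ) - OB) * ((Y.getD (k - i) 0 : ℝ) - OB) := ⟨_, rfl⟩
  have hent : ent X Y k = (A - B) / SC := by rw [ent, ← hA, ← hB]
  obtain ⟨e, he⟩ : ∃ e : ℕ, e = ent X Y k := ⟨_, rfl⟩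
  rw [← he] at hpos hent ⊢
  rw [← hS]
  have hSC := SC_pos
  have hsc : (0 : ℝ) < SC := by exact_mod_cast hSC
  have hlt : B ≤ A := by
    by_contra hcon
    rw [Nat.sub_eq_zero_of_le (by omega), Nat.zero_div] at hent
    omega
  have h1 : e * SC ≤ A - B := by rw [hent]; exact Nat.div_mul_le_self _ _
  have h2 : A - B < (e + 1) * SC := by
    rw [hent]
    exact (Nat.div_lt_iff_lt_mul hSC).mp (Nat.lt_succ_self _)
  have hcast : ((A - B : ℕ) : ℝ) = S + OB * SC := by
    rw [Nat.cast_sub hlt, hA, hB, hS]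
    push_cast
    have h3 : ∑ i ∈ Finset.range (k + 1),
        ((X.getD i 0 : ℝ) - OB) * ((Y.getD (k - i) 0 : ℝ) - OB) =
        (∑ i ∈ Finset.range (k + 1), (X.getD i 0 : ℝ) * (Y.getD (k - i) 0 : ℝ))
        - OB * (∑ i ∈ Finset.range (k + 1), (X.getD i 0 : ℝ))
        - OB * (∑ i ∈ Finset.range (k + 1), (Y.getD (k - i) 0 : ℝ)) + (k + 1) * (OB * OB) := by
      rw [Finset.mul_sum, Finset.mul_sum, ← Finset.sum_sub_distrib, ← Finset.sum_sub_distrib]
      have h4 : ((k : ℝ) + 1) * (OB * OB) = ∑ _i ∈ Finset.range (k + 1), (OB : ℝ) * OB := by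
        rw [Finset.sum_const, Finset.card_range, nsmul_eq_mul]
        push_cast
        ring
      rw [h4, ← Finset.sum_add_distrib]
      refine Finset.sum_congr rfl ?_
      intro i _
      ring
    rw [h3, sum_reflect (fun j => (Y.getD j 0 : ℝ)) k]
    ring
  have h1' : (e : ℝ) * SC ≤ S + OB * SC := by
    rw [← hcast]; exact_mod_cast h1
  have h2' : S + OB * SC < ((e : ℝ) + 1) * SC := by
    rw [← hcast]; exact_mod_cast h2
  have h5 : S / SC - ((e : ℝ) - OB) = (S + OB * SC - e * SC) / SC := by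
    field_simp
    ring
  rw [h5, abs_of_nonneg (div_nonneg (by linarith) hsc.le), div_le_one hsc]
  nlinarith

theorem errM_ge (nX nY len eX eY : ℕ) :
    ((nX : ℝ) * eY + nY * eX + len * (eX * eY)) / SC + 1 ≤ (errM nX nY len eX eY : ℕ) := by
  have h0 : errM nX nY len eX eY = (nX * eY + nY * eX + len * (eX * eY)) / SC + 2 := by
    rw [errM]
    simp only [Nat.add_eq, Nat.mul_eq, ndiv]
  obtain ⟨T, hT⟩ : ∃ T : ℕ, T = nX * eY + nY * eX + len * (eX * eY) := ⟨_, rfl⟩
  have hTr : (nX : ℝ) * eY + nY * eX + len * (eX * eY) = T := by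
    rw [hT]; push_cast; ring
  rw [h0, ← hT, hTr]
  have hSC := SC_pos
  have hsc : (0 : ℝ) < SC := by exact_mod_cast hSC
  obtain ⟨q, hq⟩ : ∃ q : ℕ, q = T / SC := ⟨_, rfl⟩
  rw [← hq]
  have h2 : T < (q + 1) * SC := by
    rw [hq]
    exact (Nat.div_lt_iff_lt_mul hSC).mp (Nat.lt_succ_self _)
  have h3 : (T : ℝ) < ((q : ℝ) + 1) * SC := by exact_mod_cast h2
  have h4 : (T : ℝ) / SC < (q : ℝ) + 1 := by
    rw [div_lt_iff₀ hsc]; exact h3
  push_cast
  linarith

theorem prod_err (x y f g a b : ℝ) (hf : |f - x| ≤ a) (hg : |g - y| ≤ b) :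
    |f * g - x * y| ≤ |x| * b + |y| * a + a * b := by
  have h : f * g - x * y = x * (g - y) + y * (f - x) + (f - x) * (g - y) := by ring
  rw [h]
  have ha : 0 ≤ a := (abs_nonneg _).trans hf
  refine (abs_add_le _ _).trans ?_
  refine add_le_add ((abs_add_le _ _).trans ?_) ?_
  · rw [abs_mul, abs_mul]
    exact add_le_add (mul_le_mul_of_nonneg_left hg (abs_nonneg _))
      (mul_le_mul_of_nonneg_left hf (abs_nonneg _))
  · rw [abs_mul]
    exact mul_le_mul hf hg (abs_nonneg _) ha

end NL1aux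

open NL1aux

theorem conv_length (X Y : List ℕ) (h : Y.length ≤ X.length) : (conv X Y).length = Y.length :=
  (conv_spec X Y h).1

theorem conv_rel (F G : ℕ → ℝ) (X Y : List ℕ) (eX eY : ℕ) (hX : Rel F X eX) (hY : Rel G Y eY)
    (h : Y.length ≤ X.length) (hp : posL (conv X Y) = true) :
    Rel (fun k => ∑ i ∈ Finset.range (k + 1), F i * G (k - i)) (conv X Y)
      (errM (nrm X) (nrm Y) Y.length eX eY) := by
  intro k hk
  rw [conv_length X Y h] at hk
  have hk' := hk
  have hpk := (posL_iff _).mp hp k (by rw [conv_length X Y h]; exact hk)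
  rw [(conv_spec X Y h).2 k hk] at hpk ⊢
  have hv := ent_val X Y k hpk
  refine le_trans ?_ (errM_ge (nrm X) (nrm Y) Y.length eX eY)
  have hSC := SC_pos
  have hsc : (0 : ℝ) < SC := by exact_mod_cast hSC
  obtain ⟨x, hx⟩ : ∃ x : ℕ → ℝ, x = fun i => (X.getD i 0 : ℝ) - OB := ⟨_, rfl⟩
  obtain ⟨y, hy⟩ : ∃ y : ℕ → ℝ, y = fun i => (Y.getD i 0 : ℝ) - OB := ⟨_, rfl⟩
  have hv' : |(∑ i ∈ Finset.range (k + 1), x i * y (k - i)) / SC
      - ((ent X Y k : ℝ) - OB)| ≤ 1 := by
    rw [hx, hy]; exact hv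
  have hbx : ∑ i ∈ Finset.range (k + 1), |x i| ≤ nrm X := by
    rw [hx]; exact abs_sum_le_nrm X (k + 1) (by omega)
  have hby : ∑ i ∈ Finset.range (k + 1), |y i| ≤ nrm Y := by
    rw [hy]; exact abs_sum_le_nrm Y (k + 1) (by omega)
  have hby' : ∑ i ∈ Finset.range (k + 1), |y (k - i)| ≤ nrm Y := by
    rw [sum_reflect (fun j => |y j|) k]; exact hby
  have hfx : ∀ i < X.length, |F i * SC - x i| ≤ eX := by
    intro i hi; rw [hx]; exact hX i hi
  have hgy : ∀ i < Y.length, |G i * SC - y i| ≤ eY := by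
    intro i hi; rw [hy]; exact hY i hi
  have hterm : |(∑ i ∈ Finset.range (k + 1), (F i * SC) * (G (k - i) * SC)) -
      ∑ i ∈ Finset.range (k + 1), x i * y (k - i)| ≤
      (nrm X : ℝ) * eY + nrm Y * eX + Y.length * (eX * eY) := by
    rw [← Finset.sum_sub_distrib]
    refine (Finset.abs_sum_le_sum_abs _ _).trans ?_
    have h1 : ∑ i ∈ Finset.range (k + 1), |F i * SC * (G (k - i) * SC) - x i * y (k - i)| ≤
        ∑ i ∈ Finset.range (k + 1), (|x i| * eY + |y (k - i)| * eX + eX * eY) := by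
      refine Finset.sum_le_sum ?_
      intro i hi
      have hi' := Finset.mem_range.mp hi
      exact prod_err _ _ _ _ _ _ (hfx i (by omega)) (hgy (k - i) (by omega))
    refine h1.trans ?_
    rw [Finset.sum_add_distrib, Finset.sum_add_distrib, ← Finset.sum_mul, ← Finset.sum_mul,
      Finset.sum_const, Finset.card_range, nsmul_eq_mul]
    have h2 : (((k + 1 : ℕ) : ℝ)) ≤ (Y.length : ℝ) := by exact_mod_cast (by omega : k + 1 ≤ Y.length)
    have e1 : (0 : ℝ) ≤ eX := Nat.cast_nonneg _
    have e2 : (0 : ℝ) ≤ eY := Nat.cast_nonneg _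
    have h3 := mul_le_mul_of_nonneg_right hbx e2
    have h4 := mul_le_mul_of_nonneg_right hby' e1
    have h5 := mul_le_mul_of_nonneg_right h2 (mul_nonneg e1 e2)
    linarith
  have hFG : (∑ i ∈ Finset.range (k + 1), F i * G (k - i)) * (SC : ℝ) =
      (∑ i ∈ Finset.range (k + 1), (F i * SC) * (G (k - i) * SC)) / SC := by
    rw [eq_div_iff hsc.ne', Finset.sum_mul, Finset.sum_mul]
    refine Finset.sum_congr rfl ?_
    intro i _
    ring
  obtain ⟨P, hP⟩ : ∃ P : ℝ, P = ∑ i ∈ Finset.range (k + 1), (F i * SC) * (G (k - i) * SC) :=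
    ⟨_, rfl⟩
  obtain ⟨Q, hQ⟩ : ∃ Q : ℝ, Q = ∑ i ∈ Finset.range (k + 1), x i * y (k - i) := ⟨_, rfl⟩
  rw [← hP, ← hQ] at hterm
  rw [← hQ] at hv'
  rw [← hP] at hFG
  show |(∑ i ∈ Finset.range (k + 1), F i * G (k - i)) * (SC : ℝ) - ((ent X Y k : ℝ) - OB)| ≤ _
  rw [hFG]
  have h6 : P / SC - ((ent X Y k : ℝ) - OB) = (P - Q) / SC + (Q / SC - ((ent X Y k : ℝ) - OB)) := by
    ring
  rw [h6]
  refine (abs_add_le _ _).trans ?_
  refine add_le_add ?_ hv'
  rw [abs_div, abs_of_pos hsc]
  exact div_le_div_of_nonneg_right hterm hsc.le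

theorem conv_rel_ps (F G : PowerSeries ℝ) (X Y : List ℕ) (eX eY : ℕ)
    (hX : Rel (fun k => PowerSeries.coeff k F) X eX) (hY : Rel (fun k => PowerSeries.coeff k G) Y eY)
    (h : Y.length ≤ X.length) (hp : posL (conv X Y) = true) :
    Rel (fun k => PowerSeries.coeff k (F * G)) (conv X Y)
      (errM (nrm X) (nrm Y) Y.length eX eY) := by
  have h0 := conv_rel _ _ X Y eX eY hX hY h hp
  have h1 : (fun k => PowerSeries.coeff k (F * G)) = fun k =>
      ∑ i ∈ Finset.range (k + 1), PowerSeries.coeff i F * PowerSeries.coeff (k - i) G := by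
    funext k
    rw [PowerSeries.coeff_mul, Finset.Nat.sum_antidiagonal_eq_sum_range_succ
      (fun i j => PowerSeries.coeff i F * PowerSeries.coeff j G)]
  rw [h1]
  exact h0

namespace NL1aux

theorem horner_nil (U : List ℕ) (nU eU eh : ℕ) (S : List ℕ) (e : ℕ) (ok : Bool) :
    horner U nU eU eh [] S e ok = (S, e, ok) := by
  rw [horner]

theorem horner_cons (U : List ℕ) (nU eU eh : ℕ) (h : ℕ) (hs S : List ℕ) (e : ℕ) (ok : Bool) :
    horner U nU eU eh (h :: hs) S e ok =
      horner U nU eU eh hs (h :: conv U S) (errM nU (nrm S) S.length eU e + eh)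
        (ok && posL (conv U S)) := by
  rw [horner]
  simp only [Nat.add_eq]

theorem horner_ok (U : List ℕ) (nU eU eh : ℕ) (hs : List ℕ) :
    ∀ (S : List ℕ) (e : ℕ) (ok : Bool), (horner U nU eU eh hs S e ok).2.2 = true → ok = true := by
  induction hs with
  | nil =>
    intro S e ok h
    rw [horner_nil] at h
    exact h
  | cons a hs ih =>
    intro S e ok h
    rw [horner_cons] at h
    have := ih _ _ _ h
    rw [Bool.and_eq_true] at this
    exact this.1

theorem horner_aux (U : PowerSeries ℝ) (Ul : List ℕ) (eU eh : ℕ)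
    (hU : Rel (fun k => PowerSeries.coeff k U) Ul eU) (hs : List ℕ) :
    ∀ (g : ℕ → ℝ) (S : List ℕ) (e m : ℕ) (P : PowerSeries ℝ),
      (∀ j < hs.length, |g j * (SC : ℝ) - ((hs.getD j 0 : ℝ) - (OB : ℝ))| ≤ eh) →
      S.length = m + 1 → m + hs.length ≤ Ul.length →
      Rel (fun k => PowerSeries.coeff k P) S e →
      (horner Ul (nrm Ul) eU eh hs S e true).2.2 = true →
      (horner Ul (nrm Ul) eU eh hs S e true).1.length = m + 1 + hs.length ∧
      Rel (fun k => PowerSeries.coeff k
        ((∑ j ∈ Finset.range hs.length,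
          PowerSeries.C (g (hs.length - 1 - j)) * (PowerSeries.X * U) ^ j) +
          (PowerSeries.X * U) ^ hs.length * P))
        (horner Ul (nrm Ul) eU eh hs S e true).1
        (horner Ul (nrm Ul) eU eh hs S e true).2.1 := by
  induction hs with
  | nil =>
    intro g S e m P _ hS _ hP _
    rw [horner_nil]
    refine ⟨by simpa using hS, ?_⟩
    simpa using hP
  | cons a hs ih =>
    intro g S e m P hg hS hm hP hok
    rw [horner_cons] at hok ⊢
    have hpos : posL (conv Ul S) = true := by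
      have := horner_ok _ _ _ _ _ _ _ _ hok
      rw [Bool.and_eq_true] at this
      exact this.2
    rw [hpos, Bool.and_self] at hok ⊢
    rw [List.length_cons] at hm hg
    have hle : S.length ≤ Ul.length := by omega
    have hc := conv_rel_ps U P Ul S eU e hU hP hle hpos
    have hcl := conv_length Ul S hle
    have hrel : Rel (fun k => PowerSeries.coeff k
        (PowerSeries.C (g 0) + PowerSeries.X * U * P)) (a :: conv Ul S)
        (errM (nrm Ul) (nrm S) S.length eU e + eh) := by
      intro k hk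
      cases k with
      | zero =>
        have h0 := hg 0 (by omega)
        rw [List.getD_cons_zero] at h0 ⊢
        have h1 : PowerSeries.coeff 0 (PowerSeries.C (g 0) + PowerSeries.X * U * P) = g 0 := by
          rw [map_add, mul_assoc, PowerSeries.coeff_zero_X_mul, add_zero,
            PowerSeries.coeff_zero_C]
        show |PowerSeries.coeff 0 (PowerSeries.C (g 0) + PowerSeries.X * U * P) * (SC : ℝ) -
          ((a : ℝ) - (OB : ℝ))| ≤ _
        rw [h1]
        refine h0.trans ?_
        push_cast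
        have : (0 : ℝ) ≤ (errM (nrm Ul) (nrm S) S.length eU e : ℕ) := Nat.cast_nonneg _
        linarith
      | succ k =>
        have hk' : k < (conv Ul S).length := by
          rw [List.length_cons] at hk
          omega
        have h0 := hc k hk'
        rw [List.getD_cons_succ]
        have h1 : PowerSeries.coeff (k + 1) (PowerSeries.C (g 0) + PowerSeries.X * U * P) =
            PowerSeries.coeff k (U * P) := by
          rw [map_add, mul_assoc, PowerSeries.coeff_succ_X_mul, PowerSeries.coeff_C,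
            if_neg (Nat.succ_ne_zero k), zero_add]
        show |PowerSeries.coeff (k + 1) (PowerSeries.C (g 0) + PowerSeries.X * U * P) * (SC : ℝ) -
          (((conv Ul S).getD k 0 : ℝ) - (OB : ℝ))| ≤ _
        rw [h1]
        refine h0.trans ?_
        push_cast
        have : (0 : ℝ) ≤ (eh : ℝ) := Nat.cast_nonneg _
        linarith
    have hlen1 : (a :: conv Ul S).length = (m + 1) + 1 := by
      rw [List.length_cons, hcl, hS]
    have hres := ih (fun j => g (j + 1)) (a :: conv Ul S)
      (errM (nrm Ul) (nrm S) S.length eU e + eh) (m + 1)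
      (PowerSeries.C (g 0) + PowerSeries.X * U * P)
      (by
        intro j hj
        have := hg (j + 1) (by omega)
        rw [List.getD_cons_succ] at this
        exact this) hlen1 (by omega) hrel hok
    obtain ⟨h1, h2⟩ := hres
    refine ⟨by rw [h1, List.length_cons]; omega, ?_⟩
    have hP' : (∑ j ∈ Finset.range (a :: hs).length,
          PowerSeries.C (g ((a :: hs).length - 1 - j)) * (PowerSeries.X * U) ^ j) +
          (PowerSeries.X * U) ^ (a :: hs).length * P =
        (∑ j ∈ Finset.range hs.length,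
          PowerSeries.C ((fun j => g (j + 1)) (hs.length - 1 - j)) * (PowerSeries.X * U) ^ j) +
          (PowerSeries.X * U) ^ hs.length * (PowerSeries.C (g 0) + PowerSeries.X * U * P) := by
      rw [List.length_cons, Finset.sum_range_succ]
      have e1 : ∑ x ∈ Finset.range hs.length,
            PowerSeries.C (g (hs.length + 1 - 1 - x)) * (PowerSeries.X * U) ^ x =
          ∑ j ∈ Finset.range hs.length,
          PowerSeries.C ((fun j => g (j + 1)) (hs.length - 1 - j)) * (PowerSeries.X * U) ^ j := by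
        refine Finset.sum_congr rfl ?_
        intro j hj
        have := Finset.mem_range.mp hj
        have e2 : hs.length + 1 - 1 - j = hs.length - 1 - j + 1 := by omega
        rw [e2]
      rw [e1]
      have e3 : hs.length + 1 - 1 - hs.length = 0 := by omega
      rw [e3, pow_succ]
      ring
    rw [hP']
    exact h2

end NL1aux

/-- Horner scheme: `hd :: hs` are the coefficients `h n, h (n-1), ..., h 0` -/
theorem horner_rel (U : PowerSeries ℝ) (Ul : List ℕ) (eU eh : ℕ)
    (hU : Rel (fun k => PowerSeries.coeff k U) Ul eU) (h : ℕ → ℝ) (hs : List ℕ) (hd n : ℕ)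
    (hlen : hs.length = n)
    (hh : ∀ j < n, |h (n - 1 - j) * (SC : ℝ) - ((hs.getD j 0 : ℝ) - (OB : ℝ))| ≤ eh)
    (hhd : |h n * (SC : ℝ) - ((hd : ℝ) - (OB : ℝ))| ≤ eh) (hUl : n ≤ Ul.length)
    (hok : (horner Ul (nrm Ul) eU eh hs [hd] eh true).2.2 = true) :
    (horner Ul (nrm Ul) eU eh hs [hd] eh true).1.length = n + 1 ∧
    Rel (fun k => PowerSeries.coeff k
        (∑ j ∈ Finset.range (n + 1), PowerSeries.C (h j) * (PowerSeries.X * U) ^ j))
      (horner Ul (nrm Ul) eU eh hs [hd] eh true).1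
      (horner Ul (nrm Ul) eU eh hs [hd] eh true).2.1 := by
  have hrel : Rel (fun k => PowerSeries.coeff k (PowerSeries.C (h n))) [hd] eh := by
    intro k hk
    have hk0 : k = 0 := by
      rw [List.length_singleton] at hk
      omega
    subst hk0
    show |PowerSeries.coeff 0 (PowerSeries.C (h n)) * (SC : ℝ) - ((hd : ℝ) - (OB : ℝ))| ≤ _
    rw [PowerSeries.coeff_zero_C]
    exact hhd
  have h0 := horner_aux U Ul eU eh hU hs (fun j => h (n - 1 - j)) [hd] eh 0
    (PowerSeries.C (h n)) (by rw [hlen]; exact hh) (by rw [List.length_singleton])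
    (by omega) hrel hok
  obtain ⟨h1, h2⟩ := h0
  refine ⟨by rw [h1, hlen]; omega, ?_⟩
  have hP : (∑ j ∈ Finset.range (n + 1), PowerSeries.C (h j) * (PowerSeries.X * U) ^ j) =
      (∑ j ∈ Finset.range hs.length,
          PowerSeries.C ((fun j => h (n - 1 - j)) (hs.length - 1 - j)) *
            (PowerSeries.X * U) ^ j) +
          (PowerSeries.X * U) ^ hs.length * PowerSeries.C (h n) := by
    rw [Finset.sum_range_succ, hlen]
    congr 1
    · refine Finset.sum_congr rfl ?_
      intro j hj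
      have := Finset.mem_range.mp hj
      have e2 : n - 1 - (n - 1 - j) = j := by omega
      show _ = PowerSeries.C (h (n - 1 - (n - 1 - j))) * (PowerSeries.X * U) ^ j
      rw [e2]
    · ring
  rw [hP]
  exact h2

theorem dig_spec (F : ℕ → ℝ) (b : Ball) (h : Rel F b.l b.e) (he : b.e ≤ 2 ^ 260) (i : ℕ)
    (hi : i < b.l.length) :
    |F i - ((dig b).getD i 0 : ℝ) / 10 ^ 15| ≤ 2 / 10 ^ 15 := by
  have h1 := h i hi
  have hSC := SC_pos
  have hsc : (0 : ℝ) < SC := by exact_mod_cast hSC
  obtain ⟨x, hx⟩ : ∃ x : ℕ, x = b.l.getD i 0 := ⟨_, rfl⟩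
  rw [← hx] at h1
  obtain ⟨d, hd⟩ : ∃ d : ℤ, d = (dig b).getD i 0 := ⟨_, rfl⟩
  have hd2 : d = ((x : ℤ) - (OB : ℤ)) * 1000000000000000 / (SC : ℤ) := by
    rw [hd, dig, List.getD_eq_getElem _ _ (by rw [List.length_map]; exact hi), List.getElem_map,
      hx, List.getD_eq_getElem _ _ hi]
    rfl
  rw [← hd]
  have hscz : (0 : ℤ) < (SC : ℤ) := by exact_mod_cast hSC
  have h2 : d * (SC : ℤ) ≤ ((x : ℤ) - (OB : ℤ)) * 1000000000000000 := by
    rw [hd2]; exact Int.ediv_mul_le _ hscz.ne'
  have h3 : ((x : ℤ) - (OB : ℤ)) * 1000000000000000 < (d + 1) * (SC : ℤ) := by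
    rw [hd2]; exact Int.lt_ediv_add_one_mul_self _ hscz
  have h2' : (d : ℝ) * SC ≤ ((x : ℝ) - OB) * 1000000000000000 := by exact_mod_cast h2
  have h3' : ((x : ℝ) - OB) * 1000000000000000 < ((d : ℝ) + 1) * SC := by exact_mod_cast h3
  have he' : (b.e : ℝ) * 10 ^ 15 ≤ SC := by
    have e1 : (SC : ℝ) = 2 ^ 260 * 2 ^ 60 := by
      rw [← pow_add, SC_eq, Nat.cast_pow, Nat.cast_ofNat]
    have e2 : (b.e : ℝ) ≤ 2 ^ 260 := by exact_mod_cast he
    rw [e1]
    refine mul_le_mul e2 (by norm_num) (by positivity) (by positivity)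
  rw [abs_le] at h1 ⊢
  obtain ⟨h4, h5⟩ := h1
  have key : F i - (d : ℝ) / 10 ^ 15 = ((F i * SC) * 10 ^ 15 - d * SC) / (SC * 10 ^ 15) := by
    field_simp
  rw [key]
  have hpos : (0 : ℝ) < SC * 10 ^ 15 := by positivity
  constructor
  · rw [le_div_iff₀ hpos]
    have e3 : -((2 : ℝ) / 10 ^ 15) * (SC * 10 ^ 15) = -(2 * SC) := by
      field_simp
    rw [e3]
    nlinarith
  · rw [div_le_iff₀ hpos]
    have e3 : ((2 : ℝ) / 10 ^ 15) * (SC * 10 ^ 15) = 2 * SC := by
      field_simp
    rw [e3]
    nlinarith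

end GUB.Num
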