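import Pool.Agent.Lib.MP_721eb4_an.UB.NL1

/-! Upper bound for the complex Grothendieck constant: linear recurrences -/

set_option autoImplicit false

namespace GUB.Num

/-- `rev` is the reversed list of the first coefficients of `f`, with error `e` -/
def RelR (f : ℕ → ℝ) (rev : List ℤ) (e : ℕ) : Prop :=
  ∀ j < rev.length, |f (rev.length - 1 - j) * (SC : ℝ) - (rev.getD j 0 : ℝ)| ≤ e

private theorem nl2_SCz : (SCz : ℝ) = (SC : ℝ) := by
  unfold SCz
  exact Int.cast_natCast SC

private theorem nl2_dotZ (A B : List ℤ) :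
    (dotZ A B : ℝ) = ∑ k ∈ Finset.range (min A.length B.length),
      (A.getD k 0 : ℝ) * (B.getD k 0 : ℝ) := by
  induction A generalizing B with
  | nil => simp [dotZ]
  | cons a A ih =>
    cases B with
    | nil => simp [dotZ]
    | cons b B =>
      rw [dotZ, List.length_cons, List.length_cons, Nat.succ_min_succ, Finset.sum_range_succ']
      push_cast
      rw [ih B]
      simp only [List.getD_cons_succ, List.getD_cons_zero]
      ring

private theorem nl2_wdot (n2 : ℤ) (k0 : ℤ) (A B : List ℤ) :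
    (wdot n2 k0 A B : ℝ) = ∑ k ∈ Finset.range (min A.length B.length),
      ((n2 : ℝ) - ((k0 : ℝ) + (k : ℝ))) * (A.getD k 0 : ℝ) * (B.getD k 0 : ℝ) := by
  induction A generalizing B k0 with
  | nil => simp [wdot]
  | cons a A ih =>
    cases B with
    | nil => simp [wdot]
    | cons b B =>
      rw [wdot, List.length_cons, List.length_cons, Nat.succ_min_succ, Finset.sum_range_succ']
      push_cast
      rw [ih (k0 + 1) B]
      simp only [List.getD_cons_succ, List.getD_cons_zero]
      push_cast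
      rw [add_comm]
      congr 1
      · refine Finset.sum_congr rfl fun k _ => ?_
        ring
      · ring

private theorem nl2_absS (A : List ℤ) (m : ℕ) :
    ∑ k ∈ Finset.range (min A.length m), |(A.getD k 0 : ℝ)| ≤ (absS A : ℝ) := by
  induction A generalizing m with
  | nil => simp [absS]
  | cons a A ih =>
    have hc : absS (a :: A) = a.natAbs + absS A := rfl
    cases m with
    | zero =>
      simp
    | succ m =>
      rw [List.length_cons, Nat.succ_min_succ, Finset.sum_range_succ', hc]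
      simp only [List.getD_cons_succ, List.getD_cons_zero]
      push_cast
      have h1 := ih m
      have h2 : ((a.natAbs : ℕ) : ℝ) = |(a : ℝ)| := by
        rw [Nat.cast_natAbs, Int.cast_abs]
      have h3 : |(a : ℝ)| = |((a : ℤ) : ℝ)| := rfl
      linarith

/-- floor division of real numbers -/
private theorem nl2_div (x d : ℤ) (hd : 0 < d) :
    |(x : ℝ) / (d : ℝ) - ((x / d : ℤ) : ℝ)| ≤ 1 := by
  have hd' : (0 : ℝ) < (d : ℝ) := by exact_mod_cast hd
  have h1 : d * (x / d) ≤ x := Int.mul_ediv_self_le hd.ne'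
  have h2 : x < d * (x / d) + d := by
    have := Int.lt_mul_ediv_self_add (x := x) hd
    exact this
  have h1' : (d : ℝ) * ((x / d : ℤ) : ℝ) ≤ (x : ℝ) := by exact_mod_cast h1
  have h2' : (x : ℝ) < (d : ℝ) * ((x / d : ℤ) : ℝ) + (d : ℝ) := by exact_mod_cast h2
  have h3 : ((x / d : ℤ) : ℝ) ≤ (x : ℝ) / (d : ℝ) := by
    rw [le_div_iff₀ hd']
    linarith
  have h4 : (x : ℝ) / (d : ℝ) ≤ ((x / d : ℤ) : ℝ) + 1 := by
    rw [div_le_iff₀ hd']
    linarith
  rw [abs_le]
  constructor <;> linarith

/-- the error of one step of a linear recurrence -/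
private theorem nl2_step (Y0 : ℤ) (Yt : List ℤ) (hY : 0 < Y0) (f : ℕ → ℝ) (rev : List ℤ) (e : ℕ)
    (hrev : RelR f rev e) (w : ℕ → ℝ) (hw : ∀ k < min Yt.length rev.length, |w k| ≤ 1) :
    |(∑ k ∈ Finset.range (min Yt.length rev.length),
        w k * (Yt.getD k 0 : ℝ) * f (rev.length - 1 - k)) * (SC : ℝ) / (Y0 : ℝ)
      - (∑ k ∈ Finset.range (min Yt.length rev.length),
        w k * (Yt.getD k 0 : ℝ) * (rev.getD k 0 : ℝ)) / (Y0 : ℝ)|
      ≤ ((absS Yt / Y0.natAbs + 1 : ℕ) : ℝ) * (e : ℝ) := by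
  have hY' : (0 : ℝ) < (Y0 : ℝ) := by exact_mod_cast hY
  have hrw : (∑ k ∈ Finset.range (min Yt.length rev.length),
        w k * (Yt.getD k 0 : ℝ) * f (rev.length - 1 - k)) * (SC : ℝ) / (Y0 : ℝ)
      - (∑ k ∈ Finset.range (min Yt.length rev.length),
        w k * (Yt.getD k 0 : ℝ) * (rev.getD k 0 : ℝ)) / (Y0 : ℝ)
      = (∑ k ∈ Finset.range (min Yt.length rev.length),
        w k * (Yt.getD k 0 : ℝ) * (f (rev.length - 1 - k) * (SC : ℝ) - (rev.getD k 0 : ℝ)))
          / (Y0 : ℝ) := by
    rw [← sub_div, Finset.sum_mul, ← Finset.sum_sub_distrib]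
    congr 1
    refine Finset.sum_congr rfl fun k _ => ?_
    ring
  rw [hrw, abs_div, abs_of_pos hY']
  have h1 : |∑ k ∈ Finset.range (min Yt.length rev.length),
        w k * (Yt.getD k 0 : ℝ) * (f (rev.length - 1 - k) * (SC : ℝ) - (rev.getD k 0 : ℝ))|
      ≤ (absS Yt : ℝ) * (e : ℝ) := by
    calc |∑ k ∈ Finset.range (min Yt.length rev.length),
        w k * (Yt.getD k 0 : ℝ) * (f (rev.length - 1 - k) * (SC : ℝ) - (rev.getD k 0 : ℝ))|
        ≤ ∑ k ∈ Finset.range (min Yt.length rev.length),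
          |w k * (Yt.getD k 0 : ℝ) *
            (f (rev.length - 1 - k) * (SC : ℝ) - (rev.getD k 0 : ℝ))| :=
          Finset.abs_sum_le_sum_abs _ _
      _ ≤ ∑ k ∈ Finset.range (min Yt.length rev.length), |(Yt.getD k 0 : ℝ)| * (e : ℝ) := by
          refine Finset.sum_le_sum fun k hk => ?_
          rw [Finset.mem_range] at hk
          rw [abs_mul, abs_mul]
          have h2 := hw k hk
          have h3 := hrev k (lt_of_lt_of_le hk (min_le_right _ _))
          refine mul_le_mul ?_ h3 (abs_nonneg _) (abs_nonneg _)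
          calc |w k| * |(Yt.getD k 0 : ℝ)| ≤ 1 * |(Yt.getD k 0 : ℝ)| :=
                mul_le_mul_of_nonneg_right h2 (abs_nonneg _)
            _ = |(Yt.getD k 0 : ℝ)| := one_mul _
      _ = (∑ k ∈ Finset.range (min Yt.length rev.length), |(Yt.getD k 0 : ℝ)|) * (e : ℝ) := by
          rw [Finset.sum_mul]
      _ ≤ (absS Yt : ℝ) * (e : ℝ) :=
          mul_le_mul_of_nonneg_right (nl2_absS Yt _) (Nat.cast_nonneg e)
  have h4 : (absS Yt : ℝ) / (Y0 : ℝ) ≤ ((absS Yt / Y0.natAbs + 1 : ℕ) : ℝ) := by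
    have h5 : ((Y0.natAbs : ℕ) : ℝ) = (Y0 : ℝ) := by
      rw [Nat.cast_natAbs, abs_of_pos hY]
    have h6 : 0 < Y0.natAbs := by omega
    have h7 : absS Yt < Y0.natAbs * (absS Yt / Y0.natAbs + 1) := by
      have := Nat.lt_mul_div_succ (absS Yt) h6
      exact this
    have h8 : (absS Yt : ℝ) < ((Y0.natAbs : ℕ) : ℝ) * ((absS Yt / Y0.natAbs + 1 : ℕ) : ℝ) := by
      exact_mod_cast h7
    rw [h5] at h8
    rw [div_le_iff₀ hY']
    linarith
  calc |∑ k ∈ Finset.range (min Yt.length rev.length),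
        w k * (Yt.getD k 0 : ℝ) * (f (rev.length - 1 - k) * (SC : ℝ) - (rev.getD k 0 : ℝ))|
        / (Y0 : ℝ) ≤ (absS Yt : ℝ) * (e : ℝ) / (Y0 : ℝ) :=
        div_le_div_of_nonneg_right h1 hY'.le
    _ = (absS Yt : ℝ) / (Y0 : ℝ) * (e : ℝ) := by ring
    _ ≤ ((absS Yt / Y0.natAbs + 1 : ℕ) : ℝ) * (e : ℝ) :=
        mul_le_mul_of_nonneg_right h4 (Nat.cast_nonneg e)

private theorem nl2_cons (f : ℕ → ℝ) (rev : List ℤ) (q : ℤ) (κ e : ℕ) (hκ : 1 ≤ κ)
    (hrev : RelR f rev e)
    (hq : |f rev.length * (SC : ℝ) - (q : ℝ)| ≤ (κ : ℝ) * (e : ℝ) + 1) :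
    RelR f (q :: rev) (Nat.add (Nat.mul κ e) 1) := by
  have hcast : ((Nat.add (Nat.mul κ e) 1 : ℕ) : ℝ) = (κ : ℝ) * (e : ℝ) + 1 := by
    change ((κ * e + 1 : ℕ) : ℝ) = _
    push_cast
    ring
  intro j hj
  rw [hcast]
  cases j with
  | zero =>
    rw [List.getD_cons_zero, List.length_cons]
    have h1 : rev.length + 1 - 1 - 0 = rev.length := by omega
    rw [h1]
    exact hq
  | succ j =>
    rw [List.length_cons] at hj
    rw [List.getD_cons_succ, List.length_cons]
    have h1 : rev.length + 1 - 1 - (j + 1) = rev.length - 1 - j := by omega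
    rw [h1]
    have h2 := hrev j (by omega)
    have h3 : (1 : ℝ) ≤ (κ : ℝ) := by exact_mod_cast hκ
    have h4 : (0 : ℝ) ≤ (e : ℝ) := Nat.cast_nonneg e
    nlinarith

theorem divS_rel (Y0 : ℤ) (Yt : List ℤ) (hY : 0 < Y0) (f : ℕ → ℝ) (N rev : List ℤ) (e0 : ℕ)
    (hrev : RelR f rev e0)
    (hf : ∀ i < N.length, (Y0 : ℝ) * f (rev.length + i)
      + ∑ k ∈ Finset.range (min Yt.length (rev.length + i)),
          (Yt.getD k 0 : ℝ) * f (rev.length + i - 1 - k) = (N.getD i 0 : ℝ)) :
    (divS Y0 Yt N rev).length = rev.length + N.length ∧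
      RelR f (divS Y0 Yt N rev) (errR (absS Yt / Y0.natAbs + 1) N.length e0) := by
  induction N generalizing rev e0 with
  | nil => exact ⟨by simp [divS], by simpa [divS, errR] using hrev⟩
  | cons a N ih =>
    have hY' : (0 : ℝ) < (Y0 : ℝ) := by exact_mod_cast hY
    have h0 := hf 0 (by simp)
    rw [Nat.add_zero, List.getD_cons_zero] at h0
    have hst := nl2_step Y0 Yt hY f rev e0 hrev (fun _ => 1) (fun k _ => by simp)
    simp only [one_mul] at hst
    have hdv := nl2_div (a * SCz - dotZ Yt rev) Y0 hY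
    have hq : |f rev.length * (SC : ℝ) - (((a * SCz - dotZ Yt rev) / Y0 : ℤ) : ℝ)|
        ≤ ((absS Yt / Y0.natAbs + 1 : ℕ) : ℝ) * (e0 : ℝ) + 1 := by
      have e1 : ((a * SCz - dotZ Yt rev : ℤ) : ℝ) / (Y0 : ℝ)
          = (a : ℝ) * (SC : ℝ) / (Y0 : ℝ) - (∑ k ∈ Finset.range (min Yt.length rev.length),
            (Yt.getD k 0 : ℝ) * (rev.getD k 0 : ℝ)) / (Y0 : ℝ) := by
        push_cast
        rw [nl2_dotZ, nl2_SCz]
        ring
      have e2 : f rev.length * (SC : ℝ) = (a : ℝ) * (SC : ℝ) / (Y0 : ℝ)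
          - (∑ k ∈ Finset.range (min Yt.length rev.length),
            (Yt.getD k 0 : ℝ) * f (rev.length - 1 - k)) * (SC : ℝ) / (Y0 : ℝ) := by
        rw [← h0]
        field_simp
        ring
      rw [e1] at hdv
      rw [e2]
      rw [abs_le] at hdv hst ⊢
      constructor <;> linarith [hdv.1, hdv.2, hst.1, hst.2]
    have hcons := nl2_cons f rev _ (absS Yt / Y0.natAbs + 1) e0 (Nat.le_add_left 1 _) hrev hq
    have := ih (((a * SCz - dotZ Yt rev) / Y0) :: rev) _ hcons ?_
    · refine ⟨?_, this.2⟩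
      have h1 := this.1
      rw [divS, h1, List.length_cons, List.length_cons]
      omega
    · intro i hi
      have h1 := hf (i + 1) (by rw [List.length_cons]; omega)
      rw [List.getD_cons_succ] at h1
      rw [List.length_cons]
      have h2 : rev.length + 1 + i = rev.length + (i + 1) := by omega
      rw [h2]
      exact h1

theorem sqS_rel (Y0 : ℤ) (Yt : List ℤ) (hY : 0 < Y0) (f : ℕ → ℝ) (m : ℕ) (rev : List ℤ) (e0 : ℕ)
    (hrev : RelR f rev e0) (hr : 1 ≤ rev.length)
    (hf : ∀ i, rev.length ≤ i → i < rev.length + m → (2 * (i : ℝ) * Y0) * f i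
      + ∑ k ∈ Finset.range (min Yt.length i),
          (2 * (i : ℝ) - ((k : ℝ) + 1)) * (Yt.getD k 0 : ℝ) * f (i - 1 - k) = 0) :
    (sqS Y0 Yt m (rev.length : ℤ) rev).length = rev.length + m ∧
      RelR f (sqS Y0 Yt m (rev.length : ℤ) rev) (errR (absS Yt / Y0.natAbs + 1) m e0) := by
  induction m generalizing rev e0 with
  | zero => exact ⟨by simp [sqS], by simpa [sqS, errR] using hrev⟩
  | succ m ih =>
    have hY' : (0 : ℝ) < (Y0 : ℝ) := by exact_mod_cast hY
    have hn : (1 : ℝ) ≤ (rev.length : ℝ) := by exact_mod_cast hr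
    have hn2 : (0 : ℝ) < 2 * (rev.length : ℝ) := by linarith
    have h0 := hf rev.length le_rfl (by omega)
    have hst := nl2_step Y0 Yt hY f rev e0 hrev
      (fun k => (2 * (rev.length : ℝ) - ((k : ℝ) + 1)) / (2 * (rev.length : ℝ))) (by
        intro k hk
        have hk' : k + 1 ≤ rev.length := lt_of_lt_of_le hk (min_le_right _ _)
        have hk2 : (k : ℝ) + 1 ≤ (rev.length : ℝ) := by exact_mod_cast hk'
        have hk3 : (0 : ℝ) ≤ (k : ℝ) := Nat.cast_nonneg k
        rw [abs_le]
        constructor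
        · rw [le_div_iff₀ hn2]
          linarith
        · rw [div_le_iff₀ hn2]
          linarith)
    have hd : 0 < 2 * (rev.length : ℤ) * Y0 := by positivity
    have hdv := nl2_div (-wdot (2 * (rev.length : ℤ)) 1 Yt rev) (2 * (rev.length : ℤ) * Y0) hd
    have hq : |f rev.length * (SC : ℝ)
          - (((-wdot (2 * (rev.length : ℤ)) 1 Yt rev) / (2 * (rev.length : ℤ) * Y0) : ℤ) : ℝ)|
        ≤ ((absS Yt / Y0.natAbs + 1 : ℕ) : ℝ) * (e0 : ℝ) + 1 := by
      have e1 : ((-wdot (2 * (rev.length : ℤ)) 1 Yt rev : ℤ) : ℝ)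
            / ((2 * (rev.length : ℤ) * Y0 : ℤ) : ℝ)
          = - ((∑ k ∈ Finset.range (min Yt.length rev.length),
            (2 * (rev.length : ℝ) - ((k : ℝ) + 1)) / (2 * (rev.length : ℝ)) *
              (Yt.getD k 0 : ℝ) * (rev.getD k 0 : ℝ)) / (Y0 : ℝ)) := by
        push_cast
        rw [nl2_wdot]
        push_cast
        rw [neg_div, Finset.sum_div, Finset.sum_div]
        congr 1
        refine Finset.sum_congr rfl fun k _ => ?_
        field_simp
        ring
      have e2 : f rev.length * (SC : ℝ) =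
          - ((∑ k ∈ Finset.range (min Yt.length rev.length),
            (2 * (rev.length : ℝ) - ((k : ℝ) + 1)) / (2 * (rev.length : ℝ)) *
              (Yt.getD k 0 : ℝ) * f (rev.length - 1 - k)) * (SC : ℝ) / (Y0 : ℝ)) := by
        have e3 : ∑ k ∈ Finset.range (min Yt.length rev.length),
            (2 * (rev.length : ℝ) - ((k : ℝ) + 1)) / (2 * (rev.length : ℝ)) *
              (Yt.getD k 0 : ℝ) * f (rev.length - 1 - k)
            = (∑ k ∈ Finset.range (min Yt.length rev.length),
            (2 * (rev.length : ℝ) - ((k : ℝ) + 1)) *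
              (Yt.getD k 0 : ℝ) * f (rev.length - 1 - k)) / (2 * (rev.length : ℝ)) := by
          rw [Finset.sum_div]
          refine Finset.sum_congr rfl fun k _ => ?_
          ring
        have e4 : ∑ k ∈ Finset.range (min Yt.length rev.length),
            (2 * (rev.length : ℝ) - ((k : ℝ) + 1)) *
              (Yt.getD k 0 : ℝ) * f (rev.length - 1 - k)
            = - (2 * (rev.length : ℝ) * Y0 * f rev.length) := by linarith
        rw [e3, e4]
        field_simp
      rw [e1] at hdv
      rw [e2]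
      rw [abs_le] at hdv hst ⊢
      constructor <;> linarith [hdv.1, hdv.2, hst.1, hst.2]
    have hcons := nl2_cons f rev _ (absS Yt / Y0.natAbs + 1) e0 (Nat.le_add_left 1 _) hrev hq
    have key := ih (((-wdot (2 * (rev.length : ℤ)) 1 Yt rev) / (2 * (rev.length : ℤ) * Y0)) :: rev)
      _ hcons (by rw [List.length_cons]; omega) ?_
    · have hcast : (((((-wdot (2 * (rev.length : ℤ)) 1 Yt rev)
          / (2 * (rev.length : ℤ) * Y0)) :: rev).length : ℕ) : ℤ) = (rev.length : ℤ) + 1 := by
        rw [List.length_cons]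
        push_cast
        ring
      rw [hcast] at key
      refine ⟨?_, key.2⟩
      have h1 := key.1
      rw [sqS, h1, List.length_cons]
      omega
    · intro i hi1 hi2
      rw [List.length_cons] at hi1 hi2
      exact hf i (by omega) (by omega)

private theorem nl2_encR (l : List ℤ) (s : List ℕ) :
    l.foldl (fun s x => Int.toNat (x + OBz) :: s) s
      = (l.map fun x => Int.toNat (x + OBz)).reverse ++ s := by
  induction l generalizing s with
  | nil => simp
  | cons a l ih =>
    rw [List.foldl_cons, ih, List.map_cons, List.reverse_cons, List.append_assoc]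
    rfl

private theorem nl2_encR' (l : List ℤ) :
    encR l = (l.map fun x => Int.toNat (x + OBz)).reverse := by
  unfold encR
  rw [nl2_encR, List.append_nil]

private theorem nl2_pos (X : List ℕ) (h : posL X = true) : ∀ x ∈ X, 0 < x := by
  induction X with
  | nil => simp
  | cons a X ih =>
    have hc : posL (a :: X) = Bool.and (Nat.blt 0 a) (posL X) := rfl
    rw [hc] at h
    have h' : Nat.blt 0 a = true ∧ posL X = true := by
      simpa [Bool.and_eq_true] using h
    intro x hx
    rcases List.mem_cons.1 hx with rfl | hx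
    · have := h'.1
      rw [Nat.blt_eq] at this
      exact this
    · exact ih h'.2 x hx

theorem encR_rel (f : ℕ → ℝ) (rev : List ℤ) (e : ℕ) (hrev : RelR f rev e)
    (hp : posL (encR rev) = true) :
    (encR rev).length = rev.length ∧ Rel f (encR rev) e := by
  have hlen : (encR rev).length = rev.length := by
    rw [nl2_encR', List.length_reverse, List.length_map]
  refine ⟨hlen, ?_⟩
  intro i hi
  rw [hlen] at hi
  have hpos := nl2_pos _ hp
  have hj : rev.length - 1 - i < rev.length := by omega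
  have h1 : (encR rev).getD i 0 = Int.toNat (rev.getD (rev.length - 1 - i) 0 + OBz) := by
    rw [nl2_encR', List.getD_eq_getElem _ _ (by rw [List.length_reverse, List.length_map]; exact hi),
      List.getElem_reverse, List.getElem_map, List.getD_eq_getElem _ _ hj]
    simp only [List.length_map]
  have h2 : 0 < Int.toNat (rev.getD (rev.length - 1 - i) 0 + OBz) := by
    rw [← h1]
    apply hpos
    rw [List.getD_eq_getElem _ _ (by rw [hlen]; exact hi)]
    exact List.getElem_mem _
  have h3 : ((Int.toNat (rev.getD (rev.length - 1 - i) 0 + OBz) : ℕ) : ℤ)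
      = rev.getD (rev.length - 1 - i) 0 + OBz := by
    apply Int.toNat_of_nonneg
    omega
  have h4 : (((encR rev).getD i 0 : ℕ) : ℝ)
      = ((rev.getD (rev.length - 1 - i) 0 : ℤ) : ℝ) + (OB : ℝ) := by
    rw [h1]
    have h5 : (((Int.toNat (rev.getD (rev.length - 1 - i) 0 + OBz) : ℕ) : ℤ) : ℝ)
      = ((rev.getD (rev.length - 1 - i) 0 + OBz : ℤ) : ℝ) := by rw [h3]
    rw [Int.cast_natCast] at h5
    rw [h5, Int.cast_add]
    congr 1
  rw [h4]
  have h6 := hrev (rev.length - 1 - i) hj
  have h7 : rev.length - 1 - (rev.length - 1 - i) = i := by omega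
  rw [h7] at h6
  have h8 : f i * (SC : ℝ) - (((rev.getD (rev.length - 1 - i) 0 : ℤ) : ℝ) + (OB : ℝ) - (OB : ℝ))
      = f i * (SC : ℝ) - ((rev.getD (rev.length - 1 - i) 0 : ℤ) : ℝ) := by ring
  rw [h8]
  exact h6

private theorem nl2_errR_ge (κ : ℕ) (hκ : 1 ≤ κ) (m e : ℕ) : e ≤ errR κ m e := by
  induction m generalizing e with
  | zero => exact le_rfl
  | succ m ih =>
    have h1 := ih (Nat.add (Nat.mul κ e) 1)
    have h2 : e ≤ κ * e + 1 := by nlinarith
    exact le_trans h2 h1

theorem errR_mono (κ κ' m m' e e' : ℕ) (h1 : κ ≤ κ') (hκ : 1 ≤ κ') (h2 : m ≤ m') (h3 : e ≤ e') :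
    errR κ m e ≤ errR κ' m' e' := by
  induction m generalizing m' e e' with
  | zero => exact h3.trans (nl2_errR_ge κ' hκ m' e')
  | succ m ih =>
    cases m' with
    | zero => omega
    | succ m' =>
      refine ih m' _ _ (by omega) ?_
      change κ * e + 1 ≤ κ' * e' + 1
      exact Nat.add_le_add_right (Nat.mul_le_mul h1 h3) 1

end GUB.Num
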