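import Pool.Agent.Lib.MP_721eb4_an.UB.NumLib
import Pool.Agent.Lib.MP_721eb4_an.UB.Data

set_option autoImplicit false

namespace GUB.Num
open GUB

/-- `10^6` -/
def S6 : ℤ := 1000000
def V2 : ℤ := 322124

def alH (P : M2 ℤ) : ℤ := S6 * S6 * P.d + V2 * V2 * P.a - S6 * V2 * (P.b + P.c)

/-- `10^24 Dl` -/
def DlH (P Q : M2 ℤ) : List ℤ :=
  [(S6 * S6 + S6 * (P.a + P.d) + P.det) * (S6 * S6 + S6 * (Q.a + Q.d) + Q.det),
    -((S6 * P.a + P.det) * (S6 * Q.a + Q.det)), S6 * S6 * (P.b * Q.c + P.c * Q.b),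
    -((S6 * P.d + P.det) * (S6 * Q.d + Q.det)), P.det * Q.det]

/-- `10^30 Al` -/
def AlH (P Q : M2 ℤ) : List ℤ :=
  [((S6 * S6 + V2 * V2) * S6 + alH P) * (S6 * S6 + S6 * (Q.a + Q.d) + Q.det),
    -((S6 * S6 * S6 + alH P) * (S6 * Q.a + Q.det)), S6 * V2 * S6 * S6 * (Q.b + Q.c),
    -((V2 * V2 * S6 + alH P) * (S6 * Q.d + Q.det)), alH P * Q.det]

/-- `10^24 Cl` -/
def ClH (P Q : M2 ℤ) : List ℤ :=
  [S6 * S6 * ((S6 + P.d) * (S6 + Q.d)) - S6 * V2 * ((S6 + P.d) * Q.b)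
      - V2 * S6 * (P.c * (S6 + Q.d)) + V2 * V2 * (P.c * Q.b),
    -(S6 * S6 * (P.b * Q.c)) + S6 * V2 * (P.b * (S6 + Q.a)) + V2 * S6 * ((S6 + P.a) * Q.c)
      - V2 * V2 * ((S6 + P.a) * (S6 + Q.a)),
    S6 * S6 * (P.b * Q.c) - S6 * V2 * (P.b * Q.a) - V2 * S6 * (P.a * Q.c)
      + V2 * V2 * (P.a * Q.a),
    -(S6 * S6 * (P.d * Q.d)) + S6 * V2 * (P.d * Q.b) + V2 * S6 * (P.c * Q.d)
      - V2 * V2 * (P.c * Q.b)]

/-- the ball of a pair, first `n+1` coefficients; `w0 = ⌊SC·10^{30}/√Y0⌋` -/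
def pairBall (n : ℕ) (w0 : ℕ) (P Q : M2 ℤ) : Ball :=
  let D := DlH P Q
  let A := AlH P Q
  let B := AlH Q P
  let C := ClH P Q
  let C' := ClH Q P
  let Y := pmul A B
  let Y0 := Y.headD 0
  let Yt := Y.tail
  let N := pad (n + 1) ((pmul C C').map (fun x => S6 * S6 * x))
  let U := encR (divS Y0 Yt N [])
  let κ := absS Yt / Y0.natAbs + 1
  let eU := errR κ (n + 1) 0
  let G := encR (divS (D.headD 0) D.tail (pad (n + 1) C) [])
  let κD := absS D.tail / (D.headD 0).natAbs + 1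
  let eG := errR κD (n + 1) 0
  let W := encR (sqS Y0 Yt n 1 [(w0 : ℤ)])
  let eW := errR κ n 1
  let okW := Nat.ble (w0 * w0 * Y0.natAbs) (SC * SC * 10 ^ 60) &&
    Nat.ble (SC * SC * 10 ^ 60) ((w0 + 1) * (w0 + 1) * Y0.natAbs)
  let hs := hcs (n + 1) 0 1 []
  match hs with
  | [] => ⟨[], 0, false⟩
  | h :: hs =>
    let r := horner U (nrm U) eU 1 hs [h] 1 true
    let Z := conv G W
    let eZ := errM (nrm G) (nrm W) (n + 1) eG eW
    let T := conv Z r.1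
    let eT := errM (nrm Z) (nrm r.1) (n + 1) eZ r.2.1
    ⟨T, eT, okW && r.2.2 && posL U && posL G && posL W && posL Z && posL T &&
      decide (0 < Y0) && decide (0 < D.headD 0)⟩

end GUB.Num
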