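import Pool.Agent.Lib.MP_721eb4_an.UB.NL1
import Pool.Agent.Lib.MP_721eb4_an.UB.NL2
import Pool.Agent.Lib.MP_721eb4_an.UB.NL3
import Pool.Agent.Lib.MP_721eb4_an.UB.NumPair

/-! Upper bound for the complex Grothendieck constant: the ball of a pair -/

set_option autoImplicit false

namespace GUB.Num

theorem NP_lp_coeff (l : List ℝ) (i : ℕ) : (lp l).coeff i = l.getD i 0 := by
  induction l generalizing i with
  | nil => simp [lp]
  | cons a l ih =>
    have h : lp (a :: l) = Polynomial.C a + Polynomial.X * lp l := rfl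
    rw [h]
    cases i with
    | zero => simp
    | succ i => simp [ih, Polynomial.coeff_X_mul]

theorem NP_lp_smul (c : ℝ) (l : List ℝ) : lp (l.map (fun x => c * x)) = Polynomial.C c * lp l := by
  induction l with
  | nil => simp [lp]
  | cons a l ih =>
    have h : lp (a :: l) = Polynomial.C a + Polynomial.X * lp l := rfl
    have h2 : lp ((a :: l).map (fun x => c * x)) =
      Polynomial.C (c * a) + Polynomial.X * lp (l.map (fun x => c * x)) := rfl
    rw [h2, ih, h, Polynomial.C_mul]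
    ring

/-- the polynomial of an integer list -/
noncomputable def lpz (l : List ℤ) : Polynomial ℝ := lp (l.map (fun x : ℤ => (x : ℝ)))

theorem lpz_nil : lpz [] = 0 := rfl

theorem lpz_cons (a : ℤ) (l : List ℤ) : lpz (a :: l) = Polynomial.C (a : ℝ) + Polynomial.X * lpz l :=
  rfl

theorem lpz_coeff (l : List ℤ) (i : ℕ) : (lpz l).coeff i = ((l.getD i 0 : ℤ) : ℝ) := by
  rw [lpz, NP_lp_coeff]
  simp only [List.getD_eq_getElem?_getD, List.getElem?_map]
  cases l[i]? <;> simp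

theorem lpz_padd (a b : List ℤ) : lpz (padd a b) = lpz a + lpz b := by
  induction a generalizing b with
  | nil => simp [padd, lpz_nil]
  | cons x a ih =>
    cases b with
    | nil => simp [padd, lpz_nil]
    | cons y b =>
      rw [padd, lpz_cons, lpz_cons, lpz_cons, ih]
      push_cast
      rw [Polynomial.C_add]
      ring

theorem lpz_smul (c : ℤ) (l : List ℤ) :
    lpz (l.map (fun x => c * x)) = Polynomial.C (c : ℝ) * lpz l := by
  induction l with
  | nil => simp [lpz_nil]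
  | cons a l ih =>
    rw [List.map_cons, lpz_cons, lpz_cons, ih]
    push_cast
    rw [Polynomial.C_mul]
    ring

theorem lpz_pmul (a b : List ℤ) : lpz (pmul a b) = lpz a * lpz b := by
  induction a with
  | nil => simp [pmul, lpz_nil]
  | cons x a ih =>
    rw [pmul, lpz_padd, lpz_smul, lpz_cons, lpz_cons, ih]
    simp only [Int.cast_zero, map_zero, zero_add]
    ring

theorem NP_pad_length (n : ℕ) (l : List ℤ) : (pad n l).length = n := by
  induction n generalizing l with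
  | zero => cases l <;> rfl
  | succ n ih => cases l <;> simp [pad, ih]

theorem NP_pad_getD (n : ℕ) (l : List ℤ) (i : ℕ) (hi : i < n) :
    (pad n l).getD i 0 = l.getD i 0 := by
  induction n generalizing l i with
  | zero => omega
  | succ n ih =>
    cases l with
    | nil =>
      cases i with
      | zero => simp [pad]
      | succ i =>
        have := ih [] i (by omega)
        simpa [pad] using this
    | cons a l =>
      cases i with
      | zero => simp [pad]
      | succ i =>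
        have := ih l i (by omega)
        simpa [pad] using this

theorem NP_sum_min (Yt : List ℤ) (i : ℕ) (g : ℕ → ℝ) :
    ∑ k ∈ Finset.range (min Yt.length i), ((Yt.getD k 0 : ℤ) : ℝ) * g k =
      ∑ k ∈ Finset.range i, ((Yt.getD k 0 : ℤ) : ℝ) * g k := by
  apply Finset.sum_subset
  · intro k hk
    rw [Finset.mem_range] at *
    omega
  · intro k hk hk2
    rw [Finset.mem_range] at *
    have : Yt.length ≤ k := by omega
    rw [List.getD_eq_default _ _ this]
    simp

theorem NP_coeff_split (Y0 : ℤ) (Yt : List ℤ) (g : ℕ → ℕ → ℝ) (i : ℕ) :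
    ∑ p ∈ Finset.HasAntidiagonal.antidiagonal i, (lpz (Y0 :: Yt)).coeff p.1 * g p.1 p.2 =
      (Y0 : ℝ) * g 0 i + ∑ k ∈ Finset.range (min Yt.length i),
        ((Yt.getD k 0 : ℤ) : ℝ) * g (k + 1) (i - 1 - k) := by
  rw [NP_sum_min Yt i (fun k => g (k + 1) (i - 1 - k))]
  rw [Finset.Nat.sum_antidiagonal_eq_sum_range_succ
    (fun a b => (lpz (Y0 :: Yt)).coeff a * g a b) i, Finset.sum_range_succ', add_comm]
  congr 1
  · rw [lpz_coeff]; simp
  · apply Finset.sum_congr rfl
    intro k hk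
    rw [lpz_coeff]
    have e : i - (k + 1) = i - 1 - k := by omega
    simp only [List.getD_cons_succ]
    rw [e]

theorem NP_div (Y0 : ℤ) (Yt Nl : List ℤ) (F : PowerSeries ℝ)
    (h : (lpz (Y0 :: Yt) : PowerSeries ℝ) * F = (lpz Nl : PowerSeries ℝ)) (n i : ℕ)
    (hi : i < (pad (n + 1) Nl).length) :
    (Y0 : ℝ) * PowerSeries.coeff (([] : List ℤ).length + i) F
      + ∑ k ∈ Finset.range (min Yt.length (([] : List ℤ).length + i)),
          (Yt.getD k 0 : ℝ) * PowerSeries.coeff (([] : List ℤ).length + i - 1 - k) F =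
        ((pad (n + 1) Nl).getD i 0 : ℝ) := by
  rw [NP_pad_length] at hi
  rw [NP_pad_getD _ _ _ hi]
  have h1 := congrArg (PowerSeries.coeff i) h
  rw [Polynomial.coeff_coe, lpz_coeff, PowerSeries.coeff_mul] at h1
  rw [← h1]
  simp only [Polynomial.coeff_coe, List.length_nil, zero_add]
  rw [NP_coeff_split Y0 Yt (fun _ b => PowerSeries.coeff b F) i]

/-- `θ F = X F'` -/
noncomputable def NP_th (F : PowerSeries ℝ) : PowerSeries ℝ :=
  PowerSeries.X * PowerSeries.derivative ℝ F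

theorem NP_th_coeff (F : PowerSeries ℝ) (i : ℕ) :
    PowerSeries.coeff i (NP_th F) = (i : ℝ) * PowerSeries.coeff i F := by
  cases i with
  | zero => simp [NP_th]
  | succ i =>
    rw [NP_th, PowerSeries.coeff_succ_X_mul, PowerSeries.coeff_derivative]
    push_cast
    ring

theorem NP_sq (Y0 : ℤ) (Yt : List ℤ) (W : PowerSeries ℝ) (c : ℝ)
    (h : W ^ 2 * (lpz (Y0 :: Yt) : PowerSeries ℝ) = PowerSeries.C c)
    (hW : W ≠ 0) (i : ℕ) :
    (2 * (i : ℝ) * Y0) * PowerSeries.coeff i W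
      + ∑ k ∈ Finset.range (min Yt.length i),
          (2 * (i : ℝ) - ((k : ℝ) + 1)) * (Yt.getD k 0 : ℝ) * PowerSeries.coeff (i - 1 - k) W = 0 := by
  set Yp : PowerSeries ℝ := (lpz (Y0 :: Yt) : PowerSeries ℝ) with hYp
  have h1 : 2 * (PowerSeries.derivative ℝ W) * Yp + W * PowerSeries.derivative ℝ Yp = 0 := by
    have h2 := congrArg (PowerSeries.derivative ℝ) h
    rw [Derivation.leibniz, pow_two, Derivation.leibniz] at h2
    have h3 : PowerSeries.derivative ℝ (PowerSeries.C c) = 0 := by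
      exact PowerSeries.derivative_C ..
    rw [h3] at h2
    simp only [smul_eq_mul] at h2
    apply mul_left_cancel₀ hW
    rw [mul_zero, ← h2]
    ring
  have h2 : Yp * (2 * NP_th W) + NP_th Yp * W = 0 := by
    have : Yp * (2 * NP_th W) + NP_th Yp * W = PowerSeries.X *
        (2 * (PowerSeries.derivative ℝ W) * Yp + W * PowerSeries.derivative ℝ Yp) := by
      rw [NP_th, NP_th]; ring
    rw [this, h1, mul_zero]
  have h3 := congrArg (PowerSeries.coeff i) h2
  rw [map_add, PowerSeries.coeff_mul, PowerSeries.coeff_mul, map_zero, ← Finset.sum_add_distrib] at h3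
  have h4 : ∀ p ∈ Finset.HasAntidiagonal.antidiagonal i, PowerSeries.coeff p.1 Yp * PowerSeries.coeff p.2 (2 * NP_th W)
      + PowerSeries.coeff p.1 (NP_th Yp) * PowerSeries.coeff p.2 W =
      (lpz (Y0 :: Yt)).coeff p.1 * ((2 * (i : ℝ) - (p.1 : ℝ)) * PowerSeries.coeff p.2 W) := by
    intro p hp
    have hp' : p.1 + p.2 = i := Finset.HasAntidiagonal.mem_antidiagonal.1 hp
    have e1 : PowerSeries.coeff p.2 (2 * NP_th W) = 2 * PowerSeries.coeff p.2 (NP_th W) := by
      rw [two_mul, map_add, two_mul]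
    rw [e1, NP_th_coeff, NP_th_coeff, hYp, Polynomial.coeff_coe, ← hp']
    push_cast
    ring
  rw [Finset.sum_congr rfl h4,
    NP_coeff_split Y0 Yt (fun a b => (2 * (i : ℝ) - (a : ℝ)) * PowerSeries.coeff b W) i] at h3
  rw [← h3]
  congr 1
  · push_cast; ring
  · apply Finset.sum_congr rfl
    intro k _
    push_cast
    ring

theorem NP_D (P Q : M2 ℤ) : lpz (DlH P Q) = Polynomial.C ((10 : ℝ) ^ 24) * pD P Q := by
  rw [lpz, pD, ← NP_lp_smul]
  congr 1
  simp only [DlH, Dl, List.map_cons, List.map_nil, toR, M2.map, M2.det, S6, List.cons.injEq,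
    and_true]
  push_cast
  refine ⟨?_, ?_, ?_, ?_, ?_⟩ <;> ring

theorem NP_A (P Q : M2 ℤ) : lpz (AlH P Q) = Polynomial.C ((10 : ℝ) ^ 30) * pAA P Q := by
  rw [lpz, pAA, ← NP_lp_smul]
  congr 1
  simp only [AlH, Al, List.map_cons, List.map_nil, toR, M2.map, M2.det, S6, List.cons.injEq,
    and_true, alH, al, rA, V2]
  push_cast
  refine ⟨?_, ?_, ?_, ?_, ?_⟩ <;> ring

theorem NP_C (P Q : M2 ℤ) : lpz (ClH P Q) = Polynomial.C ((10 : ℝ) ^ 24) * pc P Q := by
  rw [lpz, pc, ← NP_lp_smul]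
  congr 1
  simp only [ClH, Cl, List.map_cons, List.map_nil, toR, M2.map, S6, List.cons.injEq,
    and_true, rA, V2]
  push_cast
  refine ⟨?_, ?_, ?_, ?_⟩ <;> ring

/-- the ball of a pair from its lists -/
def NP_core (n w0 : ℕ) (Y0 : ℤ) (Yt N : List ℤ) (D0 : ℤ) (Dt C : List ℤ) (hs0 : List ℕ) : Ball :=
  let U := encR (divS Y0 Yt N [])
  let κ := absS Yt / Y0.natAbs + 1
  let eU := errR κ (n + 1) 0
  let G := encR (divS D0 Dt (pad (n + 1) C) [])
  let κD := absS Dt / D0.natAbs + 1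
  let eG := errR κD (n + 1) 0
  let W := encR (sqS Y0 Yt n 1 [(w0 : ℤ)])
  let eW := errR κ n 1
  let okW := Nat.ble (w0 * w0 * Y0.natAbs) (SC * SC * 10 ^ 60) &&
    Nat.ble (SC * SC * 10 ^ 60) ((w0 + 1) * (w0 + 1) * Y0.natAbs)
  match hs0 with
  | [] => ⟨[], 0, false⟩
  | h :: hs =>
    let r := horner U (nrm U) eU 1 hs [h] 1 true
    let Z := conv G W
    let eZ := errM (nrm G) (nrm W) (n + 1) eG eW
    let T := conv Z r.1
    let eT := errM (nrm Z) (nrm r.1) (n + 1) eZ r.2.1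
    ⟨T, eT, okW && r.2.2 && posL U && posL G && posL W && posL Z && posL T &&
      decide (0 < Y0) && decide (0 < D0)⟩

theorem NP_pair_eq (n w0 : ℕ) (P Q : M2 ℤ) : pairBall n w0 P Q =
    NP_core n w0 ((pmul (AlH P Q) (AlH Q P)).headD 0) (pmul (AlH P Q) (AlH Q P)).tail
      (pad (n + 1) ((pmul (ClH P Q) (ClH Q P)).map (fun x => S6 * S6 * x)))
      ((DlH P Q).headD 0) (DlH P Q).tail (ClH P Q) (hcs (n + 1) 0 1 []) := rfl

theorem NP_okW (w0 : ℕ) (Y0 : ℤ) (c0 : ℝ) (hc0 : 0 < c0) (hY : 0 < Y0)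
    (h1 : w0 * w0 * Y0.natAbs ≤ SC * SC * 10 ^ 60)
    (h2 : SC * SC * 10 ^ 60 ≤ (w0 + 1) * (w0 + 1) * Y0.natAbs)
    (hc : c0 ^ 2 * (Y0 : ℝ) = 10 ^ 60) : |c0 * (SC : ℝ) - (w0 : ℝ)| ≤ 1 := by
  generalize SC = S at *
  have hYr : (0 : ℝ) < Y0 := by exact_mod_cast hY
  have hYn : ((Y0.natAbs : ℕ) : ℝ) = (Y0 : ℝ) := by
    rw [Nat.cast_natAbs, abs_of_pos hY]
  have a1 : ((w0 : ℝ) * w0) * Y0 ≤ (S * S) * 10 ^ 60 := by
    rw [← hYn]; exact_mod_cast h1
  have a2 : ((S : ℝ) * S) * 10 ^ 60 ≤ ((w0 : ℝ) + 1) * (w0 + 1) * Y0 := by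
    rw [← hYn]; exact_mod_cast h2
  have b1 : ((w0 : ℝ)) ^ 2 ≤ (c0 * S) ^ 2 := by
    rw [← hc] at a1
    have : (w0 : ℝ) ^ 2 * Y0 ≤ (c0 * S) ^ 2 * Y0 := by nlinarith
    exact le_of_mul_le_mul_right this hYr
  have b2 : (c0 * S) ^ 2 ≤ ((w0 : ℝ) + 1) ^ 2 := by
    rw [← hc] at a2
    have : (c0 * S) ^ 2 * Y0 ≤ ((w0 : ℝ) + 1) ^ 2 * Y0 := by nlinarith
    exact le_of_mul_le_mul_right this hYr
  have c1 : (w0 : ℝ) ≤ c0 * S := (sq_le_sq₀ (by positivity) (by positivity)).1 b1
  have c2 : c0 * S ≤ (w0 : ℝ) + 1 := (sq_le_sq₀ (by positivity) (by positivity)).1 b2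
  rw [abs_le]
  constructor <;> linarith

theorem NP_core_spec (n w0 : ℕ) (Y0 : ℤ) (Yt N : List ℤ) (D0 : ℤ) (Dt C : List ℤ) (hs0 : List ℕ)
    (hok : (NP_core n w0 Y0 Yt N D0 Dt C hs0).ok = true) (hN : N.length = n + 1)
    (hlen : hs0.length = n + 1)
    (hhs : ∀ j < n + 1, |hc (n - j) * (SC : ℝ) - (((hs0.getD j 0 : ℕ) : ℝ) - (OB : ℝ))| ≤ 1)
    (u g w : PowerSeries ℝ)
    (hu : 0 < Y0 → ∀ i < N.length, (Y0 : ℝ) * PowerSeries.coeff (([] : List ℤ).length + i) u
      + ∑ k ∈ Finset.range (min Yt.length (([] : List ℤ).length + i)),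
          (Yt.getD k 0 : ℝ) * PowerSeries.coeff (([] : List ℤ).length + i - 1 - k) u =
        (N.getD i 0 : ℝ))
    (hg : 0 < D0 → ∀ i < (pad (n + 1) C).length,
      (D0 : ℝ) * PowerSeries.coeff (([] : List ℤ).length + i) g
      + ∑ k ∈ Finset.range (min Dt.length (([] : List ℤ).length + i)),
          (Dt.getD k 0 : ℝ) * PowerSeries.coeff (([] : List ℤ).length + i - 1 - k) g =
        ((pad (n + 1) C).getD i 0 : ℝ))
    (hw : 0 < Y0 → ∀ i : ℕ, (2 * (i : ℝ) * Y0) * PowerSeries.coeff i w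
      + ∑ k ∈ Finset.range (min Yt.length i),
          (2 * (i : ℝ) - ((k : ℝ) + 1)) * (Yt.getD k 0 : ℝ) * PowerSeries.coeff (i - 1 - k) w = 0)
    (hw0 : 0 < Y0 → 0 < PowerSeries.coeff 0 w ∧
      PowerSeries.coeff 0 w ^ 2 * (Y0 : ℝ) = 10 ^ 60) :
    (NP_core n w0 Y0 Yt N D0 Dt C hs0).l.length = n + 1 ∧
      Rel (fun k => PowerSeries.coeff k (g * w * ∑ j ∈ Finset.range (n + 1),
          PowerSeries.C (hc j) * (PowerSeries.X * u) ^ j))
        (NP_core n w0 Y0 Yt N D0 Dt C hs0).l (NP_core n w0 Y0 Yt N D0 Dt C hs0).e := by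
  cases hs0 with
  | nil => simp at hlen
  | cons hd hs =>
    simp only [NP_core] at hok ⊢
    simp only [Bool.and_eq_true, decide_eq_true_eq, Nat.ble_eq] at hok
    obtain ⟨⟨⟨⟨⟨⟨⟨⟨⟨o1, o2⟩, o3⟩, pU⟩, pG⟩, pW⟩, pZ⟩, pT⟩, hY0⟩, hD0⟩ := hok
    obtain ⟨lU, rU⟩ := divS_rel Y0 Yt hY0 (fun k => PowerSeries.coeff k u) N [] 0
      (fun j hj => by simp at hj) (hu hY0)
    rw [hN] at rU lU
    obtain ⟨lU2, rU2⟩ := encR_rel _ _ _ rU pU
    obtain ⟨lG, rG⟩ := divS_rel D0 Dt hD0 (fun k => PowerSeries.coeff k g) (pad (n + 1) C) [] 0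
      (fun j hj => by simp at hj) (hg hD0)
    rw [NP_pad_length] at rG lG
    obtain ⟨lG2, rG2⟩ := encR_rel _ _ _ rG pG
    obtain ⟨hc0, hc1⟩ := hw0 hY0
    have hW0 := NP_okW w0 Y0 _ hc0 hY0 o1 o2 hc1
    obtain ⟨lW, rW⟩ := sqS_rel Y0 Yt hY0 (fun k => PowerSeries.coeff k w) n [(w0 : ℤ)] 1
      (fun j hj => by
        have hj0 : j = 0 := by simpa using hj
        subst hj0
        simpa using hW0) (by simp) (fun i _ _ => hw hY0 i)
    rw [show ((([(w0 : ℤ)] : List ℤ).length : ℕ) : ℤ) = 1 from rfl] at rW lW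
    obtain ⟨lW2, rW2⟩ := encR_rel _ _ _ rW pW
    have eU : (encR (divS Y0 Yt N [])).length = n + 1 := by rw [lU2, lU]; simp
    have eG : (encR (divS D0 Dt (pad (n + 1) C) [])).length = n + 1 := by rw [lG2, lG]; simp
    have eW : (encR (sqS Y0 Yt n 1 [(w0 : ℤ)])).length = n + 1 := by
      rw [lW2, lW]; simp; omega
    have hlen' : hs.length = n := by simpa using hlen
    obtain ⟨lr, rr⟩ := horner_rel u _ _ 1 rU2 hc hs hd n hlen'
      (fun j hj => by
        have := hhs (j + 1) (by omega)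
        have e : n - (j + 1) = n - 1 - j := by omega
        rw [List.getD_cons_succ, e] at this
        simpa using this)
      (by simpa using hhs 0 (by omega)) (by rw [eU]; omega) o3
    have lZ := conv_length (encR (divS D0 Dt (pad (n + 1) C) [])) (encR (sqS Y0 Yt n 1 [(w0 : ℤ)]))
      (by rw [eG, eW])
    have rZ := conv_rel_ps g w _ _ _ _ rG2 rW2 (by rw [eG, eW]) pZ
    rw [eW] at lZ rZ
    have hle := le_of_eq (lr.trans lZ.symm)
    have lT := conv_length _ _ hle
    have rT := conv_rel_ps (g * w) _ _ _ _ _ rZ rr hle pT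
    rw [lr] at lT rT
    exact ⟨lT, rT⟩

theorem NP_head (l : List ℤ) (h : 0 < l.headD 0) : l.headD 0 :: l.tail = l := by
  cases l with
  | nil => simp at h
  | cons a l => rfl

theorem NP_trunc (A Z : PowerSeries ℝ) (b : ℕ → ℝ) (i n : ℕ) (hi : i ≤ n) :
    PowerSeries.coeff i (A * ∑ j ∈ Finset.range (n + 1),
        PowerSeries.C (b j) * (PowerSeries.X * Z) ^ j) =
      PowerSeries.coeff i (A * ∑ j ∈ Finset.range (i + 1),
        PowerSeries.C (b j) * (PowerSeries.X * Z) ^ j) := by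
  induction n, hi using Nat.le_induction with
  | base => rfl
  | succ n hn ih =>
    rw [Finset.sum_range_succ, mul_add, map_add, ih]
    have hd : (PowerSeries.X : PowerSeries ℝ) ^ (n + 1) ∣ A * (PowerSeries.C (b (n + 1)) *
        (PowerSeries.X * Z) ^ (n + 1)) := by
      rw [mul_pow]
      exact ((Dvd.intro _ rfl).mul_left _).mul_left _
    rw [PowerSeries.X_pow_dvd_iff.1 hd i (by omega), add_zero]

theorem pairBall_spec (n w0 : ℕ) (P Q : M2 ℤ) (h : (pairBall n w0 P Q).ok = true) :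
    (pairBall n w0 P Q).l.length = n + 1 ∧
      Rel (ThP P Q) (pairBall n w0 P Q).l (pairBall n w0 P Q).e := by
  set W : PowerSeries ℝ := Wser ((pAA P Q * pAA Q P : Polynomial ℝ) : PowerSeries ℝ) with hWd
  set c : PowerSeries ℝ := (pc P Q : PowerSeries ℝ) with hcd
  set c' : PowerSeries ℝ := (pc Q P : PowerSeries ℝ) with hcd'
  have hY : lpz (pmul (AlH P Q) (AlH Q P)) = Polynomial.C ((10 : ℝ) ^ 60) *
      (pAA P Q * pAA Q P) := by
    rw [lpz_pmul, NP_A, NP_A]
    have : ((10 : ℝ) ^ 60) = 10 ^ 30 * 10 ^ 30 := by norm_num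
    rw [this, Polynomial.C_mul]
    ring
  have key : 0 < (pmul (AlH P Q) (AlH Q P)).headD 0 →
      (lpz (pmul (AlH P Q) (AlH Q P)) : PowerSeries ℝ) =
        PowerSeries.C ((10 : ℝ) ^ 60) * ((pAA P Q * pAA Q P : Polynomial ℝ) : PowerSeries ℝ) ∧
      W ^ 2 * ((pAA P Q * pAA Q P : Polynomial ℝ) : PowerSeries ℝ) = 1 ∧
      0 < PowerSeries.constantCoeff W := by
    intro h0
    have h1 : (lpz (pmul (AlH P Q) (AlH Q P)) : PowerSeries ℝ) =
        PowerSeries.C ((10 : ℝ) ^ 60) * ((pAA P Q * pAA Q P : Polynomial ℝ) : PowerSeries ℝ) := by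
      rw [hY, Polynomial.coe_mul, Polynomial.coe_C]
    have h2 : 0 < PowerSeries.constantCoeff
        ((pAA P Q * pAA Q P : Polynomial ℝ) : PowerSeries ℝ) := by
      have h3 := congrArg PowerSeries.constantCoeff h1
      rw [map_mul, PowerSeries.constantCoeff_C, ← PowerSeries.coeff_zero_eq_constantCoeff_apply,
        Polynomial.coeff_coe, lpz_coeff] at h3
      have h4 : (pmul (AlH P Q) (AlH Q P)).getD 0 0 = (pmul (AlH P Q) (AlH Q P)).headD 0 := by
        rw [← NP_head _ h0]; rfl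
      rw [h4] at h3
      have h5 : (0 : ℝ) < (((pmul (AlH P Q) (AlH Q P)).headD 0 : ℤ) : ℝ) := by exact_mod_cast h0
      rw [h3] at h5
      exact (mul_pos_iff_of_pos_left (by positivity)).1 h5
    refine ⟨h1, ?_⟩
    rw [hWd, Wser, dif_pos h2]
    exact Classical.choose_spec (exists_sqrt_series _ h2)
  have hW2 : 0 < (pmul (AlH P Q) (AlH Q P)).headD 0 →
      W ^ 2 * (lpz (pmul (AlH P Q) (AlH Q P)) : PowerSeries ℝ) = PowerSeries.C ((10 : ℝ) ^ 60) := by
    intro h0
    obtain ⟨k1, k2, k3⟩ := key h0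
    rw [k1]
    calc _ = PowerSeries.C ((10 : ℝ) ^ 60) *
          (W ^ 2 * ((pAA P Q * pAA Q P : Polynomial ℝ) : PowerSeries ℝ)) := by ring
      _ = _ := by rw [k2, mul_one]
  have hspec := NP_core_spec n w0 ((pmul (AlH P Q) (AlH Q P)).headD 0)
    (pmul (AlH P Q) (AlH Q P)).tail
    (pad (n + 1) ((pmul (ClH P Q) (ClH Q P)).map (fun x => S6 * S6 * x)))
    ((DlH P Q).headD 0) (DlH P Q).tail (ClH P Q) (hcs (n + 1) 0 1 [])
    (by rw [← NP_pair_eq]; exact h) (NP_pad_length _ _) (hcs_spec n).1 (hcs_spec n).2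
    (c * c' * W ^ 2) (c * ((pD P Q : Polynomial ℝ) : PowerSeries ℝ)⁻¹) W
    (by
      intro h0 i hi
      refine NP_div _ _ _ _ ?_ n i hi
      rw [NP_head _ h0]
      calc _ = (c * c') * (W ^ 2 * (lpz (pmul (AlH P Q) (AlH Q P)) : PowerSeries ℝ)) := by ring
        _ = (c * c') * PowerSeries.C ((10 : ℝ) ^ 60) := by rw [hW2 h0]
        _ = _ := by
          rw [lpz_smul, lpz_pmul, NP_C, NP_C]
          simp only [Polynomial.coe_mul, Polynomial.coe_C]
          rw [← hcd, ← hcd']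
          have : ((10 : ℝ) ^ 60) = ((S6 * S6 : ℤ) : ℝ) * (10 ^ 24 * 10 ^ 24) := by
            rw [S6]; norm_num
          rw [this, map_mul, map_mul]
          ring)
    (by
      intro h0 i hi
      refine NP_div _ _ _ _ ?_ n i hi
      rw [NP_head _ h0, NP_D, NP_C]
      simp only [Polynomial.coe_mul, Polynomial.coe_C]
      rw [← hcd]
      have hD0 : PowerSeries.constantCoeff ((pD P Q : Polynomial ℝ) : PowerSeries ℝ) ≠ 0 := by
        intro h1
        rw [← PowerSeries.coeff_zero_eq_constantCoeff_apply, Polynomial.coeff_coe] at h1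
        have h2 := congrArg (fun p => Polynomial.coeff p 0) (NP_D P Q)
        simp only [lpz_coeff, Polynomial.coeff_C_mul, h1, mul_zero] at h2
        have h4 : (DlH P Q).getD 0 0 = (DlH P Q).headD 0 := by
          rw [← NP_head _ h0]; rfl
        rw [h4] at h2
        have h5 : (0 : ℝ) < (((DlH P Q).headD 0 : ℤ) : ℝ) := by exact_mod_cast h0
        rw [h2] at h5
        exact lt_irrefl _ h5
      calc _ = PowerSeries.C ((10 : ℝ) ^ 24) * c * (((pD P Q : Polynomial ℝ) : PowerSeries ℝ) *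
            ((pD P Q : Polynomial ℝ) : PowerSeries ℝ)⁻¹) := by ring
        _ = _ := by rw [PowerSeries.mul_inv_cancel _ hD0, mul_one])
    (by
      intro h0 i
      refine NP_sq _ _ _ ((10 : ℝ) ^ 60) ?_ ?_ i
      · rw [NP_head _ h0]
        exact hW2 h0
      · intro hW
        have := (key h0).2.2
        rw [hW, map_zero] at this
        exact lt_irrefl _ this)
    (by
      intro h0
      refine ⟨?_, ?_⟩
      · rw [PowerSeries.coeff_zero_eq_constantCoeff_apply]
        exact (key h0).2.2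
      · have h3 := congrArg PowerSeries.constantCoeff (hW2 h0)
        rw [map_mul, map_pow, PowerSeries.constantCoeff_C,
          ← PowerSeries.coeff_zero_eq_constantCoeff_apply,
          ← PowerSeries.coeff_zero_eq_constantCoeff_apply, Polynomial.coeff_coe, lpz_coeff] at h3
        have h4 : (pmul (AlH P Q) (AlH Q P)).getD 0 0 = (pmul (AlH P Q) (AlH Q P)).headD 0 := by
          rw [← NP_head _ h0]; rfl
        rw [h4] at h3
        exact h3)
  rw [← NP_pair_eq] at hspec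
  refine ⟨hspec.1, ?_⟩
  intro i hi
  have h1 := hspec.2 i hi
  rw [hspec.1] at hi
  have h2 : ThP P Q i = PowerSeries.coeff i (c * ((pD P Q : Polynomial ℝ) : PowerSeries ℝ)⁻¹ * W *
      ∑ j ∈ Finset.range (n + 1), PowerSeries.C (hc j) * (PowerSeries.X * (c * c' * W ^ 2)) ^ j) := by
    rw [NP_trunc _ _ _ i n (by omega), ThP, Theta, ← hWd, ← hcd, ← hcd']
    simp only [mul_assoc]
  rw [h2]
  exact h1

end GUB.Num
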