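import Pool.Agent.Lib.MP_721eb4_an.UB.NL1
import Pool.Agent.Lib.MP_721eb4_an.UB.NL2
import Pool.Agent.Lib.MP_721eb4_an.UB.NL3
import Pool.Agent.Lib.MP_721eb4_an.UB.NumRot
import Pool.Agent.Lib.MP_721eb4_an.UB.Data

/-! Upper bound for the complex Grothendieck constant: the coefficients of the rotor scheme -/

set_option autoImplicit false

namespace GUB.Num

namespace NR2aux

attribute [local irreducible] SC OB

theorem SCz_eq : (SCz : ℝ) = (SC : ℝ) := by
  unfold SCz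
  exact Int.cast_natCast SC

theorem OBz_eq : (OBz : ℝ) = (OB : ℝ) := by
  unfold OBz
  exact Int.cast_natCast OB

theorem wrow_cons (l : ℕ) (x : ℤ) (xs : List ℤ) : wrow l (x :: xs)
    = Int.toNat (x * (((l + 1) * (l + 2) / 2 : ℕ) : ℤ) + OBz) :: wrow (l + 1) xs := rfl

theorem wrow_len (l : ℕ) (xs : List ℤ) : (wrow l xs).length = xs.length := by
  induction xs generalizing l with
  | nil => rfl
  | cons x xs ih => rw [wrow_cons, List.length_cons, List.length_cons, ih]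

theorem wrow_rel (l : ℕ) (xs : List ℤ) (f : ℕ → ℝ) (e : ℕ)
    (h : ∀ i < xs.length, |f i * (SC : ℝ) - (xs.getD i 0 : ℝ)| ≤ e)
    (hp : posL (wrow l xs) = true) (i : ℕ) (hi : i < xs.length) :
    |(((l + i + 2).choose 2 : ℕ) : ℝ) * f i * (SC : ℝ)
      - (((wrow l xs).getD i 0 : ℝ) - (OB : ℝ))| ≤ (((l + i + 2).choose 2 : ℕ) : ℝ) * e := by
  induction xs generalizing l f i with
  | nil => exact absurd hi (Nat.not_lt_zero _)
  | cons x xs ih =>
    rw [wrow_cons] at hp ⊢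
    rw [NL1aux.posL_cons, Bool.and_eq_true] at hp
    cases i with
    | zero =>
      have h0 := h 0 hi
      rw [List.getD_cons_zero] at h0 ⊢
      have hpos : 0 < Int.toNat (x * (((l + 1) * (l + 2) / 2 : ℕ) : ℤ) + OBz) := by
        have := hp.1
        rwa [Nat.blt_eq] at this
      have hpos' : 0 < x * (((l + 1) * (l + 2) / 2 : ℕ) : ℤ) + OBz := by
        by_contra hc
        rw [Int.toNat_of_nonpos (not_lt.1 hc)] at hpos
        exact lt_irrefl _ hpos
      have hc : (l + 1) * (l + 2) / 2 = (l + 0 + 2).choose 2 := by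
        rw [Nat.choose_two_right, Nat.add_zero, Nat.add_sub_assoc (by norm_num), Nat.mul_comm]
      have hcast : ((Int.toNat (x * (((l + 1) * (l + 2) / 2 : ℕ) : ℤ) + OBz) : ℕ) : ℝ)
          = (x : ℝ) * (((l + 0 + 2).choose 2 : ℕ) : ℝ) + (OB : ℝ) := by
        have h1 : ((Int.toNat (x * (((l + 1) * (l + 2) / 2 : ℕ) : ℤ) + OBz) : ℕ) : ℝ)
            = (((Int.toNat (x * (((l + 1) * (l + 2) / 2 : ℕ) : ℤ) + OBz) : ℕ) : ℤ) : ℝ) := by
          rw [Int.cast_natCast]
        rw [h1, Int.toNat_of_nonneg hpos'.le, hc, Int.cast_add, Int.cast_mul, OBz_eq,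
          Int.cast_natCast]
      rw [hcast]
      have e1 : (((l + 0 + 2).choose 2 : ℕ) : ℝ) * f 0 * (SC : ℝ)
          - ((x : ℝ) * (((l + 0 + 2).choose 2 : ℕ) : ℝ) + (OB : ℝ) - (OB : ℝ))
          = (((l + 0 + 2).choose 2 : ℕ) : ℝ) * (f 0 * (SC : ℝ) - (x : ℝ)) := by ring
      rw [e1, abs_mul, abs_of_nonneg (Nat.cast_nonneg _)]
      exact mul_le_mul_of_nonneg_left h0 (Nat.cast_nonneg _)
    | succ i =>
      rw [List.getD_cons_succ]
      have h2 := ih (l + 1) (fun j => f (j + 1)) (fun j hj => by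
        have := h (j + 1) (by rw [List.length_cons]; omega)
        rwa [List.getD_cons_succ] at this) hp.2 i (by rw [List.length_cons] at hi; omega)
      have e1 : l + 1 + i + 2 = l + (i + 1) + 2 := by ring
      rw [e1] at h2
      exact h2

/-- Gaussian integer as a complex number -/
noncomputable def toC (x : ℤ × ℤ) : ℂ := (x.1 : ℂ) + (x.2 : ℂ) * Complex.I

theorem toC_gmul (x y : ℤ × ℤ) : toC (gmul x y) = toC x * toC y := by
  unfold toC gmul
  push_cast
  linear_combination -(x.2 : ℂ) * (y.2 : ℂ) * Complex.I_sq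

theorem toC_re (x : ℤ × ℤ) : (toC x).re = (x.1 : ℝ) := by
  unfold toC
  simp

/-- numerator of `n e` -/
def nE (i : ℕ) : ℤ := (2 * (i : ℤ) + 1) * 150677

/-- the complex term without the binomial coefficient -/
noncomputable def W (i : ℕ) (K : ℤ × ℤ) (d : ℤ) (l : ℕ) : ℂ :=
  toC K * (toC (1000000, nE i)) ^ (6 + 2 * l) * (-((nE i : ℂ) * (nE i : ℂ))) ^ l * 1000000 ^ 6
    / (((nE i : ℂ) * (nE i : ℂ) + 1000000 * 1000000) ^ (6 + 2 * l) * (d : ℂ))

theorem den_pos (i : ℕ) : (0 : ℤ) < nE i * nE i + 1000000 * 1000000 := by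
  have := mul_self_nonneg (nE i)
  linarith

theorem den_ne (i : ℕ) : ((nE i : ℂ) * (nE i : ℂ) + 1000000 * 1000000) ≠ 0 := by
  have h := den_pos i
  exact_mod_cast h.ne'

theorem bT_eq (i : ℕ) (K : ℤ × ℤ) (d : ℤ) (hd : 0 < d)
    (hK : ((K.1 : ℂ) + (K.2 : ℂ) * Complex.I) / (d : ℂ) = kapT ^ (2 * i + 1)) (l : ℕ) :
    bT kapT eT (2 * i + 1) l = (((l + 2).choose 2 : ℕ) : ℝ) * (W i K d l).re := by
  have hdC : (d : ℂ) ≠ 0 := by exact_mod_cast hd.ne'
  unfold bT
  rw [← hK]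
  have hne : ((2 * i + 1 : ℕ) : ℂ) * (eT : ℂ) = (nE i : ℂ) / 1000000 := by
    unfold eT nE
    push_cast
    ring
  have hV : (1 : ℂ) - Complex.I * ((2 * i + 1 : ℕ) : ℂ) * (eT : ℂ)
      = (1000000 - (nE i : ℂ) * Complex.I) / 1000000 := by
    rw [mul_assoc, hne]
    field_simp
  have hU : -(((2 * i + 1 : ℕ) : ℂ) ^ 2 * (eT : ℂ) ^ 2)
      = -((nE i : ℂ) * (nE i : ℂ)) / (1000000 * 1000000) := by
    rw [← mul_pow, hne]
    ring
  rw [hV, hU]
  have hz : ((1000000 : ℂ) - (nE i : ℂ) * Complex.I) * toC (1000000, nE i)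
      = (nE i : ℂ) * (nE i : ℂ) + 1000000 * 1000000 := by
    unfold toC
    push_cast
    linear_combination -(nE i : ℂ) * (nE i : ℂ) * Complex.I_sq
  have hden := den_ne i
  have hz1 : ((1000000 : ℂ) - (nE i : ℂ) * Complex.I) ≠ 0 := by
    intro h0
    rw [h0, zero_mul] at hz
    exact hden hz.symm
  have hz2 : toC (1000000, nE i) = ((nE i : ℂ) * (nE i : ℂ) + 1000000 * 1000000)
      / ((1000000 : ℂ) - (nE i : ℂ) * Complex.I) := by
    rw [← hz]
    field_simp
  have key : ((K.1 : ℂ) + (K.2 : ℂ) * Complex.I) / (d : ℂ) * (((l + 2).choose 2 : ℕ) : ℂ)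
      * (-((nE i : ℂ) * (nE i : ℂ)) / (1000000 * 1000000)) ^ l
      / ((1000000 - (nE i : ℂ) * Complex.I) / 1000000) ^ (6 + 2 * l)
      = (((((l + 2).choose 2 : ℕ) : ℝ) : ℝ) : ℂ) * W i K d l := by
    unfold W
    rw [hz2, div_pow, div_pow, div_pow]
    have e3 : (1000000 : ℂ) ^ (6 + 2 * l) = 1000000 ^ 6 * (1000000 * 1000000) ^ l := by
      rw [pow_add, pow_mul]; norm_num
    rw [e3]
    have e4 : toC K = (K.1 : ℂ) + (K.2 : ℂ) * Complex.I := rfl
    rw [e4]
    have h5 := pow_ne_zero (6 + 2 * l) hz1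
    have h6 := pow_ne_zero (6 + 2 * l) hden
    have h7 : ((1000000 : ℂ) * 1000000) ^ l ≠ 0 := pow_ne_zero _ (by norm_num)
    rw [Complex.ofReal_natCast]
    generalize ((1000000 : ℂ) - (nE i : ℂ) * Complex.I) ^ (6 + 2 * l) = A1 at h5 ⊢
    generalize ((nE i : ℂ) * (nE i : ℂ) + 1000000 * 1000000) ^ (6 + 2 * l) = A2 at h6 ⊢
    generalize ((1000000 : ℂ) * 1000000) ^ l = A3 at h7 ⊢
    generalize (-((nE i : ℂ) * (nE i : ℂ))) ^ l = A4
    field_simp
  rw [key, Complex.re_ofReal_mul]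

theorem W_rec (i : ℕ) (K : ℤ × ℤ) (d : ℤ) (hd : 0 < d) (l : ℕ) :
    ((((nE i * nE i + 1000000 * 1000000) ^ 2 : ℤ) : ℝ)) * (W i K d (l + 2)).re
      + ((((2 * (nE i * nE i) * (1000000 * 1000000 - nE i * nE i)) : ℤ) : ℝ)
          * (W i K d (l + 1)).re
        + (((nE i * nE i) * (nE i * nE i) : ℤ) : ℝ) * (W i K d l).re) = 0 := by
  have hdC : (d : ℂ) ≠ 0 := by exact_mod_cast hd.ne'
  have hden := den_ne i
  have hz : (toC (1000000, nE i)) ^ 4 - 2 * (1000000 * 1000000 - (nE i : ℂ) * (nE i : ℂ))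
      * (toC (1000000, nE i)) ^ 2 + ((nE i : ℂ) * (nE i : ℂ) + 1000000 * 1000000) ^ 2 = 0 := by
    have h2 : (toC (1000000, nE i)) ^ 2 = 1000000 * 1000000 - (nE i : ℂ) * (nE i : ℂ)
        + 2 * 1000000 * (nE i : ℂ) * Complex.I := by
      unfold toC
      push_cast
      linear_combination (nE i : ℂ) * (nE i : ℂ) * Complex.I_sq
    have h4 : (toC (1000000, nE i)) ^ 4 = ((toC (1000000, nE i)) ^ 2) ^ 2 := by ring
    rw [h4, h2]
    linear_combination (2 * 1000000 * (nE i : ℂ)) ^ 2 * Complex.I_sq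
  have hc : ((((nE i * nE i + 1000000 * 1000000) ^ 2 : ℤ) : ℝ) : ℂ) * W i K d (l + 2)
      + (((((2 * (nE i * nE i) * (1000000 * 1000000 - nE i * nE i)) : ℤ) : ℝ) : ℂ)
          * W i K d (l + 1)
        + ((((nE i * nE i) * (nE i * nE i) : ℤ) : ℝ) : ℂ) * W i K d l) = 0 := by
    have e1 : W i K d (l + 1) = W i K d l * ((toC (1000000, nE i)) ^ 2
        * (-((nE i : ℂ) * (nE i : ℂ))) / ((nE i : ℂ) * (nE i : ℂ) + 1000000 * 1000000) ^ 2) := by
      unfold W
      have h6 := pow_ne_zero (6 + 2 * l) hden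
      rw [show 6 + 2 * (l + 1) = 6 + 2 * l + 2 by ring, pow_add _ (6 + 2 * l) 2,
        pow_add _ (6 + 2 * l) 2, pow_succ _ l]
      field_simp
    have e2 : W i K d (l + 2) = W i K d l * ((toC (1000000, nE i)) ^ 2
        * (-((nE i : ℂ) * (nE i : ℂ))) / ((nE i : ℂ) * (nE i : ℂ) + 1000000 * 1000000) ^ 2) ^ 2 := by
      unfold W
      have h6 := pow_ne_zero (6 + 2 * l) hden
      rw [show 6 + 2 * (l + 2) = 6 + 2 * l + 2 + 2 by ring, pow_add _ (6 + 2 * l + 2) 2,
        pow_add _ (6 + 2 * l) 2, pow_add _ (6 + 2 * l + 2) 2,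
        pow_add _ (6 + 2 * l) 2, pow_add _ l 2]
      field_simp
    rw [e1, e2]
    have c1 : ((((nE i * nE i + 1000000 * 1000000) ^ 2 : ℤ) : ℝ) : ℂ)
        = ((nE i : ℂ) * (nE i : ℂ) + 1000000 * 1000000) ^ 2 := by push_cast; ring
    have c2 : (((((2 * (nE i * nE i) * (1000000 * 1000000 - nE i * nE i)) : ℤ) : ℝ) : ℂ))
        = (2 * ((nE i : ℂ) * (nE i : ℂ)) * (1000000 * 1000000 - (nE i : ℂ) * (nE i : ℂ))) := by
      push_cast; ring
    have c3 : ((((nE i * nE i) * (nE i * nE i) : ℤ) : ℝ) : ℂ)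
        = (nE i : ℂ) * (nE i : ℂ) * ((nE i : ℂ) * (nE i : ℂ)) := by push_cast; ring
    rw [c1, c2, c3]
    have e5 : ((nE i : ℂ) * (nE i : ℂ) + 1000000 * 1000000) ^ 2
        * (W i K d l * ((toC (1000000, nE i)) ^ 2
        * (-((nE i : ℂ) * (nE i : ℂ))) / ((nE i : ℂ) * (nE i : ℂ) + 1000000 * 1000000) ^ 2) ^ 2)
        + (2 * ((nE i : ℂ) * (nE i : ℂ)) * (1000000 * 1000000 - (nE i : ℂ) * (nE i : ℂ))
          * (W i K d l * ((toC (1000000, nE i)) ^ 2
        * (-((nE i : ℂ) * (nE i : ℂ))) / ((nE i : ℂ) * (nE i : ℂ) + 1000000 * 1000000) ^ 2))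
          + (nE i : ℂ) * (nE i : ℂ) * ((nE i : ℂ) * (nE i : ℂ)) * W i K d l)
        = W i K d l * ((nE i : ℂ) * (nE i : ℂ)) ^ 2
          / ((nE i : ℂ) * (nE i : ℂ) + 1000000 * 1000000) ^ 2
          * ((toC (1000000, nE i)) ^ 4 - 2 * (1000000 * 1000000 - (nE i : ℂ) * (nE i : ℂ))
      * (toC (1000000, nE i)) ^ 2 + ((nE i : ℂ) * (nE i : ℂ) + 1000000 * 1000000) ^ 2) := by
      generalize ((nE i : ℂ) * (nE i : ℂ) + 1000000 * 1000000) = D1 at hden ⊢
      field_simp
      ring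
    rw [hz, mul_zero] at e5
    exact e5
  have := congrArg Complex.re hc
  rw [Complex.add_re, Complex.add_re, Complex.re_ofReal_mul, Complex.re_ofReal_mul,
    Complex.re_ofReal_mul, Complex.zero_re] at this
  exact this

/-- floor division of real numbers -/
theorem div_err (x d : ℤ) (hd : 0 < d) :
    |(x : ℝ) / (d : ℝ) - ((x / d : ℤ) : ℝ)| ≤ 1 := by
  have hd' : (0 : ℝ) < (d : ℝ) := by exact_mod_cast hd
  have h1 : d * (x / d) ≤ x := Int.mul_ediv_self_le hd.ne'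
  have h2 : x < d * (x / d) + d := Int.lt_mul_ediv_self_add (x := x) hd
  have h1' : (d : ℝ) * ((x / d : ℤ) : ℝ) ≤ (x : ℝ) := by exact_mod_cast h1
  have h2' : (x : ℝ) < (d : ℝ) * ((x / d : ℤ) : ℝ) + (d : ℝ) := by exact_mod_cast h2
  have h3 : ((x / d : ℤ) : ℝ) ≤ (x : ℝ) / (d : ℝ) := by
    rw [le_div_iff₀ hd']
    linarith
  have h4 : (x : ℝ) / (d : ℝ) ≤ ((x / d : ℤ) : ℝ) + 1 := by
    rw [div_le_iff₀ hd']
    linarith
  rw [abs_le]
  constructor <;> linarith

/-- the two initial terms -/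
def g0 (i : ℕ) (K : ℤ × ℤ) (d : ℤ) : ℤ :=
  (1000000 ^ 6 * (gmul K (gmul (gmul (gmul (1000000, nE i) (1000000, nE i))
    (gmul (1000000, nE i) (1000000, nE i))) (gmul (1000000, nE i) (1000000, nE i)))).1 * SCz)
    / ((nE i * nE i + 1000000 * 1000000) ^ 6 * d)

def g1 (i : ℕ) (K : ℤ × ℤ) (d : ℤ) : ℤ :=
  (-(nE i * nE i * 1000000 ^ 6) * (gmul K (gmul (gmul (gmul (1000000, nE i) (1000000, nE i))
    (gmul (1000000, nE i) (1000000, nE i))) (gmul (gmul (1000000, nE i) (1000000, nE i))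
    (gmul (1000000, nE i) (1000000, nE i))))).1 * SCz)
    / ((nE i * nE i + 1000000 * 1000000) ^ 8 * d)

theorem g0_err (i : ℕ) (K : ℤ × ℤ) (d : ℤ) (hd : 0 < d) :
    |(W i K d 0).re * (SC : ℝ) - (g0 i K d : ℝ)| ≤ 1 := by
  unfold g0
  set M : ℤ × ℤ := gmul K (gmul (gmul (gmul (1000000, nE i) (1000000, nE i))
    (gmul (1000000, nE i) (1000000, nE i))) (gmul (1000000, nE i) (1000000, nE i))) with hM
  have h := div_err (1000000 ^ 6 * M.1 * SCz) ((nE i * nE i + 1000000 * 1000000) ^ 6 * d)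
    (mul_pos (pow_pos (den_pos i) 6) hd)
  have hW : (W i K d 0).re = 1000000 ^ 6 * (M.1 : ℝ)
      / ((((nE i * nE i + 1000000 * 1000000) ^ 6 * d : ℤ)) : ℝ) := by
    have e : W i K d 0 = ((1000000 ^ 6 / ((((nE i * nE i + 1000000 * 1000000) ^ 6 * d : ℤ)) : ℝ)
        : ℝ) : ℂ) * toC M := by
      rw [hM, toC_gmul, toC_gmul, toC_gmul, toC_gmul]
      unfold W
      push_cast
      ring
    rw [e, Complex.re_ofReal_mul, toC_re]
    ring
  have e2 : (W i K d 0).re * (SC : ℝ) = ((1000000 ^ 6 * M.1 * SCz : ℤ) : ℝ)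
      / ((((nE i * nE i + 1000000 * 1000000) ^ 6 * d : ℤ)) : ℝ) := by
    rw [hW, Int.cast_mul (1000000 ^ 6 * M.1) SCz, SCz_eq]
    push_cast
    ring
  rw [e2]
  exact h

theorem g1_err (i : ℕ) (K : ℤ × ℤ) (d : ℤ) (hd : 0 < d) :
    |(W i K d 1).re * (SC : ℝ) - (g1 i K d : ℝ)| ≤ 1 := by
  unfold g1
  set M : ℤ × ℤ := gmul K (gmul (gmul (gmul (1000000, nE i) (1000000, nE i))
    (gmul (1000000, nE i) (1000000, nE i))) (gmul (gmul (1000000, nE i) (1000000, nE i))
    (gmul (1000000, nE i) (1000000, nE i)))) with hM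
  have h := div_err (-(nE i * nE i * 1000000 ^ 6) * M.1 * SCz)
    ((nE i * nE i + 1000000 * 1000000) ^ 8 * d) (mul_pos (pow_pos (den_pos i) 8) hd)
  have hW : (W i K d 1).re = -((nE i : ℝ) * (nE i : ℝ) * 1000000 ^ 6) * (M.1 : ℝ)
      / ((((nE i * nE i + 1000000 * 1000000) ^ 8 * d : ℤ)) : ℝ) := by
    have e : W i K d 1 = ((-((nE i : ℝ) * (nE i : ℝ) * 1000000 ^ 6)
        / ((((nE i * nE i + 1000000 * 1000000) ^ 8 * d : ℤ)) : ℝ) : ℝ) : ℂ) * toC M := by
      rw [hM, toC_gmul, toC_gmul, toC_gmul, toC_gmul]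
      unfold W
      push_cast
      ring
    rw [e, Complex.re_ofReal_mul, toC_re]
    ring
  have e2 : (W i K d 1).re * (SC : ℝ) = ((-(nE i * nE i * 1000000 ^ 6) * M.1 * SCz : ℤ) : ℝ)
      / ((((nE i * nE i + 1000000 * 1000000) ^ 8 * d : ℤ)) : ℝ) := by
    rw [hW, Int.cast_mul (-(nE i * nE i * 1000000 ^ 6) * M.1) SCz, SCz_eq]
    push_cast
    ring
  rw [e2]
  exact h

theorem brow_zero (i : ℕ) (K : ℤ × ℤ) (d : ℤ) : brow i 0 K d = [] := rfl

theorem brow_one (i : ℕ) (K : ℤ × ℤ) (d : ℤ) : brow i 1 K d = wrow 0 [g0 i K d] := rfl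

theorem brow_two (i m : ℕ) (K : ℤ × ℤ) (d : ℤ) : brow i (m + 2) K d =
    wrow 0 (divS ((nE i * nE i + 1000000 * 1000000) ^ 2)
      [2 * (nE i * nE i) * (1000000 * 1000000 - nE i * nE i), (nE i * nE i) * (nE i * nE i)]
      (List.replicate m 0) [g1 i K d, g0 i K d]).reverse := rfl

theorem berr_eq (len : ℕ) : berr len = errR 3 len 1 * ((len + 1) * (len + 2)) := rfl

theorem choose_le (len l : ℕ) (h : l < len) : (l + 2).choose 2 ≤ (len + 1) * (len + 2) := by
  rw [Nat.choose_two_right]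
  refine (Nat.div_le_self _ _).trans ?_
  rw [Nat.mul_comm]
  exact Nat.mul_le_mul (by omega) (by omega)

theorem errR_pos (m : ℕ) : 1 ≤ errR 3 m 1 := by
  have := errR_mono 3 3 0 m 1 1 le_rfl (by norm_num) (Nat.zero_le _) le_rfl
  exact this

/-- from the weights -/
theorem final (i len : ℕ) (K : ℤ × ℤ) (d : ℤ) (hd : 0 < d)
    (hK : ((K.1 : ℂ) + (K.2 : ℂ) * Complex.I) / (d : ℂ) = kapT ^ (2 * i + 1))
    (xs : List ℤ) (hxs : xs.length = len) (e : ℕ) (he : e ≤ errR 3 len 1)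
    (h : ∀ l < xs.length, |(W i K d l).re * (SC : ℝ) - (xs.getD l 0 : ℝ)| ≤ e)
    (hp : posL (wrow 0 xs) = true) :
    (wrow 0 xs).length = len ∧
      Rel (fun l => bT kapT eT (2 * i + 1) l) (wrow 0 xs) (berr len) := by
  refine ⟨by rw [wrow_len, hxs], ?_⟩
  intro l hl
  rw [wrow_len] at hl
  have h1 := wrow_rel 0 xs (fun l => (W i K d l).re) e h hp l hl
  rw [Nat.zero_add] at h1
  simp only
  rw [bT_eq i K d hd hK l]
  refine h1.trans ?_
  rw [berr_eq]
  have h2 : (l + 2).choose 2 * e ≤ errR 3 len 1 * ((len + 1) * (len + 2)) := by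
    rw [Nat.mul_comm (errR 3 len 1)]
    exact Nat.mul_le_mul (choose_le len l (by omega)) he
  exact_mod_cast h2

theorem kap_le (i : ℕ) : absS [2 * (nE i * nE i) * (1000000 * 1000000 - nE i * nE i),
      (nE i * nE i) * (nE i * nE i)] / ((nE i * nE i + 1000000 * 1000000) ^ 2 : ℤ).natAbs + 1
    ≤ 3 := by
  have h1 : absS [2 * (nE i * nE i) * (1000000 * 1000000 - nE i * nE i),
      (nE i * nE i) * (nE i * nE i)]
      = (2 * (nE i * nE i) * (1000000 * 1000000 - nE i * nE i)).natAbs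
        + ((nE i * nE i) * (nE i * nE i)).natAbs := rfl
  rw [h1]
  set a : ℤ := nE i * nE i with ha
  have ha0 : 0 ≤ a := mul_self_nonneg _
  have hpos : 0 < ((a + 1000000 * 1000000) ^ 2 : ℤ).natAbs := by
    rw [Int.natAbs_pos]; positivity
  have h2 : (2 * a * (1000000 * 1000000 - a)).natAbs + (a * a).natAbs
      < 3 * ((a + 1000000 * 1000000) ^ 2 : ℤ).natAbs := by
    zify
    rw [abs_of_nonneg (show (0 : ℤ) ≤ (a + 1000000 * 1000000) ^ 2 by positivity),
      abs_of_nonneg (show (0 : ℤ) ≤ a * a by positivity)]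
    rcases le_total 0 (2 * a * (1000000 * 1000000 - a)) with h | h
    · rw [abs_of_nonneg h]; nlinarith
    · rw [abs_of_nonpos h]; nlinarith
  have h3 := (Nat.div_lt_iff_lt_mul hpos).2 h2
  omega

end NR2aux

open NR2aux

theorem brow_spec (i len : ℕ) (K : ℤ × ℤ) (d : ℤ) (hd : 0 < d)
    (hK : ((K.1 : ℂ) + (K.2 : ℂ) * Complex.I) / (d : ℂ) = kapT ^ (2 * i + 1))
    (hp : posL (brow i len K d) = true) :
    (brow i len K d).length = len ∧
      Rel (fun l => bT kapT eT (2 * i + 1) l) (brow i len K d) (berr len) := by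
  match len with
  | 0 =>
    rw [brow_zero]
    exact ⟨rfl, fun l hl => absurd hl (Nat.not_lt_zero _)⟩
  | 1 =>
    rw [brow_one] at hp ⊢
    refine final i 1 K d hd hK [g0 i K d] rfl 1 (errR_pos 1) ?_ hp
    intro l hl
    have : l = 0 := by
      rw [List.length_singleton] at hl
      omega
    subst this
    rw [List.getD_cons_zero, Nat.cast_one]
    exact g0_err i K d hd
  | m + 2 =>
    rw [brow_two] at hp ⊢
    have hrev : RelR (fun l => (W i K d l).re) [g1 i K d, g0 i K d] 1 := by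
      intro j hj
      have hj2 : j = 0 ∨ j = 1 := by
        have : j < 2 := hj
        omega
      have hlen0 : [g1 i K d, g0 i K d].length = 2 := rfl
      rw [hlen0, Nat.cast_one]
      rcases hj2 with rfl | rfl
      · rw [List.getD_cons_zero, show 2 - 1 - 0 = 1 from rfl]
        exact g1_err i K d hd
      · rw [List.getD_cons_succ, List.getD_cons_zero, show 2 - 1 - 1 = 0 from rfl]
        exact g0_err i K d hd
    have hd2 := divS_rel ((nE i * nE i + 1000000 * 1000000) ^ 2)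
      [2 * (nE i * nE i) * (1000000 * 1000000 - nE i * nE i), (nE i * nE i) * (nE i * nE i)]
      (pow_pos (den_pos i) 2) (fun l => (W i K d l).re) (List.replicate m 0) [g1 i K d, g0 i K d] 1
      hrev (by
        intro j hj
        have hlen : [g1 i K d, g0 i K d].length = 2 := rfl
        have hlen2 : [2 * (nE i * nE i) * (1000000 * 1000000 - nE i * nE i),
          (nE i * nE i) * (nE i * nE i)].length = 2 := rfl
        rw [hlen, hlen2, Nat.min_eq_left (by omega), Finset.sum_range_succ,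
          Finset.sum_range_succ, Finset.sum_range_zero, zero_add, List.getD_cons_zero,
          List.getD_cons_succ, List.getD_cons_zero]
        have hr := W_rec i K d hd j
        have e1 : 2 + j = j + 2 := by ring
        have e2 : 2 + j - 1 - 0 = j + 1 := by omega
        have e3 : 2 + j - 1 - 1 = j := by omega
        rw [e1] at e2 e3 ⊢
        rw [e2, e3]
        rw [List.length_replicate] at hj
        rw [List.getD_replicate _ hj, Int.cast_zero]
        exact hr)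
    obtain ⟨hl, hr⟩ := hd2
    have hl' : (divS ((nE i * nE i + 1000000 * 1000000) ^ 2)
      [2 * (nE i * nE i) * (1000000 * 1000000 - nE i * nE i), (nE i * nE i) * (nE i * nE i)]
      (List.replicate m 0) [g1 i K d, g0 i K d]).length = m + 2 := by
      rw [hl, List.length_replicate]
      change 2 + m = m + 2
      ring
    have he := errR_mono _ 3 (List.replicate m (0 : ℤ)).length (m + 2) 1 1 (kap_le i)
      (Nat.le_add_left 1 _) (by rw [List.length_replicate]; omega) le_rfl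
    refine final i (m + 2) K d hd hK _ (by rw [List.length_reverse, hl']) _ he ?_ hp
    intro l hlt
    rw [List.length_reverse, hl'] at hlt
    have h5 := hr (m + 2 - 1 - l) (by rw [hl']; omega)
    rw [hl'] at h5
    have e6 : m + 2 - 1 - (m + 2 - 1 - l) = l := by omega
    rw [e6] at h5
    have e7 : ((divS ((nE i * nE i + 1000000 * 1000000) ^ 2)
      [2 * (nE i * nE i) * (1000000 * 1000000 - nE i * nE i), (nE i * nE i) * (nE i * nE i)]
      (List.replicate m 0) [g1 i K d, g0 i K d]).reverse).getD l 0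
      = (divS ((nE i * nE i + 1000000 * 1000000) ^ 2)
      [2 * (nE i * nE i) * (1000000 * 1000000 - nE i * nE i), (nE i * nE i) * (nE i * nE i)]
      (List.replicate m 0) [g1 i K d, g0 i K d]).getD (m + 2 - 1 - l) 0 := by
      rw [List.getD_eq_getElem?_getD, List.getD_eq_getElem?_getD, List.getElem?_reverse (by
        rw [hl']; exact hlt), hl']
    rw [e7]
    exact h5

end GUB.Num
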