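import Pool.Agent.Lib.MP_721eb4_an.UB.NR1
import Pool.Agent.Lib.MP_721eb4_an.UB.NR2

/-! Upper bound for the complex Grothendieck constant: the coefficients of the rotor scheme -/

set_option autoImplicit false

namespace GUB.Num

/-- contribution of the rows `≥ i` to the coefficient `i + M` -/
noncomputable def Grow (i M : ℕ) : ℝ :=
  ∑ k ∈ Finset.range (M + 1), ∑ t ∈ Finset.range (M - k + 1),
    hc (i + k + t) / 4 ^ (i + k + t) * ((2 * (i + k + t) + 1).choose t : ℝ)
      * bT kapT eT (2 * (i + k) + 1) (M - k - t)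

theorem Grow_zero (i : ℕ) : Grow i 0 = ∑ t ∈ Finset.range (0 + 1),
    hc (i + t) / 4 ^ (i + t) * ((2 * (i + t) + 1).choose t : ℝ)
      * bT kapT eT (2 * i + 1) (0 - t) := by
  simp [Grow]

theorem Grow_succ (i M : ℕ) : Grow i (M + 1) = ∑ t ∈ Finset.range (M + 1 + 1),
    hc (i + t) / 4 ^ (i + t) * ((2 * (i + t) + 1).choose t : ℝ)
      * bT kapT eT (2 * i + 1) (M + 1 - t) + Grow (i + 1) M := by
  unfold Grow
  rw [Finset.sum_range_succ' _ (M + 1), add_comm]
  congr 1
  refine Finset.sum_congr rfl (fun k _ => ?_)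
  have h1 : M + 1 - (k + 1) = M - k := by omega
  rw [h1]
  refine Finset.sum_congr rfl (fun t _ => ?_)
  have h2 : i + (k + 1) = i + 1 + k := by omega
  rw [h2]

theorem That_eq_Grow (N : ℕ) : That kapT eT N = Grow 0 N := by
  unfold That Grow
  have h1 : ∀ m ∈ Finset.range (N + 1), hc m / 4 ^ m *
      ∑ j ∈ Finset.range (m + 1), ((2 * m + 1).choose j : ℝ) * bT kapT eT (2 * (m - j) + 1) (N - m)
      = ∑ j ∈ Finset.range (m + 1), hc m / 4 ^ m * ((2 * m + 1).choose j : ℝ)
        * bT kapT eT (2 * (m - j) + 1) (N - m) := by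
    intro m _
    rw [Finset.mul_sum]
    refine Finset.sum_congr rfl (fun j _ => ?_)
    ring
  rw [Finset.sum_congr rfl h1]
  rw [Finset.sum_sigma', Finset.sum_sigma']
  refine Finset.sum_bij' (fun x _ => ⟨x.1 - x.2, x.2⟩) (fun y _ => ⟨y.1 + y.2, y.2⟩) ?_ ?_ ?_ ?_ ?_
  · rintro ⟨m, j⟩ h
    simp only [Finset.mem_sigma, Finset.mem_range] at h ⊢
    omega
  · rintro ⟨k, t⟩ h
    simp only [Finset.mem_sigma, Finset.mem_range] at h ⊢
    omega
  · rintro ⟨m, j⟩ h
    simp only [Finset.mem_sigma, Finset.mem_range] at h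
    have : m - j + j = m := by omega
    simp [this]
  · rintro ⟨k, t⟩ h
    have : k + t - t = k := by omega
    simp [this]
  · rintro ⟨m, j⟩ h
    simp only [Finset.mem_sigma, Finset.mem_range] at h
    have h1 : m - j + j = m := by omega
    have h3 : N - (m - j) - j = N - m := by omega
    simp only [zero_add, h1, h3]

theorem addE_cons (a b : ℕ) (X Y : List ℕ) :
    addE (a :: X) (b :: Y) = (a + b - OB) :: addE X Y := by
  rw [addE]
  rfl

attribute [local irreducible] SC OB

theorem addE_spec (X Y : List ℕ) (F G : ℕ → ℝ) (e e' : ℕ) (hl : X.length = Y.length)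
    (hX : Rel F X e) (hY : Rel G Y e') (hp : posL (addE X Y) = true) :
    (addE X Y).length = X.length ∧ Rel (fun k => F k + G k) (addE X Y) (e' + e) := by
  induction X generalizing Y F G with
  | nil =>
    cases Y with
    | nil => exact ⟨rfl, fun i hi => absurd hi (Nat.not_lt_zero i)⟩
    | cons b Y => simp at hl
  | cons a X ih =>
    cases Y with
    | nil => simp at hl
    | cons b Y =>
      rw [addE_cons] at hp ⊢
      rw [NL1aux.posL_cons, Bool.and_eq_true] at hp
      have hX' : Rel (fun k => F (k + 1)) X e := by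
        intro i hi
        have := hX (i + 1) (by rw [List.length_cons]; omega)
        rwa [List.getD_cons_succ] at this
      have hY' : Rel (fun k => G (k + 1)) Y e' := by
        intro i hi
        have := hY (i + 1) (by rw [List.length_cons]; omega)
        rwa [List.getD_cons_succ] at this
      rw [List.length_cons, List.length_cons] at hl
      obtain ⟨h1, h2⟩ := ih Y (fun k => F (k + 1)) (fun k => G (k + 1))
        (by omega) hX' hY' hp.2
      refine ⟨?_, ?_⟩
      · rw [List.length_cons, List.length_cons, h1]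
      · intro i hi
        rw [List.length_cons] at hi
        cases i with
        | zero =>
          have a1 := hX 0 (by rw [List.length_cons]; omega)
          have a2 := hY 0 (by rw [List.length_cons]; omega)
          rw [List.getD_cons_zero] at a1 a2 ⊢
          have h3 : 0 < a + b - OB := by
            have := hp.1
            rwa [Nat.blt_eq] at this
          have h4 : ((a + b - OB : ℕ) : ℝ) = (a : ℝ) + b - OB := by
            have h5 : OB ≤ a + b := by omega
            rw [Nat.cast_sub h5]
            push_cast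
            ring
          rw [h4]
          rw [abs_le] at a1 a2 ⊢
          rw [Nat.cast_add]
          constructor
          · linarith [a1.1, a2.1]
          · linarith [a1.2, a2.2]
        | succ i =>
          rw [List.getD_cons_succ]
          exact h2 i (by omega)

theorem gmul_spec (x y : ℤ × ℤ) : (((gmul x y).1 : ℤ) : ℂ) + (((gmul x y).2 : ℤ) : ℂ) * Complex.I
    = ((x.1 : ℂ) + (x.2 : ℂ) * Complex.I) * ((y.1 : ℂ) + (y.2 : ℂ) * Complex.I) := by
  unfold gmul
  push_cast
  linear_combination -(x.2 : ℂ) * (y.2 : ℂ) * Complex.I_sq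

theorem kapT_eq : (((1194051 : ℤ) : ℂ) + ((-1517500 : ℤ) : ℂ) * Complex.I) / ((1930949 : ℤ) : ℂ)
    = kapT := by
  unfold kapT
  push_cast
  ring

theorem tgo_spec (m i : ℕ) (K : ℤ × ℤ) (d : ℤ) (hd : 0 < d)
    (hK : ((K.1 : ℂ) + (K.2 : ℂ) * Complex.I) / (d : ℂ) = kapT ^ (2 * i + 1))
    (h : (tgo (cbl m i (Nat.centralBinom i)) i K d).ok = true) :
    (tgo (cbl m i (Nat.centralBinom i)) i K d).l.length = m ∧
      Rel (Grow i) (tgo (cbl m i (Nat.centralBinom i)) i K d).l
        (tgo (cbl m i (Nat.centralBinom i)) i K d).e := by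
  induction m generalizing i K d with
  | zero => exact ⟨rfl, fun i hi => by simp [cbl, tgo] at hi⟩
  | succ m ih =>
    have hc1 : cbl (m + 1) i (Nat.centralBinom i)
        = Nat.centralBinom i :: cbl m (i + 1) (Nat.centralBinom (i + 1)) := by
      rw [cbl, nextC_spec]
    have hA := arow_spec i m
    rw [hc1] at h hA ⊢
    rw [tgo] at h ⊢
    set K' : ℤ × ℤ := gmul K (gmul (1194051, -1517500) (1194051, -1517500)) with hK'
    set r := tgo (cbl m (i + 1) (Nat.centralBinom (i + 1))) (i + 1) K' (d * (1930949 * 1930949))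
      with hr
    set A := arow i (Nat.centralBinom i :: cbl m (i + 1) (Nat.centralBinom (i + 1))) i 1 with hAdef
    have hlen : Nat.succ (cbl m (i + 1) (Nat.centralBinom (i + 1))).length = m + 1 := by
      rw [cbl_spec, List.length_map, List.length_range]
    simp only [hlen] at h ⊢
    set B := brow i (m + 1) K d with hBdef
    simp only [Bool.and_eq_true] at h
    obtain ⟨⟨⟨⟨hr0, hpA⟩, hpB⟩, hpT⟩, hpE⟩ := h
    have hdC : (d : ℂ) ≠ 0 := by exact_mod_cast hd.ne'
    have hK2 : ((K'.1 : ℂ) + (K'.2 : ℂ) * Complex.I) / ((d * (1930949 * 1930949) : ℤ) : ℂ)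
        = kapT ^ (2 * (i + 1) + 1) := by
      have e : kapT ^ (2 * (i + 1) + 1) = kapT ^ (2 * i + 1) * (kapT * kapT) := by ring
      rw [e, ← hK, ← kapT_eq, hK', gmul_spec, gmul_spec]
      push_cast
      field_simp
      ring
    obtain ⟨hl, hR⟩ := ih (i + 1) K' (d * (1930949 * 1930949)) (by positivity) hK2 hr0
    obtain ⟨hlB, hRB⟩ := brow_spec i (m + 1) K d hd hK hpB
    have hlAB : B.length ≤ A.length := by rw [hlB, hA.1]
    have hconv := conv_rel _ _ A B _ _ hA.2 hRB hlAB hpT
    have hlc : (conv A B).length = m + 1 := by rw [conv_length A B hlAB, hlB]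
    rw [← hr] at hl hR
    have hsh : Rel (fun k => if k = 0 then 0 else Grow (i + 1) (k - 1)) (OB :: r.l) r.e := by
      intro j hj
      cases j with
      | zero => simp
      | succ j =>
        rw [List.getD_cons_succ]
        have := hR j (by simpa using hj)
        simpa using this
    have hadd := addE_spec (conv A B) (OB :: r.l) _ _ _ _ (by rw [hlc, List.length_cons, hl])
      hconv hsh hpE
    refine ⟨by rw [hadd.1, hlc], ?_⟩
    intro k hk
    have h5 := hadd.2 k hk
    have h6 : Grow i k = ∑ t ∈ Finset.range (k + 1),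
        hc (i + t) / 4 ^ (i + t) * ((2 * (i + t) + 1).choose t : ℝ)
          * bT kapT eT (2 * i + 1) (k - t) + (if k = 0 then 0 else Grow (i + 1) (k - 1)) := by
      cases k with
      | zero => rw [Grow_zero]; simp
      | succ k => rw [Grow_succ]; simp
    rw [h6]
    rw [hlB] at h5
    exact h5

theorem thatBall_spec (n : ℕ) (h : (thatBall n).ok = true) :
    (thatBall n).l.length = n + 1 ∧ Rel (That kapT eT) (thatBall n).l (thatBall n).e := by
  have e : (1 : ℕ) = Nat.centralBinom 0 := by simp
  unfold thatBall at h ⊢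
  rw [show cbl (n + 1) 0 1 = cbl (n + 1) 0 (Nat.centralBinom 0) by rw [← e]] at h ⊢
  obtain ⟨h1, h2⟩ := tgo_spec (n + 1) 0 (1194051, -1517500) 1930949 (by norm_num)
    (by rw [kapT_eq]; simp) h
  refine ⟨h1, ?_⟩
  intro k hk
  have := h2 k hk
  rw [That_eq_Grow]
  exact this

end GUB.Num
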