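import Pool.Agent.Lib.MP_721eb4_an.UB.NL1
import Pool.Agent.Lib.MP_721eb4_an.UB.NL3
import Pool.Agent.Lib.MP_721eb4_an.UB.NumRot

/-! Upper bound for the complex Grothendieck constant: the coefficients of the rotor scheme -/

set_option autoImplicit false

namespace GUB.Num

namespace NR1aux

attribute [local irreducible] SC OB

/-- the encoded value of `hc (i+N) / 4^(i+N) * C(2(i+N)+1, N)` -/
def enca (i N : ℕ) : ℕ :=
  ((2 * (i + N) + 1).choose N * (Nat.centralBinom (i + N) * Nat.centralBinom (i + N)) * SC) /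
    (64 ^ (i + N) * (i + N + 1)) + OB

theorem choose_step (i N : ℕ) :
    (2 * (i + N) + 1).choose N * ((2 * (i + N) + 3) * (2 * (i + N) + 2)) /
      ((i + N + 1 - i) * (i + N + 2 + i)) = (2 * (i + (N + 1)) + 1).choose (N + 1) := by
  have h1 := Nat.add_one_mul_choose_eq (2 * (i + N) + 2) N
  have h2 := Nat.choose_mul_succ_eq (2 * (i + N) + 1) N
  have e1 : 2 * (i + N) + 1 + 1 - N = 2 * i + N + 2 := by omega
  rw [e1] at h2
  have e2 : i + N + 1 - i = N + 1 := by omega
  have e3 : 2 * (i + (N + 1)) + 1 = 2 * (i + N) + 3 := by ring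
  rw [e2, e3]
  refine Nat.div_eq_of_eq_mul_right (by positivity) ?_
  have h1' : (2 * (i + N) + 3) * (2 * (i + N) + 2).choose N =
      (2 * (i + N) + 3).choose (N + 1) * (N + 1) := h1
  have h2' : (2 * (i + N) + 1).choose N * (2 * (i + N) + 2) =
      (2 * (i + N) + 2).choose N * (2 * i + N + 2) := h2
  calc (2 * (i + N) + 1).choose N * ((2 * (i + N) + 3) * (2 * (i + N) + 2))
      = (2 * (i + N) + 3) * ((2 * (i + N) + 1).choose N * (2 * (i + N) + 2)) := by ring
    _ = ((2 * (i + N) + 3) * (2 * (i + N) + 2).choose N) * (2 * i + N + 2) := by rw [h2']; ring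
    _ = (N + 1) * (i + N + 2 + i) * (2 * (i + N) + 3).choose (N + 1) := by rw [h1']; ring

theorem arow_cons (i c : ℕ) (cs : List ℕ) (m bn : ℕ) : arow i (c :: cs) m bn =
    ((bn * (c * c) * SC) / (64 ^ m * (m + 1)) + OB) ::
      arow i cs (m + 1) (bn * ((2 * m + 3) * (2 * m + 2)) / ((m + 1 - i) * (m + 2 + i))) := by
  rw [arow]
  rfl

theorem arow_gen (i L N : ℕ) :
    (arow i (cbl L (i + N) (Nat.centralBinom (i + N))) (i + N)
      ((2 * (i + N) + 1).choose N)).length = L ∧
    ∀ j < L, (arow i (cbl L (i + N) (Nat.centralBinom (i + N))) (i + N)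
      ((2 * (i + N) + 1).choose N)).getD j 0 = enca i (N + j) := by
  induction L generalizing N with
  | zero =>
    refine ⟨by rw [cbl, arow]; rfl, fun j hj => absurd hj (Nat.not_lt_zero j)⟩
  | succ L ih =>
    have e : cbl (L + 1) (i + N) (Nat.centralBinom (i + N)) =
      Nat.centralBinom (i + N) :: cbl L (i + N + 1) (nextC (i + N) (Nat.centralBinom (i + N))) := rfl
    rw [e, nextC_spec, arow_cons, choose_step]
    obtain ⟨h1, h2⟩ := ih (N + 1)
    rw [← add_assoc i N 1] at h1 h2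
    refine ⟨by rw [List.length_cons, add_assoc i N 1]; exact congrArg (· + 1) h1, fun j hj => ?_⟩
    cases j with
    | zero => rw [List.getD_cons_zero, enca, add_zero]
    | succ j =>
      rw [List.getD_cons_succ]
      have h3 := h2 j (by omega)
      rw [add_assoc N 1 j, add_comm 1 j] at h3
      exact h3

theorem enca_spec (i N : ℕ) :
    |hc (i + N) / 4 ^ (i + N) * ((2 * (i + N) + 1).choose N : ℝ) * (SC : ℝ) -
      ((enca i N : ℝ) - (OB : ℝ))| ≤ 1 := by
  set m := i + N with hm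
  set B := (2 * m + 1).choose N with hB
  have hcast : ((enca i N : ℕ) : ℝ) - (OB : ℝ) =
      (((B * (Nat.centralBinom m * Nat.centralBinom m) * SC) / (64 ^ m * (m + 1)) : ℕ) : ℝ) := by
    rw [enca, Nat.cast_add, add_sub_cancel_right]
  rw [hcast]
  clear_value B
  clear hcast
  clear_value m
  have hpos : 0 < 64 ^ m * (m + 1) := by positivity
  have hposR : (0 : ℝ) < 64 ^ m * (m + 1) := by positivity
  have hval : hc m / 4 ^ m * (B : ℝ) * (SC : ℝ) =
      ((B * (Nat.centralBinom m * Nat.centralBinom m) * SC : ℕ) : ℝ) /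
        ((64 ^ m * (m + 1) : ℕ) : ℝ) := by
    unfold hc
    rw [Nat.cast_mul, Nat.cast_mul, Nat.cast_mul, Nat.cast_mul, Nat.cast_pow, Nat.cast_add,
      Nat.cast_one, Nat.cast_ofNat]
    have h64 : (64 : ℝ) ^ m = (4 ^ m) ^ 2 * 4 ^ m := by
      rw [← pow_mul, mul_comm m 2, pow_mul, ← mul_pow]
      norm_num
    rw [h64]
    have h4 : (4 : ℝ) ^ m ≠ 0 := by positivity
    have hm1 : (m : ℝ) + 1 ≠ 0 := by positivity
    field_simp
  rw [hval]
  have h1 := @Nat.cast_div_le ℝ _ _ _ (B * (Nat.centralBinom m * Nat.centralBinom m) * SC)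
    (64 ^ m * (m + 1))
  have h2 : ((B * (Nat.centralBinom m * Nat.centralBinom m) * SC : ℕ) : ℝ) /
      ((64 ^ m * (m + 1) : ℕ) : ℝ) <
      (((B * (Nat.centralBinom m * Nat.centralBinom m) * SC) / (64 ^ m * (m + 1)) : ℕ) : ℝ) + 1 := by
    rw [div_lt_iff₀ (by exact_mod_cast hpos)]
    have h3 := Nat.lt_div_mul_add (a := B * (Nat.centralBinom m * Nat.centralBinom m) * SC) hpos
    have h4 : ((B * (Nat.centralBinom m * Nat.centralBinom m) * SC : ℕ) : ℝ) <
      (((B * (Nat.centralBinom m * Nat.centralBinom m) * SC) / (64 ^ m * (m + 1)) *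
        (64 ^ m * (m + 1)) + 64 ^ m * (m + 1) : ℕ) : ℝ) := by exact_mod_cast h3
    refine lt_of_lt_of_eq h4 ?_
    rw [Nat.cast_add, Nat.cast_mul]
    ring
  rw [abs_le]
  constructor <;> linarith

end NR1aux

theorem arow_spec (i m : ℕ) :
    (arow i (cbl (m + 1) i (Nat.centralBinom i)) i 1).length = m + 1 ∧
      Rel (fun N => hc (i + N) / 4 ^ (i + N) * ((2 * (i + N) + 1).choose N : ℝ))
        (arow i (cbl (m + 1) i (Nat.centralBinom i)) i 1) 1 := by
  obtain ⟨h1, h2⟩ := NR1aux.arow_gen i (m + 1) 0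
  rw [add_zero, Nat.choose_zero_right] at h1 h2
  refine ⟨h1, fun j hj => ?_⟩
  rw [h2 j (by rw [← h1]; exact hj), zero_add, Nat.cast_one]
  exact NR1aux.enca_spec i j

end GUB.Num
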