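import Mathlib

/-! Kernel arithmetic with truncated power series (fixed point, scale `2^320`).
A real number `x` is represented by the natural number `⌊x·SC⌋ + OB`. -/

set_option autoImplicit false

namespace GUB.Num

/-- scale -/
def SC : ℕ := Nat.pow 2 320

/-- offset -/
def OB : ℕ := Nat.pow 2 400

/-- kernel friendly dot product of natural numbers, with accumulator -/
def dotN (l : List ℕ) : List ℕ → ℕ → ℕ :=
  List.rec (motive := fun _ => List ℕ → ℕ → ℕ) (fun _ acc => acc)
    (fun a _ ih m acc => List.casesOn (motive := fun _ => ℕ) m acc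
      (fun b m' => ih m' (Nat.add acc (Nat.mul a b)))) l

/-- convolution: `X`, remaining part of `Y`, reversed prefix of `Y`, remaining part of `X`,
sum of the two prefixes, number of terms so far -/
def convA (X : List ℕ) : List ℕ → List ℕ → List ℕ → ℕ → ℕ → List ℕ
  | [], _, _, _, _ => []
  | _ :: _, _, [], _, _ => []
  | b :: bs, rev, x :: xs, sm, k =>
    Nat.div (Nat.sub (Nat.add (Nat.add (dotN X (b :: rev) 0) (Nat.mul (Nat.succ k) (Nat.mul OB OB)))
      (Nat.mul OB SC)) (Nat.mul OB (Nat.add (Nat.add sm b) x))) SC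
      :: convA X bs (b :: rev) xs (Nat.add (Nat.add sm b) x) (Nat.succ k)

/-- scaled truncated product -/
def conv (X Y : List ℕ) : List ℕ := convA X Y [] X 0 0

/-- `∑ |x_i - OB|` -/
def nrm (X : List ℕ) : ℕ :=
  X.foldr (fun x s => Nat.add s (Nat.add (Nat.sub x OB) (Nat.sub OB x))) 0

/-- error of a product; `nX`, `nY` are the norms -/
def errM (nX nY len eX eY : ℕ) : ℕ :=
  Nat.add (Nat.div (Nat.add (Nat.add (Nat.mul nX eY) (Nat.mul nY eX)) (Nat.mul len (Nat.mul eX eY))) SC) 2

/-- all entries positive -/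
def posL (X : List ℕ) : Bool := X.foldr (fun x s => Bool.and (Nat.blt 0 x) s) true

/-- Horner scheme: `S ↦ h + q U S`.  State: list, error, validity flag -/
def horner (U : List ℕ) (nU eU eh : ℕ) : List ℕ → List ℕ → ℕ → Bool → List ℕ × ℕ × Bool
  | [], S, e, ok => (S, e, ok)
  | h :: hs, S, e, ok =>
    horner U nU eU eh hs (h :: conv U S) (Nat.add (errM nU (nrm S) S.length eU e) eh)
      (Bool.and ok (posL (conv U S)))

/-! ### linear recurrences over the integers -/

def dotZ : List ℤ → List ℤ → ℤ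
  | a :: l, b :: m => a * b + dotZ l m
  | _, _ => 0

def SCz : ℤ := Int.ofNat SC
def OBz : ℤ := Int.ofNat OB

/-- `N / Y` with `Y = Y0 :: Yt`; `rev` is the reversed list of the coefficients so far -/
def divS (Y0 : ℤ) (Yt : List ℤ) : List ℤ → List ℤ → List ℤ
  | [], rev => rev
  | a :: as, rev => divS Y0 Yt as ((a * SCz - dotZ Yt rev) / Y0 :: rev)

/-- `∑ (2n-k) Y_k rev_k`, `k` starting at the second argument -/
def wdot (n2 : ℤ) : ℤ → List ℤ → List ℤ → ℤ
  | k, a :: l, b :: m => (n2 - k) * a * b + wdot n2 (k + 1) l m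
  | _, _, _ => 0

/-- coefficients of `Y^{-1/2}`: `m` more steps, next index `n` -/
def sqS (Y0 : ℤ) (Yt : List ℤ) : ℕ → ℤ → List ℤ → List ℤ
  | 0, _, rev => rev
  | m + 1, n, rev => sqS Y0 Yt m (n + 1) ((-wdot (2 * n) 1 Yt rev) / (2 * n * Y0) :: rev)

/-- iterated error `e ↦ κ e + 1` -/
def errR (κ : ℕ) : ℕ → ℕ → ℕ
  | 0, e => e
  | m + 1, e => errR κ m (Nat.add (Nat.mul κ e) 1)

def absS (l : List ℤ) : ℕ := l.foldr (fun a s => a.natAbs + s) 0

/-- encode a reversed list -/
def encR (l : List ℤ) : List ℕ := l.foldl (fun s x => Int.toNat (x + OBz) :: s) []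

/-- exact polynomial product -/
def padd : List ℤ → List ℤ → List ℤ
  | a :: l, b :: m => (a + b) :: padd l m
  | [], m => m
  | l, [] => l

def pmul : List ℤ → List ℤ → List ℤ
  | [], _ => []
  | a :: l, m => padd (m.map (fun x => a * x)) (0 :: pmul l m)

def pad (n : ℕ) (l : List ℤ) : List ℤ := match n, l with
  | 0, _ => []
  | n + 1, [] => 0 :: pad n []
  | n + 1, a :: l => a :: pad n l

/-- next central binomial coefficient -/
def nextC (k c : ℕ) : ℕ :=
  Nat.div (Nat.mul c (Nat.mul 2 (Nat.add (Nat.mul 2 k) 1))) (Nat.succ k)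

/-- encoded `hc k`, reversed list of `m` terms starting at `k`, `c = centralBinom k` -/
def hcs : ℕ → ℕ → ℕ → List ℕ → List ℕ
  | 0, _, _, acc => acc
  | m + 1, k, c, acc =>
    hcs m (Nat.succ k) (nextC k c)
      (Nat.add (Nat.div (Nat.mul (Nat.mul c c) SC) (Nat.mul (Nat.pow 16 k) (Nat.succ k))) OB :: acc)

/-- list of central binomial coefficients, `m` terms starting at `k` -/
def cbl : ℕ → ℕ → ℕ → List ℕ
  | 0, _, _ => []
  | m + 1, k, c => c :: cbl m (Nat.succ k) (nextC k c)

/-- a truncated power series with its error and a validity flag -/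
structure Ball where
  l : List ℕ
  e : ℕ
  ok : Bool

/-- rounding to fifteen decimals -/
def dig (b : Ball) : List ℤ := b.l.map (fun x => (Int.ofNat x - OBz) * 1000000000000000 / SCz)

end GUB.Num
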