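import Pool.Agent.Lib.MP_721eb4_an.UB.NP
import Pool.Agent.Lib.MP_721eb4_an.UB.EvA1
import Pool.Agent.Lib.MP_721eb4_an.UB.EvA2
import Pool.Agent.Lib.MP_721eb4_an.UB.EvA3
import Pool.Agent.Lib.MP_721eb4_an.UB.EvA4

/-! Upper bound for the complex Grothendieck constant: the numbers of scheme A -/

set_option autoImplicit false
set_option maxRecDepth 100000

namespace GUB.Num
open GUB

theorem pair_num (w0 : ℕ) (P Q : M2 ℤ) (d : List ℤ)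
    (h : (fun b : Ball => (b.ok, Nat.ble b.e (2 ^ 60), dig b)) (pairBall 50 w0 P Q)
      = (true, true, d)) (N : ℕ) (hN : N < 51) :
    |ThP P Q N - ((d.getD N 0 : ℤ) : ℝ) / 10 ^ 15| ≤ 2 / 10 ^ 15 := by
  simp only [Prod.mk.injEq] at h
  obtain ⟨h1, h2, h3⟩ := h
  obtain ⟨hl, hr⟩ := pairBall_spec 50 w0 P Q h1
  have h4 := dig_spec _ _ hr ((Nat.le_of_ble_eq_true h2).trans
    (Nat.pow_le_pow_right (by norm_num) (by norm_num))) N (by rw [hl]; exact hN)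
  rw [h3] at h4
  exact h4

/-- the pairs with their digits -/
def zA : List ((ℤ × M2 ℤ × M2 ℤ) × List ℤ) := [
  ((4000000000000, ⟨0, 0, 0, 0⟩, ⟨0, 0, 0, 0⟩), dA0),
  ((-760000000000, ⟨1669256, 898293, 182800, 321715⟩, ⟨0, 0, 0, 0⟩), dA1),
  ((760000000000, ⟨1669256, 182800, 898293, 321715⟩, ⟨0, 0, 0, 0⟩), dA2),
  ((760000000000, ⟨1156906, 849005, 311922, 291532⟩, ⟨0, 0, 0, 0⟩), dA3),
  ((-760000000000, ⟨1156906, 311922, 849005, 291532⟩, ⟨0, 0, 0, 0⟩), dA4),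
  ((36100000000, ⟨1669256, 898293, 182800, 321715⟩, ⟨1669256, 182800, 898293, 321715⟩), dA5),
  ((-72200000000, ⟨1669256, 898293, 182800, 321715⟩, ⟨1669256, 898293, 182800, 321715⟩), dA6),
  ((-72200000000, ⟨1669256, 898293, 182800, 321715⟩, ⟨1156906, 311922, 849005, 291532⟩), dA7),
  ((72200000000, ⟨1669256, 898293, 182800, 321715⟩, ⟨1156906, 849005, 311922, 291532⟩), dA8),
  ((36100000000, ⟨1669256, 182800, 898293, 321715⟩, ⟨1669256, 898293, 182800, 321715⟩), dA9),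
  ((72200000000, ⟨1669256, 182800, 898293, 321715⟩, ⟨1156906, 311922, 849005, 291532⟩), dA10),
  ((-72200000000, ⟨1669256, 182800, 898293, 321715⟩, ⟨1156906, 849005, 311922, 291532⟩), dA11),
  ((36100000000, ⟨1156906, 849005, 311922, 291532⟩, ⟨1156906, 311922, 849005, 291532⟩), dA12),
  ((-72200000000, ⟨1156906, 849005, 311922, 291532⟩, ⟨1156906, 849005, 311922, 291532⟩), dA13),
  ((36100000000, ⟨1156906, 311922, 849005, 291532⟩, ⟨1156906, 849005, 311922, 291532⟩), dA14),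
  ((36100000000, ⟨3338512, 1796586, 365600, 643430⟩, ⟨0, 0, 0, 0⟩), dA15),
  ((-72200000000, ⟨3338512, 1081093, 1081093, 643430⟩, ⟨0, 0, 0, 0⟩), dA16),
  ((-72200000000, ⟨2826162, 1747298, 494722, 613247⟩, ⟨0, 0, 0, 0⟩), dA17),
  ((72200000000, ⟨2826162, 1210215, 1031805, 613247⟩, ⟨0, 0, 0, 0⟩), dA18),
  ((36100000000, ⟨3338512, 365600, 1796586, 643430⟩, ⟨0, 0, 0, 0⟩), dA19),
  ((72200000000, ⟨2826162, 1031805, 1210215, 613247⟩, ⟨0, 0, 0, 0⟩), dA20),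
  ((-72200000000, ⟨2826162, 494722, 1747298, 613247⟩, ⟨0, 0, 0, 0⟩), dA21),
  ((36100000000, ⟨2313812, 1698010, 623844, 583064⟩, ⟨0, 0, 0, 0⟩), dA22),
  ((-72200000000, ⟨2313812, 1160927, 1160927, 583064⟩, ⟨0, 0, 0, 0⟩), dA23),
  ((36100000000, ⟨2313812, 623844, 1698010, 583064⟩, ⟨0, 0, 0, 0⟩), dA24)]

theorem zA_fst : zA.map Prod.fst = prA := rfl

theorem zA_num : ∀ x ∈ zA, ∀ N < 51,
    |ThP x.1.2.1 x.1.2.2 N - ((x.2.getD N 0 : ℤ) : ℝ) / 10 ^ 15| ≤ 2 / 10 ^ 15 := by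
  unfold zA
  refine List.forall_mem_cons.2 ⟨fun N hN => pair_num _ _ _ _ evA0 N hN, ?_⟩
  refine List.forall_mem_cons.2 ⟨fun N hN => pair_num _ _ _ _ evA1 N hN, ?_⟩
  refine List.forall_mem_cons.2 ⟨fun N hN => pair_num _ _ _ _ evA2 N hN, ?_⟩
  refine List.forall_mem_cons.2 ⟨fun N hN => pair_num _ _ _ _ evA3 N hN, ?_⟩
  refine List.forall_mem_cons.2 ⟨fun N hN => pair_num _ _ _ _ evA4 N hN, ?_⟩
  refine List.forall_mem_cons.2 ⟨fun N hN => pair_num _ _ _ _ evA5 N hN, ?_⟩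
  refine List.forall_mem_cons.2 ⟨fun N hN => pair_num _ _ _ _ evA6 N hN, ?_⟩
  refine List.forall_mem_cons.2 ⟨fun N hN => pair_num _ _ _ _ evA7 N hN, ?_⟩
  refine List.forall_mem_cons.2 ⟨fun N hN => pair_num _ _ _ _ evA8 N hN, ?_⟩
  refine List.forall_mem_cons.2 ⟨fun N hN => pair_num _ _ _ _ evA9 N hN, ?_⟩
  refine List.forall_mem_cons.2 ⟨fun N hN => pair_num _ _ _ _ evA10 N hN, ?_⟩
  refine List.forall_mem_cons.2 ⟨fun N hN => pair_num _ _ _ _ evA11 N hN, ?_⟩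
  refine List.forall_mem_cons.2 ⟨fun N hN => pair_num _ _ _ _ evA12 N hN, ?_⟩
  refine List.forall_mem_cons.2 ⟨fun N hN => pair_num _ _ _ _ evA13 N hN, ?_⟩
  refine List.forall_mem_cons.2 ⟨fun N hN => pair_num _ _ _ _ evA14 N hN, ?_⟩
  refine List.forall_mem_cons.2 ⟨fun N hN => pair_num _ _ _ _ evA15 N hN, ?_⟩
  refine List.forall_mem_cons.2 ⟨fun N hN => pair_num _ _ _ _ evA16 N hN, ?_⟩
  refine List.forall_mem_cons.2 ⟨fun N hN => pair_num _ _ _ _ evA17 N hN, ?_⟩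
  refine List.forall_mem_cons.2 ⟨fun N hN => pair_num _ _ _ _ evA18 N hN, ?_⟩
  refine List.forall_mem_cons.2 ⟨fun N hN => pair_num _ _ _ _ evA19 N hN, ?_⟩
  refine List.forall_mem_cons.2 ⟨fun N hN => pair_num _ _ _ _ evA20 N hN, ?_⟩
  refine List.forall_mem_cons.2 ⟨fun N hN => pair_num _ _ _ _ evA21 N hN, ?_⟩
  refine List.forall_mem_cons.2 ⟨fun N hN => pair_num _ _ _ _ evA22 N hN, ?_⟩
  refine List.forall_mem_cons.2 ⟨fun N hN => pair_num _ _ _ _ evA23 N hN, ?_⟩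
  refine List.forall_mem_cons.2 ⟨fun N hN => pair_num _ _ _ _ evA24 N hN, ?_⟩
  exact List.forall_mem_nil _

/-- integer combination -/
def AZ (N : ℕ) : ℤ := (zA.map (fun x => x.1.1 * x.2.getD N 0)).sum

theorem sum_aux (N : ℕ) (L : List ((ℤ × M2 ℤ × M2 ℤ) × List ℤ))
    (h : ∀ x ∈ L, |ThP x.1.2.1 x.1.2.2 N - ((x.2.getD N 0 : ℤ) : ℝ) / 10 ^ 15| ≤ 2 / 10 ^ 15) :
    |(L.map (fun x => (x.1.1 : ℝ) / (4 * 10 ^ 12) * ThP x.1.2.1 x.1.2.2 N)).sum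
      - (((L.map (fun x => x.1.1 * x.2.getD N 0)).sum : ℤ) : ℝ) / (4 * 10 ^ 27)|
      ≤ (((L.map (fun x => |x.1.1|)).sum : ℤ) : ℝ) / (4 * 10 ^ 12) * (2 / 10 ^ 15) := by
  induction L with
  | nil => simp
  | cons x L ih =>
    have h1 := h x (List.mem_cons_self ..)
    have h2 := ih (fun y hy => h y (List.mem_cons_of_mem _ hy))
    simp only [List.map_cons, List.sum_cons, Int.cast_add, Int.cast_mul, Int.cast_abs]
    have e : (x.1.1 : ℝ) / (4 * 10 ^ 12) * ThP x.1.2.1 x.1.2.2 N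
        + (L.map (fun x => (x.1.1 : ℝ) / (4 * 10 ^ 12) * ThP x.1.2.1 x.1.2.2 N)).sum
        - ((x.1.1 : ℝ) * ((x.2.getD N 0 : ℤ) : ℝ)
          + (((L.map (fun x => x.1.1 * x.2.getD N 0)).sum : ℤ) : ℝ)) / (4 * 10 ^ 27)
        = (x.1.1 : ℝ) / (4 * 10 ^ 12) * (ThP x.1.2.1 x.1.2.2 N
            - ((x.2.getD N 0 : ℤ) : ℝ) / 10 ^ 15)
          + ((L.map (fun x => (x.1.1 : ℝ) / (4 * 10 ^ 12) * ThP x.1.2.1 x.1.2.2 N)).sum
            - (((L.map (fun x => x.1.1 * x.2.getD N 0)).sum : ℤ) : ℝ) / (4 * 10 ^ 27)) := by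
      ring
    rw [e]
    refine (abs_add_le _ _).trans ?_
    have h3 : |(x.1.1 : ℝ) / (4 * 10 ^ 12) * (ThP x.1.2.1 x.1.2.2 N
            - ((x.2.getD N 0 : ℤ) : ℝ) / 10 ^ 15)| ≤ |(x.1.1 : ℝ)| / (4 * 10 ^ 12) * (2 / 10 ^ 15) := by
      rw [abs_mul, abs_div, abs_of_pos (show (0 : ℝ) < 4 * 10 ^ 12 by norm_num)]
      exact mul_le_mul_of_nonneg_left h1 (by positivity)
    have h4 : (|(x.1.1 : ℝ)| + (((L.map (fun x => |x.1.1|)).sum : ℤ) : ℝ)) / (4 * 10 ^ 12)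
        * (2 / 10 ^ 15) = |(x.1.1 : ℝ)| / (4 * 10 ^ 12) * (2 / 10 ^ 15)
          + (((L.map (fun x => |x.1.1|)).sum : ℤ) : ℝ) / (4 * 10 ^ 12) * (2 / 10 ^ 15) := by
      ring
    rw [h4]
    exact add_le_add h3 h2

theorem zA_abs : (zA.map (fun x => |x.1.1|)).sum ≤ 9000000000000 := by
  decide +kernel

theorem ThA_num (N : ℕ) (hN : N < 51) :
    |ThA N - (AZ N : ℝ) / (4 * 10 ^ 27)| ≤ 5 / 10 ^ 15 := by
  have h := sum_aux N zA (fun x hx => zA_num x hx N hN)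
  have h1 : ThA N = (zA.map (fun x => (x.1.1 : ℝ) / (4 * 10 ^ 12) * ThP x.1.2.1 x.1.2.2 N)).sum := by
    unfold ThA
    rw [← zA_fst, List.map_map]
    rfl
  rw [h1]
  refine h.trans ?_
  have h2 : (((zA.map (fun x => |x.1.1|)).sum : ℤ) : ℝ) ≤ 9000000000000 := by
    exact_mod_cast zA_abs
  calc (((zA.map (fun x => |x.1.1|)).sum : ℤ) : ℝ) / (4 * 10 ^ 12) * (2 / 10 ^ 15)
      ≤ 9000000000000 / (4 * 10 ^ 12) * (2 / 10 ^ 15) := by gcongr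
    _ ≤ 5 / 10 ^ 15 := by norm_num

end GUB.Num
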