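import Pool.Agent.Lib.MP_721eb4_an.UB.NC
import Pool.Agent.Lib.MP_721eb4_an.UB.NR
import Pool.Agent.Lib.MP_721eb4_an.UB.EvT
import Pool.Agent.Lib.MP_721eb4_an.UB.EvN
import Pool.Agent.Lib.MP_721eb4_an.UB.SumA

/-! Upper bound for the complex Grothendieck constant: the numbers of the schemes T and N,
final numerical inequality -/

set_option autoImplicit false
set_option maxRecDepth 100000

namespace GUB.Num
open GUB

theorem kT_eq : lp (([19, -1] : List ℤ).map (fun x : ℤ => (x : ℝ) / (20 : ℤ))) = kT := by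
  simp only [lp, kT, List.map_cons, List.map_nil, List.foldr_cons, List.foldr_nil, mul_zero,
    add_zero]
  have h : ((-1 : ℤ) : ℝ) / ((20 : ℤ) : ℝ) = -(1 / 20) := by norm_num
  have h2 : ((19 : ℤ) : ℝ) / ((20 : ℤ) : ℝ) = 19 / 20 := by norm_num
  rw [h, h2, Polynomial.C_neg]
  ring

theorem kN_eq : lp (([496929, -200460, 149372, -153239] : List ℤ).map
    (fun x : ℤ => (x : ℝ) / (1000000 : ℤ))) = kN := by
  simp only [lp, kN, List.map_cons, List.map_nil, List.foldr_cons, List.foldr_nil, mul_zero,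
    add_zero]
  have h1 : ((496929 : ℤ) : ℝ) / ((1000000 : ℤ) : ℝ) = 496929 / 1000000 := by norm_num
  have h2 : ((-200460 : ℤ) : ℝ) / ((1000000 : ℤ) : ℝ) = -(200460 / 1000000) := by norm_num
  have h3 : ((149372 : ℤ) : ℝ) / ((1000000 : ℤ) : ℝ) = 149372 / 1000000 := by norm_num
  have h4 : ((-153239 : ℤ) : ℝ) / ((1000000 : ℤ) : ℝ) = -(153239 / 1000000) := by norm_num
  rw [h1, h2, h3, h4, Polynomial.C_neg, Polynomial.C_neg]
  ring

theorem ball_num (n : ℕ) (F : ℕ → ℝ) (b : Ball) (d : List ℤ)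
    (h : (fun b : Ball => (b.ok, Nat.ble b.e (2 ^ 260), dig b)) b = (true, true, d))
    (hs : b.ok = true → b.l.length = n + 1 ∧ Rel F b.l b.e) (N : ℕ) (hN : N < n + 1) :
    |F N - ((d.getD N 0 : ℤ) : ℝ) / 10 ^ 15| ≤ 2 / 10 ^ 15 := by
  simp only [Prod.mk.injEq] at h
  obtain ⟨h1, h2, h3⟩ := h
  obtain ⟨hl, hr⟩ := hs h1
  have h4 := dig_spec _ _ hr (Nat.le_of_ble_eq_true h2) N (by rw [hl]; exact hN)
  rw [h3] at h4
  exact h4

theorem ball_num2 (n : ℕ) (f g : ℕ → ℝ) (t : Ball) (u : Ball → Ball) (d : List ℤ)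
    (h : (fun t : Ball => (fun b : Ball => (t.ok, b.ok, Nat.ble b.e (2 ^ 260), dig b)) (u t)) t
      = (true, true, true, d))
    (ht : t.ok = true → t.l.length = n + 1 ∧ Rel f t.l t.e)
    (hs : t.l.length = n + 1 → Rel f t.l t.e → (u t).ok = true →
      (u t).l.length = n + 1 ∧ Rel g (u t).l (u t).e) (N : ℕ) (hN : N < n + 1) :
    |g N - ((d.getD N 0 : ℤ) : ℝ) / 10 ^ 15| ≤ 2 / 10 ^ 15 := by
  simp only [Prod.mk.injEq] at h
  obtain ⟨h0, h1, h2, h3⟩ := h
  obtain ⟨hl, hr⟩ := ht h0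
  obtain ⟨hl2, hr2⟩ := hs hl hr h1
  have h4 := dig_spec _ _ hr2 (Nat.le_of_ble_eq_true h2) N (by rw [hl2]; exact hN)
  rw [h3] at h4
  exact h4

theorem T_num (N : ℕ) (hN : N < 111) :
    |compC (That kapT eT) kT N - ((dT.getD N 0 : ℤ) : ℝ) / 10 ^ 15| ≤ 2 / 10 ^ 15 :=
  ball_num2 110 (That kapT eT) (compC (That kapT eT) kT) (thatBall 110)
    uT dT evT (thatBall_spec 110)
    (fun hl hr h => by
      have h5 := compBall_spec 110 (thatBall 110).l (thatBall 110).e [19, -1] 20 (by norm_num)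
        (That kapT eT) hl hr h
      rw [kT_eq] at h5
      exact h5) N hN

theorem hcs_rel (n : ℕ) : (hcs (n + 1) 0 1 []).reverse.length = n + 1 ∧
    Rel hc (hcs (n + 1) 0 1 []).reverse 1 := by
  obtain ⟨hl, hr⟩ := hcs_spec n
  have hl' : (hcs (n + 1) 0 1 []).reverse.length = n + 1 := by rw [List.length_reverse]; exact hl
  refine ⟨hl', ?_⟩
  intro i hi
  have hi' : i < n + 1 := by rw [hl'] at hi; exact hi
  have h5 := hr (n - i) (by omega)
  have h6 : (hcs (n + 1) 0 1 []).getD (n - i) 0 = (hcs (n + 1) 0 1 []).reverse.getD i 0 := by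
    rw [List.getD_eq_getElem?_getD, List.getD_eq_getElem?_getD, List.getElem?_reverse (by
      rw [hl]; exact hi')]
    rw [hl]
    congr 2
  rw [h6, show n - (n - i) = i by omega] at h5
  simpa using h5

theorem N_num (N : ℕ) (hN : N < 111) :
    |compC hc kN N - ((dN.getD N 0 : ℤ) : ℝ) / 10 ^ 15| ≤ 2 / 10 ^ 15 :=
  ball_num 110 (compC hc kN)
    (compBall 110 (hcs 111 0 1 []).reverse 1 [496929, -200460, 149372, -153239] 1000000) dN evN
    (fun h => by
      have h5 := compBall_spec 110 (hcs 111 0 1 []).reverse 1 [496929, -200460, 149372, -153239]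
        1000000 (by norm_num) hc (hcs_rel 110).1 (hcs_rel 110).2 h
      rw [kN_eq] at h5
      exact h5) N hN

/-- the integer combination, scale `4·10^33` -/
def CZ (N : ℕ) : ℤ :=
  (if N < 51 then 968687 * AZ N else 0) + 30996 * 4 * 10 ^ 12 * dT.getD N 0
    + 317 * 4 * 10 ^ 12 * dN.getD N 0

theorem CZ_sum : (9065049 * 4 * 10 ^ 26 : ℤ) ≤
    CZ 0 - ((List.range 110).map (fun N => |CZ (N + 1)|)).sum := by
  decide +kernel

end GUB.Num
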