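import Pool.Agent.Lib.MP_721eb4_an.UB.Defs

/-! Upper bound for the complex Grothendieck constant: auxiliary lemmas for TailT and TailN -/

set_option autoImplicit false

open MeasureTheory Complex Set GLB Metric
open scoped ComplexConjugate

namespace GUB

theorem TailAux_re_le (K : ℂ → ℂ) (hK : Differentiable ℂ K) {R c : ℝ} (hR : 0 < R)
    (h : ∀ s : ℂ, ‖s‖ = R → |(K s).re| ≤ c) (s : ℂ) (hs : ‖s‖ ≤ R) : |(K s).re| ≤ c := by
  have key : ∀ L : ℂ → ℂ, Differentiable ℂ L → (∀ s : ℂ, ‖s‖ = R → (L s).re ≤ c) →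
      (L s).re ≤ c := by
    intro L hL h1
    have h2 : ‖exp (L s)‖ ≤ Real.exp c := by
      apply Complex.norm_le_of_forall_mem_frontier_norm_le (U := ball (0 : ℂ) R) isBounded_ball
        (f := fun z => exp (L z))
      · exact (Complex.differentiable_exp.comp hL).diffContOnCl
      · intro z hz
        rw [frontier_ball (0 : ℂ) hR.ne'] at hz
        rw [Complex.norm_exp]
        apply Real.exp_le_exp.2
        exact h1 z (by simpa using hz)
      · rw [closure_ball (0 : ℂ) hR.ne']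
        simpa using hs
    rw [Complex.norm_exp] at h2
    exact Real.exp_le_exp.1 h2
  rw [abs_le]
  constructor
  · have := key (fun z => -K z) hK.neg (fun z hz => by
      have := (abs_le.1 (h z hz)).1
      simp only [Complex.neg_re]; linarith)
    simp only [Complex.neg_re] at this
    linarith
  · exact key K hK (fun z hz => (abs_le.1 (h z hz)).2)

theorem TailAux_NN_le (ρ : ℂ) (M : ℝ) (hM : 0 ≤ M) (h1 : |ρ.re| < 1)
    (h2 : (1 + (ρ.re ^ 2 + ρ.im ^ 2)) ^ 2 - 4 * ρ.re ^ 2 ≤ (M * (1 - ρ.re ^ 2)) ^ 2) :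
    NN ρ ≤ M := by
  have h3 : 0 < 1 - ρ.re ^ 2 := by
    have := abs_lt.1 h1
    nlinarith
  unfold NN
  rw [div_le_iff₀ h3]
  apply le_of_sq_le_sq _ (by positivity)
  have h4 : ‖1 - ρ ^ 2‖ ^ 2 = (1 + (ρ.re ^ 2 + ρ.im ^ 2)) ^ 2 - 4 * ρ.re ^ 2 := by
    rw [← Complex.normSq_eq_norm_sq, Complex.normSq_apply]
    simp only [pow_two, Complex.sub_re, Complex.sub_im, Complex.one_re, Complex.one_im,
      Complex.mul_re, Complex.mul_im]
    ring
  rw [h4]
  exact h2

theorem TailAux_sphere {s : ℂ} {R : ℝ} (hs : ‖s‖ = R) : s.im ^ 2 = R ^ 2 - s.re ^ 2 := by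
  have h := Complex.normSq_eq_norm_sq s
  rw [Complex.normSq_apply, hs] at h
  linarith

end GUB
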