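import Pool.Agent.Lib.MP_721eb4_an.UB.SumT
import Pool.Agent.Lib.MP_721eb4_an.UB.AsmA
import Pool.Agent.Lib.MP_721eb4_an.UB.AsmT
import Pool.Agent.Lib.MP_721eb4_an.UB.AsmN
import Pool.Agent.Lib.MP_721eb4_an.UB.AdmFinal
import Pool.Agent.Lib.MP_721eb4_an.UB.Ci

/-! Upper bound for the complex Grothendieck constant: conclusion -/

set_option autoImplicit false

open MeasureTheory Complex Set GLB
open scoped ComplexConjugate

namespace GUB

open GUB.Num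

attribute [local irreducible] CZ AZ ThA

/-- the coefficients of the mixture in units of `π/4` -/
noncomputable def cc (m : ℕ) : ℝ :=
  968687 / 10 ^ 6 * ThA m + 30996 / 10 ^ 6 * compC (That kapT eT) kT m
    + 317 / 10 ^ 6 * compC hc kN m

/-- the function of the mixture -/
noncomputable def PhiTot (s : ℂ) : ℂ :=
  (((968687 / 10 ^ 6 : ℝ) : ℂ) * PhiA s + ((30996 / 10 ^ 6 : ℝ) : ℂ) * corT s)
    + ((317 / 10 ^ 6 : ℝ) : ℂ) * corN s

theorem PhiTot_adm : Adm PhiTot 1 (8 / 10 ^ 7) := by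
  have h1 := PhiA_adm.smul (968687 / 10 ^ 6) (by norm_num)
  have h2 := corT_adm.smul (30996 / 10 ^ 6) (by norm_num)
  have h3 := corN_adm.smul (317 / 10 ^ 6) (by norm_num)
  refine ((h1.add h2).add h3).mono ?_ ?_ <;> norm_num

theorem PhiTot_series (s : ℂ) (hs : ‖s‖ < 1) :
    HasSum (fun m => (((Real.pi / 4) * cc m : ℝ) : ℂ) * (s * (((‖s‖ ^ 2) ^ m : ℝ) : ℂ)))
      (PhiTot s) := by
  have h1 := (PhiA_series s hs).mul_left ((968687 / 10 ^ 6 : ℝ) : ℂ)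
  have h2 := (corT_series s hs).mul_left ((30996 / 10 ^ 6 : ℝ) : ℂ)
  have h3 := (corN_series s hs).mul_left ((317 / 10 ^ 6 : ℝ) : ℂ)
  refine ((h1.add h2).add h3).congr_fun ?_
  intro m
  simp only [cc]
  push_cast
  ring

/-- tail bound -/
theorem cc_tail (N : ℕ) : |(Real.pi / 4) * cc N| ≤
    968687 / 10 ^ 6 * (22 / 10 * (7 / 5 : ℝ)⁻¹ ^ N)
      + 30996 / 10 ^ 6 * (9162 * (11 / 10 : ℝ)⁻¹ ^ (2 * N + 1))
      + 317 / 10 ^ 6 * (28 * (11 / 10 : ℝ)⁻¹ ^ (2 * N + 1)) := by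
  have h1 := ThA_tail N
  have h2 := corT_tail N
  have h3 := corN_tail N
  have e : (Real.pi / 4) * cc N = 968687 / 10 ^ 6 * ((Real.pi / 4) * ThA N)
      + 30996 / 10 ^ 6 * ((Real.pi / 4) * compC (That kapT eT) kT N)
      + 317 / 10 ^ 6 * ((Real.pi / 4) * compC hc kN N) := by
    unfold cc; ring
  rw [e]
  refine (abs_add_le _ _).trans (add_le_add ((abs_add_le _ _).trans (add_le_add ?_ ?_)) ?_)
  · rw [abs_mul, abs_of_pos (show (0 : ℝ) < 968687 / 10 ^ 6 by norm_num)]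
    exact mul_le_mul_of_nonneg_left h1 (by norm_num)
  · rw [abs_mul, abs_of_pos (show (0 : ℝ) < 30996 / 10 ^ 6 by norm_num)]
    exact mul_le_mul_of_nonneg_left h2 (by norm_num)
  · rw [abs_mul, abs_of_pos (show (0 : ℝ) < 317 / 10 ^ 6 by norm_num)]
    exact mul_le_mul_of_nonneg_left h3 (by norm_num)

/-- the two geometric parts of the tail bound -/
theorem cc_tail' (N : ℕ) : |(Real.pi / 4) * cc N| ≤
    214 / 100 * (5 / 7 : ℝ) ^ N + 270 * (100 / 121 : ℝ) ^ N := by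
  refine (cc_tail N).trans ?_
  have e1 : ((7 / 5 : ℝ)⁻¹) ^ N = (5 / 7 : ℝ) ^ N := by norm_num
  have e2 : ((11 / 10 : ℝ)⁻¹) ^ (2 * N + 1) = 10 / 11 * (100 / 121 : ℝ) ^ N := by
    rw [pow_succ, pow_mul]
    norm_num
    ring
  rw [e1, e2]
  have p1 : (0 : ℝ) ≤ (5 / 7 : ℝ) ^ N := by positivity
  have p2 : (0 : ℝ) ≤ (100 / 121 : ℝ) ^ N := by positivity
  nlinarith

/-- the head -/
theorem cc_head (N : ℕ) (hN : N < 51) :
    |cc N - (CZ N : ℝ) / (4 * 10 ^ 33)| ≤ 5 / 10 ^ 15 := by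
  have h1 := ThA_num N hN
  have h2 := T_num N (by omega)
  have h3 := N_num N (by omega)
  have e : cc N - (CZ N : ℝ) / (4 * 10 ^ 33)
      = 968687 / 10 ^ 6 * (ThA N - (AZ N : ℝ) / (4 * 10 ^ 27))
        + 30996 / 10 ^ 6 * (compC (That kapT eT) kT N - ((dT.getD N 0 : ℤ) : ℝ) / 10 ^ 15)
        + 317 / 10 ^ 6 * (compC hc kN N - ((dN.getD N 0 : ℤ) : ℝ) / 10 ^ 15) := by
    unfold cc CZ
    rw [if_pos hN]
    push_cast
    ring
  rw [e]
  refine (abs_add_le _ _).trans ((add_le_add ((abs_add_le _ _).trans (add_le_add ?_ ?_)) ?_).trans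
    (b := 968687 / 10 ^ 6 * (5 / 10 ^ 15) + 30996 / 10 ^ 6 * (2 / 10 ^ 15)
      + 317 / 10 ^ 6 * (2 / 10 ^ 15)) ?_)
  · rw [abs_mul, abs_of_pos (show (0 : ℝ) < 968687 / 10 ^ 6 by norm_num)]
    exact mul_le_mul_of_nonneg_left h1 (by norm_num)
  · rw [abs_mul, abs_of_pos (show (0 : ℝ) < 30996 / 10 ^ 6 by norm_num)]
    exact mul_le_mul_of_nonneg_left h2 (by norm_num)
  · rw [abs_mul, abs_of_pos (show (0 : ℝ) < 317 / 10 ^ 6 by norm_num)]
    exact mul_le_mul_of_nonneg_left h3 (by norm_num)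
  · norm_num

/-- the middle part -/
theorem cc_mid (N : ℕ) (hN : 51 ≤ N) (hN2 : N < 111) :
    |(Real.pi / 4) * cc N| ≤ (Real.pi / 4) * (|(CZ N : ℝ)| / (4 * 10 ^ 33) + 1 / 10 ^ 15)
      + 214 / 100 * (5 / 7 : ℝ) ^ N := by
  have h1 := ThA_tail N
  have h2 := T_num N hN2
  have h3 := N_num N hN2
  have hpi : (0 : ℝ) ≤ Real.pi / 4 := by positivity
  have e : (Real.pi / 4) * cc N = 968687 / 10 ^ 6 * ((Real.pi / 4) * ThA N)
      + (Real.pi / 4) * ((CZ N : ℝ) / (4 * 10 ^ 33)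
        + (30996 / 10 ^ 6 * (compC (That kapT eT) kT N - ((dT.getD N 0 : ℤ) : ℝ) / 10 ^ 15)
        + 317 / 10 ^ 6 * (compC hc kN N - ((dN.getD N 0 : ℤ) : ℝ) / 10 ^ 15))) := by
    unfold cc CZ
    rw [if_neg (by omega)]
    push_cast
    ring
  rw [e, add_comm ((Real.pi / 4) * (|(CZ N : ℝ)| / (4 * 10 ^ 33) + 1 / 10 ^ 15))]
  refine (abs_add_le _ _).trans (add_le_add ?_ ?_)
  · rw [abs_mul, abs_of_pos (show (0 : ℝ) < 968687 / 10 ^ 6 by norm_num)]
    refine (mul_le_mul_of_nonneg_left h1 (by norm_num)).trans ?_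
    have e1 : ((7 / 5 : ℝ)⁻¹) ^ N = (5 / 7 : ℝ) ^ N := by norm_num
    rw [e1]
    have p1 : (0 : ℝ) ≤ (5 / 7 : ℝ) ^ N := by positivity
    nlinarith
  · rw [abs_mul, abs_of_nonneg hpi]
    refine mul_le_mul_of_nonneg_left ?_ hpi
    refine (abs_add_le _ _).trans (add_le_add ?_ ?_)
    · rw [abs_div, abs_of_pos (show (0 : ℝ) < 4 * 10 ^ 33 by norm_num)]
    · refine (abs_add_le _ _).trans ((add_le_add (b := 30996 / 10 ^ 6 * (2 / 10 ^ 15))
        (d := 317 / 10 ^ 6 * (2 / 10 ^ 15)) ?_ ?_).trans ?_)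
      · rw [abs_mul, abs_of_pos (show (0 : ℝ) < 30996 / 10 ^ 6 by norm_num)]
        exact mul_le_mul_of_nonneg_left h2 (by norm_num)
      · rw [abs_mul, abs_of_pos (show (0 : ℝ) < 317 / 10 ^ 6 by norm_num)]
        exact mul_le_mul_of_nonneg_left h3 (by norm_num)
      · norm_num

theorem cc_summable : Summable (fun m => |(Real.pi / 4) * cc m|) := by
  refine Summable.of_nonneg_of_le (fun _ => abs_nonneg _) cc_tail' ?_
  exact ((summable_geometric_of_lt_one (by norm_num) (by norm_num)).mul_left _).add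
    ((summable_geometric_of_lt_one (by norm_num) (by norm_num)).mul_left _)

theorem tail_sum : ∑' m, |(Real.pi / 4) * cc (m + 111)| ≤
    214 / 100 * (5 / 7 : ℝ) ^ 111 * (7 / 2) + 270 * (100 / 121 : ℝ) ^ 111 * (121 / 21) := by
  have hs := (summable_nat_add_iff 111).2 cc_summable
  have hb : HasSum (fun m : ℕ => 214 / 100 * (5 / 7 : ℝ) ^ (m + 111)
      + 270 * (100 / 121 : ℝ) ^ (m + 111))
      (214 / 100 * (5 / 7 : ℝ) ^ 111 * (7 / 2) + 270 * (100 / 121 : ℝ) ^ 111 * (121 / 21)) := by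
    have h1 : HasSum (fun m : ℕ => 214 / 100 * (5 / 7 : ℝ) ^ (m + 111))
        (214 / 100 * (5 / 7 : ℝ) ^ 111 * (7 / 2)) := by
      have := (hasSum_geometric_of_lt_one (r := (5 / 7 : ℝ)) (by norm_num)
        (by norm_num)).mul_left (214 / 100 * (5 / 7 : ℝ) ^ 111)
      rw [show (1 - 5 / 7 : ℝ)⁻¹ = 7 / 2 by norm_num] at this
      exact this.congr_fun (fun m => by rw [pow_add]; ring)
    have h2 : HasSum (fun m : ℕ => 270 * (100 / 121 : ℝ) ^ (m + 111))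
        (270 * (100 / 121 : ℝ) ^ 111 * (121 / 21)) := by
      have := (hasSum_geometric_of_lt_one (r := (100 / 121 : ℝ)) (by norm_num)
        (by norm_num)).mul_left (270 * (100 / 121 : ℝ) ^ 111)
      rw [show (1 - 100 / 121 : ℝ)⁻¹ = 121 / 21 by norm_num] at this
      exact this.congr_fun (fun m => by rw [pow_add]; ring)
    exact h1.add h2
  rw [← hb.tsum_eq]
  exact hs.tsum_le_tsum (fun m => cc_tail' (m + 111)) hb.summable

theorem geom_mid : ∑ m ∈ Finset.range 60, (5 / 7 : ℝ) ^ (m + 51) ≤ (5 / 7 : ℝ) ^ 51 * (7 / 2) := by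
  have h := (hasSum_geometric_of_lt_one (r := (5 / 7 : ℝ)) (by norm_num)
        (by norm_num)).mul_left ((5 / 7 : ℝ) ^ 51)
  have h2 : ∑ m ∈ Finset.range 60, (5 / 7 : ℝ) ^ (m + 51)
      = ∑ m ∈ Finset.range 60, (5 / 7 : ℝ) ^ 51 * (5 / 7 : ℝ) ^ m :=
    Finset.sum_congr rfl (fun m _ => by rw [pow_add]; ring)
  rw [h2]
  refine (sum_le_hasSum _ (fun m _ => by positivity) h).trans ?_
  norm_num

/-- the main numerical inequality -/
theorem main_num : (Real.pi / 4) * (906495 / 10 ^ 6) ≤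
    (Real.pi / 4) * cc 0 - ∑' m, |(Real.pi / 4) * cc (m + 1)| - 8 / 10 ^ 7 := by
  have hpi : (0 : ℝ) ≤ Real.pi / 4 := by positivity
  have hsplit : ∑' m, |(Real.pi / 4) * cc (m + 1)| =
      ∑ m ∈ Finset.range 110, |(Real.pi / 4) * cc (m + 1)|
        + ∑' m, |(Real.pi / 4) * cc (m + 111)| := by
    have hs := (summable_nat_add_iff 1).2 cc_summable
    have := hs.sum_add_tsum_nat_add 110
    rw [← this]
  have hsplit2 : ∑ m ∈ Finset.range 110, |(Real.pi / 4) * cc (m + 1)| =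
      ∑ m ∈ Finset.range 50, |(Real.pi / 4) * cc (m + 1)|
        + ∑ m ∈ Finset.range 60, |(Real.pi / 4) * cc (m + 51)| := by
    rw [show 110 = 50 + 60 from rfl, Finset.sum_range_add]
    exact congrArg₂ _ rfl (Finset.sum_congr rfl (fun m _ => by
      rw [show 50 + m + 1 = m + 51 by ring]))
  have h1 : ∑ m ∈ Finset.range 50, |(Real.pi / 4) * cc (m + 1)| ≤
      ∑ m ∈ Finset.range 50, (Real.pi / 4) * (|(CZ (m + 1) : ℝ)| / (4 * 10 ^ 33) + 5 / 10 ^ 15) := by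
    refine Finset.sum_le_sum (fun m hm => ?_)
    rw [abs_mul, abs_of_nonneg hpi]
    refine mul_le_mul_of_nonneg_left ?_ hpi
    have := cc_head (m + 1) (by have := Finset.mem_range.1 hm; omega)
    have h5 : |cc (m + 1)| ≤ |(CZ (m + 1) : ℝ) / (4 * 10 ^ 33)|
        + |cc (m + 1) - (CZ (m + 1) : ℝ) / (4 * 10 ^ 33)| := by
      have := abs_add_le ((CZ (m + 1) : ℝ) / (4 * 10 ^ 33))
        (cc (m + 1) - (CZ (m + 1) : ℝ) / (4 * 10 ^ 33))
      rwa [add_sub_cancel] at this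
    rw [abs_div, abs_of_pos (show (0 : ℝ) < 4 * 10 ^ 33 by norm_num)] at h5
    linarith
  have h2 : ∑ m ∈ Finset.range 60, |(Real.pi / 4) * cc (m + 51)| ≤
      ∑ m ∈ Finset.range 60, ((Real.pi / 4) * (|(CZ (m + 51) : ℝ)| / (4 * 10 ^ 33) + 5 / 10 ^ 15)
        + 214 / 100 * (5 / 7 : ℝ) ^ (m + 51)) := by
    refine Finset.sum_le_sum (fun m hm => ?_)
    refine (cc_mid (m + 51) (by omega) (by have := Finset.mem_range.1 hm; omega)).trans ?_
    have : (Real.pi / 4) * (|(CZ (m + 51) : ℝ)| / (4 * 10 ^ 33) + 1 / 10 ^ 15) ≤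
        (Real.pi / 4) * (|(CZ (m + 51) : ℝ)| / (4 * 10 ^ 33) + 5 / 10 ^ 15) :=
      mul_le_mul_of_nonneg_left (by norm_num) hpi
    linarith
  have h3 := tail_sum
  have h4 := geom_mid
  have hz : ∑ m ∈ Finset.range 50, (Real.pi / 4) * (|(CZ (m + 1) : ℝ)| / (4 * 10 ^ 33) + 5 / 10 ^ 15)
      + ∑ m ∈ Finset.range 60, (Real.pi / 4) * (|(CZ (m + 51) : ℝ)| / (4 * 10 ^ 33) + 5 / 10 ^ 15)
      = (Real.pi / 4) * ((∑ m ∈ Finset.range 110, |(CZ (m + 1) : ℝ)|) / (4 * 10 ^ 33)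
        + 550 / 10 ^ 15) := by
    have : ∑ m ∈ Finset.range 110, (Real.pi / 4) * (|(CZ (m + 1) : ℝ)| / (4 * 10 ^ 33) + 5 / 10 ^ 15)
      = ∑ m ∈ Finset.range 50, (Real.pi / 4) * (|(CZ (m + 1) : ℝ)| / (4 * 10 ^ 33) + 5 / 10 ^ 15)
      + ∑ m ∈ Finset.range 60, (Real.pi / 4) * (|(CZ (m + 51) : ℝ)| / (4 * 10 ^ 33) + 5 / 10 ^ 15) := by
      rw [show 110 = 50 + 60 from rfl, Finset.sum_range_add]
      exact congrArg₂ _ rfl (Finset.sum_congr rfl (fun m _ => by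
        rw [show 50 + m + 1 = m + 51 by ring]))
    rw [← this, ← Finset.mul_sum, Finset.sum_add_distrib, ← Finset.sum_div]
    simp
    norm_num
  have hCZ : (9065049 * 4 * 10 ^ 26 : ℝ) ≤
      (CZ 0 : ℝ) - ∑ m ∈ Finset.range 110, |(CZ (m + 1) : ℝ)| := by
    have h := CZ_sum
    have e : ((List.range 110).map (fun N => |CZ (N + 1)|)).sum
        = ∑ m ∈ Finset.range 110, |CZ (m + 1)| := by
      rfl
    rw [e] at h
    exact_mod_cast h
  have h0 := cc_head 0 (by norm_num)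
  have h0' : (CZ 0 : ℝ) / (4 * 10 ^ 33) - 5 / 10 ^ 15 ≤ cc 0 := by
    have := (abs_le.1 h0).1
    linarith
  have h0'' : (Real.pi / 4) * ((CZ 0 : ℝ) / (4 * 10 ^ 33) - 5 / 10 ^ 15) ≤ (Real.pi / 4) * cc 0 :=
    mul_le_mul_of_nonneg_left h0' hpi
  have hX : (9065049 / 10 ^ 7 : ℝ) ≤ ((CZ 0 : ℝ)
      - ∑ m ∈ Finset.range 110, |(CZ (m + 1) : ℝ)|) / (4 * 10 ^ 33) := by
    rw [le_div_iff₀ (by norm_num)]
    refine le_trans (by norm_num) hCZ
  have hX' := mul_le_mul_of_nonneg_left hX hpi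
  have n1 : 214 / 100 * ((5 / 7 : ℝ) ^ 51 * (7 / 2)) ≤ 3 / 10 ^ 7 := by norm_num
  have n2 : 214 / 100 * (5 / 7 : ℝ) ^ 111 * (7 / 2) + 270 * (100 / 121 : ℝ) ^ 111 * (121 / 21)
      ≤ 11 / 10 ^ 7 := by norm_num
  have hpi3 : (3 : ℝ) / 4 ≤ Real.pi / 4 := by have := Real.pi_gt_three; linarith
  rw [hsplit, hsplit2]
  rw [Finset.sum_add_distrib, ← Finset.mul_sum (f := fun m : ℕ => (5 / 7 : ℝ) ^ (m + 51))] at h2
  have h6 : (Real.pi / 4) * ((CZ 0 : ℝ) / (4 * 10 ^ 33)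
      - (∑ m ∈ Finset.range 110, |(CZ (m + 1) : ℝ)|) / (4 * 10 ^ 33))
      = (Real.pi / 4) * (((CZ 0 : ℝ)
      - ∑ m ∈ Finset.range 110, |(CZ (m + 1) : ℝ)|) / (4 * 10 ^ 33)) := by
    rw [sub_div]
  nlinarith

theorem exists_K : ∃ K ∈ KSet, K < (∫ θ in (0:ℝ)..(Real.pi / 2),
    Real.cos θ ^ 2 / Real.sqrt (1 + Real.sin θ ^ 2))⁻¹ ∧ 0 < K := by
  have hpi : (0 : ℝ) < Real.pi / 4 := by positivity
  have hK := Adm.final PhiTot (8 / 10 ^ 7) ((Real.pi / 4) * (906495 / 10 ^ 6))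
    (fun m => (Real.pi / 4) * cc m) PhiTot_adm cc_summable
    (fun s hs => ((PhiTot_series s hs).tsum_eq).symm) (by positivity) main_num (by norm_num)
  refine ⟨_, hK, ?_, by positivity⟩
  have hci := ci_le
  have hpos : 0 < ∫ θ in (0:ℝ)..(Real.pi / 2), Real.cos θ ^ 2 / Real.sqrt (1 + Real.sin θ ^ 2) := by
    refine intervalIntegral.intervalIntegral_pos_of_pos_on ?_ ?_ (by positivity)
    · refine Continuous.intervalIntegrable ?_ _ _
      refine Continuous.div (by fun_prop) (by fun_prop) (fun x => ?_)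
      have : 0 < 1 + Real.sin x ^ 2 := by positivity
      exact (Real.sqrt_pos.2 this).ne'
    · intro x hx
      have h1 : 0 < Real.cos x := Real.cos_pos_of_mem_Ioo ⟨by linarith [hx.1, Real.pi_pos], hx.2⟩
      have : 0 < 1 + Real.sin x ^ 2 := by positivity
      have := Real.sqrt_pos.2 this
      positivity
  rw [one_div]
  refine inv_strictAnti₀ hpos (lt_of_le_of_lt hci ?_)
  refine mul_lt_mul_of_pos_left (by norm_num) hpi

theorem KSet_nonneg (K : ℝ) (hK : K ∈ KSet) : 0 ≤ K := by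
  have h := hK 0 0 0 (by intro s t _ _; simp) (fun i => i.elim0) (fun i => i.elim0)
    (fun i => i.elim0) (fun i => i.elim0)
  simpa using h

theorem main : ¬ (sInf KSet = (∫ θ in (0:ℝ)..(Real.pi / 2),
        Real.cos θ ^ 2 / Real.sqrt (1 + Real.sin θ ^ 2))⁻¹) := by
  obtain ⟨K, hK, hlt, _⟩ := exists_K
  have hb : BddBelow KSet := ⟨0, fun x hx => KSet_nonneg x hx⟩
  have := csInf_le hb hK
  intro h
  rw [h] at this
  exact absurd hlt (not_lt.2 this)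

end GUB
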